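import Mathlib

set_option autoImplicit false

namespace Pool.Agent.Birk

/-- Abstract data satisfied by the monoid of isomorphism classes of finite connected posets. -/
structure BirkData (Γ : Type 1) [CancelCommMonoid Γ] where
  len : Γ → ℕ
  len_mul : ∀ a b, len (a * b) = len a + len b
  len_zero : ∀ a, len a = 0 → a = 1
  /-- irreducible elements are prime -/
  prime : ∀ v : Γ, (∀ a b, v = a * b → a = 1 ∨ b = 1) → ∀ a b, v ∣ a * b → v ∣ a ∨ v ∣ b
  card : Γ → ℕ
  card_pos : ∀ D, 0 < card D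
  /-- `M D P` is the main component of `P^D` -/
  M : Γ → Γ → Γ
  M_map_mul : ∀ D P Q, M D (P * Q) = M D P * M D Q
  M_mul : ∀ D E P, M (D * E) P = M D (M E P)
  M_inj : ∀ D P Q, M D P = M D Q → P = Q
  M_irr : ∀ D v, (∀ a b, v = a * b → a = 1 ∨ b = 1) → (∀ a b, M D v = a * b → a = 1 ∨ b = 1)
  len_M : ∀ D P, len (M D P) = card D * len P
  h : Γ → Γ → ℕ
  h_pos : ∀ X D, 0 < h X D
  h_inj : ∀ D E, (∀ X, h X D = h X E) → D = E
  w : Γ → Γ → ℕ
  w_pos : ∀ X P, P ≠ 1 → 0 < w X P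
  w_M : ∀ X D P, w X (M D P) = h X D * w X P
  /-- `F D G` are the components of `G^D` -/
  F : Γ → Γ → Multiset Γ
  F_spec : ∀ D G, G ≠ 1 → ∃ R : Multiset Γ, F D G = M D G ::ₘ R ∧ ∀ K ∈ R, len K < len (M D G)
  F_one : ∀ D, F D 1 = {1}

/-- The element of the monoid algebra belonging to a multiset. -/
noncomputable def alg {Γ : Type 1} [CancelCommMonoid Γ] (s : Multiset Γ) : MonoidAlgebra ℤ Γ :=
  (s.map fun x => MonoidAlgebra.single x (1 : ℤ)).sum

end Pool.Agent.Birk
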