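import Mathlib

/-!
Basic definitions for MP_aad2bd_co (base cancellation for powers of finite posets).
-/

set_option autoImplicit false

namespace Pool.Agent.Birk

/-- Nonempty, and any two points are joined by a zigzag of comparabilities. -/
structure PConn (α : Type) [PartialOrder α] : Prop where
  ne : Nonempty α
  zig : ∀ a b : α, Relation.EqvGen (fun x y : α => x ≤ y) a b

/-- A map which is constant along comparabilities is constant. -/
theorem PConn.eq_of_le_eq {α β : Type} [PartialOrder α] (h : PConn α) (g : α → β)
    (hg : ∀ x y, x ≤ y → g x = g y) (a b : α) : g a = g b := by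
  have := h.zig a b
  induction this with
  | rel x y hxy => exact hg x y hxy
  | refl x => rfl
  | symm x y _ ih => exact ih.symm
  | trans x y z _ _ ih1 ih2 => exact ih1.trans ih2

theorem PConn.induct {α : Type} [PartialOrder α] (h : PConn α) (p : α → Prop)
    (hp : ∀ x y, x ≤ y → (p x ↔ p y)) {a : α} (ha : p a) (b : α) : p b := by
  have := h.eq_of_le_eq p (fun x y hxy => propext (hp x y hxy)) a b
  exact this ▸ ha

theorem PConn.dual {α : Type} [PartialOrder α] (h : PConn α) : PConn αᵒᵈ := by
  refine ⟨h.ne, fun a b => ?_⟩
  have := h.zig (OrderDual.ofDual a) (OrderDual.ofDual b)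
  have key : ∀ x y : α, Relation.EqvGen (fun x y : α => x ≤ y) x y →
      Relation.EqvGen (fun x y : αᵒᵈ => x ≤ y) (OrderDual.toDual x) (OrderDual.toDual y) := by
    intro x y hxy
    induction hxy with
    | rel x y hxy => exact (Relation.EqvGen.rel _ _ (OrderDual.toDual_le_toDual.2 hxy)).symm
    | refl x => exact Relation.EqvGen.refl _
    | symm x y _ ih => exact ih.symm
    | trans x y z _ _ ih1 ih2 => exact ih1.trans _ _ _ ih2
  exact key _ _ this

instance finite_orderHom {C A : Type} [PartialOrder C] [PartialOrder A] [Finite C] [Finite A] :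
    Finite (C →o A) := DFunLike.finite _

/-- Product-irreducible: every product decomposition is trivial. -/
def PIrr (α : Type) [PartialOrder α] : Prop :=
  ∀ (Y Z : Type) [PartialOrder Y] [PartialOrder Z], Nonempty (α ≃o Y × Z) →
    Subsingleton Y ∨ Subsingleton Z

/-- `M` is, via `ev`, a piece of the power `A^C` containing all constants and
closed under comparability. -/
structure Pow (C A M : Type) [PartialOrder C] [PartialOrder A] [PartialOrder M] where
  ev : M → C → A
  mono : ∀ f, Monotone (ev f)
  le_iff : ∀ f g, f ≤ g ↔ ∀ c, ev f c ≤ ev g c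
  up : ∀ (f : M) (h : C → A), Monotone h → (∀ c, ev f c ≤ h c) → ∃ g, ev g = h
  dn : ∀ (f : M) (h : C → A), Monotone h → (∀ c, h c ≤ ev f c) → ∃ g, ev g = h
  const : ∀ a : A, ∃ f, ev f = fun _ => a

/-- Elements with exactly one lower cover. -/
abbrev JI (α : Type) [PartialOrder α] : Type := {x : α // ∃! y, y ⋖ x}

/-- Chains of length `n` from `a` to `b`. -/
inductive Ch {α : Type} [LT α] : ℕ → α → α → Prop
  | refl (a : α) : Ch 0 a a
  | step {n : ℕ} {a b c : α} : a < b → Ch n b c → Ch (n + 1) a c

/-- Length of the interval from `a` to `b` (maximal length of a chain). -/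
noncomputable def ilen {α : Type} [LT α] (a b : α) : ℕ := sSup {n | Ch n a b}

/-- Length of a poset (maximal length of a chain). -/
noncomputable def plen (α : Type) [LT α] : ℕ := sSup {n | ∃ a b : α, Ch n a b}

/-- The connected component of the constants in `A^C`. -/
abbrev MainC (C A : Type) [PartialOrder C] [PartialOrder A] : Type :=
  {f : C →o A // ∃ a, Relation.EqvGen (fun x y : C →o A => x ≤ y) f (OrderHom.const C a)}

/-- The functional `w_X(P)`: the maximum of `hom(X, J[a,b])` over the longest intervals. -/
noncomputable def wfun (X P : Type) [PartialOrder X] [PartialOrder P] : ℕ :=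
  sSup {n | ∃ a b : P, a ≤ b ∧ ilen a b = plen P ∧ n = Nat.card (X →o JI (Set.Icc a b))}

end Pool.Agent.Birk
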