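import Pool.Agent.Lib_MP_aad2bd_co.Basic

/-!
Core1: steps, weak transpositions, join squares, 3-chains, the direction relation `D`.
-/

set_option autoImplicit false

namespace Pool.Agent.Birk

/-- weak transposition of covers -/
structure WT {α : Type} [PartialOrder α] (a1 a1' a a' : α) : Prop where
  c1 : a1 ⋖ a1'
  c2 : a ⋖ a'
  le1 : a1 ≤ a
  le2 : a1' ≤ a'
  nle : ¬ a1' ≤ a

theorem WT.dual {α : Type} [PartialOrder α] {a1 a1' a a' : α} (h : WT a1 a1' a a') :
    WT (OrderDual.toDual a') (OrderDual.toDual a) (OrderDual.toDual a1') (OrderDual.toDual a1) :=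
  ⟨toDual_covBy_toDual_iff.2 h.c2, toDual_covBy_toDual_iff.2 h.c1,
    OrderDual.toDual_le_toDual.2 h.le2, OrderDual.toDual_le_toDual.2 h.le1,
    fun h' => h.nle (OrderDual.toDual_le_toDual.1 h')⟩

theorem WT.refl {α : Type} [PartialOrder α] {a a' : α} (h : a ⋖ a') : WT a a' a a' :=
  ⟨h, h, le_rfl, le_rfl, fun h' => absurd h.lt (not_lt_of_ge h')⟩

namespace Pow

variable {C A B M : Type} [PartialOrder C] [PartialOrder A] [PartialOrder B] [PartialOrder M]

theorem inj (S : Pow C A M) {f g : M} (h : ∀ c, S.ev f c = S.ev g c) : f = g :=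
  le_antisymm ((S.le_iff f g).2 fun c => (h c).le) ((S.le_iff g f).2 fun c => (h c).ge)

/-- the constant with value `a` -/
noncomputable def cst (S : Pow C A M) (a : A) : M := (S.const a).choose

theorem ev_cst (S : Pow C A M) (a : A) (c : C) : S.ev (S.cst a) c = a :=
  congrFun (S.const a).choose_spec c

theorem cst_le_cst (S : Pow C A M) [Nonempty C] {a a' : A} : S.cst a ≤ S.cst a' ↔ a ≤ a' := by
  rw [S.le_iff]
  constructor
  · intro h
    have := h (Classical.arbitrary C)
    rwa [S.ev_cst, S.ev_cst] at this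
  · intro h c
    rwa [S.ev_cst, S.ev_cst]

theorem cst_le_iff (S : Pow C A M) {a : A} {f : M} : S.cst a ≤ f ↔ ∀ c, a ≤ S.ev f c := by
  rw [S.le_iff]
  simp only [S.ev_cst]

theorem le_cst_iff (S : Pow C A M) {a : A} {f : M} : f ≤ S.cst a ↔ ∀ c, S.ev f c ≤ a := by
  rw [S.le_iff]
  simp only [S.ev_cst]

theorem cst_inj (S : Pow C A M) [Nonempty C] {a a' : A} : S.cst a = S.cst a' ↔ a = a' := by
  constructor
  · intro h
    exact le_antisymm (S.cst_le_cst.1 h.le) (S.cst_le_cst.1 h.ge)
  · rintro rfl; rfl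

/-- the dual structure -/
def dual (S : Pow C A M) : Pow Cᵒᵈ Aᵒᵈ Mᵒᵈ where
  ev f c := OrderDual.toDual (S.ev (OrderDual.ofDual f) (OrderDual.ofDual c))
  mono f x y h := OrderDual.toDual_le_toDual.2 (S.mono _ (OrderDual.ofDual_le_ofDual.2 h))
  le_iff f g := by
    rw [← OrderDual.ofDual_le_ofDual, S.le_iff]
    constructor
    · intro h c; exact OrderDual.toDual_le_toDual.2 (h _)
    · intro h c
      exact OrderDual.toDual_le_toDual.1 (h (OrderDual.toDual c))
  up f h hm hle := by
    obtain ⟨g, hg⟩ := S.dn (OrderDual.ofDual f)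
      (fun c => OrderDual.ofDual (h (OrderDual.toDual c)))
      (fun x y hxy => OrderDual.ofDual_le_ofDual.2 (hm (OrderDual.toDual_le_toDual.2 hxy)))
      (fun c => OrderDual.toDual_le_toDual.1 (hle (OrderDual.toDual c)))
    refine ⟨OrderDual.toDual g, ?_⟩
    funext c
    have := congrFun hg (OrderDual.ofDual c)
    show OrderDual.toDual (S.ev g (OrderDual.ofDual c)) = h c
    rw [this]; rfl
  dn f h hm hle := by
    obtain ⟨g, hg⟩ := S.up (OrderDual.ofDual f)
      (fun c => OrderDual.ofDual (h (OrderDual.toDual c)))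
      (fun x y hxy => OrderDual.ofDual_le_ofDual.2 (hm (OrderDual.toDual_le_toDual.2 hxy)))
      (fun c => OrderDual.toDual_le_toDual.1 (hle (OrderDual.toDual c)))
    refine ⟨OrderDual.toDual g, ?_⟩
    funext c
    have := congrFun hg (OrderDual.ofDual c)
    show OrderDual.toDual (S.ev g (OrderDual.ofDual c)) = h c
    rw [this]; rfl
  const a := by
    obtain ⟨g, hg⟩ := S.const (OrderDual.ofDual a)
    refine ⟨OrderDual.toDual g, ?_⟩
    funext c
    show OrderDual.toDual (S.ev g (OrderDual.ofDual c)) = a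
    rw [hg]; rfl

@[simp] theorem dual_ev (S : Pow C A M) (f : M) (c : C) :
    S.dual.ev (OrderDual.toDual f) (OrderDual.toDual c) = OrderDual.toDual (S.ev f c) := rfl

theorem dual_cst (S : Pow C A M) (a : A) :
    S.dual.cst (OrderDual.toDual a) = OrderDual.toDual (S.cst a) := by
  apply S.dual.inj
  intro c
  rw [S.dual.ev_cst]
  show OrderDual.toDual a = OrderDual.toDual (S.ev (S.cst a) (OrderDual.ofDual c))
  rw [S.ev_cst]

/-- `f → g` raises the coordinate `c` by a cover -/
structure Step (S : Pow C A M) (f g : M) (c : C) : Prop where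
  cov : S.ev f c ⋖ S.ev g c
  eq : ∀ x, x ≠ c → S.ev f x = S.ev g x

theorem Step.dual {S : Pow C A M} {f g : M} {c : C} (h : S.Step f g c) :
    S.dual.Step (OrderDual.toDual g) (OrderDual.toDual f) (OrderDual.toDual c) :=
  ⟨toDual_covBy_toDual_iff.2 h.cov, fun x hx =>
    congrArg OrderDual.toDual (h.eq (OrderDual.ofDual x) (fun e => hx (by rw [← e]; rfl))).symm⟩

theorem Step.of_dual {S : Pow C A M} {f g : M} {c : C}
    (h : S.dual.Step (OrderDual.toDual g) (OrderDual.toDual f) (OrderDual.toDual c)) :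
    S.Step f g c :=
  ⟨toDual_covBy_toDual_iff.1 h.cov, fun x hx =>
    (OrderDual.toDual_inj.1 (h.eq (OrderDual.toDual x) (fun e => hx (OrderDual.toDual_inj.1 e)))).symm⟩

theorem Step.le {S : Pow C A M} {f g : M} {c : C} (h : S.Step f g c) : f ≤ g := by
  rw [S.le_iff]
  intro x
  by_cases hx : x = c
  · subst hx; exact h.cov.le
  · exact (h.eq x hx).le

theorem Step.covBy {S : Pow C A M} {f g : M} {c : C} (h : S.Step f g c) : f ⋖ g := by
  refine ⟨lt_of_le_of_ne h.le ?_, ?_⟩
  · rintro rfl; exact absurd h.cov.lt (lt_irrefl _)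
  · intro k hfk hkg
    have h1 := (S.le_iff f k).1 hfk.le
    have h2 := (S.le_iff k g).1 hkg.le
    have hx : ∀ x, x ≠ c → S.ev k x = S.ev f x := fun x hx =>
      le_antisymm ((h2 x).trans (h.eq x hx).ge) (h1 x)
    rcases h.cov.eq_or_eq (h1 c) (h2 c) with h3 | h3
    · apply hfk.ne'
      apply S.inj
      intro x
      by_cases hxc : x = c
      · subst hxc; exact h3
      · exact hx x hxc
    · apply hkg.ne
      apply S.inj
      intro x
      by_cases hxc : x = c
      · subst hxc; exact h3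
      · rw [hx x hxc]; exact h.eq x hxc

theorem Step.unique {S : Pow C A M} {f g : M} {c c' : C} (h : S.Step f g c) (h' : S.Step f g c') :
    c = c' := by
  by_contra hne
  exact h.cov.ne (h'.eq c hne)

/-- raise one coordinate -/
theorem exists_raise (S : Pow C A M) (f : M) (c : C) (a : A) (h1 : S.ev f c ≤ a)
    (h2 : ∀ x, c < x → a ≤ S.ev f x) :
    ∃ g, f ≤ g ∧ S.ev g c = a ∧ ∀ x, x ≠ c → S.ev g x = S.ev f x := by
  classical
  obtain ⟨g, hg⟩ := S.up f (fun x => if x = c then a else S.ev f x)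
    (by
      intro x y hxy
      by_cases hx : x = c
      · by_cases hy : y = c
        · simp [hx, hy]
        · simp only [hx, hy, if_true, if_false]
          exact h2 y (lt_of_le_of_ne (hx ▸ hxy) (Ne.symm hy))
      · by_cases hy : y = c
        · simp only [hx, hy, if_true, if_false]
          exact (S.mono f (hy ▸ hxy)).trans h1
        · simp only [hx, hy, if_false]
          exact S.mono f hxy)
    (by
      intro x
      by_cases hx : x = c
      · simp [hx, h1]
      · simp [hx])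
  refine ⟨g, ?_, ?_, ?_⟩
  · rw [S.le_iff, hg]
    intro x
    by_cases hx : x = c
    · simp [hx, h1]
    · simp [hx]
  · rw [hg]; simp
  · intro x hx; rw [hg]; simp [hx]

/-- lower one coordinate -/
theorem exists_lower (S : Pow C A M) (f : M) (c : C) (a : A) (h1 : a ≤ S.ev f c)
    (h2 : ∀ x, x < c → S.ev f x ≤ a) :
    ∃ g, g ≤ f ∧ S.ev g c = a ∧ ∀ x, x ≠ c → S.ev g x = S.ev f x := by
  obtain ⟨g, hg1, hg2, hg3⟩ := S.dual.exists_raise (OrderDual.toDual f) (OrderDual.toDual c)
    (OrderDual.toDual a) (OrderDual.toDual_le_toDual.2 h1)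
    (fun x hx => OrderDual.toDual_le_toDual.2 (h2 (OrderDual.ofDual x) hx))
  refine ⟨OrderDual.ofDual g, hg1, hg2, fun x hx => ?_⟩
  exact hg3 (OrderDual.toDual x) (fun e => hx (OrderDual.toDual_inj.1 e))

theorem exists_step_of_covBy [Finite C] (S : Pow C A M) {f g : M} (h : f ⋖ g) :
    ∃ c, S.Step f g c := by
  have hle := (S.le_iff f g).1 h.le
  obtain ⟨c, hc⟩ := (Set.toFinite {c | S.ev f c ≠ S.ev g c}).exists_maximal (by
    by_contra hne
    rw [Set.not_nonempty_iff_eq_empty] at hne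
    apply h.ne
    apply S.inj
    intro c
    by_contra hc
    have : c ∈ {c | S.ev f c ≠ S.ev g c} := hc
    rw [hne] at this
    exact this)
  have hc1 : S.ev f c ≠ S.ev g c := hc.1
  have hc2 : ∀ x, c < x → S.ev f x = S.ev g x := by
    intro x hx
    by_contra hne
    have := hc.2 (y := x) hne hx.le
    exact absurd hx (not_lt_of_ge this)
  have key : ∀ a, S.ev f c < a → a ≤ S.ev g c → a = S.ev g c ∧ ∀ x, x ≠ c → S.ev f x = S.ev g x := by
    intro a ha1 ha2
    obtain ⟨k, hk1, hk2, hk3⟩ := S.exists_raise f c a ha1.le (fun x hx => by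
      rw [hc2 x hx]; exact ha2.trans (S.mono g hx.le))
    have hfk : f < k := lt_of_le_of_ne hk1 (by
      rintro rfl; rw [hk2] at ha1; exact lt_irrefl _ ha1)
    have hkg : k ≤ g := by
      rw [S.le_iff]
      intro x
      by_cases hx : x = c
      · subst hx; rw [hk2]; exact ha2
      · rw [hk3 x hx]; exact hle x
    rcases hkg.eq_or_lt with h3 | h3
    · subst h3
      exact ⟨hk2.symm, fun x hx => (hk3 x hx).symm⟩
    · exact absurd h3 (h.2 hfk)
  have hlt : S.ev f c < S.ev g c := lt_of_le_of_ne (hle c) hc1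
  refine ⟨c, ⟨⟨hlt, fun a h1 h2 => ?_⟩, (key _ hlt le_rfl).2⟩⟩
  exact h2.ne (key a h1 h2.le).1

theorem step_of_covBy_ne [Finite C] (S : Pow C A M) {f g : M} (h : f ⋖ g) {c : C}
    (hc : S.ev f c ≠ S.ev g c) : S.Step f g c := by
  obtain ⟨c', hc'⟩ := S.exists_step_of_covBy h
  by_cases e : c = c'
  · subst e; exact hc'
  · exact absurd (hc'.eq c e) hc

theorem wt_step {S : Pow C A M} {f1 g1 f g : M} (h : WT f1 g1 f g) {c1 c : C}
    (h1 : S.Step f1 g1 c1) (h2 : S.Step f g c) :
    c1 = c ∧ WT (S.ev f1 c) (S.ev g1 c) (S.ev f c) (S.ev g c) := by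
  have hne := h.nle
  rw [S.le_iff] at hne
  push Not at hne
  obtain ⟨e, he⟩ := hne
  have hle1 := (S.le_iff f1 f).1 h.le1
  have hle2 := (S.le_iff g1 g).1 h.le2
  have e1 : e = c := by
    by_contra hc
    apply he
    rw [h2.eq e hc]
    exact hle2 e
  have e2 : e = c1 := by
    by_contra hc
    apply he
    rw [← h1.eq e hc]
    exact hle1 e
  subst e1
  subst e2
  exact ⟨rfl, ⟨h1.cov, h2.cov, hle1 _, hle2 _, he⟩⟩

theorem wt_step_up [Finite C] {S : Pow C A M} {f1 g1 f g : M} (h : WT f1 g1 f g) {c : C}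
    (h1 : S.Step f1 g1 c) : S.Step f g c := by
  obtain ⟨c', hc'⟩ := S.exists_step_of_covBy h.c2
  obtain ⟨e, _⟩ := wt_step h h1 hc'
  rw [e]; exact hc'

theorem wt_step_down [Finite C] {S : Pow C A M} {f1 g1 f g : M} (h : WT f1 g1 f g) {c : C}
    (h1 : S.Step f g c) : S.Step f1 g1 c := by
  obtain ⟨c', hc'⟩ := S.exists_step_of_covBy h.c1
  obtain ⟨e, _⟩ := wt_step h hc' h1
  rw [← e]; exact hc'

/-- a piecewise element between `f` and `g` -/
theorem exists_slot (S : Pow C A M) {f g : M} (hfg : f ≤ g) (y : C) (b : A)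
    (h1 : S.ev f y ≤ b) (h2 : b ≤ S.ev g y) :
    ∃ h, f ≤ h ∧ h ≤ g ∧ S.ev h y = b ∧ (∀ z, y < z → S.ev h z = S.ev g z) ∧
      (∀ z, ¬ y ≤ z → S.ev h z = S.ev f z) := by
  classical
  have hle := (S.le_iff f g).1 hfg
  obtain ⟨k, hk⟩ := S.up f (fun z => if z = y then b else if y < z then S.ev g z else S.ev f z)
    (by
      intro u v huv
      by_cases hu : u = y
      · by_cases hv : v = y
        · simp [hu, hv]
        · have : y < v := lt_of_le_of_ne (hu ▸ huv) (Ne.symm hv)
          simp only [hu, hv, this, if_true, if_false]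
          exact h2.trans (S.mono g this.le)
      · by_cases hu2 : y < u
        · have hv2 : y < v := hu2.trans_le huv
          have hv : v ≠ y := hv2.ne'
          simp only [hu, hv, hu2, hv2, if_true, if_false]
          exact S.mono g huv
        · by_cases hv : v = y
          · simp only [hu, hv, hu2, if_true, if_false]
            exact (S.mono f (hv ▸ huv)).trans h1
          · by_cases hv2 : y < v
            · simp only [hu, hv, hu2, hv2, if_true, if_false]
              exact (S.mono f huv).trans (hle v)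
            · simp only [hu, hv, hu2, hv2, if_false]
              exact S.mono f huv)
    (by
      intro z
      by_cases hz : z = y
      · simp [hz, h1]
      · by_cases hz2 : y < z
        · simp only [hz, hz2, if_true, if_false]; exact hle z
        · simp [hz, hz2])
  refine ⟨k, ?_, ?_, ?_, ?_, ?_⟩
  · rw [S.le_iff, hk]
    intro z
    by_cases hz : z = y
    · simp [hz, h1]
    · by_cases hz2 : y < z
      · simp only [hz, hz2, if_true, if_false]; exact hle z
      · simp [hz, hz2]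
  · rw [S.le_iff, hk]
    intro z
    by_cases hz : z = y
    · simp [hz, h2]
    · by_cases hz2 : y < z
      · simp [hz, hz2]
      · simp only [hz, hz2, if_false]; exact hle z
  · rw [hk]; simp
  · intro z hz; rw [hk]; simp [hz, hz.ne']
  · intro z hz; rw [hk]
    have h3 : z ≠ y := by rintro rfl; exact hz le_rfl
    have h4 : ¬ y < z := fun h => hz h.le
    simp [h3, h4]

/-- an edge between `f` and `g` at coordinate `y` with a prescribed label -/
theorem exists_slot_step (S : Pow C A M) {f g : M} (hfg : f ≤ g) (y : C) {b b' : A}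
    (h1 : S.ev f y ≤ b) (h2 : b' ≤ S.ev g y) (hb : b ⋖ b') :
    ∃ h h', f ≤ h ∧ h' ≤ g ∧ S.Step h h' y ∧ S.ev h y = b ∧ S.ev h' y = b' ∧
      (∀ z, y < z → S.ev h z = S.ev g z) ∧ (∀ z, ¬ y ≤ z → S.ev h z = S.ev f z) := by
  obtain ⟨h, ha, hb1, hc, hd, he⟩ := S.exists_slot hfg y b h1 (hb.le.trans h2)
  obtain ⟨h', ha', hb', hc', hd', he'⟩ := S.exists_slot hfg y b' (h1.trans hb.le) h2
  refine ⟨h, h', ha, hb', ⟨?_, ?_⟩, hc, hc', hd, he⟩
  · rw [hc, hc']; exact hb
  · intro x hx
    by_cases hyx : y ≤ x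
    · have : y < x := lt_of_le_of_ne hyx (Ne.symm hx)
      rw [hd x this, hd' x this]
    · rw [he x hyx, he' x hyx]

/-- a coordinate not touched by any edge of an interval is constant on it -/
theorem ev_eq_of_no_step [Finite M] [Finite C] (S : Pow C A M) {f g : M} (hfg : f ≤ g) (y : C)
    (h : ∀ h1 h2, f ≤ h1 → h2 ≤ g → ¬ S.Step h1 h2 y) : S.ev f y = S.ev g y := by
  by_contra hne
  have hlt : S.ev f y < S.ev g y := lt_of_le_of_ne ((S.le_iff f g).1 hfg y) hne
  have key : ∀ k : M, f ≤ k → k ≤ g → S.ev k y = S.ev g y := by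
    intro k
    have hwf : WellFounded (fun a b : M => b < a) := wellFounded_gt
    induction k using hwf.induction with
    | _ k ih =>
      intro hk1 hk2
      rcases hk2.eq_or_lt with e | hlt2
      · rw [e]
      · obtain ⟨k', hk'1, hk'2⟩ := exists_covBy_le_of_lt hlt2
        have h3 := ih k' hk'1.lt (hk1.trans hk'1.le) hk'2
        obtain ⟨c, hc⟩ := S.exists_step_of_covBy hk'1
        by_cases hcy : y = c
        · subst hcy
          exact absurd hc (h _ _ hk1 hk'2)
        · rw [hc.eq y hcy]; exact h3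
  exact hne (key f le_rfl hfg)

/-- join square -/
theorem join_square (S : Pow C A M) {f g h : M} {c c' : C} (hg : S.Step f g c)
    (hh : S.Step f h c') (hne : c ≠ c') :
    ∃ k, S.Step g k c' ∧ S.Step h k c ∧ WT f g h k ∧ WT f h g k := by
  classical
  obtain ⟨k, hk⟩ := S.up f (fun x => if x = c' then S.ev h x else S.ev g x)
    (by
      intro u v huv
      by_cases hu : u = c'
      · by_cases hv : v = c'
        · simp [hu, hv]
        · simp only [hu, hv, if_true, if_false]
          calc S.ev h c' ≤ S.ev h v := S.mono h (hu ▸ huv)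
            _ = S.ev f v := (hh.eq v hv).symm
            _ ≤ S.ev g v := (S.le_iff f g).1 hg.le v
      · by_cases hv : v = c'
        · simp only [hu, hv, if_true, if_false]
          calc S.ev g u ≤ S.ev g c' := S.mono g (hv ▸ huv)
            _ = S.ev f c' := (hg.eq c' (Ne.symm hne)).symm
            _ ≤ S.ev h c' := (S.le_iff f h).1 hh.le c'
        · simp only [hu, hv, if_false]
          exact S.mono g huv)
    (by
      intro x
      by_cases hx : x = c'
      · simp only [hx, if_true]; exact (S.le_iff f h).1 hh.le c'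
      · simp only [hx, if_false]; exact (S.le_iff f g).1 hg.le x)
  have hkc : S.ev k c = S.ev g c := by rw [hk]; simp [hne]
  have hkc' : S.ev k c' = S.ev h c' := by rw [hk]; simp
  have hkx : ∀ x, x ≠ c' → S.ev k x = S.ev g x := by
    intro x hx; rw [hk]; simp [hx]
  have s1 : S.Step g k c' := ⟨by rw [hkc', ← hg.eq c' (Ne.symm hne)]; exact hh.cov,
    fun x hx => (hkx x hx).symm⟩
  have s2 : S.Step h k c := ⟨by rw [hkc, ← hh.eq c hne]; exact hg.cov, fun x hx => by
    by_cases hx' : x = c'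
    · rw [hx', hkc']
    · rw [hkx x hx', ← hh.eq x hx', hg.eq x hx]⟩
  have hgh : ¬ g ≤ h := by
    intro hle
    have := (S.le_iff g h).1 hle c
    rw [← hh.eq c hne] at this
    exact absurd hg.cov.lt (not_lt_of_ge this)
  have hhg : ¬ h ≤ g := by
    intro hle
    have := (S.le_iff h g).1 hle c'
    rw [← hg.eq c' (Ne.symm hne)] at this
    exact absurd hh.cov.lt (not_lt_of_ge this)
  exact ⟨k, s1, s2, ⟨hg.covBy, s2.covBy, hh.le, s1.le, hgh⟩, ⟨hh.covBy, s1.covBy, hg.le, s2.le, hhg⟩⟩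

/-- labels of a 3-chain -/
theorem chain3 (S : Pow C A M) {f g k : M} {c c' : C} (h1 : S.Step f g c)
    (h2 : S.Step g k c') (h3 : ∀ h, f < h → h < k → h = g) :
    (c' < c ∧ WT (S.ev g c') (S.ev k c') (S.ev f c) (S.ev g c)) ∨
    (c' = c ∧ ∀ z, S.ev f c < z → z < S.ev k c → z = S.ev g c) := by
  by_cases hcc : c' = c
  · subst hcc
    refine Or.inr ⟨rfl, fun z hz1 hz2 => ?_⟩
    obtain ⟨h, ha, hb, hc, hd, he⟩ := S.exists_slot (h1.le.trans h2.le) c' z hz1.le hz2.le
    have hfh : f < h := lt_of_le_of_ne ha (by rintro rfl; rw [hc] at hz1; exact lt_irrefl _ hz1)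
    have hhk : h < k := lt_of_le_of_ne hb (by rintro rfl; rw [hc] at hz2; exact lt_irrefl _ hz2)
    rw [← h3 h hfh hhk, hc]
  · left
    have hfg : S.ev f c' = S.ev g c' := h1.eq c' hcc
    have hgk : S.ev g c = S.ev k c := h2.eq c (Ne.symm hcc)
    -- `f[c' := k c']` cannot be monotone
    have key : ¬ ∀ x, c' < x → S.ev k c' ≤ S.ev f x := by
      intro hm
      obtain ⟨h, ha, hb, hc⟩ := S.exists_raise f c' (S.ev k c') (by rw [hfg]; exact h2.cov.le) hm
      have hne1 : S.ev h c ≠ S.ev g c := by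
        rw [hc c (Ne.symm hcc)]; exact h1.cov.ne
      have hfh : f < h := lt_of_le_of_ne ha (by
        rintro rfl; rw [hfg] at hb; exact h2.cov.ne hb)
      have hhk : h < k := by
        refine lt_of_le_of_ne ?_ ?_
        · rw [S.le_iff]
          intro x
          by_cases hx : x = c'
          · rw [hx, hb]
          · rw [hc x hx]
            exact (S.le_iff f k).1 (h1.le.trans h2.le) x
        · rintro rfl; exact hne1 hgk.symm
      exact hne1 (by rw [h3 h hfh hhk])
    push Not at key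
    obtain ⟨x, hx1, hx2⟩ := key
    have hxc : x = c := by
      by_contra hxc
      apply hx2
      rw [h1.eq x hxc, h2.eq x hx1.ne']
      exact S.mono k hx1.le
    subst hxc
    refine ⟨hx1, h2.cov, h1.cov, ?_, ?_, hx2⟩
    · rw [← hfg]; exact S.mono f hx1.le
    · rw [hgk]; exact S.mono k hx1.le

/-- the lowest edge with a given label above a constant -/
theorem exists_low_edge (S : Pow C A M) {f g : M} {c : C} (h : S.Step f g c) {a0 : A}
    (h0 : ∀ x, a0 ≤ S.ev f x) :
    ∃ f2 g2, S.Step f2 g2 c ∧ WT f2 g2 f g ∧ S.ev f2 c = S.ev f c ∧ S.ev g2 c = S.ev g c ∧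
      (∀ z, c < z → S.ev f2 z = S.ev g c) ∧ (∀ z, ¬ c ≤ z → S.ev f2 z = a0) := by
  classical
  have h1 : S.cst a0 ≤ g := by
    rw [S.cst_le_iff]; intro x; exact (h0 x).trans ((S.le_iff f g).1 h.le x)
  have hgx : ∀ x, c < x → S.ev g c ≤ S.ev f x := by
    intro x hx
    rw [h.eq x hx.ne']; exact S.mono g hx.le
  obtain ⟨g1, hg1⟩ := S.dn g (fun x => if c ≤ x then S.ev g c else a0)
    (by
      intro u v huv
      by_cases hu : c ≤ u
      · simp [hu, hu.trans huv]
      · by_cases hv : c ≤ v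
        · simp only [hu, hv, if_true, if_false]
          exact (h0 c).trans h.cov.le
        · simp [hu, hv])
    (by
      intro x
      by_cases hx : c ≤ x
      · simp only [hx, if_true]; exact S.mono g hx
      · simp only [hx, if_false]; exact (S.cst_le_iff.1 h1) x)
  have h2 : S.cst a0 ≤ g1 := by
    rw [S.cst_le_iff, hg1]
    intro x
    by_cases hx : c ≤ x
    · simp only [hx, if_true]; exact (h0 c).trans h.cov.le
    · simp [hx]
  obtain ⟨f2, g2, e1, e2, e3, e4, e5, e6, e7⟩ := S.exists_slot_step h2 c (b := S.ev f c)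
    (b' := S.ev g c) (by rw [S.ev_cst]; exact h0 c) (by rw [hg1]; simp) h.cov
  have k1 : ∀ z, c < z → S.ev f2 z = S.ev g c := by
    intro z hz; rw [e6 z hz, hg1]; simp [hz.le]
  have k2 : ∀ z, ¬ c ≤ z → S.ev f2 z = a0 := by
    intro z hz; rw [e7 z hz, S.ev_cst]
  refine ⟨f2, g2, e3, ⟨e3.covBy, h.covBy, ?_, ?_, ?_⟩, e4, e5, k1, k2⟩
  · rw [S.le_iff]
    intro x
    by_cases hx : c ≤ x
    · rcases hx.eq_or_lt with e | hlt
      · rw [← e, e4]
      · rw [k1 x hlt]; exact hgx x hlt
    · rw [k2 x hx]; exact h0 x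
  · rw [S.le_iff]
    intro x
    by_cases hx : c ≤ x
    · rcases hx.eq_or_lt with e | hlt
      · rw [← e, e5]
      · rw [← e3.eq x hlt.ne', k1 x hlt]; exact S.mono g hx
    · have hxc : x ≠ c := by rintro rfl; exact hx le_rfl
      rw [← e3.eq x hxc, k2 x hx]; exact (S.cst_le_iff.1 h1) x
  · intro hle
    have := (S.le_iff g2 f).1 hle c
    rw [e5] at this
    exact absurd h.cov.lt (not_lt_of_ge this)

/-- two edges with the same label and coordinate above a common constant have the same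
direction in the other structure -/
theorem tp [Finite C] (SA : Pow C A M) (SB : Pow C B M) {f g f1 g1 : M} {c d : C} {a0 : A}
    (h : SA.Step f g c) (h' : SA.Step f1 g1 c) (e1 : SA.ev f c = SA.ev f1 c)
    (e2 : SA.ev g c = SA.ev g1 c) (h0 : ∀ x, a0 ≤ SA.ev f x) (h1 : ∀ x, a0 ≤ SA.ev f1 x)
    (hB : SB.Step f g d) : SB.Step f1 g1 d := by
  obtain ⟨p, q, s1, w1, b1, b2, b3, b4⟩ := SA.exists_low_edge h h0
  obtain ⟨p', q', s1', w1', b1', b2', b3', b4'⟩ := SA.exists_low_edge h' h1
  have hp : p = p' := by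
    apply SA.inj
    intro x
    by_cases hx : c ≤ x
    · rcases hx.eq_or_lt with e | hlt
      · rw [← e, b1, b1', e1]
      · rw [b3 x hlt, b3' x hlt, e2]
    · rw [b4 x hx, b4' x hx]
  have hq : q = q' := by
    apply SA.inj
    intro x
    by_cases hx : x = c
    · rw [hx, b2, b2', e2]
    · rw [← s1.eq x hx, ← s1'.eq x hx, hp]
  subst hp
  subst hq
  exact wt_step_up w1' (wt_step_down w1 hB)

/-- the direction relation: `D a a' c d` iff the edge with label `a → a'` at the `A`-coordinate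
`c` between the constants `a` and `a'` has `B`-direction `d`. -/
def D (SA : Pow C A M) (SB : Pow C B M) (a a' : A) (c d : C) : Prop :=
  ∃ f g : M, SA.Step f g c ∧ SB.Step f g d ∧ SA.ev f c = a ∧ SA.ev g c = a' ∧
    (∀ x, a ≤ SA.ev f x) ∧ (∀ x, SA.ev g x ≤ a')

theorem D.cov {SA : Pow C A M} {SB : Pow C B M} {a a' : A} {c d : C} (h : D SA SB a a' c d) :
    a ⋖ a' := by
  obtain ⟨f, g, h1, _, h3, h4, _⟩ := h
  rw [← h3, ← h4]; exact h1.cov

theorem exists_D_edge [Finite C] (SA : Pow C A M) (SB : Pow C B M) {a a' : A} (h : a ⋖ a')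
    (c : C) : ∃ f g : M, ∃ d, SA.Step f g c ∧ SB.Step f g d ∧ SA.ev f c = a ∧ SA.ev g c = a' ∧
      SA.cst a ≤ f ∧ g ≤ SA.cst a' ∧ (∀ z, c < z → SA.ev f z = a') ∧
      (∀ z, ¬ c ≤ z → SA.ev f z = a) := by
  have hle : SA.cst a ≤ SA.cst a' := by
    rw [SA.le_iff]; intro x; rw [SA.ev_cst, SA.ev_cst]; exact h.le
  obtain ⟨f, g, e1, e2, e3, e4, e5, e6, e7⟩ := SA.exists_slot_step hle c (b := a)
    (b' := a') (by rw [SA.ev_cst]) (by rw [SA.ev_cst]) h
  obtain ⟨d, hd⟩ := SB.exists_step_of_covBy e3.covBy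
  refine ⟨f, g, d, e3, hd, e4, e5, e1, e2, fun z hz => ?_, fun z hz => ?_⟩
  · rw [e6 z hz, SA.ev_cst]
  · rw [e7 z hz, SA.ev_cst]

theorem exists_D [Finite C] (SA : Pow C A M) (SB : Pow C B M) {a a' : A} (h : a ⋖ a')
    (c : C) : ∃ d, D SA SB a a' c d := by
  obtain ⟨f, g, d, h1, h2, h3, h4, h5, h6, _, _⟩ := exists_D_edge SA SB h c
  exact ⟨d, f, g, h1, h2, h3, h4, SA.cst_le_iff.1 h5, SA.le_cst_iff.1 h6⟩

/-- transfer from `D` to an edge above a constant -/
theorem D.step [Finite C] {SA : Pow C A M} {SB : Pow C B M} {a a' : A} {c d : C}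
    (h : D SA SB a a' c d) {f g : M} (hs : SA.Step f g c) (e1 : SA.ev f c = a)
    (e2 : SA.ev g c = a') {a0 : A} (h0 : ∀ x, a0 ≤ SA.ev f x) : SB.Step f g d := by
  obtain ⟨f1, g1, k1, k2, k3, k4, k5, k6⟩ := h
  refine tp SA SB k1 hs (by rw [k3, e1]) (by rw [k4, e2]) (a0 := a0) (fun x => ?_) h0 k2
  exact (h0 c).trans (e1.le.trans (k5 x))

theorem D.unique [Finite C] {SA : Pow C A M} {SB : Pow C B M} {a a' : A} {c d d' : C}
    (h : D SA SB a a' c d) (h' : D SA SB a a' c d') : d = d' := by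
  obtain ⟨f1, g1, k1, k2, k3, k4, k5, k6⟩ := h'
  exact (h.step k1 k3 k4 k5).unique k2

/-- from an edge above a constant to `D` -/
theorem D.of_step [Finite C] {SA : Pow C A M} {SB : Pow C B M} {c d : C} {f g : M}
    (hs : SA.Step f g c) (hB : SB.Step f g d) {a0 : A} (h0 : ∀ x, a0 ≤ SA.ev f x) :
    D SA SB (SA.ev f c) (SA.ev g c) c d := by
  obtain ⟨d', hd'⟩ := exists_D SA SB hs.cov c
  have := hd'.step hs rfl rfl h0
  rw [← this.unique hB]; exact hd'

theorem D.dual {SA : Pow C A M} {SB : Pow C B M} {a a' : A} {c d : C}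
    (h : D SA SB a a' c d) : D SA.dual SB.dual (OrderDual.toDual a') (OrderDual.toDual a)
      (OrderDual.toDual c) (OrderDual.toDual d) := by
  obtain ⟨f, g, h1, h2, h3, h4, h5, h6⟩ := h
  refine ⟨OrderDual.toDual g, OrderDual.toDual f, h1.dual, h2.dual, ?_, ?_, ?_, ?_⟩
  · rw [SA.dual_ev, h4]
  · rw [SA.dual_ev, h3]
  · intro x; exact OrderDual.toDual_le_toDual.2 (h6 (OrderDual.ofDual x))
  · intro x; exact OrderDual.toDual_le_toDual.2 (h5 (OrderDual.ofDual x))

theorem D.of_dual {SA : Pow C A M} {SB : Pow C B M} {a a' : A} {c d : C}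
    (h : D SA.dual SB.dual (OrderDual.toDual a') (OrderDual.toDual a)
      (OrderDual.toDual c) (OrderDual.toDual d)) : D SA SB a a' c d := by
  obtain ⟨g, f, h1, h2, h3, h4, h5, h6⟩ := h
  refine ⟨OrderDual.ofDual f, OrderDual.ofDual g, Step.of_dual h1, Step.of_dual h2, ?_, ?_, ?_, ?_⟩
  · exact OrderDual.toDual_inj.1 h4
  · exact OrderDual.toDual_inj.1 h3
  · intro x; exact OrderDual.toDual_le_toDual.1 (h6 (OrderDual.toDual x))
  · intro x; exact OrderDual.toDual_le_toDual.1 (h5 (OrderDual.toDual x))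

/-- transfer from `D` to an edge below a constant -/
theorem D.step' [Finite C] {SA : Pow C A M} {SB : Pow C B M} {a a' : A} {c d : C}
    (h : D SA SB a a' c d) {f g : M} (hs : SA.Step f g c) (e1 : SA.ev f c = a)
    (e2 : SA.ev g c = a') {a0 : A} (h0 : ∀ x, SA.ev g x ≤ a0) : SB.Step f g d := by
  have : SB.dual.Step (OrderDual.toDual g) (OrderDual.toDual f) (OrderDual.toDual d) :=
    h.dual.step hs.dual (by rw [SA.dual_ev, e2]) (by rw [SA.dual_ev, e1])
      (a0 := OrderDual.toDual a0) (fun x => OrderDual.toDual_le_toDual.2 (h0 (OrderDual.ofDual x)))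
  exact this.of_dual

theorem D.of_step' [Finite C] {SA : Pow C A M} {SB : Pow C B M} {c d : C} {f g : M}
    (hs : SA.Step f g c) (hB : SB.Step f g d) {a0 : A} (h0 : ∀ x, SA.ev g x ≤ a0) :
    D SA SB (SA.ev f c) (SA.ev g c) c d := by
  obtain ⟨d', hd'⟩ := exists_D SA SB hs.cov c
  have := hd'.step' hs rfl rfl h0
  rw [← this.unique hB]; exact hd'

theorem D.wt [Finite C] {SA : Pow C A M} {SB : Pow C B M} {a1 a1' a a' : A} {c d : C}
    (h : D SA SB a1 a1' c d) (hw : WT a1 a1' a a') : D SA SB a a' c d := by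
  obtain ⟨f, g, e, h1, h2, h3, h4, h5, h6, h7, h8⟩ := exists_D_edge SA SB hw.c2 c
  obtain ⟨f', g', e', h1', h2', h3', h4', h5', h6', h7', h8'⟩ := exists_D_edge SA SB hw.c1 c
  have hff : f' ≤ f := by
    rw [SA.le_iff]
    intro x
    by_cases hx : c ≤ x
    · rcases hx.eq_or_lt with e | hlt
      · rw [← e, h3, h3']; exact hw.le1
      · rw [h7 x hlt, h7' x hlt]; exact hw.le2
    · rw [h8 x hx, h8' x hx]; exact hw.le1
  have hgg : g' ≤ g := by
    rw [SA.le_iff]
    intro x
    by_cases hx : x = c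
    · rw [hx, h4, h4']; exact hw.le2
    · rw [← h1.eq x hx, ← h1'.eq x hx]; exact (SA.le_iff f' f).1 hff x
  have hW : WT f' g' f g := ⟨h1'.covBy, h1.covBy, hff, hgg, fun hle => by
    have := (SA.le_iff g' f).1 hle c
    rw [h4', h3] at this
    exact hw.nle this⟩
  have hd : SB.Step f' g' d := h.step h1' h3' h4' (SA.cst_le_iff.1 h5')
  have := wt_step_up hW hd
  have := D.of_step h1 this (SA.cst_le_iff.1 h5)
  rwa [h3, h4] at this

theorem D.wt' [Finite C] {SA : Pow C A M} {SB : Pow C B M} {a1 a1' a a' : A} {c d : C}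
    (h : D SA SB a a' c d) (hw : WT a1 a1' a a') : D SA SB a1 a1' c d := by
  obtain ⟨d', hd'⟩ := exists_D SA SB hw.c1 c
  rw [h.unique (hd'.wt hw)]; exact hd'

/-- 3-chains of labels: directions decrease -/
theorem D.chain3 [Finite C] {SA : Pow C A M} {SB : Pow C B M} {a a' a'' : A} {c d d' : C}
    (h : D SA SB a a' c d) (h' : D SA SB a' a'' c d')
    (h3 : ∀ z, a < z → z < a'' → z = a') : d' ≤ d := by
  have hc := h.cov
  have hc' := h'.cov
  have hle : SA.cst a ≤ SA.cst a'' := by
    rw [SA.le_iff]; intro x; rw [SA.ev_cst, SA.ev_cst]; exact hc.le.trans hc'.le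
  obtain ⟨f, g, e1, e2, e3, e4, e5, e6, e7⟩ := SA.exists_slot_step hle c (b := a)
    (b' := a') (by rw [SA.ev_cst]) (by rw [SA.ev_cst]; exact hc'.le) hc
  obtain ⟨g1, k, e1', e2', e3', e4', e5', e6', e7'⟩ := SA.exists_slot_step hle c (b := a')
    (b' := a'') (by rw [SA.ev_cst]; exact hc.le) (by rw [SA.ev_cst]) hc'
  have hg : g1 = g := by
    apply SA.inj
    intro x
    by_cases hx : x = c
    · rw [hx, e5, e4']
    · rw [← e3.eq x hx]
      by_cases hcx : c ≤ x
      · have : c < x := lt_of_le_of_ne hcx (Ne.symm hx)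
        rw [e6 x this, e6' x this]
      · rw [e7 x hcx, e7' x hcx]
  subst hg
  have s1 : SB.Step f g1 d := h.step e3 e4 e5 (SA.cst_le_iff.1 e1)
  have s2 : SB.Step g1 k d' := h'.step e3' e4' e5' (SA.cst_le_iff.1 e1')
  have h4 : ∀ r, f < r → r < k → r = g1 := by
    intro r hr1 hr2
    have l1 := (SA.le_iff f r).1 hr1.le
    have l2 := (SA.le_iff r k).1 hr2.le
    have hx : ∀ x, x ≠ c → SA.ev r x = SA.ev f x := fun x hx =>
      le_antisymm ((l2 x).trans ((e3.eq x hx).trans (e3'.eq x hx)).ge) (l1 x)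
    have hrc : SA.ev r c = a' := by
      apply h3
      · refine lt_of_le_of_ne (e4 ▸ l1 c) ?_
        intro e
        apply hr1.ne
        apply SA.inj
        intro x
        by_cases hxc : x = c
        · rw [hxc, e4, e]
        · exact (hx x hxc).symm
      · refine lt_of_le_of_ne (e5' ▸ l2 c) ?_
        intro e
        apply hr2.ne
        apply SA.inj
        intro x
        by_cases hxc : x = c
        · rw [hxc, e5', e]
        · rw [hx x hxc]; exact (e3.eq x hxc).trans (e3'.eq x hxc)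
    apply SA.inj
    intro x
    by_cases hxc : x = c
    · rw [hxc, hrc, e5]
    · rw [hx x hxc]; exact e3.eq x hxc
  rcases SB.chain3 s1 s2 h4 with ⟨h5, _⟩ | ⟨h5, _⟩
  · exact h5.le
  · exact h5.le

end Pow

end Pool.Agent.Birk
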