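import Pool.Agent.Lib_MP_aad2bd_co.Up

/-!
Types of `B`-labels above a nice element.
-/

set_option autoImplicit false

namespace Pool.Agent.Birk

theorem le_induct_covBy {α : Type} [PartialOrder α] [Finite α] {R : α → α → Prop}
    (hrefl : ∀ a, R a a) (htrans : ∀ a b c, R a b → R b c → R a c)
    (hcov : ∀ a b, a ⋖ b → R a b) : ∀ a b, a ≤ b → R a b := by
  intro a b
  have hwf : WellFounded (fun x y : α => y < x) := wellFounded_gt
  induction a using hwf.induction with
  | _ a ih =>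
    intro hab
    rcases hab.eq_or_lt with rfl | hlt
    · exact hrefl a
    · obtain ⟨a', h1, h2⟩ := exists_covBy_le_of_lt hlt
      exact htrans _ _ _ (hcov _ _ h1) (ih a' h1.lt h2)

namespace Pow

variable {C A B M : Type} [PartialOrder C] [PartialOrder A] [PartialOrder B] [PartialOrder M]

/-- niceness of `β : B` -/
structure Nice (SA : Pow C A M) (SB : Pow C B M) (β : B) : Prop where
  isE : ∀ c, IsE SA SB (SA.ev (SB.cst β) c)
  ix : ∀ c c', c ≤ c' → IX SA SB (SA.ev (SB.cst β) c) (SA.ev (SB.cst β) c')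

/-- the `A`-label of the edge `f → g` is of type x -/
def XA (SA : Pow C A M) (SB : Pow C B M) (f g : M) : Prop :=
  ∀ c, SA.Step f g c → ∃ x, DX SA SB (SA.ev f c) (SA.ev g c) x

/-- all `A`-labels between the constants `β1`, `β2` are of type x -/
def XB (SA : Pow C A M) (SB : Pow C B M) (β1 β2 : B) : Prop :=
  ∀ c, IX SA SB (SA.ev (SB.cst β1) c) (SA.ev (SB.cst β2) c)

section
variable [Finite C] {SA : Pow C A M} {SB : Pow C B M}

theorem XA_wt {f1 g1 f g : M} (h : WT f1 g1 f g) : XA SA SB f1 g1 ↔ XA SA SB f g := by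
  constructor
  · intro hx c hc
    have hc1 := wt_step_down h hc
    obtain ⟨x, hx⟩ := hx c hc1
    exact ⟨x, fun c' => (hx c').wt (wt_step h hc1 hc).2⟩
  · intro hx c hc
    have hc1 := wt_step_up h hc
    obtain ⟨x, hx⟩ := hx c hc1
    exact ⟨x, fun c' => (hx c').wt' (wt_step h hc hc1).2⟩

/-- same `B`-label at the same coordinate above a constant: same type -/
theorem XA_same {f g f' g' : M} {d : C} {β : B} (h : SB.Step f g d) (h' : SB.Step f' g' d)
    (e1 : SB.ev f d = SB.ev f' d) (e2 : SB.ev g d = SB.ev g' d) (h0 : SB.cst β ≤ f)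
    (h1 : SB.cst β ≤ f') : XA SA SB f g ↔ XA SA SB f' g' := by
  obtain ⟨p, q, s1, w1, b1, b2, b3, b4⟩ := SB.exists_low_edge h (SB.cst_le_iff.1 h0)
  obtain ⟨p', q', s1', w1', b1', b2', b3', b4'⟩ := SB.exists_low_edge h' (SB.cst_le_iff.1 h1)
  have hp : p = p' := by
    apply SB.inj
    intro x
    by_cases hx : d ≤ x
    · rcases hx.eq_or_lt with e | hlt
      · rw [← e, b1, b1', e1]
      · rw [b3 x hlt, b3' x hlt, e2]
    · rw [b4 x hx, b4' x hx]
  have hq : q = q' := by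
    apply SB.inj
    intro x
    by_cases hx : x = d
    · rw [hx, b2, b2', e2]
    · rw [← s1.eq x hx, ← s1'.eq x hx, hp]
  subst hp
  subst hq
  exact (XA_wt w1).symm.trans (XA_wt w1')

end

section nice

variable [Finite C] [Finite A] [Finite B] [Finite M]
  {SA : Pow C A M} {SB : Pow C B M} (hC : PConn C) (hirr : PIrr C) (hn : Nontrivial C)
  (htop : ∀ x : C, ∃ y, ¬ y ≤ x) (hbot : ∀ x : C, ∃ y, ¬ x ≤ y)

include hC hirr hn

theorem Nice.typed {β : B} (hβ : Nice SA SB β) {f g : M} {c : C} (h0 : SB.cst β ≤ f)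
    (h : SA.Step f g c) :
    (∃ π, DS SA SB (SA.ev f c) (SA.ev g c) π) ∨ (∃ x, DX SA SB (SA.ev f c) (SA.ev g c) x) :=
  typed_up SA SB hC hirr hn (hβ.isE c) ((SA.le_iff _ _).1 h0 c) h.cov

include htop hbot

theorem Nice.chain3 {β : B} (hβ : Nice SA SB β) {f g k : M} (h0 : SB.cst β ≤ f)
    (hfg : f ⋖ g) (hgk : g ⋖ k) (h3 : ∀ h, f < h → h < k → h = g) :
    XA SA SB f g ↔ XA SA SB g k := by
  obtain ⟨c, hc⟩ := SA.exists_step_of_covBy hfg
  obtain ⟨c', hc'⟩ := SA.exists_step_of_covBy hgk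
  have key : (∃ x, DX SA SB (SA.ev f c) (SA.ev g c) x) ↔
      (∃ x, DX SA SB (SA.ev g c') (SA.ev k c') x) := by
    rcases SA.chain3 hc hc' h3 with ⟨h4, h5⟩ | ⟨h4, h5⟩
    · constructor
      · rintro ⟨x, hx⟩; exact ⟨x, fun y => (hx y).wt' h5⟩
      · rintro ⟨x, hx⟩; exact ⟨x, fun y => (hx y).wt h5⟩
    · subst h4
      rcases hβ.typed hC hirr hn h0 hc with ⟨π, h6⟩ | ⟨x, h6⟩ <;>
      rcases hβ.typed hC hirr hn (h0.trans hfg.le) hc' with ⟨π', h7⟩ | ⟨x', h7⟩
      · constructor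
        · rintro ⟨x, hx⟩
          exfalso
          obtain ⟨u, v, huv⟩ := hn.exists_pair_ne
          exact huv (π.injective (((h6 u).unique (hx u)).trans ((h6 v).unique (hx v)).symm))
        · rintro ⟨x, hx⟩
          exfalso
          obtain ⟨u, v, huv⟩ := hn.exists_pair_ne
          exact huv (π'.injective (((h7 u).unique (hx u)).trans ((h7 v).unique (hx v)).symm))
      · exfalso
        obtain ⟨y, hy⟩ := hbot x'
        apply hy
        have := (h6 (π.symm y)).chain3 (h7 (π.symm y)) h5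
        rwa [π.apply_symm_apply] at this
      · exfalso
        obtain ⟨y, hy⟩ := htop x
        apply hy
        have := (h6 (π'.symm y)).chain3 (h7 (π'.symm y)) h5
        rwa [π'.apply_symm_apply] at this
      · exact ⟨fun _ => ⟨x', h7⟩, fun _ => ⟨x, h6⟩⟩
  constructor
  · intro hx c1 hc1
    have e := hc1.unique hc'
    subst e
    exact key.1 (hx c hc)
  · intro hx c1 hc1
    have e := hc1.unique hc
    subst e
    exact key.2 (hx c' hc')

theorem Nice.cov_type {β : B} (hβ : Nice SA SB β) {β1 β2 : B} (h0 : β ≤ β1)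
    {d d' : C} (hdd : d ⋖ d') {f g f' g' : M} (hs : SB.Step f g d) (hs' : SB.Step f' g' d')
    (hf : SB.cst β ≤ f) (hf' : SB.cst β ≤ f') (e1 : SB.ev f d = β1) (e2 : SB.ev g d = β2)
    (e1' : SB.ev f' d' = β1) (e2' : SB.ev g' d' = β2) : XA SA SB f g ↔ XA SA SB f' g' := by
  have := hC.ne
  have h12 : β1 ⋖ β2 := by rw [← e1, ← e2]; exact hs.cov
  obtain ⟨f2, f3, e, k1, k2, k3, k4, k5, k6, k7, k8⟩ := exists_D_edge SB SA h12 d
  have hlow : ∀ x, x < d' → SB.ev f2 x ≤ β1 := by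
    intro x hx
    by_cases hdx : d ≤ x
    · rcases hdx.eq_or_lt with e | hlt
      · rw [← e, k3]
      · exact absurd hx (hdd.2 hlt)
    · rw [k8 x hdx]
  have hd' : SB.ev f2 d' = β2 := k7 d' hdd.lt
  obtain ⟨f1, l1, l2, l3⟩ := SB.exists_lower f2 d' β1 (by rw [hd']; exact h12.le) hlow
  have s12 : SB.Step f1 f2 d' := ⟨by rw [l2, hd']; exact h12, l3⟩
  have hf1 : SB.cst β ≤ f1 := by
    rw [SB.cst_le_iff]
    intro x
    by_cases hx : x = d'
    · rw [hx, l2]; exact h0
    · rw [l3 x hx]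
      exact h0.trans (SB.cst_le_iff.1 k5 x)
  have hf2 : SB.cst β ≤ f2 := hf1.trans l1
  have h3 : ∀ h, f1 < h → h < f3 → h = f2 := by
    intro h h1 h2
    have m1 := (SB.le_iff _ _).1 h1.le
    have m2 := (SB.le_iff _ _).1 h2.le
    have hx : ∀ x, x ≠ d → x ≠ d' → SB.ev h x = SB.ev f2 x := by
      intro x hx hx'
      refine le_antisymm ?_ ?_
      · rw [k1.eq x hx]; exact m2 x
      · rw [← l3 x hx']; exact m1 x
    have hd1 : SB.ev f1 d = β1 := by rw [l3 d hdd.lt.ne, k3]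
    have hd3 : SB.ev f3 d' = β2 := by rw [← k1.eq d' hdd.lt.ne', hd']
    have a1 : SB.ev h d = β1 ∨ SB.ev h d = β2 :=
      h12.eq_or_eq (hd1 ▸ m1 d) (k4 ▸ m2 d)
    have a2 : SB.ev h d' = β1 ∨ SB.ev h d' = β2 :=
      h12.eq_or_eq (l2 ▸ m1 d') (hd3 ▸ m2 d')
    have a3 : SB.ev h d ≤ SB.ev h d' := SB.mono h hdd.le
    rcases a1 with a1 | a1
    · rcases a2 with a2 | a2
      · exfalso
        apply h1.ne
        apply SB.inj
        intro x
        by_cases hx1 : x = d
        · rw [hx1, hd1, a1]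
        · by_cases hx2 : x = d'
          · rw [hx2, l2, a2]
          · rw [hx x hx1 hx2, l3 x hx2]
      · apply SB.inj
        intro x
        by_cases hx1 : x = d
        · rw [hx1, k3, a1]
        · by_cases hx2 : x = d'
          · rw [hx2, hd', a2]
          · rw [hx x hx1 hx2]
    · exfalso
      have a4 : SB.ev h d' = β2 := by
        rcases a2 with a2 | a2
        · rw [a1, a2] at a3
          exact absurd h12.lt (not_lt_of_ge a3)
        · exact a2
      apply h2.ne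
      apply SB.inj
      intro x
      by_cases hx1 : x = d
      · rw [hx1, k4, a1]
      · by_cases hx2 : x = d'
        · rw [hx2, hd3, a4]
        · rw [hx x hx1 hx2, k1.eq x hx1]
  have t1 := hβ.chain3 hC hirr hn htop hbot hf1 s12.covBy k1.covBy h3
  have t2 : XA SA SB f g ↔ XA SA SB f2 f3 :=
    XA_same hs k1 (by rw [e1, k3]) (by rw [e2, k4]) hf hf2
  have t3 : XA SA SB f' g' ↔ XA SA SB f1 f2 :=
    XA_same hs' s12 (by rw [e1', l2]) (by rw [e2', hd']) hf' hf1
  rw [t2, t3, t1]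

/-- the type of the `A`-label depends only on the `B`-label -/
theorem Nice.same_type {β : B} (hβ : Nice SA SB β) {d d' : C} {f g f' g' : M}
    (hs : SB.Step f g d) (hs' : SB.Step f' g' d')
    (hf : SB.cst β ≤ f) (hf' : SB.cst β ≤ f') (e1 : SB.ev f d = SB.ev f' d')
    (e2 : SB.ev g d = SB.ev g' d') : XA SA SB f g ↔ XA SA SB f' g' := by
  have := hC.ne
  have h12 := hs.cov
  have h0 : β ≤ SB.ev f d := SB.cst_le_iff.1 hf d
  -- canonical edges
  have hcan : ∀ z : C, ∃ p q : M, SB.Step p q z ∧ SB.cst β ≤ p ∧ SB.ev p z = SB.ev f d ∧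
      SB.ev q z = SB.ev g d := by
    intro z
    obtain ⟨f2, f3, e, k1, k2, k3, k4, k5, k6, k7, k8⟩ := exists_D_edge SB SA h12 z
    exact ⟨f2, f3, k1, (SB.cst_le_cst.2 h0).trans k5, k3, k4⟩
  choose p q hpq hp ep eq using hcan
  have hconst : ∀ z z' : C, XA SA SB (p z) (q z) = XA SA SB (p z') (q z') := by
    refine hC.eq_of_le_eq (fun z => XA SA SB (p z) (q z)) ?_
    refine le_induct_covBy (fun _ => rfl) (fun _ _ _ h h' => h.trans h') ?_
    intro a b hab
    exact propext (hβ.cov_type hC hirr hn htop hbot h0 hab (hpq a) (hpq b) (hp a) (hp b)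
      (ep a) (eq a) (ep b) (eq b))
  have t1 : XA SA SB f g ↔ XA SA SB (p d) (q d) :=
    XA_same hs (hpq d) (ep d).symm (eq d).symm hf (hp d)
  have t2 : XA SA SB f' g' ↔ XA SA SB (p d') (q d') :=
    XA_same hs' (hpq d') (by rw [ep d', e1]) (by rw [eq d', e2]) hf' (hp d')
  rw [t1, t2, hconst d d']

theorem Nice.XA_iff_XB {β : B} (hβ : Nice SA SB β) {d : C} {f g : M}
    (hs : SB.Step f g d) (hf : SB.cst β ≤ f) :
    XA SA SB f g ↔ XB SA SB (SB.ev f d) (SB.ev g d) := by
  have := hC.ne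
  have h0 : β ≤ SB.ev f d := SB.cst_le_iff.1 hf d
  have hle : SB.cst (SB.ev f d) ≤ SB.cst (SB.ev g d) := SB.cst_le_cst.2 hs.cov.le
  constructor
  · intro hx c a1 a2 h1 h2 h3
    obtain ⟨h, h', l1, l2, l3, l4, l5, -, -⟩ := SA.exists_slot_step hle c h1 h3 h2
    obtain ⟨d1, hd1⟩ := SB.exists_step_of_covBy l3.covBy
    have m1 := SB.cst_le_iff.1 l1 d1
    have m2 := SB.le_cst_iff.1 l2 d1
    have m3 : SB.ev f d = SB.ev h d1 := by
      rcases hs.cov.eq_or_eq m1 (hd1.cov.le.trans m2) with e | e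
      · exact e.symm
      · exfalso; rw [← e] at m2; exact absurd hd1.cov.lt (not_lt_of_ge m2)
    have m4 : SB.ev g d = SB.ev h' d1 := by
      rcases hs.cov.eq_or_eq (m1.trans hd1.cov.le) m2 with e | e
      · exfalso
        have hl := hd1.cov.lt
        rw [e, m3] at hl
        exact lt_irrefl _ hl
      · exact e.symm
    have t := (hβ.same_type hC hirr hn htop hbot hs hd1 hf
      ((SB.cst_le_cst.2 h0).trans l1) m3 m4).1 hx c l3
    rwa [l4, l5] at t
  · intro hx
    obtain ⟨f2, f3, e, k1, k2, k3, k4, k5, k6, k7, k8⟩ := exists_D_edge SB SA hs.cov d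
    have hf2 := (SB.cst_le_cst.2 h0).trans k5
    rw [hβ.same_type hC hirr hn htop hbot hs k1 hf hf2 k3.symm k4.symm]
    intro c hc
    exact hx c _ _ ((SA.le_iff _ _).1 k5 c) hc.cov ((SA.le_iff _ _).1 k6 c)

end nice

end Pow

end Pool.Agent.Birk
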