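import Pool.Agent.Lib_MP_aad2bd_co.Nice1

/-!
The two power structures on `Nx β`.
-/

set_option autoImplicit false

namespace Pool.Agent.Birk

namespace Pow

variable {C A B M : Type} [PartialOrder C] [PartialOrder A] [PartialOrder B] [PartialOrder M]

theorem IX.mono {SA : Pow C A M} {SB : Pow C B M} {a a' a1 a1' : A} (h : IX SA SB a a')
    (h1 : a ≤ a1) (h2 : a1' ≤ a') : IX SA SB a1 a1' :=
  fun u v hu huv hv => h u v (h1.trans hu) huv (hv.trans h2)

theorem IX.rfl' (SA : Pow C A M) (SB : Pow C B M) (a : A) : IX SA SB a a :=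
  fun _ _ hu huv hv => absurd (huv.lt.trans_le (hv.trans hu)) (lt_irrefl _)

/-- the x-part of `M` above `β` -/
def Nx (SA : Pow C A M) (SB : Pow C B M) (β : B) : Set M :=
  {f | SB.cst β ≤ f ∧ ∀ c, IX SA SB (SA.ev (SB.cst β) c) (SA.ev f c)}

/-- the x-part of `B` above `β` -/
def Bx (SA : Pow C A M) (SB : Pow C B M) (β : B) : Set B :=
  {β' | β ≤ β' ∧ ∀ c, IX SA SB (SA.ev (SB.cst β) c) (SA.ev (SB.cst β') c)}

/-- maps to bi-constants, of type x above `β` -/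
def Qx (SA : Pow C A M) (SB : Pow C B M) (β : B) : Set M :=
  {q | q ∈ Nx SA SB β ∧ ∀ c, IsE SA SB (SA.ev q c)}

theorem Bx_ordConnected (SA : Pow C A M) (SB : Pow C B M) [Nonempty C] (β : B) :
    (Bx SA SB β).OrdConnected := by
  refine ⟨fun x hx y hy z hz => ⟨hx.1.trans hz.1, fun c => ?_⟩⟩
  exact (hy.2 c).mono le_rfl ((SA.le_iff _ _).1 (SB.cst_le_cst.2 hz.2) c)

theorem self_mem_Bx (SA : Pow C A M) (SB : Pow C B M) (β : B) : β ∈ Bx SA SB β :=
  ⟨le_rfl, fun _ => IX.rfl' _ _ _⟩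

theorem Nice.self_mem_Qx {SA : Pow C A M} {SB : Pow C B M} {β : B} (h : Nice SA SB β) :
    SB.cst β ∈ Qx SA SB β := ⟨⟨le_rfl, fun _ => IX.rfl' _ _ _⟩, h.isE⟩

section nice

variable [Finite C] [Finite A] [Finite B] [Finite M]
  {SA : Pow C A M} {SB : Pow C B M} (hC : PConn C) (hirr : PIrr C) (hn : Nontrivial C)
  (htop : ∀ x : C, ∃ y, ¬ y ≤ x) (hbot : ∀ x : C, ∃ y, ¬ x ≤ y)

include hC hirr hn htop hbot

theorem Nice.mem_Nx_iff {β : B} (hβ : Nice SA SB β) (f : M) :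
    f ∈ Nx SA SB β ↔ ∀ d, SB.ev f d ∈ Bx SA SB β := by
  have := hC.ne
  constructor
  · rintro ⟨h0, h⟩ d
    refine ⟨SB.cst_le_iff.1 h0 d, fun c a1 a2 h1 h2 h3 => ?_⟩
    have hle : SB.cst β ≤ SB.cst (SB.ev f d) := SB.cst_le_cst.2 (SB.cst_le_iff.1 h0 d)
    obtain ⟨p, q, l1, l2, l3, l4, l5, -, -⟩ := SA.exists_slot_step hle c h1 h3 h2
    obtain ⟨d1, hd1⟩ := SB.exists_step_of_covBy l3.covBy
    obtain ⟨p', q', l1', l2', l3', l4', l5', -, -⟩ := SB.exists_slot_step h0 d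
      (b := SB.ev p d1) (b' := SB.ev q d1)
      (by rw [SB.ev_cst]; exact SB.cst_le_iff.1 l1 d1)
      (SB.le_cst_iff.1 l2 d1) hd1.cov
    have t : XA SA SB p' q' := by
      intro c' hc'
      exact h c' _ _ ((SA.le_iff _ _).1 l1' c') hc'.cov ((SA.le_iff _ _).1 l2' c')
    have t2 := (hβ.same_type hC hirr hn htop hbot l3' hd1 l1' l1 l4' l5').1 t c l3
    rwa [l4, l5] at t2
  · intro h
    have h0 : SB.cst β ≤ f := SB.cst_le_iff.2 fun d => (h d).1
    refine ⟨h0, fun c a1 a2 h1 h2 h3 => ?_⟩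
    obtain ⟨p, q, l1, l2, l3, l4, l5, -, -⟩ := SA.exists_slot_step h0 c h1 h3 h2
    obtain ⟨d1, hd1⟩ := SB.exists_step_of_covBy l3.covBy
    have hle : SB.cst β ≤ SB.cst (SB.ev f d1) := SB.cst_le_cst.2 (h d1).1
    obtain ⟨p', q', l1', l2', l3', l4', l5', -, -⟩ := SB.exists_slot_step hle d1
      (b := SB.ev p d1) (b' := SB.ev q d1)
      (by rw [SB.ev_cst]; exact SB.cst_le_iff.1 l1 d1)
      (by rw [SB.ev_cst]; exact (SB.le_iff _ _).1 l2 d1) hd1.cov
    have t : XA SA SB p' q' := by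
      intro c' hc'
      exact (h d1).2 c' _ _ ((SA.le_iff _ _).1 l1' c') hc'.cov ((SA.le_iff _ _).1 l2' c')
    have t2 := (hβ.same_type hC hirr hn htop hbot l3' hd1 l1' l1 l4' l5').1 t c l3
    rwa [l4, l5] at t2

/-- the twist of `f ∈ Nx β` -/
theorem Nice.exists_tw {β : B} (hβ : Nice SA SB β) {f : M} (hf : f ∈ Nx SA SB β) (d : C) :
    ∃ q ∈ Qx SA SB β, ∀ c, SA.cst (SA.ev q c) = SB.cst (SB.ev (SA.cst (SA.ev f c)) d) := by
  have := hC.ne
  have h1 : ∀ c, SA.ev (SB.cst β) c ≤ SA.ev f c := fun c => (SA.le_iff _ _).1 hf.1 c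
  have hm : ∀ c, ∃ b, Matched SA SB (SA.ev f c) b := fun c =>
    matched_up SA SB hC hirr hn (hβ.isE c) (h1 c)
  choose m hm using hm
  have key : ∀ c, SA.cst (SA.ev (SB.cst (m c)) d) = SB.cst (SB.ev (SA.cst (SA.ev f c)) d) :=
    fun c => hm c d
  have hge : ∀ c, SA.ev (SB.cst β) c ≤ SA.ev (SB.cst (m c)) d := by
    intro c
    obtain ⟨b, hb⟩ := hβ.isE c
    rw [← SA.cst_le_cst, key, hb, SB.cst_le_cst]
    have : SB.cst b ≤ SA.cst (SA.ev f c) := by rw [← hb, SA.cst_le_cst]; exact h1 c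
    exact SB.cst_le_iff.1 this d
  obtain ⟨q, hq⟩ := SA.up (SB.cst β) (fun c => SA.ev (SB.cst (m c)) d)
    (by
      intro x y hxy
      show SA.ev (SB.cst (m x)) d ≤ SA.ev (SB.cst (m y)) d
      rw [← SA.cst_le_cst, key, key, SB.cst_le_cst]
      exact (SB.le_iff _ _).1 (SA.cst_le_cst.2 (SA.mono f hxy)) d)
    hge
  have hq' : ∀ c, SA.ev q c = SA.ev (SB.cst (m c)) d := fun c => congrFun hq c
  refine ⟨q, ⟨⟨?_, fun c => ?_⟩, fun c => ?_⟩, fun c => ?_⟩
  · rw [SA.le_iff]; intro c; rw [hq']; exact hge c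
  · rw [hq']
    exact (IX_matched_up SA SB hC hirr hn (hβ.isE c) (h1 c) (hm c)).1 (hf.2 c) d
  · rw [hq']
    exact ⟨_, key c⟩
  · rw [hq', key]

/-- every monotone family in `Qx β` is a twist -/
theorem Nice.exists_untw {β : B} (hβ : Nice SA SB β) (h : C → M)
    (hm : Monotone h) (hq : ∀ d, h d ∈ Qx SA SB β) :
    ∃ f ∈ Nx SA SB β, ∀ c d,
      SA.cst (SA.ev (h d) c) = SB.cst (SB.ev (SA.cst (SA.ev f c)) d) := by
  have := hC.ne
  have hx : ∀ c, ∃ a b, Matched SA SB a b ∧ SA.ev (SB.cst β) c ≤ a ∧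
      ∀ d, SA.ev (SB.cst b) d = SA.ev (h d) c := by
    intro c
    exact RX2_up SA SB hC hirr hn htop hbot (hβ.isE c) (fun d => SA.ev (h d) c)
      (fun x y hxy => (SA.le_iff _ _).1 (hm hxy) c)
      (fun d => (SA.le_iff _ _).1 (hq d).1.1 c)
      (fun d => (hq d).2 c) (fun d => (hq d).1.2 c)
  choose a b h1 h2 h3 using hx
  have key : ∀ c d, SA.cst (SA.ev (h d) c) = SB.cst (SB.ev (SA.cst (a c)) d) := by
    intro c d
    rw [← h3 c d]; exact h1 c d
  obtain ⟨f, hf⟩ := SA.up (SB.cst β) a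
    (by
      intro x y hxy
      rw [← SA.cst_le_cst, SB.le_iff]
      intro d
      rw [← SB.cst_le_cst, ← key, ← key, SA.cst_le_cst]
      exact SA.mono (h d) hxy)
    h2
  have hf' : ∀ c, SA.ev f c = a c := fun c => congrFun hf c
  refine ⟨f, ⟨?_, fun c => ?_⟩, fun c d => ?_⟩
  · rw [SA.le_iff]; intro c; rw [hf']; exact h2 c
  · rw [hf']
    rw [IX_matched_up SA SB hC hirr hn (hβ.isE c) (h2 c) (h1 c)]
    intro d
    rw [h3]
    exact (hq d).1.2 c
  · rw [hf']; exact key c d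

/-- the second power structure on `Nx β` -/
noncomputable def Nice.SQ {β : B} (hβ : Nice SA SB β) :
    Pow C (Qx SA SB β) (Nx SA SB β) where
  ev f d := ⟨(hβ.exists_tw hC hirr hn htop hbot f.2 d).choose,
    (hβ.exists_tw hC hirr hn htop hbot f.2 d).choose_spec.1⟩
  mono f x y hxy := by
    have := hC.ne
    show (hβ.exists_tw hC hirr hn htop hbot f.2 x).choose ≤
      (hβ.exists_tw hC hirr hn htop hbot f.2 y).choose
    rw [SA.le_iff]
    intro c
    rw [← SA.cst_le_cst, (hβ.exists_tw hC hirr hn htop hbot f.2 x).choose_spec.2 c,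
      (hβ.exists_tw hC hirr hn htop hbot f.2 y).choose_spec.2 c, SB.cst_le_cst]
    exact SB.mono _ hxy
  le_iff f g := by
    have := hC.ne
    have e : ∀ d, ((⟨(hβ.exists_tw hC hirr hn htop hbot f.2 d).choose,
        (hβ.exists_tw hC hirr hn htop hbot f.2 d).choose_spec.1⟩ : Qx SA SB β) ≤
        ⟨(hβ.exists_tw hC hirr hn htop hbot g.2 d).choose,
        (hβ.exists_tw hC hirr hn htop hbot g.2 d).choose_spec.1⟩) ↔
        ∀ c, SB.ev (SA.cst (SA.ev f.1 c)) d ≤ SB.ev (SA.cst (SA.ev g.1 c)) d := by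
      intro d
      show (hβ.exists_tw hC hirr hn htop hbot f.2 d).choose ≤
        (hβ.exists_tw hC hirr hn htop hbot g.2 d).choose ↔ _
      rw [SA.le_iff]
      refine forall_congr' fun c => ?_
      rw [← SA.cst_le_cst, (hβ.exists_tw hC hirr hn htop hbot f.2 d).choose_spec.2 c,
        (hβ.exists_tw hC hirr hn htop hbot g.2 d).choose_spec.2 c, SB.cst_le_cst]
    simp only [e]
    rw [← Subtype.coe_le_coe, SA.le_iff]
    constructor
    · intro h d c
      exact (SB.le_iff _ _).1 (SA.cst_le_cst.2 (h c)) d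
    · intro h c
      rw [← SA.cst_le_cst, SB.le_iff]
      intro d
      exact h d c
  up f h hm _ := by
    have := hC.ne
    obtain ⟨g, hg, hg2⟩ := hβ.exists_untw hC hirr hn htop hbot (fun d => (h d).1)
      (fun x y hxy => hm hxy) (fun d => (h d).2)
    refine ⟨⟨g, hg⟩, ?_⟩
    funext d
    apply Subtype.ext
    apply SA.inj
    intro c
    rw [← SA.cst_inj, (hβ.exists_tw hC hirr hn htop hbot hg d).choose_spec.2 c]
    exact (hg2 c d).symm
  dn f h hm _ := by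
    have := hC.ne
    obtain ⟨g, hg, hg2⟩ := hβ.exists_untw hC hirr hn htop hbot (fun d => (h d).1)
      (fun x y hxy => hm hxy) (fun d => (h d).2)
    refine ⟨⟨g, hg⟩, ?_⟩
    funext d
    apply Subtype.ext
    apply SA.inj
    intro c
    rw [← SA.cst_inj, (hβ.exists_tw hC hirr hn htop hbot hg d).choose_spec.2 c]
    exact (hg2 c d).symm
  const a := by
    have := hC.ne
    obtain ⟨g, hg, hg2⟩ := hβ.exists_untw hC hirr hn htop hbot (fun _ => a.1)
      (fun x y _ => le_rfl) (fun d => a.2)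
    refine ⟨⟨g, hg⟩, ?_⟩
    funext d
    apply Subtype.ext
    apply SA.inj
    intro c
    rw [← SA.cst_inj, (hβ.exists_tw hC hirr hn htop hbot hg d).choose_spec.2 c]
    exact (hg2 c d).symm

theorem Nice.SQ_ev {β : B} (hβ : Nice SA SB β) (f : Nx SA SB β) (d c : C) :
    SA.cst (SA.ev ((hβ.SQ hC hirr hn htop hbot).ev f d).1 c) =
      SB.cst (SB.ev (SA.cst (SA.ev f.1 c)) d) :=
  (hβ.exists_tw hC hirr hn htop hbot f.2 d).choose_spec.2 c

theorem Nice.SQ_cst {β : B} (hβ : Nice SA SB β) (q : Qx SA SB β) :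
    ((hβ.SQ hC hirr hn htop hbot).cst q).1 = q.1 := by
  have := hC.ne
  have h : (hβ.SQ hC hirr hn htop hbot).cst q = ⟨q.1, q.2.1⟩ := by
    apply (hβ.SQ hC hirr hn htop hbot).inj
    intro d
    rw [ev_cst]
    apply Subtype.ext
    apply SA.inj
    intro c
    rw [← SA.cst_inj, hβ.SQ_ev hC hirr hn htop hbot]
    obtain ⟨b, hb⟩ := q.2.2 c
    rw [hb, SB.ev_cst]
  rw [h]

end nice

end Pow

end Pool.Agent.Birk
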