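import Pool.Agent.Lib_MP_aad2bd_co.Nice2

/-!
Upward goodness.
-/

set_option autoImplicit false
set_option linter.style.haveILetI false
set_option linter.unusedSectionVars false
set_option linter.unusedVariables false

namespace Pool.Agent.Birk

/-- there are at least two maximal elements -/
theorem exists_max_ne {C : Type} [PartialOrder C] [Finite C] (hC : PConn C)
    (htop : ∀ x : C, ∃ y, ¬ y ≤ x) (z : C) : ∃ x : C, (∀ y, x ≤ y → y = x) ∧ x ≠ z := by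
  have hex : ∀ u : C, ∃ x, u ≤ x ∧ ∀ y, x ≤ y → y = x := by
    intro u
    obtain ⟨x, hx⟩ := (Set.toFinite {x | u ≤ x}).exists_maximal ⟨u, le_rfl⟩
    refine ⟨x, hx.1, fun y hy => ?_⟩
    exact le_antisymm (hx.2 (y := y) (le_trans hx.1 hy) hy) hy
  obtain ⟨y, hy⟩ := htop z
  obtain ⟨x, h1, h2⟩ := hex y
  refine ⟨x, h2, ?_⟩
  rintro rfl
  exact hy h1

namespace Pow

variable {C A B M : Type} [PartialOrder C] [PartialOrder A] [PartialOrder B] [PartialOrder M]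

section gen
variable [Finite C] [Finite A] [Finite B] [Finite M] {SA : Pow C A M} {SB : Pow C B M}

theorem not_DX_of_const (hC : PConn C) (hn : Nontrivial C) {a a' : A} {b b' : B} (h : a ⋖ a')
    (e : SA.cst a = SB.cst b) (e' : SA.cst a' = SB.cst b') (x : C) : ¬ DX SA SB a a' x := by
  have := hC.ne
  intro hx
  obtain ⟨y, hy⟩ := exists_ne x
  have hle : SA.cst a ≤ SA.cst a' := SA.cst_le_cst.2 h.le
  have key := SB.ev_eq_of_no_step hle y (by
    intro h1 h2 k1 k2 hs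
    obtain ⟨c, hc⟩ := SA.exists_step_of_covBy hs.covBy
    have m1 : a ≤ SA.ev h1 c := SA.cst_le_iff.1 k1 c
    have m2 : SA.ev h2 c ≤ a' := SA.le_cst_iff.1 k2 c
    have e1 : SA.ev h1 c = a := by
      rcases h.eq_or_eq m1 (hc.cov.le.trans m2) with e | e
      · exact e
      · exfalso; rw [← e] at m2; exact absurd hc.cov.lt (not_lt_of_ge m2)
    have e2 : SA.ev h2 c = a' := by
      rcases h.eq_or_eq (m1.trans hc.cov.le) m2 with e | e
      · exfalso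
        have hl := hc.cov.lt
        rw [e, e1] at hl
        exact lt_irrefl _ hl
      · exact e
    have := (hx c).step hc e1 e2 (SA.cst_le_iff.1 k1)
    exact hy (hs.unique this))
  rw [e, e', SB.ev_cst, SB.ev_cst] at key
  rw [key, ← e'] at e
  exact h.ne (SA.cst_inj.1 e)

theorem const_of_DS (hC : PConn C) {a a' : A} {b : B} (h : a ⋖ a')
    (e : SA.cst a = SB.cst b) {π : C ≃o C} (hπ : DS SA SB a a' π) :
    ∃ b', SA.cst a' = SB.cst b' ∧ b ⋖ b' := by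
  have hne := hC.ne
  have : Fintype C := Fintype.ofFinite C
  have hle : SA.cst a ≤ SA.cst a' := SA.cst_le_cst.2 h.le
  have hlt : ∀ d, b < SB.ev (SA.cst a') d := by
    intro d
    obtain ⟨f, g, d', h1, h2, h3, h4, h5, h6, -, -⟩ := exists_D_edge SA SB h (π.symm d)
    have hs := (hπ (π.symm d)).step h1 h3 h4 (SA.cst_le_iff.1 h5)
    rw [π.apply_symm_apply] at hs
    calc b = SB.ev (SA.cst a) d := by rw [e, SB.ev_cst]
      _ ≤ SB.ev f d := (SB.le_iff _ _).1 h5 d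
      _ < SB.ev g d := hs.cov.lt
      _ ≤ SB.ev (SA.cst a') d := (SB.le_iff _ _).1 h6 d
  have l1 : ilen (SA.cst a) (SA.cst a') = Fintype.card C := by
    rw [SA.ilen_eq hle]
    simp only [SA.ev_cst, ilen_covBy h, Finset.sum_const, Finset.card_univ, smul_eq_mul, mul_one]
  have l2 : ∑ d, ilen b (SB.ev (SA.cst a') d) = ∑ _d : C, 1 := by
    rw [SB.ilen_eq hle] at l1
    have e3 : ∀ d, SB.ev (SA.cst a) d = b := fun d => by rw [e, SB.ev_cst]
    simp only [e3] at l1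
    rw [l1]
    simp
  have l3 : ∀ d ∈ (Finset.univ : Finset C), 1 = ilen b (SB.ev (SA.cst a') d) :=
    (Finset.sum_eq_sum_iff_of_le (fun d _ => ilen_pos (hlt d))).1 l2.symm
  have l4 : ∀ d, b ⋖ SB.ev (SA.cst a') d := fun d =>
    covBy_of_ilen_one (hlt d).le (l3 d (Finset.mem_univ d)).symm
  have l5 : ∀ d d', SB.ev (SA.cst a') d = SB.ev (SA.cst a') d' := by
    refine hC.eq_of_le_eq _ ?_
    intro x y hxy
    rcases (l4 y).eq_or_eq (l4 x).le (SB.mono _ hxy) with e | e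
    · exact absurd (hlt x) (by rw [e]; exact lt_irrefl _)
    · exact e
  obtain ⟨d0⟩ := hne
  refine ⟨SB.ev (SA.cst a') d0, ?_, l4 d0⟩
  apply SB.inj
  intro d
  rw [SB.ev_cst]; exact l5 d d0

end gen

/-- all of `Qx β` consists of `B`-constants -/
def UpGood (SA : Pow C A M) (SB : Pow C B M) (β : B) : Prop :=
  ∀ q ∈ Qx SA SB β, ∃ β', q = SB.cst β'

/-- bottom of `Qx β` -/
@[reducible] noncomputable def Nice.obQ {SA : Pow C A M} {SB : Pow C B M} {β : B} (hβ : Nice SA SB β) :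
    OrderBot (Qx SA SB β) where
  bot := ⟨SB.cst β, hβ.self_mem_Qx⟩
  bot_le q := q.2.1.1

/-- bottom of `Bx β` -/
@[reducible] def obB (SA : Pow C A M) (SB : Pow C B M) (β : B) : OrderBot (Bx SA SB β) where
  bot := ⟨β, self_mem_Bx SA SB β⟩
  bot_le b := b.2.1

section nice

variable [Finite C] [Finite A] [Finite B] [Finite M]
  {SA : Pow C A M} {SB : Pow C B M} (hC : PConn C) (hirr : PIrr C) (hn : Nontrivial C)
  (htop : ∀ x : C, ∃ y, ¬ y ≤ x) (hbot : ∀ x : C, ∃ y, ¬ x ≤ y)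

include hC hirr hn htop hbot

/-- `SB` restricted to `Nx β` -/
def Nice.SBr {β : B} (hβ : Nice SA SB β) : Pow C (Bx SA SB β) (Nx SA SB β) :=
  SB.restr (Bx SA SB β) (Nx SA SB β) (hβ.mem_Nx_iff hC hirr hn htop hbot)

theorem Nice.SBr_cst {β : B} (hβ : Nice SA SB β) (b : Bx SA SB β) :
    ((hβ.SBr hC hirr hn htop hbot).cst b).1 = SB.cst b.1 :=
  SB.restr_cst _ _ _ b

/-- a `B`-constant in `Qx β` is a common constant of the two structures -/
theorem Nice.cst_eq {β β' : B} (hβ : Nice SA SB β) (q : Qx SA SB β) (h : q.1 = SB.cst β') :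
    ∃ b : Bx SA SB β, b.1 = β' ∧
      (hβ.SQ hC hirr hn htop hbot).cst q = (hβ.SBr hC hirr hn htop hbot).cst b := by
  obtain ⟨d⟩ := hC.ne
  have hb : β' ∈ Bx SA SB β := by
    have := (hβ.mem_Nx_iff hC hirr hn htop hbot q.1).1 q.2.1 d
    rwa [h, SB.ev_cst] at this
  refine ⟨⟨β', hb⟩, rfl, ?_⟩
  apply Subtype.ext
  rw [hβ.SQ_cst hC hirr hn htop hbot, hβ.SBr_cst hC hirr hn htop hbot, h]

theorem Nice.typedQ {β : B} (hβ : Nice SA SB β) {p q : Qx SA SB β} (h : p ⋖ q) :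
    (∃ π, DS (hβ.SQ hC hirr hn htop hbot) (hβ.SBr hC hirr hn htop hbot) p q π) ∨
    (∃ x, DX (hβ.SQ hC hirr hn htop hbot) (hβ.SBr hC hirr hn htop hbot) p q x) := by
  letI := hβ.obQ
  letI := obB SA SB β
  obtain ⟨c⟩ := hC.ne
  obtain ⟨f, g, d, h1, h2, h3, h4, -⟩ := exists_D_edge (hβ.SQ hC hirr hn htop hbot)
    (hβ.SBr hC hirr hn htop hbot) h c
  rcases region_dichotomy _ _ hC hirr hn h1 h2 with ⟨π, -, h5, -⟩ | ⟨h5, -⟩
  · left; rw [h3, h4] at h5; exact ⟨π, h5⟩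
  · right; rw [h3, h4] at h5; exact ⟨d, h5⟩

theorem Nice.G1 {β : B} (hβ : Nice SA SB β)
    (hat : ∀ q ∈ Qx SA SB β, SB.cst β < q →
      (∀ r ∈ Qx SA SB β, SB.cst β < r → r ≤ q → r = q) → ∃ β', q = SB.cst β') :
    UpGood SA SB β ∧ ∀ β' ∈ Bx SA SB β, SB.cst β' ∈ Qx SA SB β := by
  have hne := hC.ne
  letI := hβ.obQ
  letI := obB SA SB β
  have h1 : ∀ p : Qx SA SB β, ⊥ ⋖ p → ∃ π, DS (hβ.SQ hC hirr hn htop hbot)
      (hβ.SBr hC hirr hn htop hbot) ⊥ p π := by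
    intro p hp
    obtain ⟨β', hβ'⟩ := hat p.1 p.2 hp.lt (by
      intro r hr h1 h2
      rcases h2.eq_or_lt with e | hlt
      · exact e
      · exact absurd hlt (hp.2 (c := ⟨r, hr⟩) h1))
    rcases hβ.typedQ hC hirr hn htop hbot hp with h | ⟨x, hx⟩
    · exact h
    · exfalso
      obtain ⟨b, -, hb⟩ := hβ.cst_eq hC hirr hn htop hbot p hβ'
      obtain ⟨b0, -, hb0⟩ := hβ.cst_eq hC hirr hn htop hbot ⊥ (β' := β) rfl
      exact not_DX_of_const hC hn hp hb0 hb x hx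
  have h2 := region_atoms (hβ.SQ hC hirr hn htop hbot)
    (hβ.SBr hC hirr hn htop hbot) hC hirr hn htop hbot h1
  have h3 : ∀ b b' : Bx SA SB β, b ⋖ b' → ∃ π, DS (hβ.SBr hC hirr hn htop hbot)
      (hβ.SQ hC hirr hn htop hbot) b b' π := by
    intro b b' hbb
    obtain ⟨c⟩ := hC.ne
    obtain ⟨f, g, d, k1, k2, k3, k4, -⟩ := exists_D_edge (hβ.SBr hC hirr hn htop hbot)
      (hβ.SQ hC hirr hn htop hbot) hbb c
    rcases region_dichotomy _ _ hC hirr hn k2 k1 with ⟨π, -, -, h5⟩ | ⟨h5, -⟩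
    · rw [k3, k4] at h5; exact ⟨_, h5⟩
    · exfalso
      obtain ⟨π, hπ⟩ := h2 _ _ k2.cov
      obtain ⟨u, v, huv⟩ := hn.exists_pair_ne
      exact huv (π.injective (((hπ u).unique (h5 u)).trans ((hπ v).unique (h5 v)).symm))
  constructor
  · intro q hq
    obtain ⟨b, hb⟩ := region_SO (hβ.SQ hC hirr hn htop hbot)
      (hβ.SBr hC hirr hn htop hbot) hC h2 ⟨q, hq⟩
    refine ⟨b.1, ?_⟩
    have := congrArg Subtype.val hb
    rw [hβ.SQ_cst hC hirr hn htop hbot, hβ.SBr_cst hC hirr hn htop hbot] at this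
    exact this
  · intro β' hβ'
    obtain ⟨q, hq⟩ := region_SO (hβ.SBr hC hirr hn htop hbot)
      (hβ.SQ hC hirr hn htop hbot) hC h3 ⟨β', hβ'⟩
    have := congrArg Subtype.val hq
    rw [hβ.SQ_cst hC hirr hn htop hbot, hβ.SBr_cst hC hirr hn htop hbot] at this
    have this : SB.cst β' = q.1 := this
    rw [this]; exact q.2

theorem Nice.G3 {β β' : B} (hβ : Nice SA SB β) (h : SB.cst β' ∈ Qx SA SB β) :
    Nice SA SB β' ∧ Qx SA SB β' ⊆ Qx SA SB β := by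
  have h1 : ∀ c, SA.ev (SB.cst β) c ≤ SA.ev (SB.cst β') c := fun c => (SA.le_iff _ _).1 h.1.1 c
  constructor
  · refine ⟨h.2, fun c c' hcc => ?_⟩
    have h2 := SA.mono (SB.cst β) hcc
    exact (SC_up SA SB hC hirr hn htop hbot (hβ.isE c) h2 (h1 c') (hβ.ix c c' hcc)
      (h.1.2 c')).mono (h1 c) le_rfl
  · intro q hq
    refine ⟨⟨h.1.1.trans hq.1.1, fun c => ?_⟩, hq.2⟩
    exact SC_up SA SB hC hirr hn htop hbot (hβ.isE c) (h1 c) ((SA.le_iff _ _).1 hq.1.1 c)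
      (h.1.2 c) (hq.1.2 c)

theorem Nice.G2core {β β'' : B} (hβ : Nice SA SB β) (h1 : SB.cst β'' ∈ Qx SA SB β)
    (h2 : SB.cst β < SB.cst β'')
    (h3 : ∀ r ∈ Qx SA SB β, SB.cst β < r → r ≤ SB.cst β'' → r = SB.cst β'')
    (hup : UpGood SA SB β'') :
    UpGood SA SB β ∧ ∀ β' ∈ Bx SA SB β, SB.cst β' ∈ Qx SA SB β := by
  have hne := hC.ne
  apply hβ.G1 hC hirr hn htop hbot
  intro q hq hlt hmin
  letI := hβ.obQ
  letI := obB SA SB β
  have hp : (⊥ : Qx SA SB β) ⋖ ⟨q, hq⟩ := ⟨hlt, fun r hr1 hr2 => by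
    have := hmin r.1 r.2 hr1 hr2.le
    exact hr2.ne (Subtype.ext this)⟩
  have hp' : (⊥ : Qx SA SB β) ⋖ ⟨SB.cst β'', h1⟩ := ⟨h2, fun r hr1 hr2 => by
    have := h3 r.1 r.2 hr1 hr2.le
    exact hr2.ne (Subtype.ext this)⟩
  obtain ⟨b0, hb0', hb0⟩ := hβ.cst_eq hC hirr hn htop hbot ⊥ (β' := β) rfl
  rcases hβ.typedQ hC hirr hn htop hbot hp with ⟨π, hπ⟩ | ⟨d0, hx⟩
  · obtain ⟨b', hb', -⟩ := const_of_DS hC hp hb0 hπ
    refine ⟨b'.1, ?_⟩
    have := congrArg Subtype.val hb'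
    rw [hβ.SQ_cst hC hirr hn htop hbot, hβ.SBr_cst hC hirr hn htop hbot] at this
    exact this
  · exfalso
    obtain ⟨b1, hb1', hb1⟩ := hβ.cst_eq hC hirr hn htop hbot ⟨SB.cst β'', h1⟩ (β' := β'') rfl
    rcases hβ.typedQ hC hirr hn htop hbot hp' with ⟨π', hπ'⟩ | ⟨x, hx'⟩
    swap
    · exact not_DX_of_const hC hn hp' hb0 hb1 x hx'
    obtain ⟨x, hxmax, hxne⟩ := exists_max_ne hC htop (π'.symm d0)
    have hdne : d0 ≠ π' x := by
      intro e; apply hxne; rw [e]; exact (π'.symm_apply_apply x).symm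
    set SQ := hβ.SQ hC hirr hn htop hbot with hSQ
    set SBr := hβ.SBr hC hirr hn htop hbot with hSBr
    obtain ⟨h, hh1, hh2, hh3⟩ := SQ.exists_raise (SQ.cst ⊥) x ⟨q, hq⟩
      (by rw [SQ.ev_cst]; exact hp.le) (fun y hy => absurd (hxmax y hy.le) hy.ne')
    obtain ⟨h', hh1', hh2', hh3'⟩ := SQ.exists_raise (SQ.cst ⊥) x ⟨SB.cst β'', h1⟩
      (by rw [SQ.ev_cst]; exact hp'.le) (fun y hy => absurd (hxmax y hy.le) hy.ne')
    have s1 : SQ.Step (SQ.cst ⊥) h x :=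
      ⟨by rw [SQ.ev_cst, hh2]; exact hp, fun y hy => (hh3 y hy).symm⟩
    have s1' : SQ.Step (SQ.cst ⊥) h' x :=
      ⟨by rw [SQ.ev_cst, hh2']; exact hp', fun y hy => (hh3' y hy).symm⟩
    have t1 : SBr.Step (SQ.cst ⊥) h d0 :=
      (hx x).step s1 (SQ.ev_cst _ _) hh2 (a0 := ⊥) (fun y => by rw [SQ.ev_cst])
    have t1' : SBr.Step (SQ.cst ⊥) h' (π' x) :=
      (hπ' x).step s1' (SQ.ev_cst _ _) hh2' (a0 := ⊥) (fun y => by rw [SQ.ev_cst])
    obtain ⟨k, k1, k2, w1, w2⟩ := SBr.join_square t1 t1' hdne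
    have s2 : SQ.Step h' k x := wt_step_up w1 s1
    have hw := (wt_step w1 s1 s2).2
    rw [SQ.ev_cst, hh2, hh2'] at hw
    have hDX : DX SQ SBr ⟨SB.cst β'', h1⟩ (SQ.ev k x) d0 := fun c => (hx c).wt hw
    -- the new element is a `B`-constant
    have hmem : (SQ.ev k x).1 ∈ Qx SA SB β'' := by
      have hle : SB.cst β'' ≤ (SQ.ev k x).1 := hw.c2.le
      refine ⟨⟨hle, fun c => ?_⟩, (SQ.ev k x).2.2⟩
      exact ((SQ.ev k x).2.1.2 c).mono ((SA.le_iff _ _).1 h1.1.1 c) le_rfl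
    obtain ⟨β3, hβ3⟩ := hup _ hmem
    obtain ⟨b3, -, hb3⟩ := hβ.cst_eq hC hirr hn htop hbot (SQ.ev k x) hβ3
    exact not_DX_of_const hC hn hw.c2 hb1 hb3 d0 hDX

end nice

end Pow

end Pool.Agent.Birk
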