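import Pool.Agent.Lib_MP_aad2bd_co.Nice3

/-!
Duality and propagation of goodness.
-/

set_option autoImplicit false
set_option linter.style.haveILetI false
set_option linter.unusedSectionVars false
set_option linter.unusedVariables false

namespace Pool.Agent.Birk

open OrderDual

namespace Pow

variable {C A B M : Type} [PartialOrder C] [PartialOrder A] [PartialOrder B] [PartialOrder M]

section dual
variable {SA : Pow C A M} {SB : Pow C B M}

theorem DX_dual {a a' : A} {x : C} :
    DX SA.dual SB.dual (toDual a') (toDual a) (toDual x) ↔ DX SA SB a a' x :=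
  ⟨fun h c => D.of_dual (h (toDual c)), fun h c => (h (ofDual c)).dual⟩

theorem IX_dual {a a' : A} :
    IX SA.dual SB.dual (toDual a') (toDual a) ↔ IX SA SB a a' := by
  constructor
  · intro h a1 a2 h1 h2 h3
    obtain ⟨x, hx⟩ := h (toDual a2) (toDual a1) (toDual_le_toDual.2 h3)
      (toDual_covBy_toDual_iff.2 h2) (toDual_le_toDual.2 h1)
    exact ⟨ofDual x, DX_dual.1 hx⟩
  · intro h a1 a2 h1 h2 h3
    obtain ⟨x, hx⟩ := h (ofDual a2) (ofDual a1) (toDual_le_toDual.1 h3)
      (toDual_covBy_toDual_iff.1 h2) (toDual_le_toDual.1 h1)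
    exact ⟨toDual x, DX_dual.2 hx⟩

theorem IsE_dual {a : A} : IsE SA.dual SB.dual (toDual a) ↔ IsE SA SB a := by
  constructor
  · rintro ⟨b, hb⟩
    refine ⟨ofDual b, ?_⟩
    have h2 : SB.dual.cst b = toDual (SB.cst (ofDual b)) := SB.dual_cst (ofDual b)
    rw [SA.dual_cst, h2] at hb
    exact toDual_inj.1 hb
  · rintro ⟨b, hb⟩
    exact ⟨toDual b, by rw [SA.dual_cst, SB.dual_cst, hb]⟩

theorem dual_ev_cst (SA : Pow C A M) (SB : Pow C B M) (β : B) (c : C) :
    SA.dual.ev (SB.dual.cst (toDual β)) (toDual c) = toDual (SA.ev (SB.cst β) c) := by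
  rw [SB.dual_cst]; rfl

theorem Nice_dual {β : B} : Nice SA.dual SB.dual (toDual β) ↔ Nice SA SB β := by
  constructor
  · rintro ⟨h1, h2⟩
    refine ⟨fun c => ?_, fun c c' hcc => ?_⟩
    · have := h1 (toDual c)
      rw [dual_ev_cst] at this
      exact IsE_dual.1 this
    · have := h2 (toDual c') (toDual c) (toDual_le_toDual.2 hcc)
      rw [dual_ev_cst, dual_ev_cst] at this
      exact IX_dual.1 this
  · rintro ⟨h1, h2⟩
    refine ⟨fun c => ?_, fun c c' hcc => ?_⟩
    · have := IsE_dual.2 (h1 (ofDual c))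
      rw [← dual_ev_cst] at this
      exact this
    · have := IX_dual.2 (h2 (ofDual c') (ofDual c) (toDual_le_toDual.1 hcc))
      rw [← dual_ev_cst, ← dual_ev_cst] at this
      exact this

theorem mem_Qx_dual {β : B} {q : M} :
    toDual q ∈ Qx SA.dual SB.dual (toDual β) ↔
      q ≤ SB.cst β ∧ (∀ c, IX SA SB (SA.ev q c) (SA.ev (SB.cst β) c)) ∧
        ∀ c, IsE SA SB (SA.ev q c) := by
  constructor
  · rintro ⟨⟨h1, h2⟩, h3⟩
    refine ⟨?_, fun c => ?_, fun c => ?_⟩
    · rw [SB.dual_cst] at h1; exact toDual_le_toDual.1 h1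
    · have := h2 (toDual c)
      rw [dual_ev_cst] at this
      exact IX_dual.1 this
    · exact IsE_dual.1 (h3 (toDual c))
  · rintro ⟨h1, h2, h3⟩
    refine ⟨⟨?_, fun c => ?_⟩, fun c => ?_⟩
    · rw [SB.dual_cst]; exact toDual_le_toDual.2 h1
    · have := IX_dual.2 (h2 (ofDual c))
      rw [← dual_ev_cst] at this
      exact this
    · exact IsE_dual.2 (h3 (ofDual c))

theorem XB_dual {β1 β2 : B} :
    XB SA.dual SB.dual (toDual β2) (toDual β1) ↔ XB SA SB β1 β2 := by
  constructor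
  · intro h c
    have := h (toDual c)
    rw [dual_ev_cst, dual_ev_cst] at this
    exact IX_dual.1 this
  · intro h c
    have := IX_dual.2 (h (ofDual c))
    rw [← dual_ev_cst, ← dual_ev_cst] at this
    exact this

end dual

/-- goodness -/
structure Good (SA : Pow C A M) (SB : Pow C B M) (β : B) : Prop where
  nice : Nice SA SB β
  up : UpGood SA SB β
  dn : UpGood SA.dual SB.dual (toDual β)

theorem Good_dual {SA : Pow C A M} {SB : Pow C B M} {β : B} :
    Good SA.dual SB.dual (toDual β) ↔ Good SA SB β := by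
  constructor
  · rintro ⟨h1, h2, h3⟩
    refine ⟨Nice_dual.1 h1, ?_, h2⟩
    intro q hq
    obtain ⟨β', h⟩ := h3 q hq
    exact ⟨β', h⟩
  · rintro ⟨h1, h2, h3⟩
    exact ⟨Nice_dual.2 h1, h3, h2⟩

section nice

variable [Finite C] [Finite A] [Finite B] [Finite M]
  {SA : Pow C A M} {SB : Pow C B M} (hC : PConn C) (hirr : PIrr C) (hn : Nontrivial C)
  (htop : ∀ x : C, ∃ y, ¬ y ≤ x) (hbot : ∀ x : C, ∃ y, ¬ x ≤ y)

include hC hirr hn htop hbot

theorem UpGood.down {β : B} (hβ : Nice SA SB β) (hup : UpGood SA SB β)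
    (hdn : UpGood SA.dual SB.dual (toDual β)) :
    ∀ β' : B, toDual (SB.cst β') ∈ Qx SA.dual SB.dual (toDual β) → UpGood SA SB β' := by
  have hne := hC.ne
  intro β'
  have hwf : WellFounded (fun x y : B => y < x) := wellFounded_gt
  induction β' using hwf.induction with
  | _ β' ih =>
    intro hmem
    obtain ⟨m1, m2, m3⟩ := mem_Qx_dual.1 hmem
    have hle : β' ≤ β := SB.cst_le_cst.1 m1
    rcases hle.eq_or_lt with rfl | hlt
    · exact hup
    -- niceness of `β'`
    have hnice : Nice SA SB β' := by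
      refine ⟨m3, fun c c' hcc => ?_⟩
      -- dual transitivity
      have h1 := (Nice.G3 hC.dual hirr.dual inferInstance (fun x => hbot (ofDual x))
        (fun x => htop (ofDual x)) (Nice_dual.2 hβ) (β' := toDual β') (by
          rw [SB.dual_cst]; exact hmem)).1
      exact (Nice_dual.1 h1).ix c c' hcc
    obtain ⟨q', hq'⟩ := (Set.toFinite {q : M | toDual q ∈ Qx SA.dual SB.dual (toDual β) ∧
      SB.cst β' < q}).exists_minimal ⟨SB.cst β, by
        refine ⟨?_, lt_of_le_of_ne m1 fun e => hlt.ne (SB.cst_inj.1 e)⟩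
        rw [← SB.dual_cst]; exact (Nice_dual.2 hβ).self_mem_Qx⟩
    obtain ⟨⟨p1, p2⟩, p3⟩ := hq'
    obtain ⟨γ, hγ⟩ := hdn _ p1
    obtain ⟨β'', hγ2⟩ : ∃ β'' : B, γ = toDual β'' := ⟨ofDual γ, rfl⟩
    have hβ2 : q' = SB.cst β'' := by
      rw [hγ2, SB.dual_cst] at hγ
      exact toDual_inj.1 hγ
    subst hβ2
    have hup2 : UpGood SA SB β'' := ih β'' (by
      refine lt_of_le_of_ne (SB.cst_le_cst.1 p2.le) ?_
      rintro rfl; exact lt_irrefl _ p2) p1
    obtain ⟨n1, n2, n3⟩ := mem_Qx_dual.1 p1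
    refine (hnice.G2core hC hirr hn htop hbot (β'' := β'') ⟨⟨p2.le, fun c => ?_⟩, n3⟩ p2 ?_ hup2).1
    · exact (m2 c).mono le_rfl ((SA.le_iff _ _).1 n1 c)
    · intro r hr h1 h2
      have : toDual r ∈ Qx SA.dual SB.dual (toDual β) := by
        rw [mem_Qx_dual]
        refine ⟨h2.trans n1, fun c => ?_, hr.2⟩
        exact (m2 c).mono ((SA.le_iff _ _).1 h1.le c) le_rfl
      exact le_antisymm h2 (p3 (y := r) ⟨this, h1⟩ h2)

theorem Good.down {β β' : B} (hβ : Good SA SB β)
    (hmem : toDual (SB.cst β') ∈ Qx SA.dual SB.dual (toDual β)) : Good SA SB β' := by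
  have h1 := Nice.G3 hC.dual hirr.dual inferInstance (fun x => hbot (ofDual x))
        (fun x => htop (ofDual x)) (Nice_dual.2 hβ.nice) (β' := toDual β') (by
          rw [SB.dual_cst]; exact hmem)
  refine ⟨Nice_dual.1 h1.1, ?_, ?_⟩
  · exact UpGood.down hC hirr hn htop hbot hβ.nice hβ.up hβ.dn β' hmem
  · intro q hq
    exact hβ.dn q (h1.2 hq)

theorem Good.upw {β β' : B} (hβ : Good SA SB β)
    (hmem : SB.cst β' ∈ Qx SA SB β) : Good SA SB β' := by
  rw [← Good_dual]
  refine Good.down hC.dual hirr.dual inferInstance (fun x => hbot (ofDual x))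
        (fun x => htop (ofDual x)) (Good_dual.2 hβ) (β' := toDual β') ?_
  rw [SB.dual_cst]
  exact hmem

/-- bi-constants are upward good -/
theorem upGood_of_E {a : A} {b : B} (h : SA.cst a = SB.cst b) : UpGood SA SB b := by
  have hne := hC.ne
  have hev : ∀ c, SA.ev (SB.cst b) c = a := fun c => by rw [← h, SA.ev_cst]
  intro q hq
  obtain ⟨a', b', h1, h2, h3⟩ := RX2_up SA SB hC hirr hn htop hbot (a0 := a) ⟨b, h⟩
    (fun c => SA.ev q c) (SA.mono q)
    (fun c => by have := (SA.le_iff _ _).1 hq.1.1 c; rwa [hev c] at this) hq.2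
    (fun c => by have := hq.1.2 c; rwa [hev c] at this)
  exact ⟨b', SA.inj fun c => (h3 c).symm⟩

theorem good_of_E {a : A} {b : B} (h : SA.cst a = SB.cst b) : Good SA SB b := by
  have hne := hC.ne
  have hev : ∀ c, SA.ev (SB.cst b) c = a := fun c => by rw [← h, SA.ev_cst]
  refine ⟨⟨fun c => ?_, fun c c' _ => ?_⟩, ?_, ?_⟩
  · rw [hev]; exact ⟨b, h⟩
  · rw [hev, hev]; exact IX.rfl' _ _ _
  · exact upGood_of_E hC hirr hn htop hbot h
  · exact upGood_of_E (SA := SA.dual) (SB := SB.dual) hC.dual hirr.dual inferInstance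
      (fun x => hbot (ofDual x)) (fun x => htop (ofDual x)) (a := toDual a) (b := toDual b)
      (by rw [SA.dual_cst, SB.dual_cst, h])

/-- above an upward good element, x-type `B`-covers stay in `Qx` -/
theorem Good.XB_mem {β β' : B} (hβ : Good SA SB β) (hle : β ≤ β') (hx : XB SA SB β β') :
    SB.cst β' ∈ Qx SA SB β := by
  refine (hβ.nice.G1 hC hirr hn htop hbot (fun q hq _ _ => hβ.up q hq)).2 β' ⟨hle, hx⟩

theorem Good.of_XB_up {β β' : B} (hβ : Good SA SB β) (hle : β ≤ β') (hx : XB SA SB β β') :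
    Good SA SB β' :=
  hβ.upw hC hirr hn htop hbot (hβ.XB_mem hC hirr hn htop hbot hle hx)

theorem Good.of_XB_down {β β' : B} (hβ : Good SA SB β) (hle : β' ≤ β) (hx : XB SA SB β' β) :
    Good SA SB β' := by
  rw [← Good_dual]
  exact Good.of_XB_up hC.dual hirr.dual inferInstance (fun x => hbot (ofDual x))
        (fun x => htop (ofDual x)) (Good_dual.2 hβ) (toDual_le_toDual.2 hle) (XB_dual.2 hx)

end nice

end Pow

end Pool.Agent.Birk
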