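import Pool.Agent.Lib_MP_aad2bd_co.Nice4

/-!
Transport of s-type `B`-covers along x-type `B`-covers.
-/

set_option autoImplicit false
set_option linter.style.haveILetI false
set_option linter.unusedSectionVars false
set_option linter.unusedVariables false

namespace Pool.Agent.Birk

open OrderDual

namespace Pow

variable {C A B M : Type} [PartialOrder C] [PartialOrder A] [PartialOrder B] [PartialOrder M]

theorem fourth (S : Pow C A M) {f g k h : M} {c c' : C} (h1 : S.Step f g c) (h2 : S.Step g k c')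
    (hne : c ≠ c') (hf : f < h) (hk : h < k) (hg : h ≠ g) :
    S.Step f h c' ∧ S.Step h k c ∧ S.ev h c' = S.ev k c' ∧ S.ev h c = S.ev f c := by
  have m1 := (S.le_iff _ _).1 hf.le
  have m2 := (S.le_iff _ _).1 hk.le
  have hx : ∀ x, x ≠ c → x ≠ c' → S.ev h x = S.ev f x := fun x hx hx' =>
    le_antisymm ((m2 x).trans ((h1.eq x hx).trans (h2.eq x hx')).ge) (m1 x)
  have e1 : S.ev f c' = S.ev g c' := h1.eq c' (Ne.symm hne)
  have e2 : S.ev g c = S.ev k c := h2.eq c hne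
  have a1 : S.ev h c = S.ev f c ∨ S.ev h c = S.ev g c := h1.cov.eq_or_eq (m1 c) (e2 ▸ m2 c)
  have a2 : S.ev h c' = S.ev g c' ∨ S.ev h c' = S.ev k c' :=
    h2.cov.eq_or_eq (e1 ▸ m1 c') (m2 c')
  have b1 : S.ev h c = S.ev f c ∧ S.ev h c' = S.ev k c' := by
    rcases a1 with a1 | a1 <;> rcases a2 with a2 | a2
    · exfalso
      apply hf.ne
      apply S.inj
      intro x
      by_cases h3 : x = c
      · rw [h3, a1]
      · by_cases h4 : x = c'
        · rw [h4, a2, e1]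
        · rw [hx x h3 h4]
    · exact ⟨a1, a2⟩
    · exfalso
      apply hg
      apply S.inj
      intro x
      by_cases h3 : x = c
      · rw [h3, a1]
      · by_cases h4 : x = c'
        · rw [h4, a2]
        · rw [hx x h3 h4, h1.eq x h3]
    · exfalso
      apply hk.ne
      apply S.inj
      intro x
      by_cases h3 : x = c
      · rw [h3, a1, e2]
      · by_cases h4 : x = c'
        · rw [h4, a2]
        · rw [hx x h3 h4, h1.eq x h3, h2.eq x h4]
  refine ⟨⟨?_, ?_⟩, ⟨?_, ?_⟩, b1.2, b1.1⟩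
  · rw [b1.2, e1]; exact h2.cov
  · intro x hx'
    by_cases h3 : x = c
    · rw [h3, b1.1]
    · exact (hx x h3 hx').symm
  · rw [b1.1, ← e2]; exact h1.cov
  · intro x hx'
    by_cases h3 : x = c'
    · rw [h3, b1.2]
    · rw [hx x hx' h3, h1.eq x hx', h2.eq x h3]

section
variable [Finite C] {SA : Pow C A M} {SB : Pow C B M}

/-- swapping an (x,s)-chain of labels -/
theorem swap_labels (htop : ∀ x : C, ∃ y, ¬ y ≤ x) {u u' u'' : A} {x : C} {π : C ≃o C}
    (hx : DX SA SB u u' x) (hs : DS SA SB u' u'' π) :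
    ∃ v, WT u v u' u'' ∧ WT u u' v u'' := by
  obtain ⟨y, hy⟩ := htop x
  set c := π.symm y with hcdef
  have hcy : π c = y := π.apply_symm_apply y
  have hc := (hx c).cov
  have hc' := (hs c).cov
  have hle : SA.cst u ≤ SA.cst u'' := by
    rw [SA.le_iff]; intro x; rw [SA.ev_cst, SA.ev_cst]; exact hc.le.trans hc'.le
  obtain ⟨f, g, e1, e2, e3, e4, e5, e6, e7⟩ := SA.exists_slot_step hle c (b := u)
    (b' := u') (by rw [SA.ev_cst]) (by rw [SA.ev_cst]; exact hc'.le) hc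
  obtain ⟨g1, k, e1', e2', e3', e4', e5', e6', e7'⟩ := SA.exists_slot_step hle c (b := u')
    (b' := u'') (by rw [SA.ev_cst]; exact hc.le) (by rw [SA.ev_cst]) hc'
  have hg : g1 = g := by
    apply SA.inj
    intro x
    by_cases hx : x = c
    · rw [hx, e5, e4']
    · rw [← e3.eq x hx]
      by_cases hcx : c ≤ x
      · have : c < x := lt_of_le_of_ne hcx (Ne.symm hx)
        rw [e6 x this, e6' x this]
      · rw [e7 x hcx, e7' x hcx]
  subst hg
  have s1 : SB.Step f g1 x := (hx c).step e3 e4 e5 (SA.cst_le_iff.1 e1)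
  have s2 : SB.Step g1 k (π c) := (hs c).step e3' e4' e5' (SA.cst_le_iff.1 e1')
  have hne : x ≠ π c := by
    intro e; apply hy; rw [← hcy, ← e]
  have hnot : ¬ ∀ h, f < h → h < k → h = g1 := by
    intro h3
    rcases SB.chain3 s1 s2 h3 with ⟨h4, _⟩ | ⟨h4, _⟩
    · apply hy; rw [← hcy]; exact h4.le
    · exact hne h4.symm
  push Not at hnot
  obtain ⟨h, hf, hk, hg⟩ := hnot
  obtain ⟨t1, t2, t3, t4⟩ := SB.fourth s1 s2 hne hf hk hg
  have hhg : ¬ h ≤ g1 := by
    intro hle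
    have := (SB.le_iff _ _).1 hle (π c)
    rw [t3] at this
    exact absurd s2.cov.lt (not_lt_of_ge this)
  have hgh : ¬ g1 ≤ h := by
    intro hle
    have := (SB.le_iff _ _).1 hle x
    rw [t4] at this
    exact absurd s1.cov.lt (not_lt_of_ge this)
  have w1 : WT f h g1 k := ⟨t1.covBy, s2.covBy, s1.le, t2.le, hhg⟩
  have w2 : WT f g1 h k := ⟨s1.covBy, t2.covBy, t1.le, s2.le, hgh⟩
  have r1 : SA.Step f h c := wt_step_down w1 e3'
  have r2 : SA.Step h k c := wt_step_up w2 e3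
  have l1 := (wt_step w1 r1 e3').2
  have l2 := (wt_step w2 e3 r2).2
  rw [e4, e4', e5'] at l1
  rw [e4, e4', e5'] at l2
  exact ⟨SA.ev h c, l1, l2⟩

/-- joining an s-label and an x-label -/
theorem join_labels (hC : PConn C) (htop : ∀ x : C, ∃ y, ¬ y ≤ x) {e a p : A} {x : C}
    {π : C ≃o C} (hs : DS SA SB e a π) (hx : DX SA SB e p x) :
    ∃ r, WT e a p r ∧ WT e p a r := by
  obtain ⟨c, hcmax, hcne⟩ := exists_max_ne hC htop (π.symm x)
  have hne : π c ≠ x := by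
    intro h; apply hcne; rw [← h]; exact (π.symm_apply_apply c).symm
  obtain ⟨f, -, hf2, hf3⟩ := SA.exists_raise (SA.cst e) c a
      (by rw [SA.ev_cst]; exact (hs c).cov.le) (fun y hy => absurd (hcmax y hy.le) hy.ne')
  obtain ⟨g, -, hg2, hg3⟩ := SA.exists_raise (SA.cst e) c p
      (by rw [SA.ev_cst]; exact (hx c).cov.le) (fun y hy => absurd (hcmax y hy.le) hy.ne')
  have s1 : SA.Step (SA.cst e) f c :=
    ⟨by rw [SA.ev_cst, hf2]; exact (hs c).cov, fun y hy => (hf3 y hy).symm⟩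
  have s2 : SA.Step (SA.cst e) g c :=
    ⟨by rw [SA.ev_cst, hg2]; exact (hx c).cov, fun y hy => (hg3 y hy).symm⟩
  have t1 : SB.Step (SA.cst e) f (π c) :=
      (hs c).step s1 (SA.ev_cst _ _) hf2 (a0 := e) (fun y => by rw [SA.ev_cst])
  have t2 : SB.Step (SA.cst e) g x :=
      (hx c).step s2 (SA.ev_cst _ _) hg2 (a0 := e) (fun y => by rw [SA.ev_cst])
  obtain ⟨k, k1, k2, w1, w2⟩ := SB.join_square t1 t2 hne
  have r1 : SA.Step g k c := wt_step_up w1 s1
  have r2 : SA.Step f k c := wt_step_up w2 s2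
  have l1 := (wt_step w1 s1 r1).2
  have l2 := (wt_step w2 s2 r2).2
  rw [SA.ev_cst, hf2, hg2] at l1
  rw [SA.ev_cst, hf2, hg2] at l2
  exact ⟨_, l1, l2⟩

end

section nice

variable [Finite C] [Finite A] [Finite B] [Finite M]
  {SA : Pow C A M} {SB : Pow C B M} (hC : PConn C) (hirr : PIrr C) (hn : Nontrivial C)
  (htop : ∀ x : C, ∃ y, ¬ y ≤ x) (hbot : ∀ x : C, ∃ y, ¬ x ≤ y)

include hC hirr hn

/-- an edge whose `A`-label is not of type x is of type s -/
theorem Nice.DS_of_not_XA {β : B} (hβ : Nice SA SB β) {f g : M} {c : C} (h0 : SB.cst β ≤ f)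
    (h : SA.Step f g c) (hnx : ¬ XA SA SB f g) : ∃ π, DS SA SB (SA.ev f c) (SA.ev g c) π := by
  rcases hβ.typed hC hirr hn h0 h with h1 | ⟨x, h1⟩
  · exact h1
  · exfalso
    apply hnx
    intro c' hc'
    have := hc'.unique h
    subst this
    exact ⟨x, h1⟩

theorem not_DX_of_DS {a a' : A} {π : C ≃o C} {x : C} (h : DS SA SB a a' π) :
    ¬ DX SA SB a a' x := by
  intro hx
  obtain ⟨u, v, huv⟩ := hn.exists_pair_ne
  exact huv (π.injective (((h u).unique (hx u)).trans ((h v).unique (hx v)).symm))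

include htop hbot

theorem Nice.chain_up {β1 β0 β0' : B} (hβ : Nice SA SB β1) (h1 : β1 ⋖ β0) (h2 : β0 ⋖ β0')
    (hx : XB SA SB β1 β0) (hs : ¬ XB SA SB β0 β0') :
    ∃ β'', β1 ⋖ β'' ∧ β'' ⋖ β0' ∧ ¬ XB SA SB β1 β'' ∧ XB SA SB β'' β0' := by
  have hne := hC.ne
  obtain ⟨d⟩ := hC.ne
  have hle : SB.cst β1 ≤ SB.cst β0' := SB.cst_le_cst.2 (h1.le.trans h2.le)
  obtain ⟨f, g, e1, e2, e3, e4, e5, e6, e7⟩ := SB.exists_slot_step hle d (b := β1)
    (b' := β0) (by rw [SB.ev_cst]) (by rw [SB.ev_cst]; exact h2.le) h1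
  obtain ⟨g1, k, e1', e2', e3', e4', e5', e6', e7'⟩ := SB.exists_slot_step hle d (b := β0)
    (b' := β0') (by rw [SB.ev_cst]; exact h1.le) (by rw [SB.ev_cst]) h2
  have hg : g1 = g := by
    apply SB.inj
    intro x
    by_cases hx : x = d
    · rw [hx, e5, e4']
    · rw [← e3.eq x hx]
      by_cases hcx : d ≤ x
      · have : d < x := lt_of_le_of_ne hcx (Ne.symm hx)
        rw [e6 x this, e6' x this]
      · rw [e7 x hcx, e7' x hcx]
  subst hg
  have x1 : XA SA SB f g1 := by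
    rw [hβ.XA_iff_XB hC hirr hn htop hbot e3 e1, e4, e5]; exact hx
  have x2 : ¬ XA SA SB g1 k := by
    rw [hβ.XA_iff_XB hC hirr hn htop hbot e3' e1', e4', e5']; exact hs
  obtain ⟨c, hc⟩ := SA.exists_step_of_covBy e3.covBy
  obtain ⟨c', hc'⟩ := SA.exists_step_of_covBy e3'.covBy
  obtain ⟨x, hDX⟩ := x1 c hc
  obtain ⟨π, hDS⟩ := hβ.DS_of_not_XA hC hirr hn e1' hc' x2
  have key : ∃ h, f ⋖ h ∧ h ⋖ k ∧ ¬ XA SA SB f h ∧ XA SA SB h k := by
    by_cases hcc : c = c'
    · subst hcc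
      obtain ⟨v, w1, w2⟩ := swap_labels htop hDX hDS
      obtain ⟨h, a1, a2, a3, a4, a5⟩ := SA.exists_slot (hc.le.trans hc'.le) c v w1.c1.le w2.c2.le
      have hxx : ∀ x, x ≠ c → SA.ev h x = SA.ev f x := by
        intro x hx
        by_cases hcx : c ≤ x
        · rw [a4 x (lt_of_le_of_ne hcx (Ne.symm hx)), ← hc'.eq x hx, ← hc.eq x hx]
        · exact a5 x hcx
      have s1 : SA.Step f h c := ⟨by rw [a3]; exact w1.c1, fun x hx => (hxx x hx).symm⟩
      have s2 : SA.Step h k c := ⟨by rw [a3]; exact w2.c2, fun x hx => by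
        rw [hxx x hx, hc.eq x hx, hc'.eq x hx]⟩
      refine ⟨h, s1.covBy, s2.covBy, ?_, ?_⟩
      · intro hX
        obtain ⟨x', hx'⟩ := hX c s1
        rw [a3] at hx'
        exact not_DX_of_DS hC hirr hn hDS (fun z => (hx' z).wt w1)
      · intro c1 hc1
        have := hc1.unique s2
        subst this
        rw [a3]
        exact ⟨x, fun z => (hDX z).wt w2⟩
    · have hnot : ¬ ∀ h, f < h → h < k → h = g1 := by
        intro h3
        exact x2 ((hβ.chain3 hC hirr hn htop hbot e1 e3.covBy e3'.covBy h3).1 x1)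
      push Not at hnot
      obtain ⟨h, hf, hk, hg⟩ := hnot
      obtain ⟨t1, t2, t3, t4⟩ := SA.fourth hc hc' hcc hf hk hg
      refine ⟨h, t1.covBy, t2.covBy, ?_, ?_⟩
      · intro hX
        obtain ⟨x', hx'⟩ := hX c' t1
        rw [t3, hc.eq c' (Ne.symm hcc)] at hx'
        exact not_DX_of_DS hC hirr hn hDS hx'
      · intro c1 hc1
        have := hc1.unique t2
        subst this
        rw [t4, ← hc'.eq _ hcc]
        exact ⟨x, hDX⟩
  obtain ⟨h, k1, k2, k3, k4⟩ := key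
  obtain ⟨d1, hd1⟩ := SB.exists_step_of_covBy k1
  obtain ⟨d2, hd2⟩ := SB.exists_step_of_covBy k2
  have hfk : ∀ x, x ≠ d → SB.ev f x = SB.ev k x := fun x hx => (e3.eq x hx).trans (e3'.eq x hx)
  have m1 := (SB.le_iff _ _).1 k1.le
  have m2 := (SB.le_iff _ _).1 k2.le
  have hd1' : d1 = d := by
    by_contra hne
    have := m2 d1
    rw [← hfk d1 hne] at this
    exact absurd hd1.cov.lt (not_lt_of_ge this)
  have hd2' : d2 = d := by
    by_contra hne
    have := m1 d2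
    rw [hfk d2 hne] at this
    exact absurd hd2.cov.lt (not_lt_of_ge this)
  subst hd1'
  subst hd2'
  have c1 := hd1.cov
  have c2 := hd2.cov
  rw [e4] at c1
  rw [e5'] at c2
  refine ⟨SB.ev h d2, c1, c2, ?_, ?_⟩
  · rw [hβ.XA_iff_XB hC hirr hn htop hbot hd1 e1, e4] at k3; exact k3
  · rw [hβ.XA_iff_XB hC hirr hn htop hbot hd2 (e1.trans k1.le), e5'] at k4; exact k4

theorem Nice.UU {β0 β1 β0' : B} (hβ : Nice SA SB β0) (h1 : β0 ⋖ β1) (h2 : β0 ⋖ β0')
    (hx : XB SA SB β0 β1) (hs : ¬ XB SA SB β0 β0') :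
    ∃ β1', β1 ⋖ β1' ∧ β0' ⋖ β1' ∧ ¬ XB SA SB β1 β1' ∧ XB SA SB β0' β1' := by
  have hne := hC.ne
  obtain ⟨z⟩ := hC.ne
  obtain ⟨d, hdmax, -⟩ := exists_max_ne hC htop z
  obtain ⟨h, -, hh2, hh3⟩ := SB.exists_raise (SB.cst β0) d β0'
      (by rw [SB.ev_cst]; exact h2.le) (fun y hy => absurd (hdmax y hy.le) hy.ne')
  obtain ⟨g, -, hg2, hg3⟩ := SB.exists_raise (SB.cst β0) d β1
      (by rw [SB.ev_cst]; exact h1.le) (fun y hy => absurd (hdmax y hy.le) hy.ne')
  have sh : SB.Step (SB.cst β0) h d :=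
    ⟨by rw [SB.ev_cst, hh2]; exact h2, fun y hy => (hh3 y hy).symm⟩
  have sg : SB.Step (SB.cst β0) g d :=
    ⟨by rw [SB.ev_cst, hg2]; exact h1, fun y hy => (hg3 y hy).symm⟩
  have xg : XA SA SB (SB.cst β0) g := by
    rw [hβ.XA_iff_XB hC hirr hn htop hbot sg le_rfl, SB.ev_cst, hg2]; exact hx
  have xh : ¬ XA SA SB (SB.cst β0) h := by
    rw [hβ.XA_iff_XB hC hirr hn htop hbot sh le_rfl, SB.ev_cst, hh2]; exact hs
  obtain ⟨c, hc⟩ := SA.exists_step_of_covBy sh.covBy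
  obtain ⟨c', hc'⟩ := SA.exists_step_of_covBy sg.covBy
  obtain ⟨x, hDX⟩ := xg c' hc'
  obtain ⟨π, hDS⟩ := hβ.DS_of_not_XA hC hirr hn le_rfl hc xh
  have hgh : g ≠ h := by rintro rfl; exact xh xg
  have key : ∃ k, WT (SB.cst β0) h g k ∧ WT (SB.cst β0) g h k := by
    by_cases hcc : c = c'
    · subst hcc
      have hcmax : ∀ y, ¬ c < y := by
        intro y hy
        obtain ⟨x', hx'⟩ := hβ.ix c y hy.le _ _ le_rfl hc.cov (by
          rw [hc.eq y hy.ne']; exact SA.mono h hy.le)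
        exact not_DX_of_DS hC hirr hn hDS hx'
      obtain ⟨r, w1, w2⟩ := join_labels hC htop hDS hDX
      obtain ⟨k, -, hk2, hk3⟩ := SA.exists_raise (SB.cst β0) c r (hc.cov.le.trans w2.c2.le)
        (fun y hy => absurd hy (hcmax y))
      have s1 : SA.Step h k c := ⟨by rw [hk2]; exact w2.c2, fun y hy => by
        rw [hk3 y hy, hc.eq y hy]⟩
      have s2 : SA.Step g k c := ⟨by rw [hk2]; exact w1.c2, fun y hy => by
        rw [hk3 y hy, hc'.eq y hy]⟩
      refine ⟨k, ⟨sh.covBy, s2.covBy, sg.le, s1.le, fun hle => ?_⟩,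
        ⟨sg.covBy, s1.covBy, sh.le, s2.le, fun hle => ?_⟩⟩
      · rcases sg.covBy.eq_or_eq sh.le hle with e | e
        · exact sh.covBy.ne e.symm
        · exact hgh e.symm
      · rcases sh.covBy.eq_or_eq sg.le hle with e | e
        · exact sg.covBy.ne e.symm
        · exact hgh e
    · obtain ⟨k, -, -, w1, w2⟩ := SA.join_square hc hc' hcc
      exact ⟨k, w1, w2⟩
  obtain ⟨k, w1, w2⟩ := key
  have t1 : SB.Step g k d := wt_step_up w1 sh
  have t2 : SB.Step h k d := wt_step_up w2 sg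
  have c1 := t1.cov
  have c2 := t2.cov
  rw [hg2] at c1
  rw [hh2] at c2
  refine ⟨SB.ev k d, c1, c2, ?_, ?_⟩
  · rw [XA_wt w1, hβ.XA_iff_XB hC hirr hn htop hbot t1 sg.le, hg2] at xh; exact xh
  · rw [XA_wt w2, hβ.XA_iff_XB hC hirr hn htop hbot t2 sh.le, hh2] at xg; exact xg

end nice

end Pow

end Pool.Agent.Birk
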