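import Pool.Agent.Lib_MP_aad2bd_co.Nice5

/-!
All elements are good; matched elements exist (Case II).
-/

set_option autoImplicit false
set_option linter.style.haveILetI false
set_option linter.unusedSectionVars false
set_option linter.unusedVariables false

namespace Pool.Agent.Birk

open OrderDual

namespace Pow

variable {C A B M : Type} [PartialOrder C] [PartialOrder A] [PartialOrder B] [PartialOrder M]

/-- elements connected to a bi-constant by x-type covers -/
inductive GG (SA : Pow C A M) (SB : Pow C B M) : B → Prop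
  | base {β : B} {a : A} : SA.cst a = SB.cst β → GG SA SB β
  | up {β β' : B} : GG SA SB β → β ⋖ β' → XB SA SB β β' → GG SA SB β'
  | down {β β' : B} : GG SA SB β → β' ⋖ β → XB SA SB β' β → GG SA SB β'

theorem Matched_dual {SA : Pow C A M} {SB : Pow C B M} {a : A} {b : B} :
    Matched SA.dual SB.dual (toDual a) (toDual b) ↔ Matched SA SB a b := by
  have key : ∀ c : C, (SA.dual.cst (SA.dual.ev (SB.dual.cst (toDual b)) (toDual c)) =
      SB.dual.cst (SB.dual.ev (SA.dual.cst (toDual a)) (toDual c))) ↔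
      (SA.cst (SA.ev (SB.cst b) c) = SB.cst (SB.ev (SA.cst a) c)) := by
    intro c
    rw [dual_ev_cst, dual_ev_cst, SA.dual_cst, SB.dual_cst, toDual_inj]
  constructor
  · intro h c; exact (key c).1 (h (toDual c))
  · intro h c; exact (key (ofDual c)).2 (h (ofDual c))

section nice

variable [Finite C] [Finite A] [Finite B] [Finite M]
  {SA : Pow C A M} {SB : Pow C B M} (hC : PConn C) (hirr : PIrr C) (hn : Nontrivial C)
  (htop : ∀ x : C, ∃ y, ¬ y ≤ x) (hbot : ∀ x : C, ∃ y, ¬ x ≤ y)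

include hC hirr hn htop hbot

theorem GG.good {β : B} (h : GG SA SB β) : Good SA SB β := by
  induction h with
  | base h => exact good_of_E hC hirr hn htop hbot h
  | up _ h1 h2 ih => exact ih.of_XB_up hC hirr hn htop hbot h1.le h2
  | down _ h1 h2 ih => exact ih.of_XB_down hC hirr hn htop hbot h1.le h2

theorem E_up_s {a : A} {β β' : B} (h : SA.cst a = SB.cst β) (hc : β ⋖ β')
    (hs : ¬ XB SA SB β β') : ∃ a', SA.cst a' = SB.cst β' := by
  have hne := hC.ne
  obtain ⟨c0⟩ := hC.ne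
  obtain ⟨f, g, c, h1, h2, h3, h4, h5, -⟩ := exists_D_edge SB SA hc c0
  have hnice := (good_of_E hC hirr hn htop hbot h).nice
  rcases dichotomy_up SA SB hC hirr hn (a0 := a) ⟨β, h⟩ (by rw [h]; exact h5) h2 h1 with
    ⟨π, -, -, h6⟩ | ⟨h6, -⟩
  · rw [h3, h4] at h6
    obtain ⟨a', h7, -⟩ := const_of_DS hC hc h.symm h6
    exact ⟨a', h7.symm⟩
  · exfalso
    apply hs
    have : XA SA SB f g := by
      intro c' hc'
      have := hc'.unique h2
      subst this
      exact ⟨_, h6⟩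
    rw [hnice.XA_iff_XB hC hirr hn htop hbot h1 h5, h3, h4] at this
    exact this

theorem E_down_s {a : A} {β β' : B} (h : SA.cst a = SB.cst β) (hc : β' ⋖ β)
    (hs : ¬ XB SA SB β' β) : ∃ a', SA.cst a' = SB.cst β' := by
  obtain ⟨a', ha'⟩ := E_up_s (SA := SA.dual) (SB := SB.dual) hC.dual hirr.dual inferInstance
      (fun x => hbot (ofDual x)) (fun x => htop (ofDual x)) (a := toDual a) (β := toDual β)
      (β' := toDual β') (by rw [SA.dual_cst, SB.dual_cst, h]) (toDual_covBy_toDual_iff.2 hc)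
      (fun hx => hs (XB_dual.1 hx))
  refine ⟨ofDual a', ?_⟩
  have h2 : SA.dual.cst a' = toDual (SA.cst (ofDual a')) := SA.dual_cst (ofDual a')
  rw [h2, SB.dual_cst] at ha'
  exact toDual_inj.1 ha'

theorem Nice.chain_down {β1 β0 β0' : B} (hβ : Nice SA SB β1) (h1 : β0 ⋖ β1) (h2 : β0' ⋖ β0)
    (hx : XB SA SB β0 β1) (hs : ¬ XB SA SB β0' β0) :
    ∃ β'', β'' ⋖ β1 ∧ β0' ⋖ β'' ∧ ¬ XB SA SB β'' β1 ∧ XB SA SB β0' β'' := by
  obtain ⟨γ, g1, g2, g3, g4⟩ := (Nice_dual.2 hβ).chain_up hC.dual hirr.dual inferInstance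
      (fun x => hbot (ofDual x)) (fun x => htop (ofDual x)) (β0 := toDual β0)
      (β0' := toDual β0') (toDual_covBy_toDual_iff.2 h1) (toDual_covBy_toDual_iff.2 h2)
      (XB_dual.2 hx) (fun h => hs (XB_dual.1 h))
  have e : γ = toDual (ofDual γ) := rfl
  rw [e] at g1 g2 g3 g4
  exact ⟨ofDual γ, toDual_covBy_toDual_iff.1 g1, toDual_covBy_toDual_iff.1 g2,
    fun h => g3 (XB_dual.2 h), XB_dual.1 g4⟩

theorem Nice.DD {β0 β1 β0' : B} (hβ : Nice SA SB β0) (h1 : β1 ⋖ β0) (h2 : β0' ⋖ β0)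
    (hx : XB SA SB β1 β0) (hs : ¬ XB SA SB β0' β0) :
    ∃ β1', β1' ⋖ β1 ∧ β1' ⋖ β0' ∧ ¬ XB SA SB β1' β1 ∧ XB SA SB β1' β0' := by
  obtain ⟨γ, g1, g2, g3, g4⟩ := (Nice_dual.2 hβ).UU hC.dual hirr.dual inferInstance
      (fun x => hbot (ofDual x)) (fun x => htop (ofDual x)) (β1 := toDual β1)
      (β0' := toDual β0') (toDual_covBy_toDual_iff.2 h1) (toDual_covBy_toDual_iff.2 h2)
      (XB_dual.2 hx) (fun h => hs (XB_dual.1 h))
  have e : γ = toDual (ofDual γ) := rfl
  rw [e] at g1 g2 g3 g4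
  exact ⟨ofDual γ, toDual_covBy_toDual_iff.1 g1, toDual_covBy_toDual_iff.1 g2,
    fun h => g3 (XB_dual.2 h), XB_dual.1 g4⟩

theorem GG.s_nbr {β : B} (h : GG SA SB β) : ∀ β', (β ⋖ β' → ¬ XB SA SB β β' → GG SA SB β') ∧
    (β' ⋖ β → ¬ XB SA SB β' β → GG SA SB β') := by
  induction h with
  | base h =>
    intro β'
    constructor
    · intro hc hs
      obtain ⟨a', ha'⟩ := E_up_s hC hirr hn htop hbot h hc hs
      exact GG.base ha'
    · intro hc hs
      obtain ⟨a', ha'⟩ := E_down_s hC hirr hn htop hbot h hc hs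
      exact GG.base ha'
  | @up β1 β0 hg h1 h2 ih =>
    intro β0'
    constructor
    · intro hc hs
      obtain ⟨β'', k1, k2, k3, k4⟩ :=
        (hg.good hC hirr hn htop hbot).nice.chain_up hC hirr hn htop hbot h1 hc h2 hs
      exact GG.up ((ih β'').1 k1 k3) k2 k4
    · intro hc hs
      obtain ⟨β'', k1, k2, k3, k4⟩ :=
        ((GG.up hg h1 h2).good hC hirr hn htop hbot).nice.DD hC hirr hn htop hbot h1 hc h2 hs
      exact GG.up ((ih β'').2 k1 k3) k2 k4
  | @down β1 β0 hg h1 h2 ih =>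
    intro β0'
    constructor
    · intro hc hs
      obtain ⟨β'', k1, k2, k3, k4⟩ :=
        ((GG.down hg h1 h2).good hC hirr hn htop hbot).nice.UU hC hirr hn htop hbot h1 hc h2 hs
      exact GG.down ((ih β'').1 k1 k3) k2 k4
    · intro hc hs
      obtain ⟨β'', k1, k2, k3, k4⟩ :=
        (hg.good hC hirr hn htop hbot).nice.chain_down hC hirr hn htop hbot h1 hc h2 hs
      exact GG.down ((ih β'').2 k1 k3) k2 k4

theorem all_GG (hB : PConn B) {a0 : A} {b0 : B} (he : SA.cst a0 = SB.cst b0) (β : B) :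
    GG SA SB β := by
  refine hB.induct (fun β => GG SA SB β) ?_ (GG.base he) β
  refine le_induct_covBy (fun _ => Iff.rfl) (fun _ _ _ h1 h2 => h1.trans h2) ?_
  intro x y hxy
  by_cases hX : XB SA SB x y
  · exact ⟨fun h => h.up hxy hX, fun h => h.down hxy hX⟩
  · exact ⟨fun h => (h.s_nbr hC hirr hn htop hbot y).1 hxy hX,
      fun h => (h.s_nbr hC hirr hn htop hbot x).2 hxy hX⟩

theorem IX_swap {a a' : A} {b b' : B} (h : SA.cst a = SB.cst b) (h' : SA.cst a' = SB.cst b')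
    (hle : a ≤ a') (hx : IX SA SB a a') : IX SB SA b b' := by
  have hne := hC.ne
  intro b1 b2 h1 h2 h3
  have hle' : SB.cst b ≤ SB.cst b' := by rw [← h, ← h', SA.cst_le_cst]; exact hle
  obtain ⟨d⟩ := hC.ne
  obtain ⟨f, g, e1, e2, e3, e4, e5, -, -⟩ := SB.exists_slot_step hle' d (b := b1) (b' := b2)
    (by rw [SB.ev_cst]; exact h1) (by rw [SB.ev_cst]; exact h3) h2
  obtain ⟨c, hc⟩ := SA.exists_step_of_covBy e3.covBy
  rw [← h] at e1
  rw [← h'] at e2
  rcases dichotomy_up SA SB hC hirr hn (a0 := a) ⟨b, h⟩ e1 hc e3 with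
    ⟨π, -, h6, -⟩ | ⟨-, h6⟩
  · exfalso
    obtain ⟨x, h7⟩ := hx _ _ (SA.cst_le_iff.1 e1 c) hc.cov (SA.le_cst_iff.1 e2 c)
    exact not_DX_of_DS hC hirr hn h6 h7
  · rw [e4, e5] at h6
    exact ⟨c, h6⟩

theorem matched_step_up {a : A} {β β' : B} (hβ : Good SA SB β) (ha : Good SB SA a)
    (hm : Matched SA SB a β) (hle : β ≤ β') (hx : XB SA SB β β') :
    ∃ a', Matched SA SB a' β' := by
  have hne := hC.ne
  have hmem := hβ.XB_mem hC hirr hn htop hbot hle hx
  have hE : ∀ c, IsE SA SB (SA.ev (SB.cst β') c) := hmem.2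
  choose φ hφ using hE
  have hle' : ∀ c, SB.ev (SA.cst a) c ≤ φ c := by
    intro c
    rw [← SB.cst_le_cst, ← hφ c, ← hm c, SA.cst_le_cst]
    exact (SA.le_iff _ _).1 (SB.cst_le_cst.2 hle) c
  obtain ⟨q, hq⟩ := SB.up (SA.cst a) φ
    (by
      intro x y hxy
      rw [← SB.cst_le_cst, ← hφ, ← hφ, SA.cst_le_cst]
      exact SA.mono _ hxy) hle'
  have hq' : ∀ c, SB.ev q c = φ c := fun c => congrFun hq c
  have hqm : q ∈ Qx SB SA a := by
    refine ⟨⟨?_, fun c => ?_⟩, fun c => ?_⟩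
    · rw [SB.le_iff]; intro c; rw [hq']; exact hle' c
    · rw [hq']
      exact IX_swap hC hirr hn htop hbot (hm c) (hφ c)
        ((SA.le_iff _ _).1 (SB.cst_le_cst.2 hle) c) (hx c)
    · rw [hq']; exact ⟨_, (hφ c).symm⟩
  obtain ⟨a', ha'⟩ := ha.up q hqm
  refine ⟨a', fun c => ?_⟩
  rw [hφ c, ← hq', ha']

theorem matched_step_down {a : A} {β β' : B} (hβ : Good SA SB β) (ha : Good SB SA a)
    (hm : Matched SA SB a β) (hle : β' ≤ β) (hx : XB SA SB β' β) :
    ∃ a', Matched SA SB a' β' := by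
  obtain ⟨a', h⟩ := matched_step_up (SA := SA.dual) (SB := SB.dual) hC.dual hirr.dual
      inferInstance (fun x => hbot (ofDual x)) (fun x => htop (ofDual x)) (Good_dual.2 hβ)
      (Good_dual.2 ha) (Matched_dual.2 hm) (toDual_le_toDual.2 hle) (XB_dual.2 hx)
  have e : a' = toDual (ofDual a') := rfl
  rw [e] at h
  exact ⟨ofDual a', Matched_dual.1 h⟩

theorem caseII (hA : PConn A) (hB : PConn B) (he : ∃ a b, SA.cst a = SB.cst b) (β : B) :
    ∃ a, Matched SA SB a β := by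
  have hne := hC.ne
  obtain ⟨a0, b0, he⟩ := he
  have hgood : ∀ a, Good SB SA a := fun a =>
    (all_GG (SA := SB) (SB := SA) hC hirr hn htop hbot hA he.symm a).good hC hirr hn htop hbot
  have hGG := all_GG hC hirr hn htop hbot hB he β
  induction hGG with
  | @base β a h =>
    refine ⟨a, fun c => ?_⟩
    rw [← h, SA.ev_cst, h, SB.ev_cst]
  | up hg h1 h2 ih =>
    obtain ⟨a, ha⟩ := ih
    exact matched_step_up hC hirr hn htop hbot (hg.good hC hirr hn htop hbot) (hgood a) ha h1.le h2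
  | down hg h1 h2 ih =>
    obtain ⟨a, ha⟩ := ih
    exact matched_step_down hC hirr hn htop hbot (hg.good hC hirr hn htop hbot) (hgood a) ha
      h1.le h2

end nice

end Pow

end Pool.Agent.Birk
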