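import Mathlib
import Pool.Agent.Lib_MP_aad2bd_co.Basic

/-! PART B: the box lemma for two product decompositions of a poset. -/

set_option autoImplicit false

namespace Pool.Agent.Birk

section box

variable {J X V Y W : Type} [PartialOrder J] [PartialOrder X] [PartialOrder V]
    [PartialOrder Y] [PartialOrder W] (φ : J ≃o X × V) (ψ : J ≃o Y × W) (v : V)

/-- adjacent with the same `W`-coordinate inside the slice -/
def Ey (p q : J) : Prop :=
  (φ p).2 = v ∧ (φ q).2 = v ∧ (p ≤ q ∨ q ≤ p) ∧ (ψ p).2 = (ψ q).2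

/-- adjacent with the same `Y`-coordinate inside the slice -/
def Ew (p q : J) : Prop :=
  (φ p).2 = v ∧ (φ q).2 = v ∧ (p ≤ q ∨ q ≤ p) ∧ (ψ p).1 = (ψ q).1

variable {φ ψ v}

lemma mem_between {p q r : J} (hp : (φ p).2 = v) (hr : (φ r).2 = v) (h1 : p ≤ q) (h2 : q ≤ r) :
    (φ q).2 = v := by
  apply le_antisymm
  · rw [← hr]; exact (φ.monotone h2).2
  · rw [← hp]; exact (φ.monotone h1).2

lemma psi_le {p q : J} : p ≤ q ↔ (ψ p).1 ≤ (ψ q).1 ∧ (ψ p).2 ≤ (ψ q).2 := by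
  rw [← ψ.le_iff_le, Prod.le_def]

/-- splitting a comparability in the slice -/
lemma split_step {p p' : J} (hp : (φ p).2 = v) (hp' : (φ p').2 = v) (h : p ≤ p' ∨ p' ≤ p) :
    ∃ q, Ey φ ψ v p q ∧ Ew φ ψ v q p' := by
  have e1 : ψ (ψ.symm ((ψ p').1, (ψ p).2)) = ((ψ p').1, (ψ p).2) := by simp
  rcases h with h | h
  · have h' := (psi_le (ψ := ψ)).mp h
    have h1 : p ≤ ψ.symm ((ψ p').1, (ψ p).2) := by
      rw [psi_le (ψ := ψ), e1]; exact ⟨h'.1, le_rfl⟩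
    have h2 : ψ.symm ((ψ p').1, (ψ p).2) ≤ p' := by
      rw [psi_le (ψ := ψ), e1]; exact ⟨le_rfl, h'.2⟩
    have hq := mem_between hp hp' h1 h2
    exact ⟨_, ⟨hp, hq, Or.inl h1, by rw [e1]⟩, ⟨hq, hp', Or.inl h2, by rw [e1]⟩⟩
  · have h' := (psi_le (ψ := ψ)).mp h
    have h1 : ψ.symm ((ψ p').1, (ψ p).2) ≤ p := by
      rw [psi_le (ψ := ψ), e1]; exact ⟨h'.1, le_rfl⟩
    have h2 : p' ≤ ψ.symm ((ψ p').1, (ψ p).2) := by
      rw [psi_le (ψ := ψ), e1]; exact ⟨le_rfl, h'.2⟩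
    have hq := mem_between hp' hp h2 h1
    exact ⟨_, ⟨hp, hq, Or.inr h1, by rw [e1]⟩, ⟨hq, hp', Or.inr h2, by rw [e1]⟩⟩

/-- the swap -/
lemma swap_step {p0 p1 p2 : J} (h01 : Ey φ ψ v p0 p1) (h12 : Ew φ ψ v p1 p2) :
    ∃ q, Ew φ ψ v p0 q ∧ Ey φ ψ v q p2 := by
  obtain ⟨hp0, hp1, c01, e01⟩ := h01
  obtain ⟨-, hp2, c12, e12⟩ := h12
  set q := ψ.symm ((ψ p0).1, (ψ p2).2) with hq
  have e1 : ψ q = ((ψ p0).1, (ψ p2).2) := by simp [hq]
  have hqy : (ψ q).1 = (ψ p0).1 := by rw [e1]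
  have hqw : (ψ q).2 = (ψ p2).2 := by rw [e1]
  -- comparabilities
  have cw : (ψ p0).2 ≤ (ψ p2).2 ∨ (ψ p2).2 ≤ (ψ p0).2 := by
    rw [e01]
    rcases c12 with c | c
    · exact Or.inl ((psi_le (ψ := ψ)).mp c).2
    · exact Or.inr ((psi_le (ψ := ψ)).mp c).2
  have cy : (ψ p0).1 ≤ (ψ p2).1 ∨ (ψ p2).1 ≤ (ψ p0).1 := by
    rw [← e12]
    rcases c01 with c | c
    · exact Or.inl ((psi_le (ψ := ψ)).mp c).1
    · exact Or.inr ((psi_le (ψ := ψ)).mp c).1
  have c0q : p0 ≤ q ∨ q ≤ p0 := by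
    rcases cw with c | c
    · exact Or.inl ((psi_le (ψ := ψ)).mpr ⟨hqy.ge, by rw [hqw]; exact c⟩)
    · exact Or.inr ((psi_le (ψ := ψ)).mpr ⟨hqy.le, by rw [hqw]; exact c⟩)
  have cq2 : q ≤ p2 ∨ p2 ≤ q := by
    rcases cy with c | c
    · exact Or.inl ((psi_le (ψ := ψ)).mpr ⟨by rw [hqy]; exact c, hqw.le⟩)
    · exact Or.inr ((psi_le (ψ := ψ)).mpr ⟨by rw [hqy]; exact c, hqw.ge⟩)
  have hqS : (φ q).2 = v := by
    rcases cw with cw | cw <;> rcases cy with cy | cy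
    · -- p0 ≤ q ≤ p2
      exact mem_between hp0 hp2 ((psi_le (ψ := ψ)).mpr ⟨hqy.ge, by rw [hqw]; exact cw⟩)
        ((psi_le (ψ := ψ)).mpr ⟨by rw [hqy]; exact cy, hqw.le⟩)
    · -- q is the least upper bound
      have h0 : p0 ≤ q := (psi_le (ψ := ψ)).mpr ⟨hqy.ge, by rw [hqw]; exact cw⟩
      have h2 : p2 ≤ q := (psi_le (ψ := ψ)).mpr ⟨by rw [hqy]; exact cy, hqw.ge⟩
      have hlub : ∀ r, p0 ≤ r → p2 ≤ r → q ≤ r := by
        intro r hr0 hr2
        rw [psi_le (ψ := ψ), hqy, hqw]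
        exact ⟨((psi_le (ψ := ψ)).mp hr0).1, ((psi_le (ψ := ψ)).mp hr2).2⟩
      have er : φ (φ.symm ((φ q).1, v)) = ((φ q).1, v) := by simp
      have h3 : q ≤ φ.symm ((φ q).1, v) := by
        apply hlub
        · rw [psi_le (ψ := φ), er]
          exact ⟨(φ.monotone h0).1, hp0.le⟩
        · rw [psi_le (ψ := φ), er]
          exact ⟨(φ.monotone h2).1, hp2.le⟩
      apply le_antisymm
      · have := (φ.monotone h3).2
        rwa [er] at this
      · rw [← hp0]; exact (φ.monotone h0).2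
    · -- q is the greatest lower bound
      have h0 : q ≤ p0 := (psi_le (ψ := ψ)).mpr ⟨hqy.le, by rw [hqw]; exact cw⟩
      have h2 : q ≤ p2 := (psi_le (ψ := ψ)).mpr ⟨by rw [hqy]; exact cy, hqw.le⟩
      have hglb : ∀ r, r ≤ p0 → r ≤ p2 → r ≤ q := by
        intro r hr0 hr2
        rw [psi_le (ψ := ψ), hqy, hqw]
        exact ⟨((psi_le (ψ := ψ)).mp hr0).1, ((psi_le (ψ := ψ)).mp hr2).2⟩
      have er : φ (φ.symm ((φ q).1, v)) = ((φ q).1, v) := by simp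
      have h3 : φ.symm ((φ q).1, v) ≤ q := by
        apply hglb
        · rw [psi_le (ψ := φ), er]
          exact ⟨(φ.monotone h0).1, hp0.ge⟩
        · rw [psi_le (ψ := φ), er]
          exact ⟨(φ.monotone h2).1, hp2.ge⟩
      apply le_antisymm
      · rw [← hp0]; exact (φ.monotone h0).2
      · have := (φ.monotone h3).2
        rwa [er] at this
    · exact mem_between hp2 hp0 ((psi_le (ψ := ψ)).mpr ⟨by rw [hqy]; exact cy, hqw.ge⟩)
        ((psi_le (ψ := ψ)).mpr ⟨hqy.le, by rw [hqw]; exact cw⟩)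
  exact ⟨q, ⟨hp0, hqS, c0q, hqy.symm⟩, ⟨hqS, hp2, cq2, hqw⟩⟩

/-- moving a `w`-step before a path of `y`-steps -/
lemma swap_path {z p p' : J} (h : Relation.ReflTransGen (Ey φ ψ v) z p) (h' : Ew φ ψ v p p') :
    ∃ z', Ew φ ψ v z z' ∧ Relation.ReflTransGen (Ey φ ψ v) z' p' := by
  induction h generalizing p' with
  | refl => exact ⟨p', h', Relation.ReflTransGen.refl⟩
  | tail _ h2 ih =>
    obtain ⟨q, hq1, hq2⟩ := swap_step h2 h'
    obtain ⟨z', hz1, hz2⟩ := ih hq1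
    exact ⟨z', hz1, hz2.tail hq2⟩

lemma rtg_w {p q : J} (h : Relation.ReflTransGen (Ew φ ψ v) p q) (hp : (φ p).2 = v) :
    (φ q).2 = v ∧ (ψ p).1 = (ψ q).1 := by
  induction h with
  | refl => exact ⟨hp, rfl⟩
  | tail _ h2 ih => exact ⟨h2.2.1, ih.2.trans h2.2.2.2⟩

lemma rtg_y {p q : J} (h : Relation.ReflTransGen (Ey φ ψ v) p q) :
    (ψ p).2 = (ψ q).2 := by
  induction h with
  | refl => rfl
  | tail _ h2 ih => exact ih.trans h2.2.2.2

end box

theorem box_lemma {J X V Y W : Type} [PartialOrder J] [PartialOrder X] [PartialOrder V]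
    [PartialOrder Y] [PartialOrder W] (φ : J ≃o X × V) (ψ : J ≃o Y × W) (hX : PConn X)
    (v : V) (x1 x2 : X) :
    ∃ x : X, ψ (φ.symm (x, v)) = ((ψ (φ.symm (x1, v))).1, (ψ (φ.symm (x2, v))).2) := by
  have hS : ∀ x, (φ (φ.symm (x, v))).2 = v := fun x => by simp
  let P : X → Prop := fun x => ∃ z, Relation.ReflTransGen (Ew φ ψ v) (φ.symm (x1, v)) z ∧
    Relation.ReflTransGen (Ey φ ψ v) z (φ.symm (x, v))
  have hstep : ∀ x x', (x ≤ x' ∨ x' ≤ x) → P x → P x' := by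
    rintro x x' hxx' ⟨z, hz1, hz2⟩
    have hc : φ.symm (x, v) ≤ φ.symm (x', v) ∨ φ.symm (x', v) ≤ φ.symm (x, v) := by
      rcases hxx' with h | h
      · left; exact φ.symm.monotone ⟨h, le_rfl⟩
      · right; exact φ.symm.monotone ⟨h, le_rfl⟩
    obtain ⟨q, hq1, hq2⟩ := split_step (ψ := ψ) (hS x) (hS x') hc
    obtain ⟨z', h1, h2⟩ := swap_path (hz2.tail hq1) hq2
    exact ⟨z', hz1.tail h1, h2⟩
  have hP : P x2 := by
    refine hX.induct P (fun x y hxy => ⟨hstep x y (Or.inl hxy), hstep y x (Or.inr hxy)⟩)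
      (a := x1) ⟨_, Relation.ReflTransGen.refl, Relation.ReflTransGen.refl⟩ x2
  obtain ⟨z, hz1, hz2⟩ := hP
  obtain ⟨hzS, hzy⟩ := rtg_w hz1 (hS x1)
  have hzw := rtg_y hz2
  refine ⟨(φ z).1, ?_⟩
  have : φ.symm ((φ z).1, v) = z := by
    rw [OrderIso.symm_apply_eq]
    exact Prod.ext rfl hzS.symm
  rw [this]
  exact Prod.ext hzy.symm hzw

theorem slice_dichotomy {J X V Y W : Type} [PartialOrder J] [PartialOrder X] [PartialOrder V]
    [PartialOrder Y] [PartialOrder W] (φ : J ≃o X × V) (ψ : J ≃o Y × W) (hX : PConn X)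
    (hirr : PIrr X) (v : V) :
    (∀ x1 x2 : X, (ψ (φ.symm (x1, v))).2 = (ψ (φ.symm (x2, v))).2) ∨
    (∀ x1 x2 : X, (ψ (φ.symm (x1, v))).1 = (ψ (φ.symm (x2, v))).1) := by
  let f : X → Y × W := fun x => ψ (φ.symm (x, v))
  have hf : ∀ x x', f x ≤ f x' ↔ x ≤ x' := by
    intro x x'
    change ψ (φ.symm (x, v)) ≤ ψ (φ.symm (x', v)) ↔ _
    rw [ψ.le_iff_le, φ.symm.le_iff_le, Prod.mk_le_mk]
    simp
  let Y' := {y : Y // ∃ x, (f x).1 = y}
  let W' := {w : W // ∃ x, (f x).2 = w}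
  let g : X → Y' × W' := fun x => (⟨(f x).1, x, rfl⟩, ⟨(f x).2, x, rfl⟩)
  have hg : ∀ x x', g x ≤ g x' ↔ x ≤ x' := by
    intro x x'
    rw [← hf, Prod.le_def, Prod.le_def]
    exact Iff.rfl
  have hinj : Function.Injective g := fun x x' h =>
    le_antisymm ((hg x x').mp h.le) ((hg x' x).mp h.ge)
  have hsurj : Function.Surjective g := by
    rintro ⟨⟨y, x1, rfl⟩, ⟨w, x2, rfl⟩⟩
    obtain ⟨x, hx⟩ := box_lemma φ ψ hX v x1 x2
    have hx1 : (f x).1 = (f x1).1 := by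
      change (ψ (φ.symm (x, v))).1 = (ψ (φ.symm (x1, v))).1
      rw [hx]
    have hx2 : (f x).2 = (f x2).2 := by
      change (ψ (φ.symm (x, v))).2 = (ψ (φ.symm (x2, v))).2
      rw [hx]
    exact ⟨x, Prod.ext (Subtype.ext hx1) (Subtype.ext hx2)⟩
  let e : X ≃o Y' × W' :=
    { toEquiv := Equiv.ofBijective g ⟨hinj, hsurj⟩
      map_rel_iff' := fun {a b} => hg a b }
  rcases hirr Y' W' ⟨e⟩ with h | h
  · right
    intro x1 x2
    exact congrArg Subtype.val (h.elim (⟨_, x1, rfl⟩ : Y') ⟨_, x2, rfl⟩)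
  · left
    intro x1 x2
    exact congrArg Subtype.val (h.elim (⟨_, x1, rfl⟩ : W') ⟨_, x2, rfl⟩)

lemma PConn.image {α β : Type} [PartialOrder α] [PartialOrder β] (h : PConn α) (f : α → β)
    (hf : Monotone f) (hs : Function.Surjective f) : PConn β := by
  refine ⟨h.ne.map f, fun a b => ?_⟩
  obtain ⟨a, rfl⟩ := hs a
  obtain ⟨b, rfl⟩ := hs b
  have := h.zig a b
  induction this with
  | rel x y hxy => exact Relation.EqvGen.rel _ _ (hf hxy)
  | refl x => exact Relation.EqvGen.refl _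
  | symm x y _ ih => exact ih.symm
  | trans x y z _ _ ih1 ih2 => exact ih1.trans _ _ _ ih2

lemma prime_aux {V U Y W : Type} [PartialOrder V] [PartialOrder U]
    [PartialOrder Y] [PartialOrder W] [Finite V] [Finite U] [Finite Y] [Finite W]
    (hV : PConn V) (hY : PConn Y) (e : V × U ≃o Y × W) (u : U)
    (h : ∀ v1 v2 : V, (e (v1, u)).2 = (e (v2, u)).2) :
    ∃ (U' : Type) (_ : PartialOrder U'), Finite U' ∧ PConn U' ∧ Nonempty (Y ≃o V × U') := by
  obtain ⟨v0⟩ := hV.ne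
  set w := (e (v0, u)).2 with hw
  have hvw : ∀ v, e.symm ((e (v, u)).1, w) = (v, u) := by
    intro v
    rw [OrderIso.symm_apply_eq]
    exact Prod.ext rfl (h v0 v)
  let U' := {u' : U // ∃ y, (e.symm (y, w)).2 = u'}
  let f : Y → U' := fun y => ⟨(e.symm (y, w)).2, y, rfl⟩
  have hfm : Monotone f := fun a b hab => by
    have h1 : ((a, w) : Y × W) ≤ (b, w) := ⟨hab, le_rfl⟩
    exact (e.symm.monotone h1).2
  have hfs : Function.Surjective f := by
    rintro ⟨_, y, rfl⟩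
    exact ⟨y, rfl⟩
  refine ⟨U', inferInstance, inferInstance, hY.image f hfm hfs, ⟨?_⟩⟩
  let g : Y → V × U' := fun y => ((e.symm (y, w)).1, f y)
  have hg : ∀ y y', g y ≤ g y' ↔ y ≤ y' := by
    intro y y'
    have h1 : e.symm (y, w) ≤ e.symm (y', w) ↔ y ≤ y' := by
      rw [e.symm.le_iff_le, Prod.mk_le_mk]; simp
    rw [← h1, Prod.le_def, Prod.le_def]
    exact Iff.rfl
  have hinj : Function.Injective g := fun x x' h =>
    le_antisymm ((hg x x').mp h.le) ((hg x' x).mp h.ge)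
  have hsurj : Function.Surjective g := by
    rintro ⟨v, ⟨_, y2, rfl⟩⟩
    obtain ⟨y, hy⟩ := box_lemma e (OrderIso.refl (V × U)) hY w (e (v, u)).1 y2
    simp only [OrderIso.refl_apply] at hy
    rw [hvw v] at hy
    have hy1 : (e.symm (y, w)).1 = v := by rw [hy]
    have hy2 : (e.symm (y, w)).2 = (e.symm (y2, w)).2 := by rw [hy]
    exact ⟨y, Prod.ext hy1 (Subtype.ext hy2)⟩
  exact { toEquiv := Equiv.ofBijective g ⟨hinj, hsurj⟩
          map_rel_iff' := fun {a b} => hg a b }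

theorem prime_prop {V U Y W : Type} [PartialOrder V] [PartialOrder U]
    [PartialOrder Y] [PartialOrder W] [Finite V] [Finite U] [Finite Y] [Finite W]
    (hV : PConn V) (hU : PConn U) (hY : PConn Y) (hW : PConn W) (hirr : PIrr V)
    (e : V × U ≃o Y × W) :
    (∃ (U' : Type) (_ : PartialOrder U'), Finite U' ∧ PConn U' ∧ Nonempty (Y ≃o V × U')) ∨
    (∃ (U' : Type) (_ : PartialOrder U'), Finite U' ∧ PConn U' ∧ Nonempty (W ≃o V × U')) := by
  obtain ⟨u⟩ := hU.ne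
  rcases slice_dichotomy (OrderIso.refl (V × U)) e hV hirr u with h | h
  · left
    exact prime_aux hV hY e u h
  · right
    refine prime_aux hV hW (e.trans OrderIso.prodComm) u ?_
    intro v1 v2
    exact h v1 v2

end Pool.Agent.Birk
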