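import Mathlib
import Pool.Agent.Lib_MP_aad2bd_co.Basic

/-!
Part L (Lovasz): a finite poset is determined by the numbers of homomorphisms into it
from finite (connected) posets; cancellation of a nonempty factor.
-/

set_option autoImplicit false

namespace Pool.Agent.Birk

/-- Relation preserving maps from a type with a relation to a poset. -/
abbrev LHom (X : Type) (r : X → X → Prop) (A : Type) [PartialOrder A] : Type :=
  {f : X → A // ∀ x y, r x y → f x ≤ f y}

/-- Injective relation preserving maps from a type with a relation to a poset. -/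
abbrev LInj (X : Type) (r : X → X → Prop) (A : Type) [PartialOrder A] : Type :=
  {f : X → A // Function.Injective f ∧ ∀ x y, r x y → f x ≤ f y}

/-- A copy of `X` carrying the preorder generated by `r`. -/
def LPre (X : Type) (_r : X → X → Prop) : Type := X

instance LPre.preorder (X : Type) (r : X → X → Prop) : Preorder (LPre X r) where
  le x y := Relation.ReflTransGen r x y
  le_refl _ := Relation.ReflTransGen.refl
  le_trans _ _ _ h h' := Relation.ReflTransGen.trans h h'

instance LPre.finite (X : Type) (r : X → X → Prop) [Finite X] : Finite (LPre X r) :=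
  inferInstanceAs (Finite X)

theorem LHom.mono {X : Type} {r : X → X → Prop} {A : Type} [PartialOrder A] (f : LHom X r A) :
    ∀ x y, Relation.ReflTransGen r x y → f.1 x ≤ f.1 y := by
  intro x y h
  induction h with
  | refl => exact le_rfl
  | tail _ hbc ih => exact ih.trans (f.2 _ _ hbc)

/-- The generated poset. -/
abbrev LPos (X : Type) (r : X → X → Prop) : Type := Antisymmetrization (LPre X r) (· ≤ ·)

/-- Relation preserving maps are monotone maps on the generated poset. -/
theorem L_hom_equiv (X : Type) (r : X → X → Prop) (A : Type) [PartialOrder A] :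
    Nonempty (LHom X r A ≃ (LPos X r →o A)) := by
  refine ⟨{
    toFun := fun f => ⟨fun q => Quotient.liftOn' q (fun x : LPre X r => f.1 x) (fun a b hab =>
        le_antisymm (f.mono a b hab.1) (f.mono b a hab.2)), ?_⟩
    invFun := fun g => ⟨fun x => g (toAntisymmetrization (· ≤ ·) (x : LPre X r)), ?_⟩
    left_inv := ?_
    right_inv := ?_ }⟩
  · intro a b
    induction a using Quotient.inductionOn'
    induction b using Quotient.inductionOn'
    intro h
    exact f.mono _ _ h
  · intro x y h
    apply g.monotone
    exact Relation.ReflTransGen.single h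
  · intro f
    rfl
  · intro g
    ext q
    induction q using Quotient.inductionOn'
    rfl

/-- Maps with a prescribed kernel. -/
abbrev LKer (X : Type) (r : X → X → Prop) (A : Type) [PartialOrder A] (t : Setoid X) : Type :=
  {f : X → A // (∀ x y, r x y → f x ≤ f y) ∧ Setoid.ker f = t}

/-- The relation induced on a quotient. -/
def LRel {X : Type} (r : X → X → Prop) (t : Setoid X) (p q : Quotient t) : Prop :=
  ∃ x y, Quotient.mk t x = p ∧ Quotient.mk t y = q ∧ r x y

theorem L_ker_equiv (X : Type) (r : X → X → Prop) (A : Type) [PartialOrder A] (t : Setoid X) :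
    Nonempty (LKer X r A t ≃ LInj (Quotient t) (LRel r t) A) := by
  refine ⟨{
    toFun := fun f => ⟨Quotient.lift f.1 (fun a b hab => ?_), ?_, ?_⟩
    invFun := fun g => ⟨fun x => g.1 (Quotient.mk t x), ?_, ?_⟩
    left_inv := ?_
    right_inv := ?_ }⟩
  · have h : Setoid.ker f.1 a b := by
      rw [f.2.2]
      exact hab
    exact h
  · intro p q
    induction p using Quotient.inductionOn with | _ a => ?_
    induction q using Quotient.inductionOn with | _ b => ?_
    intro h
    have h' : f.1 a = f.1 b := h
    apply Quotient.sound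
    have h2 := f.2.2
    have h3 : Setoid.ker f.1 a b := h'
    rw [h2] at h3
    exact h3
  · rintro p q ⟨x, y, rfl, rfl, hr⟩
    exact f.2.1 x y hr
  · intro x y h
    exact g.2.2 _ _ ⟨x, y, rfl, rfl, h⟩
  · ext x y
    rw [Setoid.ker_def]
    constructor
    · intro h
      exact Quotient.exact (g.2.1 h)
    · intro h
      exact congrArg g.1 (Quotient.sound h)
  · intro f
    rfl
  · intro g
    apply Subtype.ext
    funext q
    induction q using Quotient.inductionOn
    rfl

theorem L_ker_bot_equiv (X : Type) (r : X → X → Prop) (A : Type) [PartialOrder A] :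
    Nonempty (LKer X r A ⊥ ≃ LInj X r A) := by
  refine ⟨Equiv.subtypeEquivRight fun f => ?_⟩
  rw [← Setoid.injective_iff_ker_bot]
  exact and_comm

theorem L_hom_sum (X : Type) (r : X → X → Prop) (A : Type) [PartialOrder A] [Finite X] [Finite A]
    [Fintype (Setoid X)] :
    Nat.card (LHom X r A) = ∑ t : Setoid X, Nat.card (LKer X r A t) := by
  rw [← Nat.card_sigma]
  refine Nat.card_congr {
    toFun := fun f => ⟨Setoid.ker f.1, f.1, f.2, rfl⟩
    invFun := fun g => ⟨g.2.1, g.2.2.1⟩
    left_inv := fun f => rfl
    right_inv := ?_ }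
  rintro ⟨t, f, hf, rfl⟩
  rfl

theorem L_card_quotient_lt {X : Type} [Finite X] (t : Setoid X) (ht : t ≠ ⊥) :
    Nat.card (Quotient t) < Nat.card X := by
  by_contra hcon
  push Not at hcon
  apply ht
  have hsurj : Function.Surjective (Quotient.mk t) := Quotient.mk_surjective
  have hle : Nat.card (Quotient t) ≤ Nat.card X := Nat.card_le_card_of_surjective _ hsurj
  have hbij : Function.Bijective (Quotient.mk t) :=
    (Nat.bijective_iff_surjective_and_card _).2 ⟨hsurj, le_antisymm hcon hle⟩
  ext x y
  rw [Setoid.bot_def]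
  constructor
  · intro h
    exact hbij.1 (Quotient.sound h)
  · intro h
    subst h
    exact t.refl' x

theorem L_hom_eq {A B : Type} [PartialOrder A] [PartialOrder B]
    (h : ∀ (X : Type) [PartialOrder X] [Finite X], Nat.card (X →o A) = Nat.card (X →o B))
    (X : Type) [Finite X] (r : X → X → Prop) : Nat.card (LHom X r A) = Nat.card (LHom X r B) := by
  obtain ⟨e⟩ := L_hom_equiv X r A
  obtain ⟨e'⟩ := L_hom_equiv X r B
  have : Finite (LPos X r) := Quotient.finite _
  rw [Nat.card_congr e, Nat.card_congr e']
  exact h (LPos X r)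

theorem L_inj_eq {A B : Type} [PartialOrder A] [PartialOrder B] [Finite A] [Finite B]
    (h : ∀ (X : Type) [PartialOrder X] [Finite X], Nat.card (X →o A) = Nat.card (X →o B))
    (n : ℕ) : ∀ (X : Type) [Finite X] (r : X → X → Prop), Nat.card X = n →
      Nat.card (LInj X r A) = Nat.card (LInj X r B) := by
  induction n using Nat.strong_induction_on with
  | _ n ih =>
    intro X _ r hn
    classical
    let _ : Fintype X := Fintype.ofFinite X
    have : Finite (Setoid X) := by
      apply Finite.of_injective (fun t : Setoid X => fun x y : X => t x y)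
      intro s t hst
      ext x y
      exact iff_of_eq (congrFun (congrFun hst x) y)
    let _ : Fintype (Setoid X) := Fintype.ofFinite _
    have h1 := L_hom_eq h X r
    rw [L_hom_sum X r A, L_hom_sum X r B,
      ← Finset.add_sum_erase _ _ (Finset.mem_univ (⊥ : Setoid X)),
      ← Finset.add_sum_erase _ _ (Finset.mem_univ (⊥ : Setoid X))] at h1
    have h2 : ∑ t ∈ Finset.univ.erase (⊥ : Setoid X), Nat.card (LKer X r A t) =
        ∑ t ∈ Finset.univ.erase (⊥ : Setoid X), Nat.card (LKer X r B t) := by
      apply Finset.sum_congr rfl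
      intro t ht
      have ht' : t ≠ ⊥ := (Finset.mem_erase.1 ht).1
      obtain ⟨e⟩ := L_ker_equiv X r A t
      obtain ⟨e'⟩ := L_ker_equiv X r B t
      rw [Nat.card_congr e, Nat.card_congr e']
      exact ih _ (hn ▸ L_card_quotient_lt t ht') (Quotient t) (LRel r t) rfl
    rw [h2] at h1
    have h3 := Nat.add_right_cancel h1
    obtain ⟨e⟩ := L_ker_bot_equiv X r A
    obtain ⟨e'⟩ := L_ker_bot_equiv X r B
    rw [Nat.card_congr e, Nat.card_congr e'] at h3
    exact h3

/-- Injective monotone maps in both directions between finite posets give an isomorphism. -/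
theorem L_iso_of_inj {A B : Type} [PartialOrder A] [PartialOrder B] [Finite A] [Finite B]
    (f : A → B) (hf : Function.Injective f) (hfm : Monotone f)
    (g : B → A) (hg : Function.Injective g) (hgm : Monotone g) : Nonempty (A ≃o B) := by
  have hcard : Nat.card A = Nat.card B :=
    le_antisymm (Nat.card_le_card_of_injective f hf) (Nat.card_le_card_of_injective g hg)
  have hfb : Function.Bijective f := (Nat.bijective_iff_injective_and_card _).2 ⟨hf, hcard⟩
  let F : {p : A × A // p.1 ≤ p.2} → {p : B × B // p.1 ≤ p.2} :=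
    fun p => ⟨(f p.1.1, f p.1.2), hfm p.2⟩
  let G : {p : B × B // p.1 ≤ p.2} → {p : A × A // p.1 ≤ p.2} :=
    fun p => ⟨(g p.1.1, g p.1.2), hgm p.2⟩
  have hF : Function.Injective F := by
    rintro ⟨⟨a, b⟩, h⟩ ⟨⟨c, d⟩, h'⟩ hh
    have h1 := congrArg (fun p => p.1) hh
    simp only [F, Prod.mk.injEq] at h1
    apply Subtype.ext
    exact Prod.ext (hf h1.1) (hf h1.2)
  have hG : Function.Injective G := by
    rintro ⟨⟨a, b⟩, h⟩ ⟨⟨c, d⟩, h'⟩ hh
    have h1 := congrArg (fun p => p.1) hh
    simp only [G, Prod.mk.injEq] at h1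
    apply Subtype.ext
    exact Prod.ext (hg h1.1) (hg h1.2)
  have hc2 : Nat.card {p : A × A // p.1 ≤ p.2} = Nat.card {p : B × B // p.1 ≤ p.2} :=
    le_antisymm (Nat.card_le_card_of_injective F hF) (Nat.card_le_card_of_injective G hG)
  have hFb : Function.Bijective F := (Nat.bijective_iff_injective_and_card _).2 ⟨hF, hc2⟩
  refine ⟨⟨Equiv.ofBijective f hfb, ?_⟩⟩
  intro a b
  simp only [Equiv.ofBijective_apply]
  constructor
  · intro hab
    obtain ⟨⟨⟨c, d⟩, h⟩, hh⟩ := hFb.2 ⟨(f a, f b), hab⟩
    have h1 := congrArg (fun p => p.1) hh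
    simp only [F, Prod.mk.injEq] at h1
    rw [← hf h1.1, ← hf h1.2]
    exact h
  · intro hab
    exact hfm hab

theorem L_exists_inj {A B : Type} [PartialOrder A] [PartialOrder B] [Finite A] [Finite B]
    (h : ∀ (X : Type) [PartialOrder X] [Finite X], Nat.card (X →o A) = Nat.card (X →o B)) :
    ∃ f : A → B, Function.Injective f ∧ Monotone f := by
  have h1 := L_inj_eq h _ A (fun x y => x ≤ y) rfl
  have h2 : 0 < Nat.card (LInj A (fun x y => x ≤ y) A) := by
    have : Nonempty (LInj A (fun x y => x ≤ y) A) :=
      ⟨⟨id, Function.injective_id, fun _ _ h => h⟩⟩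
    exact Nat.card_pos
  rw [h1] at h2
  obtain ⟨⟨f, hf, hf'⟩⟩ := (Nat.card_pos_iff.1 h2).1
  exact ⟨f, hf, fun a b hab => hf' a b hab⟩

theorem iso_of_card_hom {A B : Type} [PartialOrder A] [PartialOrder B] [Finite A] [Finite B]
    (h : ∀ (X : Type) [PartialOrder X] [Finite X], Nat.card (X →o A) = Nat.card (X →o B)) :
    Nonempty (A ≃o B) := by
  obtain ⟨f, hf, hf'⟩ := L_exists_inj h
  obtain ⟨g, hg, hg'⟩ := L_exists_inj (fun X _ _ => (h X).symm)
  exact L_iso_of_inj f hf hf' g hg hg'

/-- Zigzag components as a setoid. -/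
def LZig (P : Type) [PartialOrder P] : Setoid P := Relation.EqvGen.setoid (fun x y : P => x ≤ y)

theorem L_comp_conn {P : Type} [PartialOrder P] (q : Quotient (LZig P)) :
    PConn {x : P // Quotient.mk (LZig P) x = q} := by
  constructor
  · obtain ⟨x, hx⟩ := Quotient.exists_rep q
    exact ⟨⟨x, hx⟩⟩
  · rintro ⟨a, ha⟩ ⟨b, hb⟩
    have hab : Relation.EqvGen (fun x y : P => x ≤ y) a b := Quotient.exact (ha.trans hb.symm)
    have key : ∀ a b : P, Relation.EqvGen (fun x y : P => x ≤ y) a b →
        ∀ (ha : Quotient.mk (LZig P) a = q) (hb : Quotient.mk (LZig P) b = q),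
        Relation.EqvGen (fun x y : {x : P // Quotient.mk (LZig P) x = q} => x ≤ y)
          ⟨a, ha⟩ ⟨b, hb⟩ := by
      intro a b hab
      induction hab with
      | rel x y hxy => intro ha hb; exact Relation.EqvGen.rel _ _ hxy
      | refl x => intro ha hb; exact Relation.EqvGen.refl _
      | symm x y _ ih => intro ha hb; exact (ih hb ha).symm
      | trans x y z hxy _ ih1 ih2 =>
        intro ha hb
        have hy : Quotient.mk (LZig P) y = q := by
          rw [← ha]
          exact (Quotient.sound hxy).symm
        exact (ih1 ha hy).trans _ _ _ (ih2 hy hb)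
    exact key a b hab ha hb

theorem L_card_hom_prod (X A : Type) [PartialOrder X] [PartialOrder A] [Finite X] [Finite A]
    [Fintype (Quotient (LZig X))] :
    Nat.card (X →o A) =
      ∏ q : Quotient (LZig X), Nat.card ({x : X // Quotient.mk (LZig X) x = q} →o A) := by
  rw [← Nat.card_pi]
  refine Nat.card_congr {
    toFun := fun f q => ⟨fun x => f x.1, fun x y h => f.monotone h⟩
    invFun := fun g => ⟨fun x => g (Quotient.mk (LZig X) x) ⟨x, rfl⟩, ?_⟩
    left_inv := fun f => rfl
    right_inv := ?_ }
  · intro x y hxy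
    have hq : Quotient.mk (LZig X) x = Quotient.mk (LZig X) y :=
      Quotient.sound (Relation.EqvGen.rel _ _ hxy)
    have key : ∀ (q : Quotient (LZig X)) (hq : Quotient.mk (LZig X) x = q),
        g q ⟨x, hq⟩ = g (Quotient.mk (LZig X) x) ⟨x, rfl⟩ := by
      intro q hq
      subst hq
      rfl
    show g (Quotient.mk (LZig X) x) ⟨x, rfl⟩ ≤ g (Quotient.mk (LZig X) y) ⟨y, rfl⟩
    rw [← key _ hq]
    exact (g (Quotient.mk (LZig X) y)).monotone hxy
  · intro g
    funext q
    ext ⟨x, hx⟩
    subst hx
    rfl

theorem iso_of_card_hom_conn {A B : Type} [PartialOrder A] [PartialOrder B] [Finite A] [Finite B]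
    (h : ∀ (X : Type) [PartialOrder X] [Finite X], PConn X →
      Nat.card (X →o A) = Nat.card (X →o B)) :
    Nonempty (A ≃o B) := by
  apply iso_of_card_hom
  intro X _ _
  let _ : Fintype (Quotient (LZig X)) := Fintype.ofFinite _
  rw [L_card_hom_prod X A, L_card_hom_prod X B]
  exact Finset.prod_congr rfl fun q _ => h _ (L_comp_conn q)

theorem L_card_hom_mul (X A Z : Type) [PartialOrder X] [PartialOrder A] [PartialOrder Z] :
    Nat.card (X →o Z × A) = Nat.card (X →o Z) * Nat.card (X →o A) := by
  rw [← Nat.card_prod]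
  exact Nat.card_congr {
    toFun := fun f => (⟨fun x => (f x).1, fun x y h => (f.monotone h).1⟩,
      ⟨fun x => (f x).2, fun x y h => (f.monotone h).2⟩)
    invFun := fun g => ⟨fun x => (g.1 x, g.2 x), fun x y h => ⟨g.1.monotone h, g.2.monotone h⟩⟩
    left_inv := fun f => rfl
    right_inv := fun g => rfl }

theorem prod_cancel {A B Z : Type} [PartialOrder A] [PartialOrder B] [PartialOrder Z]
    [Finite A] [Finite B] [Finite Z] [Nonempty Z] (e : Z × A ≃o Z × B) :
    Nonempty (A ≃o B) := by
  apply iso_of_card_hom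
  intro X _ _
  have h1 : Nat.card (X →o Z × A) = Nat.card (X →o Z × B) :=
    Nat.card_congr {
      toFun := fun f => ⟨fun x => e (f x), fun x y h => e.monotone (f.monotone h)⟩
      invFun := fun f => ⟨fun x => e.symm (f x), fun x y h => e.symm.monotone (f.monotone h)⟩
      left_inv := fun f => by ext x <;> simp
      right_inv := fun f => by ext x <;> simp }
  rw [L_card_hom_mul, L_card_hom_mul] at h1
  have : Nonempty (X →o Z) := ⟨OrderHom.const X (Classical.arbitrary Z)⟩
  exact Nat.eq_of_mul_eq_mul_left Nat.card_pos h1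

end Pool.Agent.Birk
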