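import Mathlib
import Pool.Agent.Lib_MP_aad2bd_co.Basic
import Pool.Agent.Lib_MP_aad2bd_co.AlgDefs
import Pool.Agent.Lib_MP_aad2bd_co.PartL

set_option autoImplicit false

namespace Pool.Agent.Birk

/-! ## PART C (isomorphism classes of finite connected posets, components) -/

/-- Finite connected posets. -/
structure CPos : Type 1 where
  carrier : Type
  po : PartialOrder carrier
  fin : Finite carrier
  conn : PConn carrier

attribute [instance] CPos.po CPos.fin

instance CPos.setoid : Setoid CPos where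
  r P Q := Nonempty (P.carrier ≃o Q.carrier)
  iseqv := ⟨fun _ => ⟨OrderIso.refl _⟩, fun ⟨e⟩ => ⟨e.symm⟩, fun ⟨e⟩ ⟨f⟩ => ⟨e.trans f⟩⟩

/-- Isomorphism classes of finite connected posets. -/
def Gam : Type 1 := Quotient CPos.setoid

/-- The class of a finite connected poset. -/
def Gam.mk (P : Type) [PartialOrder P] [Finite P] (h : PConn P) : Gam :=
  Quotient.mk CPos.setoid ⟨P, inferInstance, inferInstance, h⟩

/-- A representative. -/
noncomputable def Gam.rep (G : Gam) : Type := (Quotient.out G).carrier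

noncomputable instance (G : Gam) : PartialOrder G.rep := (Quotient.out G).po
instance (G : Gam) : Finite G.rep := (Quotient.out G).fin
theorem Gam.rep_conn (G : Gam) : PConn G.rep := (Quotient.out G).conn

theorem Gam.mk_eq_mk {P Q : Type} [PartialOrder P] [Finite P] [PartialOrder Q] [Finite Q]
    (hP : PConn P) (hQ : PConn Q) : Gam.mk P hP = Gam.mk Q hQ ↔ Nonempty (P ≃o Q) :=
  ⟨fun h => Quotient.exact h, fun h => Quotient.sound h⟩

theorem Gam.mk_rep (G : Gam) : Gam.mk G.rep G.rep_conn = G := Quotient.out_eq G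

theorem Gam.rep_mk {P : Type} [PartialOrder P] [Finite P] (hP : PConn P) :
    Nonempty ((Gam.mk P hP).rep ≃o P) :=
  (Gam.mk_eq_mk (Gam.mk P hP).rep_conn hP).1 (Gam.mk_rep _)

/-- monotone maps preserve zigzags -/
theorem C_zig_map {P Q : Type} [PartialOrder P] [PartialOrder Q] (f : P → Q) (hf : Monotone f)
    {a b : P} (h : Relation.EqvGen (fun x y : P => x ≤ y) a b) :
    Relation.EqvGen (fun x y : Q => x ≤ y) (f a) (f b) := by
  induction h with
  | rel x y hxy => exact Relation.EqvGen.rel _ _ (hf hxy)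
  | refl x => exact Relation.EqvGen.refl _
  | symm x y _ ih => exact ih.symm
  | trans x y z _ _ ih1 ih2 => exact ih1.trans _ _ _ ih2

theorem PConn.map {P Q : Type} [PartialOrder P] [PartialOrder Q] (hP : PConn P) (f : P → Q)
    (hf : Monotone f) (hs : Function.Surjective f) : PConn Q := by
  refine ⟨⟨f hP.ne.some⟩, fun a b => ?_⟩
  obtain ⟨a, rfl⟩ := hs a
  obtain ⟨b, rfl⟩ := hs b
  exact C_zig_map f hf (hP.zig a b)

theorem PConn.prod {P Q : Type} [PartialOrder P] [PartialOrder Q] (hP : PConn P) (hQ : PConn Q) :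
    PConn (P × Q) := by
  refine ⟨⟨(hP.ne.some, hQ.ne.some)⟩, ?_⟩
  rintro ⟨a, b⟩ ⟨a', b'⟩
  have h1 := C_zig_map (fun x : P => (x, b)) (fun x y h => Prod.mk_le_mk.2 ⟨h, le_rfl⟩)
    (hP.zig a a')
  have h2 := C_zig_map (fun x : Q => (a', x)) (fun x y h => Prod.mk_le_mk.2 ⟨le_rfl, h⟩)
    (hQ.zig b b')
  exact h1.trans _ _ _ h2

theorem PConn.unit : PConn Unit := ⟨⟨()⟩, fun _ _ => Relation.EqvGen.refl _⟩

/-- product of order isomorphisms -/
def C_prodCongr {A B C D : Type} [PartialOrder A] [PartialOrder B] [PartialOrder C] [PartialOrder D]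
    (e : A ≃o B) (f : C ≃o D) : A × C ≃o B × D where
  toEquiv := Equiv.prodCongr e.toEquiv f.toEquiv
  map_rel_iff' := by
    rintro ⟨a, b⟩ ⟨c, d⟩
    simp [Prod.mk_le_mk]

/-- the product of classes -/
noncomputable def Gam.mul' : Gam → Gam → Gam :=
  Quotient.map₂
    (fun P Q => (⟨P.carrier × Q.carrier, inferInstance, inferInstance, P.conn.prod Q.conn⟩ : CPos))
    (by
      rintro P P' ⟨e⟩ Q Q' ⟨f⟩
      exact ⟨C_prodCongr e f⟩)

/-- uses `prod_cancel` from Part L -/
noncomputable instance : CancelCommMonoid Gam where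
  mul := Gam.mul'
  one := Gam.mk Unit PConn.unit
  mul_assoc := by
    rintro ⟨a⟩ ⟨b⟩ ⟨c⟩
    exact Quotient.sound ⟨OrderIso.prodAssoc _ _ _⟩
  mul_comm := by
    rintro ⟨a⟩ ⟨b⟩
    exact Quotient.sound ⟨OrderIso.prodComm⟩
  one_mul := by
    rintro ⟨a⟩
    refine Quotient.sound ⟨⟨Equiv.punitProd _, ?_⟩⟩
    rintro ⟨_, x⟩ ⟨_, y⟩
    simp [Prod.mk_le_mk]
  mul_one := by
    rintro ⟨a⟩
    refine Quotient.sound ⟨⟨Equiv.prodPUnit _, ?_⟩⟩
    rintro ⟨x, _⟩ ⟨y, _⟩
    simp [Prod.mk_le_mk]
  mul_left_cancel := by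
    rintro ⟨a⟩ ⟨b⟩ ⟨c⟩ h
    obtain ⟨e⟩ := Quotient.exact h
    have := a.conn.ne
    exact Quotient.sound (prod_cancel e)

theorem Gam.mk_mul {P Q : Type} [PartialOrder P] [Finite P] [PartialOrder Q] [Finite Q]
    (hP : PConn P) (hQ : PConn Q) : Gam.mk P hP * Gam.mk Q hQ = Gam.mk (P × Q) (hP.prod hQ) :=
  rfl

theorem Gam.one_def : (1 : Gam) = Gam.mk Unit PConn.unit := rfl

/-- connected components of a poset -/
def zigSetoid (P : Type) [PartialOrder P] : Setoid P :=
  Relation.EqvGen.setoid (fun x y : P => x ≤ y)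

abbrev Comp (P : Type) [PartialOrder P] : Type := Quotient (zigSetoid P)

/-- the component as a subposet -/
abbrev CompOf {P : Type} [PartialOrder P] (q : Comp P) : Type :=
  {x : P // Quotient.mk (zigSetoid P) x = q}

theorem C_mk_eq_iff {P : Type} [PartialOrder P] {x y : P} :
    Quotient.mk (zigSetoid P) x = Quotient.mk (zigSetoid P) y ↔
      Relation.EqvGen (fun x y : P => x ≤ y) x y :=
  ⟨fun h => Quotient.exact h, fun h => Quotient.sound h⟩

theorem C_mk_eq_of_le {P : Type} [PartialOrder P] {x y : P} (h : x ≤ y) :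
    Quotient.mk (zigSetoid P) x = Quotient.mk (zigSetoid P) y :=
  C_mk_eq_iff.2 (Relation.EqvGen.rel _ _ h)

theorem compOf_conn {P : Type} [PartialOrder P] (q : Comp P) : PConn (CompOf q) := by
  refine ⟨?_, ?_⟩
  · induction q using Quotient.inductionOn with
    | h x => exact ⟨⟨x, rfl⟩⟩
  · have key : ∀ x y : P, Relation.EqvGen (fun x y : P => x ≤ y) x y →
        ∀ (hx : Quotient.mk (zigSetoid P) x = q) (hy : Quotient.mk (zigSetoid P) y = q),
          Relation.EqvGen (fun x y : CompOf q => x ≤ y) ⟨x, hx⟩ ⟨y, hy⟩ := by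
      intro x y h
      induction h with
      | rel x y hxy => intro hx hy; exact Relation.EqvGen.rel _ _ hxy
      | refl x => intro hx hy; exact Relation.EqvGen.refl _
      | symm x y _ ih => intro hx hy; exact (ih hy hx).symm
      | trans x y z hxy _ ih1 ih2 =>
        intro hx hz
        have hy : Quotient.mk (zigSetoid P) y = q := (C_mk_eq_iff.2 hxy).symm.trans hx
        exact (ih1 hx hy).trans _ _ _ (ih2 hy hz)
    rintro ⟨x, hx⟩ ⟨y, hy⟩
    exact key x y (C_mk_eq_iff.1 (hx.trans hy.symm)) hx hy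

/-- the multiset of (classes of) components of a finite poset -/
noncomputable def comps (P : Type) [PartialOrder P] [Finite P] : Multiset Gam :=
  (@Finset.univ (Comp P) (Fintype.ofFinite _)).val.map (fun q => Gam.mk (CompOf q) (compOf_conn q))

theorem comps_ne_zero (P : Type) [PartialOrder P] [Finite P] [Nonempty P] : comps P ≠ 0 := by
  intro h
  unfold comps at h
  rw [Multiset.map_eq_zero] at h
  have := @Finset.mem_univ (Comp P) (Fintype.ofFinite _) (Quotient.mk _ (Classical.arbitrary P))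
  rw [Finset.mem_def, h] at this
  simp at this

/-- an equivalence of components gives an equality of multisets -/
theorem C_comps_of_equiv {P : Type} [PartialOrder P] [Finite P] {ι : Type} [Fintype ι]
    (X : ι → Gam) (σ : Comp P ≃ ι) (h : ∀ q, Gam.mk (CompOf q) (compOf_conn q) = X (σ q)) :
    comps P = (Finset.univ : Finset ι).val.map X := by
  unfold comps
  let _ : Fintype (Comp P) := Fintype.ofFinite _
  rw [Multiset.map_congr rfl (fun q _ => h q)]
  rw [← Multiset.map_univ_val_equiv σ, Multiset.map_map]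
  rfl

/-- the components are the fibres of a map with connected fibres -/
theorem C_comps_of_map {P : Type} [PartialOrder P] [Finite P] {ι : Type} [Fintype ι]
    (c : P → ι) (hc : ∀ x y, x ≤ y → c x = c y) (hf : ∀ i, PConn {x // c x = i}) :
    comps P = (Finset.univ : Finset ι).val.map fun i => Gam.mk {x // c x = i} (hf i) := by
  have hc' : ∀ x y, Relation.EqvGen (fun x y : P => x ≤ y) x y → c x = c y := by
    intro x y h
    induction h with
    | rel x y hxy => exact hc x y hxy
    | refl x => rfl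
    | symm x y _ ih => exact ih.symm
    | trans x y z _ _ ih1 ih2 => exact ih1.trans ih2
  have hinj : ∀ x y, c x = c y → Quotient.mk (zigSetoid P) x = Quotient.mk (zigSetoid P) y := by
    intro x y h
    have := (hf (c y)).zig ⟨x, h⟩ ⟨y, rfl⟩
    exact C_mk_eq_iff.2 (C_zig_map (fun z : {x // c x = c y} => z.1) (fun _ _ h => h) this)
  let g : Comp P → ι := Quotient.lift c (fun x y h => hc' x y h)
  have hg : Function.Bijective g := by
    constructor
    · rintro ⟨x⟩ ⟨y⟩ h
      exact hinj x y h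
    · intro i
      obtain ⟨x, hx⟩ := (hf i).ne
      exact ⟨Quotient.mk _ x, hx⟩
  refine C_comps_of_equiv _ (Equiv.ofBijective g hg) ?_
  intro q
  rw [Gam.mk_eq_mk]
  induction q using Quotient.inductionOn with
  | h z =>
    refine ⟨⟨Equiv.subtypeEquivRight fun x => ?_, ?_⟩⟩
    · constructor
      · intro h; exact hc' _ _ (C_mk_eq_iff.1 h)
      · intro h; exact hinj _ _ h
    · rintro ⟨x, hx⟩ ⟨y, hy⟩
      rfl

theorem comps_congr {P Q : Type} [PartialOrder P] [Finite P] [PartialOrder Q] [Finite Q]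
    (e : P ≃o Q) : comps P = comps Q := by
  let _ : Fintype (Comp Q) := Fintype.ofFinite _
  have hf : ∀ q : Comp Q, PConn {x : P // Quotient.mk (zigSetoid Q) (e x) = q} := by
    intro q
    refine (compOf_conn q).map (fun y => ⟨e.symm y.1, by simpa using y.2⟩) ?_ ?_
    · intro x y h
      exact e.symm.monotone h
    · rintro ⟨x, hx⟩
      exact ⟨⟨e x, hx⟩, by simp⟩
  rw [C_comps_of_map (fun x : P => Quotient.mk (zigSetoid Q) (e x))
    (fun x y h => C_mk_eq_of_le (e.monotone h)) hf]
  unfold comps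
  refine Multiset.map_congr rfl fun q _ => ?_
  rw [Gam.mk_eq_mk]
  refine ⟨⟨⟨fun x => ⟨e x.1, x.2⟩, fun y => ⟨e.symm y.1, by simpa using y.2⟩, ?_, ?_⟩, ?_⟩⟩
  · rintro ⟨x, hx⟩; simp
  · rintro ⟨x, hx⟩; simp
  · rintro ⟨x, hx⟩ ⟨y, hy⟩
    exact e.le_iff_le

/-- a poset is the disjoint sum of its components -/
theorem C_sigma (P : Type) [PartialOrder P] : Nonempty (P ≃o Σ q : Comp P, CompOf q) := by
  refine ⟨⟨⟨fun x => ⟨Quotient.mk _ x, ⟨x, rfl⟩⟩, fun s => s.2.1, ?_, ?_⟩, ?_⟩⟩
  · intro x; rfl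
  · rintro ⟨q, ⟨x, rfl⟩⟩; rfl
  · intro x y
    constructor
    · intro h
      rw [Sigma.le_def] at h
      obtain ⟨h1, h2⟩ := h
      have key : ∀ (q q' : Comp P) (hq : q = q') (a : CompOf q) (b : CompOf q'),
          (hq ▸ a : CompOf q') ≤ b → a.1 ≤ b.1 := by
        rintro q _ rfl a b hab
        exact hab
      exact key _ _ h1 _ _ h2
    · intro h
      have h0 : Quotient.mk (zigSetoid P) x = Quotient.mk (zigSetoid P) y := C_mk_eq_of_le h
      have key : ∀ (q : Comp P) (hx : Quotient.mk (zigSetoid P) x = q)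
          (hy : Quotient.mk (zigSetoid P) y = q),
          (⟨Quotient.mk _ x, ⟨x, rfl⟩⟩ : Σ q : Comp P, CompOf q) ≤ ⟨Quotient.mk _ y, ⟨y, rfl⟩⟩ := by
        rintro q rfl hy
        have e1 : (⟨Quotient.mk _ y, ⟨y, rfl⟩⟩ : Σ q : Comp P, CompOf q) =
            ⟨Quotient.mk _ x, ⟨y, hy⟩⟩ := Sigma.subtype_ext hy rfl
        rw [e1]
        exact Sigma.mk_le_mk_iff.2 h
      exact key _ rfl h0.symm

theorem C_sigmaCongr {ι κ : Type} (σ : ι ≃ κ) (X : ι → Type) (Y : κ → Type)
    [∀ i, PartialOrder (X i)] [∀ k, PartialOrder (Y k)] (h : ∀ i, Nonempty (X i ≃o Y (σ i))) :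
    Nonempty ((Σ i, X i) ≃o (Σ k, Y k)) := by
  classical
  let f : ∀ i, X i ≃o Y (σ i) := fun i => (h i).some
  refine ⟨⟨Equiv.sigmaCongr σ (fun i => (f i).toEquiv), ?_⟩⟩
  rintro ⟨i, x⟩ ⟨j, y⟩
  constructor
  · intro hle
    have h1 : σ i = σ j := (Sigma.le_def.1 hle).1
    have h2 := σ.injective h1
    subst h2
    have := Sigma.mk_le_mk_iff.1 hle
    exact Sigma.mk_le_mk_iff.2 ((f i).le_iff_le.1 this)
  · intro hle
    have h1 : i = j := (Sigma.le_def.1 hle).1
    subst h1
    have := Sigma.mk_le_mk_iff.1 hle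
    exact Sigma.mk_le_mk_iff.2 ((f i).le_iff_le.2 this)

theorem C_exists_equiv_of_map_eq {α β γ : Type*} [Fintype α] [Fintype β] (f : α → γ) (g : β → γ)
    (h : (Finset.univ : Finset α).val.map f = (Finset.univ : Finset β).val.map g) :
    ∃ σ : α ≃ β, ∀ a, f a = g (σ a) := by
  classical
  have hc : ∀ c : γ, Nonempty ({a // f a = c} ≃ {b // g b = c}) := by
    intro c
    have h1 := congrArg (Multiset.count c) h
    rw [Multiset.count_map, Multiset.count_map] at h1
    refine ⟨Fintype.equivOfCardEq ?_⟩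
    rw [Fintype.card_subtype, Fintype.card_subtype]
    have e1 : (Finset.univ.filter fun a => f a = c) = Finset.univ.filter fun a => c = f a := by
      ext a; simp [eq_comm]
    have e2 : (Finset.univ.filter fun a => g a = c) = Finset.univ.filter fun a => c = g a := by
      ext a; simp [eq_comm]
    rw [e1, e2]
    exact h1
  let e : α ≃ β := (Equiv.sigmaFiberEquiv f).symm.trans
    ((Equiv.sigmaCongrRight fun c => (hc c).some).trans (Equiv.sigmaFiberEquiv g))
  refine ⟨e, fun a => ?_⟩
  exact (((hc (f a)).some ⟨a, rfl⟩).2).symm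

theorem iso_of_comps_eq {P Q : Type} [PartialOrder P] [Finite P] [PartialOrder Q] [Finite Q]
    (h : comps P = comps Q) : Nonempty (P ≃o Q) := by
  let _ : Fintype (Comp P) := Fintype.ofFinite _
  let _ : Fintype (Comp Q) := Fintype.ofFinite _
  obtain ⟨σ, hσ⟩ := C_exists_equiv_of_map_eq _ _ h
  obtain ⟨e1⟩ := C_sigma P
  obtain ⟨e2⟩ := C_sigma Q
  obtain ⟨e3⟩ := C_sigmaCongr σ (fun q : Comp P => CompOf q) (fun q : Comp Q => CompOf q)
    (fun q => (Gam.mk_eq_mk _ _).1 (hσ q))
  exact ⟨e1.trans (e3.trans e2.symm)⟩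

/-! ### the element of the monoid algebra -/

/-- the algebra element of a poset -/
noncomputable def C_alg (P : Type) [PartialOrder P] [Finite P] : MonoidAlgebra ℤ Gam :=
  alg (comps P)

theorem C_alg_congr {P Q : Type} [PartialOrder P] [Finite P] [PartialOrder Q] [Finite Q]
    (e : P ≃o Q) : C_alg P = C_alg Q := by
  unfold C_alg
  rw [comps_congr e]

theorem C_alg_of_map {P : Type} [PartialOrder P] [Finite P] {ι : Type} [Fintype ι]
    (c : P → ι) (hc : ∀ x y, x ≤ y → c x = c y) (hf : ∀ i, PConn {x // c x = i}) :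
    C_alg P = ∑ i, MonoidAlgebra.single (Gam.mk {x // c x = i} (hf i)) (1 : ℤ) := by
  unfold C_alg alg
  rw [C_comps_of_map c hc hf, Multiset.map_map]
  rfl

theorem C_alg_eq {P : Type} [PartialOrder P] [Finite P] [Fintype (Comp P)] :
    C_alg P = ∑ q : Comp P, MonoidAlgebra.single (Gam.mk (CompOf q) (compOf_conn q)) (1 : ℤ) := by
  exact C_alg_of_map (fun x : P => Quotient.mk (zigSetoid P) x) (fun x y h => C_mk_eq_of_le h)
    (fun q => compOf_conn q)

theorem C_alg_conn {P : Type} [PartialOrder P] [Finite P] (h : PConn P) :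
    C_alg P = MonoidAlgebra.single (Gam.mk P h) (1 : ℤ) := by
  have h1 : ∀ i : Unit, PConn {x : P // (fun _ => ()) x = i} := by
    intro i
    exact h.map (fun x => ⟨x, rfl⟩) (fun _ _ h => h) (fun x => ⟨x.1, rfl⟩)
  rw [C_alg_of_map (fun _ : P => ()) (fun _ _ _ => rfl) h1]
  simp only [Finset.univ_unique, Finset.sum_singleton]
  congr 1
  rw [Gam.mk_eq_mk]
  exact ⟨⟨⟨fun x => x.1, fun x => ⟨x, rfl⟩, fun _ => rfl, fun _ => rfl⟩, Iff.rfl⟩⟩

theorem C_alg_prod (P Q : Type) [PartialOrder P] [Finite P] [PartialOrder Q] [Finite Q] :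
    C_alg (P × Q) = C_alg P * C_alg Q := by
  classical
  let _ : Fintype (Comp P) := Fintype.ofFinite _
  let _ : Fintype (Comp Q) := Fintype.ofFinite _
  let E : ∀ i : Comp P × Comp Q, CompOf i.1 × CompOf i.2 ≃o
      {x : P × Q // (Quotient.mk (zigSetoid P) x.1, Quotient.mk (zigSetoid Q) x.2) = i} :=
    fun i => 
      { toFun := fun x => ⟨(x.1.1, x.2.1), Prod.ext x.1.2 x.2.2⟩
        invFun := fun x => (⟨x.1.1, congrArg Prod.fst x.2⟩, ⟨x.1.2, congrArg Prod.snd x.2⟩)
        left_inv := fun _ => rfl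
        right_inv := fun _ => rfl
        map_rel_iff' := Iff.rfl }
  have hf : ∀ i : Comp P × Comp Q, PConn
      {x : P × Q // (Quotient.mk (zigSetoid P) x.1, Quotient.mk (zigSetoid Q) x.2) = i} := by
    intro i
    exact ((compOf_conn i.1).prod (compOf_conn i.2)).map (E i) (E i).monotone (E i).surjective
  have hm : ∀ x y : P × Q, x ≤ y → (Quotient.mk (zigSetoid P) x.1, Quotient.mk (zigSetoid Q) x.2) =
      (Quotient.mk (zigSetoid P) y.1, Quotient.mk (zigSetoid Q) y.2) := fun x y h =>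
    Prod.ext (C_mk_eq_of_le (Prod.le_def.1 h).1) (C_mk_eq_of_le (Prod.le_def.1 h).2)
  rw [C_alg_of_map (fun x : P × Q => (Quotient.mk (zigSetoid P) x.1, Quotient.mk (zigSetoid Q) x.2))
    hm hf]
  rw [C_alg_eq, C_alg_eq, Finset.sum_mul_sum, Fintype.sum_prod_type]
  refine Finset.sum_congr rfl fun q _ => Finset.sum_congr rfl fun r _ => ?_
  rw [MonoidAlgebra.single_mul_single, one_mul, Gam.mk_mul]
  congr 1
  rw [Gam.mk_eq_mk]
  exact ⟨(E (q, r)).symm⟩

theorem C_alg_fiber {P : Type} [PartialOrder P] [Finite P] {ι : Type} [Fintype ι]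
    (c : P → ι) (hc : ∀ x y, x ≤ y → c x = c y) :
    C_alg P = ∑ i, C_alg {x // c x = i} := by
  classical
  let _ : ∀ i, Fintype (Comp {x // c x = i}) := fun i => Fintype.ofFinite _
  have hc' : ∀ x y, Relation.EqvGen (fun x y : P => x ≤ y) x y → c x = c y := by
    intro x y h
    induction h with
    | rel x y hxy => exact hc x y hxy
    | refl x => rfl
    | symm x y _ ih => exact ih.symm
    | trans x y z _ _ ih1 ih2 => exact ih1.trans ih2
  let m : P → Σ i, Comp {x // c x = i} := fun x => ⟨c x, Quotient.mk _ ⟨x, rfl⟩⟩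
  have hm : ∀ (i : ι) (x : P) (hx : c x = i), m x = ⟨i, Quotient.mk _ ⟨x, hx⟩⟩ := by
    rintro i x rfl; rfl
  have hm' : ∀ x y, x ≤ y → m x = m y := by
    intro x y h
    rw [hm (c y) x (hc x y h)]
    have : (Quotient.mk (zigSetoid {x // c x = c y}) ⟨x, hc x y h⟩) = Quotient.mk _ ⟨y, rfl⟩ :=
      C_mk_eq_of_le h
    rw [this]
  let E : ∀ s : Σ i, Comp {x // c x = i}, CompOf s.2 ≃o {x // m x = s} := fun s =>
    { toFun := fun x => ⟨x.1.1, by
        obtain ⟨i, q⟩ := s
        obtain ⟨⟨x, hx⟩, hq⟩ := x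
        simp only at hq ⊢
        rw [hm i x hx, hq]⟩
      invFun := fun x => ⟨⟨x.1, congrArg Sigma.fst x.2⟩, by
        obtain ⟨i, q⟩ := s
        obtain ⟨x, hx⟩ := x
        have h1 : c x = i := congrArg Sigma.fst hx
        rw [hm i x h1] at hx
        simpa using hx⟩
      left_inv := fun _ => rfl
      right_inv := fun _ => rfl
      map_rel_iff' := Iff.rfl }
  have hf : ∀ s, PConn {x // m x = s} := fun s =>
    (compOf_conn s.2).map (E s) (E s).monotone (E s).surjective
  rw [C_alg_of_map m hm' hf, Fintype.sum_sigma]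
  refine Finset.sum_congr rfl fun i _ => ?_
  rw [C_alg_eq]
  refine Finset.sum_congr rfl fun q _ => ?_
  congr 1
  rw [Gam.mk_eq_mk]
  exact ⟨(E ⟨i, q⟩).symm⟩

theorem C_alg_unique {P : Type} [PartialOrder P] [Finite P] [Unique P] : C_alg P = 1 := by
  have h : PConn P := ⟨⟨default⟩, fun a b => by
    rw [Subsingleton.elim a b]; exact Relation.EqvGen.refl _⟩
  rw [C_alg_conn h, MonoidAlgebra.one_def, Gam.one_def]
  congr 1
  rw [Gam.mk_eq_mk]
  exact ⟨OrderIso.ofUnique P Unit⟩

theorem C_alg_pi : ∀ (ι : Type) [Fintype ι] (P : ι → Type) [∀ i, PartialOrder (P i)]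
    [∀ i, Finite (P i)], C_alg (∀ i, P i) = ∏ i, C_alg (P i) := by
  classical
  intro ι hι
  refine Fintype.induction_empty_option (P := fun ι _ => ∀ (P : ι → Type)
    [∀ i, PartialOrder (P i)] [∀ i, Finite (P i)], C_alg (∀ i, P i) = ∏ i, C_alg (P i))
    ?_ ?_ ?_ ι
  · intro α β hβ e ih P _ _
    let _ : Fintype α := Fintype.ofEquiv β e.symm
    rw [← e.prod_comp, ← ih (fun a => P (e a))]
    refine C_alg_congr ⟨(Equiv.piCongrLeft P e).symm, ?_⟩
    intro f g
    constructor
    · intro h b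
      obtain ⟨a, rfl⟩ := e.surjective b
      exact h a
    · intro h a
      simpa using h (e a)
  · intro P _ _
    let _ : Unique (∀ i, P i) := Pi.uniqueOfIsEmpty P
    rw [C_alg_unique]
    simp
  · intro α _ ih P _ _
    rw [Fintype.prod_option, ← ih (fun a => P (some a)), ← C_alg_prod]
    refine C_alg_congr ⟨⟨fun f => (f none, fun a => f (some a)),
      fun x o => Option.rec x.1 x.2 o, ?_, ?_⟩, ?_⟩
    · intro f
      funext o
      cases o <;> rfl
    · intro x
      rfl
    · intro f g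
      constructor
      · intro h o
        cases o with
        | none => exact h.1
        | some a => exact h.2 a
      · intro h
        exact ⟨h none, fun a => h (some a)⟩

/-- restriction to components -/
def C_powIso (A C : Type) [PartialOrder A] [PartialOrder C] :
    (C →o A) ≃o (∀ q : Comp C, CompOf q →o A) where
  toFun f := fun q => ⟨fun x => f x.1, fun x y h => f.monotone h⟩
  invFun g := ⟨fun x => g (Quotient.mk _ x) ⟨x, rfl⟩, by
    intro x y h
    have h0 : Quotient.mk (zigSetoid C) x = Quotient.mk (zigSetoid C) y := C_mk_eq_of_le h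
    have key : ∀ (q : Comp C) (hq : Quotient.mk (zigSetoid C) x = q),
        g (Quotient.mk _ x) ⟨x, rfl⟩ = g q ⟨x, hq⟩ := by
      rintro q rfl; rfl
    change g (Quotient.mk _ x) ⟨x, rfl⟩ ≤ g (Quotient.mk _ y) ⟨y, rfl⟩
    rw [key _ h0]
    exact (g _).monotone h⟩
  left_inv f := rfl
  right_inv g := by
    funext q
    ext ⟨x, hx⟩
    subst hx
    rfl
  map_rel_iff' := by
    intro f g
    constructor
    · intro h x
      exact h (Quotient.mk _ x) ⟨x, rfl⟩
    · intro h q x
      exact h x.1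

theorem C_alg_pow_conn (A D : Type) [PartialOrder A] [Finite A] [PartialOrder D] [Finite D]
    [Fintype (Comp A)] (hD : PConn D) :
    C_alg (D →o A) = ∑ q : Comp A, C_alg (D →o CompOf q) := by
  classical
  have hconst : ∀ (f : D →o A) (a b : D),
      Quotient.mk (zigSetoid A) (f a) = Quotient.mk (zigSetoid A) (f b) := fun f a b =>
    hD.eq_of_le_eq (fun x => Quotient.mk (zigSetoid A) (f x))
      (fun x y h => C_mk_eq_of_le (f.monotone h)) a b
  let d0 : D := hD.ne.some
  have hm : ∀ f g : D →o A, f ≤ g →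
      Quotient.mk (zigSetoid A) (f d0) = Quotient.mk (zigSetoid A) (g d0) :=
    fun f g h => C_mk_eq_of_le (h d0)
  rw [C_alg_fiber (fun f : D →o A => Quotient.mk (zigSetoid A) (f d0)) hm]
  refine Finset.sum_congr rfl fun q _ => C_alg_congr ?_
  exact
    { toFun := fun f => ⟨fun d => ⟨f.1 d, (hconst f.1 d d0).trans f.2⟩,
        fun x y h => f.1.monotone h⟩
      invFun := fun g => ⟨⟨fun d => (g d).1, fun x y h => g.monotone h⟩, (g d0).2⟩
      left_inv := fun _ => rfl
      right_inv := fun _ => rfl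
      map_rel_iff' := Iff.rfl }

/-- congruence of powers -/
def C_powCongr {A B C D : Type} [PartialOrder A] [PartialOrder B] [PartialOrder C] [PartialOrder D]
    (e : A ≃o B) (f : C ≃o D) : (C →o A) ≃o (D →o B) where
  toFun g := ⟨fun d => e (g (f.symm d)), fun _ _ h => e.monotone (g.monotone (f.symm.monotone h))⟩
  invFun g := ⟨fun c => e.symm (g (f c)), fun _ _ h => e.symm.monotone (g.monotone (f.monotone h))⟩
  left_inv g := by ext c; simp
  right_inv g := by ext c; simp
  map_rel_iff' := by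
    intro g g'
    constructor
    · intro h c
      have := h (f c)
      simpa using this
    · intro h d
      exact e.monotone (h (f.symm d))

theorem C_alg_bind {ι : Type*} (s : Multiset ι) (F : ι → Multiset Gam) :
    alg (s.bind F) = (s.map fun i => alg (F i)).sum := by
  unfold alg
  rw [Multiset.map_bind, Multiset.sum_bind]

/-- components of a power: `A^C = ∏_{D component of C} (sum over components G of A of G^D)` -/
theorem alg_comps_pow (A C : Type) [PartialOrder A] [Finite A] [PartialOrder C] [Finite C] :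
    alg (comps (C →o A)) =
      ((comps C).map fun D =>
        alg ((comps A).bind fun G => comps (Gam.rep D →o Gam.rep G))).prod := by
  classical
  let _ : Fintype (Comp A) := Fintype.ofFinite _
  let _ : Fintype (Comp C) := Fintype.ofFinite _
  change C_alg (C →o A) = _
  rw [C_alg_congr (C_powIso A C), C_alg_pi]
  unfold comps
  rw [Multiset.map_map]
  change _ = ∏ q : Comp C, _
  refine Finset.prod_congr rfl fun q _ => ?_
  rw [C_alg_pow_conn _ _ (compOf_conn q)]
  simp only [Function.comp]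
  rw [C_alg_bind, Multiset.map_map]
  change _ = ∑ r : Comp A, _
  refine Finset.sum_congr rfl fun r _ => ?_
  change _ = C_alg _
  obtain ⟨e1⟩ := Gam.rep_mk (compOf_conn q)
  obtain ⟨e2⟩ := Gam.rep_mk (compOf_conn r)
  exact C_alg_congr (C_powCongr e2.symm e1.symm)

/-- the main component of `G^D` and the others -/
theorem comps_pow_main (D G : Gam) :
    ∃ hc : PConn (MainC D.rep G.rep), ∃ R : Multiset Gam,
      comps (D.rep →o G.rep) = Gam.mk (MainC D.rep G.rep) hc ::ₘ R ∧
      ∀ K ∈ R, ∃ (T : Set (D.rep →o G.rep)),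
        (∀ f ∈ T, ∀ g, f ≤ g ∨ g ≤ f → g ∈ T) ∧ (∀ a, OrderHom.const D.rep a ∉ T) ∧
        ∃ hT : PConn T, K = Gam.mk T hT := by
  classical
  let _ : Fintype (Comp (D.rep →o G.rep)) := Fintype.ofFinite _
  let a0 : G.rep := G.rep_conn.ne.some
  let q0 : Comp (D.rep →o G.rep) := Quotient.mk _ (OrderHom.const D.rep a0)
  have hq0 : ∀ a, Quotient.mk (zigSetoid (D.rep →o G.rep)) (OrderHom.const D.rep a) = q0 :=
    fun a => G.rep_conn.eq_of_le_eq
      (fun a => Quotient.mk (zigSetoid (D.rep →o G.rep)) (OrderHom.const D.rep a))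
      (fun x y h => C_mk_eq_of_le (fun _ => h)) a a0
  let E : CompOf q0 ≃o MainC D.rep G.rep :=
    { toFun := fun f => ⟨f.1, a0, C_mk_eq_iff.1 f.2⟩
      invFun := fun f => ⟨f.1, by
        obtain ⟨a, ha⟩ := f.2
        exact (C_mk_eq_iff.2 ha).trans (hq0 a)⟩
      left_inv := fun _ => rfl
      right_inv := fun _ => rfl
      map_rel_iff' := Iff.rfl }
  have hc : PConn (MainC D.rep G.rep) := (compOf_conn q0).map E E.monotone E.surjective
  refine ⟨hc, ((Finset.univ.erase q0).val.map fun q => Gam.mk (CompOf q) (compOf_conn q)), ?_, ?_⟩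
  · have h1 : Gam.mk (MainC D.rep G.rep) hc = Gam.mk (CompOf q0) (compOf_conn q0) :=
      (Gam.mk_eq_mk _ _).2 ⟨E.symm⟩
    rw [h1]
    unfold comps
    rw [Finset.erase_val, ← Multiset.map_cons (fun q => Gam.mk (CompOf q) (compOf_conn q)),
      Multiset.cons_erase (Finset.mem_univ q0)]
  · intro K hK
    rw [Multiset.mem_map] at hK
    obtain ⟨q, hq, rfl⟩ := hK
    have hne : q ≠ q0 := (Finset.mem_erase.1 (Finset.mem_def.2 hq)).1
    refine ⟨{f | Quotient.mk (zigSetoid _) f = q}, ?_, ?_, compOf_conn q, rfl⟩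
    · intro f hf g hg
      rcases hg with hg | hg
      · exact (C_mk_eq_of_le hg).symm.trans hf
      · exact (C_mk_eq_of_le hg).trans hf
    · intro a ha
      exact hne (ha.symm.trans (hq0 a))

end Pool.Agent.Birk
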