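import Mathlib
import Pool.Agent.Lib_MP_aad2bd_co.Basic

/-!
MP_aad2bd_co, Part M: the main component functor `MainC`.
-/

set_option autoImplicit false
set_option linter.unusedVariables false

namespace Pool.Agent.Birk

theorem M_eqvGen_map {α β : Type} [LE α] [LE β] (f : α → β) (hf : ∀ x y, x ≤ y → f x ≤ f y)
    {a b : α} (h : Relation.EqvGen (fun x y : α => x ≤ y) a b) :
    Relation.EqvGen (fun x y : β => x ≤ y) (f a) (f b) := by
  induction h with
  | rel x y hxy => exact Relation.EqvGen.rel _ _ (hf _ _ hxy)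
  | refl x => exact Relation.EqvGen.refl _
  | symm x y _ ih => exact ih.symm
  | trans x y z _ _ ih1 ih2 => exact ih1.trans _ _ _ ih2

theorem M_eqvGen_lift {α : Type} [LE α] (p : α → Prop) (hp : ∀ x y, x ≤ y → (p x ↔ p y))
    {a b : α} (h : Relation.EqvGen (fun x y : α => x ≤ y) a b) :
    (p a ↔ p b) ∧ ∀ (ha : p a) (hb : p b),
      Relation.EqvGen (fun x y : {x // p x} => x ≤ y) ⟨a, ha⟩ ⟨b, hb⟩ := by
  induction h with
  | rel x y hxy => exact ⟨hp _ _ hxy, fun ha hb => Relation.EqvGen.rel _ _ hxy⟩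
  | refl x => exact ⟨Iff.rfl, fun ha hb => Relation.EqvGen.refl _⟩
  | symm x y _ ih => exact ⟨ih.1.symm, fun ha hb => (ih.2 hb ha).symm⟩
  | trans x y z _ _ ih1 ih2 =>
    exact ⟨ih1.1.trans ih2.1, fun ha hb =>
      (ih1.2 ha (ih1.1.1 ha)).trans _ _ _ (ih2.2 (ih1.1.1 ha) hb)⟩

section main
variable {C D A B : Type} [PartialOrder C] [PartialOrder D] [PartialOrder A] [PartialOrder B]

theorem M_mem_iff (x y : C →o A) (h : x ≤ y) :
    (∃ a, Relation.EqvGen (fun x y : C →o A => x ≤ y) x (OrderHom.const C a)) ↔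
    (∃ a, Relation.EqvGen (fun x y : C →o A => x ≤ y) y (OrderHom.const C a)) := by
  constructor
  · rintro ⟨a, ha⟩
    exact ⟨a, (Relation.EqvGen.rel _ _ h).symm.trans _ _ _ ha⟩
  · rintro ⟨a, ha⟩
    exact ⟨a, (Relation.EqvGen.rel _ _ h).trans _ _ _ ha⟩

/-- zigzags lift to the main component -/
theorem M_lift (f g : MainC C A)
    (h : Relation.EqvGen (fun x y : C →o A => x ≤ y) f.1 g.1) :
    Relation.EqvGen (fun x y : MainC C A => x ≤ y) f g :=
  (M_eqvGen_lift (fun f : C →o A =>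
    ∃ a, Relation.EqvGen (fun x y : C →o A => x ≤ y) f (OrderHom.const C a)) M_mem_iff h).2 f.2 g.2

/-- The constant as an element of the main component. -/
def M_const (C : Type) {A : Type} [PartialOrder C] [PartialOrder A] (a : A) : MainC C A :=
  ⟨OrderHom.const C a, a, Relation.EqvGen.refl _⟩

theorem M_exists_const (f : MainC C A) :
    ∃ a, Relation.EqvGen (fun x y : MainC C A => x ≤ y) f (M_const C a) := by
  obtain ⟨a, ha⟩ := f.2
  exact ⟨a, M_lift f (M_const C a) ha⟩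

theorem MainC.exists_pow (hA : PConn A) : ∃ S : Pow C A (MainC C A), ∀ f c, S.ev f c = f.1 c := by
  refine ⟨⟨fun f c => f.1 c, fun f => f.1.monotone, fun f g => Iff.rfl, ?_, ?_, ?_⟩, fun f c => rfl⟩
  · intro f h hm hle
    refine ⟨⟨⟨h, hm⟩, ?_⟩, rfl⟩
    exact (M_mem_iff f.1 ⟨h, hm⟩ hle).1 f.2
  · intro f h hm hle
    refine ⟨⟨⟨h, hm⟩, ?_⟩, rfl⟩
    exact (M_mem_iff ⟨h, hm⟩ f.1 hle).2 f.2
  · intro a
    exact ⟨M_const C a, rfl⟩

theorem MainC_conn (hA : PConn A) : PConn (MainC C A) := by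
  obtain ⟨a0⟩ := hA.ne
  refine ⟨⟨M_const C a0⟩, fun f g => ?_⟩
  obtain ⟨a, ha⟩ := M_exists_const f
  obtain ⟨b, hb⟩ := M_exists_const g
  refine ha.trans _ _ _ (Relation.EqvGen.trans _ _ _ ?_ hb.symm)
  exact M_eqvGen_map (fun a : A => M_const C a) (fun x y hxy c => hxy) (hA.zig a b)

/-- Functoriality. -/
theorem M_map_mem {C' A' : Type} [PartialOrder C'] [PartialOrder A'] (F : (C →o A) → (C' →o A'))
    (hF : ∀ x y, x ≤ y → F x ≤ F y) (hc : ∀ a, ∃ a', F (OrderHom.const C a) = OrderHom.const C' a')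
    (f : C →o A)
    (hf : ∃ a, Relation.EqvGen (fun x y : C →o A => x ≤ y) f (OrderHom.const C a)) :
    ∃ a, Relation.EqvGen (fun x y : C' →o A' => x ≤ y) (F f) (OrderHom.const C' a) := by
  obtain ⟨a, ha⟩ := hf
  obtain ⟨a', ha'⟩ := hc a
  exact ⟨a', ha' ▸ M_eqvGen_map F hF ha⟩

theorem MainC_congr {A' C' : Type} [PartialOrder A'] [PartialOrder C'] (e : A ≃o A')
    (e' : C ≃o C') : Nonempty (MainC C A ≃o MainC C' A') := by
  refine ⟨{
    toFun := fun f => ⟨⟨fun c => e (f.1 (e'.symm c)), ?_⟩, ?_⟩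
    invFun := fun f => ⟨⟨fun c => e.symm (f.1 (e' c)), ?_⟩, ?_⟩
    left_inv := ?_
    right_inv := ?_
    map_rel_iff' := ?_ }⟩
  · intro x y hxy
    exact e.monotone (f.1.monotone (e'.symm.monotone hxy))
  · exact M_map_mem (fun f : C →o A => (⟨fun c => e (f (e'.symm c)),
      fun x y hxy => e.monotone (f.monotone (e'.symm.monotone hxy))⟩ : C' →o A'))
      (fun x y hxy c => e.monotone (hxy _)) (fun a => ⟨e a, rfl⟩) f.1 f.2
  · intro x y hxy
    exact e.symm.monotone (f.1.monotone (e'.monotone hxy))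
  · exact M_map_mem (fun f : C' →o A' => (⟨fun c => e.symm (f (e' c)),
      fun x y hxy => e.symm.monotone (f.monotone (e'.monotone hxy))⟩ : C →o A))
      (fun x y hxy c => e.symm.monotone (hxy _)) (fun a => ⟨e.symm a, rfl⟩) f.1 f.2
  · intro f
    apply Subtype.ext
    apply OrderHom.ext
    funext c
    simp
  · intro f
    apply Subtype.ext
    apply OrderHom.ext
    funext c
    simp
  · intro f g
    constructor
    · intro h c
      have := h (e' c)
      simpa using this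
    · intro h c
      exact e.monotone (h _)

theorem MainC_prod (hA : PConn A) (hB : PConn B) :
    Nonempty (MainC C (A × B) ≃o MainC C A × MainC C B) := by
  refine ⟨{
    toFun := fun f => (⟨⟨fun c => (f.1 c).1, ?_⟩, ?_⟩, ⟨⟨fun c => (f.1 c).2, ?_⟩, ?_⟩)
    invFun := fun f => ⟨⟨fun c => (f.1.1 c, f.2.1 c), ?_⟩, ?_⟩
    left_inv := ?_
    right_inv := ?_
    map_rel_iff' := ?_ }⟩
  · intro x y hxy
    exact (f.1.monotone hxy).1
  · exact M_map_mem (fun f : C →o A × B => (⟨fun c => (f c).1,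
      fun x y hxy => (f.monotone hxy).1⟩ : C →o A))
      (fun x y hxy c => (hxy c).1) (fun a => ⟨a.1, rfl⟩) f.1 f.2
  · intro x y hxy
    exact (f.1.monotone hxy).2
  · exact M_map_mem (fun f : C →o A × B => (⟨fun c => (f c).2,
      fun x y hxy => (f.monotone hxy).2⟩ : C →o B))
      (fun x y hxy c => (hxy c).2) (fun a => ⟨a.2, rfl⟩) f.1 f.2
  · intro x y hxy
    exact ⟨f.1.1.monotone hxy, f.2.1.monotone hxy⟩
  · obtain ⟨a, ha⟩ := f.1.2
    obtain ⟨b, hb⟩ := f.2.2
    refine ⟨(a, b), ?_⟩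
    have h1 := M_eqvGen_map (fun g : C →o A => (⟨fun c => (g c, f.2.1 c),
      fun x y hxy => ⟨g.monotone hxy, f.2.1.monotone hxy⟩⟩ : C →o A × B))
      (fun x y hxy c => ⟨hxy c, le_rfl⟩) ha
    have h2 := M_eqvGen_map (fun g : C →o B => (⟨fun c => (a, g c),
      fun x y hxy => ⟨le_rfl, g.monotone hxy⟩⟩ : C →o A × B))
      (fun x y hxy c => ⟨le_rfl, hxy c⟩) hb
    exact h1.trans _ _ _ h2
  · intro f
    rfl
  · intro f
    rfl
  · intro f g
    constructor
    · intro h c
      exact ⟨h.1 c, h.2 c⟩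
    · intro h
      exact ⟨fun c => (h c).1, fun c => (h c).2⟩

/-- currying as a map `C × D →o A` to `C →o D →o A`, with values in the main component -/
def M_curryFun (f : MainC (C × D) A) : C →o MainC D A where
  toFun c := ⟨⟨fun d => f.1 (c, d), fun x y hxy => f.1.monotone ⟨le_rfl, hxy⟩⟩,
    M_map_mem (fun f : C × D →o A => (⟨fun d => f (c, d),
      fun x y hxy => f.monotone ⟨le_rfl, hxy⟩⟩ : D →o A))
      (fun x y hxy d => hxy _) (fun a => ⟨a, rfl⟩) f.1 f.2⟩
  monotone' := fun x y hxy d => f.1.monotone ⟨hxy, le_rfl⟩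

def M_uncurryFun (G : C →o MainC D A) : C × D →o A where
  toFun p := (G p.1).1 p.2
  monotone' := fun x y hxy => ((G.monotone hxy.1) x.2).trans ((G y.1).1.monotone hxy.2)

theorem MainC_curry (hA : PConn A) (hC : PConn C) (hD : PConn D) :
    Nonempty (MainC (C × D) A ≃o MainC C (MainC D A)) := by
  refine ⟨{
    toFun := fun f => ⟨M_curryFun f, ?_⟩
    invFun := fun G => ⟨M_uncurryFun G.1, ?_⟩
    left_inv := ?_
    right_inv := ?_
    map_rel_iff' := ?_ }⟩
  · obtain ⟨a, ha⟩ := M_exists_const f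
    refine ⟨M_const D a, ?_⟩
    exact M_eqvGen_map (fun f : MainC (C × D) A => M_curryFun f)
      (fun x y hxy c d => (show ∀ p, x.1 p ≤ y.1 p from hxy) (c, d)) ha
  · obtain ⟨K, hK⟩ := G.2
    obtain ⟨a, ha⟩ := K.2
    refine ⟨a, ?_⟩
    have h1 := M_eqvGen_map (fun G : C →o MainC D A => M_uncurryFun G)
      (fun x y hxy (p : C × D) => (show ∀ c, ∀ d, (x c).1 d ≤ (y c).1 d from hxy) p.1 p.2) hK
    have h2 := M_eqvGen_map (fun g : D →o A => (⟨fun p : C × D => g p.2,
      fun x y hxy => g.monotone hxy.2⟩ : C × D →o A))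
      (fun x y hxy (p : C × D) => (show ∀ d, x d ≤ y d from hxy) p.2) ha
    exact h1.trans _ _ _ h2
  · intro f
    rfl
  · intro f
    rfl
  · intro f g
    constructor
    · intro h p
      exact h p.1 p.2
    · intro h c d
      exact h (c, d)

theorem MainC_unit : Nonempty (MainC Unit A ≃o A) := by
  refine ⟨{
    toFun := fun f => f.1 ()
    invFun := fun a => M_const Unit a
    left_inv := fun f => rfl
    right_inv := fun a => rfl
    map_rel_iff' := ?_ }⟩
  intro f g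
  constructor
  · intro h c
    exact h
  · intro h
    exact h ()

end main

end Pool.Agent.Birk
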