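import Mathlib
import Pool.Agent.Lib_MP_aad2bd_co.Basic
import Pool.Agent.Lib_MP_aad2bd_co.PartM

/-!
MP_aad2bd_co, Part M (second half): the main component of a power of an
irreducible connected poset is irreducible.
-/

set_option autoImplicit false
set_option linter.unusedVariables false

namespace Pool.Agent.Birk

/-- Rearranging a word in two relations. -/
theorem M_comm_closure {α : Type} (R S : α → α → Prop)
    (h : ∀ a b c, R a b → S b c → ∃ b', S a b' ∧ R b' c) {a b : α}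
    (hab : Relation.ReflTransGen (fun x y => R x y ∨ S x y) a b) :
    ∃ m, Relation.ReflTransGen S a m ∧ Relation.ReflTransGen R m b := by
  have key : ∀ {m b c}, Relation.ReflTransGen R m b → S b c →
      ∃ m', S m m' ∧ Relation.ReflTransGen R m' c := by
    intro m b c hmb hbc
    induction hmb using Relation.ReflTransGen.head_induction_on with
    | refl => exact ⟨c, hbc, Relation.ReflTransGen.refl⟩
    | head hab _ ih =>
      obtain ⟨m', h1, h2⟩ := ih
      obtain ⟨b', h3, h4⟩ := h _ _ _ hab h1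
      exact ⟨b', h3, Relation.ReflTransGen.head h4 h2⟩
  induction hab with
  | refl => exact ⟨a, .refl, .refl⟩
  | tail _ hbc ih =>
    obtain ⟨m, h1, h2⟩ := ih
    rcases hbc with hbc | hbc
    · exact ⟨m, h1, h2.tail hbc⟩
    · obtain ⟨m', h3, h4⟩ := key h2 hbc
      exact ⟨m', h1.tail h3, h4⟩

theorem M_rtg_const {α β : Type} (R : α → α → Prop) (g : α → β) (h : ∀ a b, R a b → g a = g b)
    {a b : α} (hab : Relation.ReflTransGen R a b) : g a = g b := by
  induction hab with
  | refl => rfl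
  | tail _ hbc ih => exact ih.trans (h _ _ hbc)

/-- The box property from corner properties. -/
theorem M_box_path {A Y Z : Type} [PartialOrder A] [PartialOrder Y] [PartialOrder Z]
    (hA : PConn A) (y : A → Y) (z : A → Z) (hle : ∀ a b, a ≤ b ↔ y a ≤ y b ∧ z a ≤ z b)
    (h1 : ∀ a b, a ≤ b → ∃ c, y c = y a ∧ z c = z b)
    (h1' : ∀ a b, a ≤ b → ∃ c, y c = y b ∧ z c = z a)
    (h2 : ∀ a m b, a ≤ m → b ≤ m → z a = z m → y b = y m → ∃ c, y c = y a ∧ z c = z b)
    (h3 : ∀ a m b, m ≤ a → m ≤ b → z a = z m → y b = y m → ∃ c, y c = y a ∧ z c = z b)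
    (a b : A) : ∃ c, y c = y a ∧ z c = z b := by
  let Ey : A → A → Prop := fun p q => (p ≤ q ∨ q ≤ p) ∧ z p = z q
  let Ez : A → A → Prop := fun p q => (p ≤ q ∨ q ≤ p) ∧ y p = y q
  have hpath : Relation.ReflTransGen (fun p q => Ey p q ∨ Ez p q) a b := by
    refine hA.induct (fun x => Relation.ReflTransGen (fun p q => Ey p q ∨ Ez p q) a x)
      ?_ (Relation.ReflTransGen.refl) b
    intro p q hpq
    obtain ⟨c, hc1, hc2⟩ := h1 p q hpq
    have hpq' := (hle p q).1 hpq
    have hpc : p ≤ c := (hle p c).2 ⟨hc1.ge, hc2 ▸ hpq'.2⟩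
    have hcq : c ≤ q := (hle c q).2 ⟨hc1 ▸ hpq'.1, hc2.le⟩
    constructor
    · intro h
      exact (h.tail (Or.inr ⟨Or.inl hpc, hc1.symm⟩)).tail (Or.inl ⟨Or.inl hcq, hc2⟩)
    · intro h
      exact (h.tail (Or.inl ⟨Or.inr hcq, hc2.symm⟩)).tail (Or.inr ⟨Or.inr hpc, hc1⟩)
  obtain ⟨m, hm1, hm2⟩ := M_comm_closure Ey Ez (fun a m b ham hmb => by
    obtain ⟨hc1, hz⟩ := ham
    obtain ⟨hc2, hy⟩ := hmb
    have hex : ∃ c, y c = y a ∧ z c = z b := by
      rcases hc1 with hc1 | hc1 <;> rcases hc2 with hc2 | hc2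
      · exact h1 a b (hc1.trans hc2)
      · exact h2 a m b hc1 hc2 hz hy.symm
      · exact h3 a m b hc1 hc2 hz hy.symm
      · exact h1' b a (hc2.trans hc1)
    obtain ⟨c, h4, h5⟩ := hex
    refine ⟨c, ⟨?_, h4.symm⟩, ⟨?_, h5⟩⟩
    · rcases hc2 with hc2 | hc2
      · left
        refine (hle a c).2 ⟨h4.ge, ?_⟩
        rw [h5, hz]
        exact ((hle m b).1 hc2).2
      · right
        refine (hle c a).2 ⟨h4.le, ?_⟩
        rw [h5, hz]
        exact ((hle b m).1 hc2).2
    · rcases hc1 with hc1 | hc1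
      · left
        refine (hle c b).2 ⟨?_, h5.le⟩
        rw [h4, ← hy]
        exact ((hle a m).1 hc1).1
      · right
        refine (hle b c).2 ⟨?_, h5.ge⟩
        rw [h4, ← hy]
        exact ((hle m a).1 hc1).1) hpath
  refine ⟨m, ?_, ?_⟩
  · exact (M_rtg_const Ez y (fun p q h => h.2) hm1).symm
  · exact M_rtg_const Ey z (fun p q h => h.2) hm2

section core
variable {C A M Y Z : Type} [PartialOrder C] [PartialOrder A] [PartialOrder M]
  [PartialOrder Y] [PartialOrder Z]

theorem M_three_chain (e : M ≃o Y × Z) {f g k : M} (h1 : f ⋖ g) (h2 : g ⋖ k)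
    (h : ∀ x, f ≤ x → x ≤ k → x = f ∨ x = g ∨ x = k) :
    (e f).1 = (e g).1 ↔ (e g).1 = (e k).1 := by
  have c1 := Prod.covBy_iff.1 ((apply_covBy_apply_iff e).2 h1)
  have c2 := Prod.covBy_iff.1 ((apply_covBy_apply_iff e).2 h2)
  rcases c1 with ⟨c1, c1'⟩ | ⟨c1, c1'⟩ <;> rcases c2 with ⟨c2, c2'⟩ | ⟨c2, c2'⟩
  · exact ⟨fun h => absurd h c1.ne, fun h => absurd h c2.ne⟩
  · exfalso
    have hx1 : f ≤ e.symm ((e f).1, (e k).2) := by
      rw [← e.le_iff_le, e.apply_symm_apply]
      exact ⟨le_rfl, c1' ▸ c2.le⟩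
    have hx2 : e.symm ((e f).1, (e k).2) ≤ k := by
      rw [← e.le_iff_le, e.apply_symm_apply]
      exact ⟨c2' ▸ c1.le, le_rfl⟩
    rcases h _ hx1 hx2 with hx | hx | hx
    · have := congrArg e hx
      rw [e.apply_symm_apply] at this
      have h3 : (e k).2 = (e f).2 := by rw [← this]
      exact c2.ne (c1' ▸ h3.symm)
    · have := congrArg e hx
      rw [e.apply_symm_apply] at this
      have h3 : (e f).1 = (e g).1 := by rw [← this]
      exact c1.ne h3
    · have := congrArg e hx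
      rw [e.apply_symm_apply] at this
      have h3 : (e f).1 = (e k).1 := by rw [← this]
      exact c1.ne (h3.trans c2'.symm)
  · exfalso
    have hx1 : f ≤ e.symm ((e k).1, (e f).2) := by
      rw [← e.le_iff_le, e.apply_symm_apply]
      exact ⟨c1' ▸ c2.le, le_rfl⟩
    have hx2 : e.symm ((e k).1, (e f).2) ≤ k := by
      rw [← e.le_iff_le, e.apply_symm_apply]
      exact ⟨le_rfl, c2' ▸ c1.le⟩
    rcases h _ hx1 hx2 with hx | hx | hx
    · have := congrArg e hx
      rw [e.apply_symm_apply] at this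
      have h3 : (e k).1 = (e f).1 := by rw [← this]
      exact c2.ne (c1' ▸ h3.symm)
    · have := congrArg e hx
      rw [e.apply_symm_apply] at this
      have h3 : (e f).2 = (e g).2 := by rw [← this]
      exact c1.ne h3
    · have := congrArg e hx
      rw [e.apply_symm_apply] at this
      have h3 : (e f).2 = (e k).2 := by rw [← this]
      exact c1.ne (h3.trans c2'.symm)
  · exact ⟨fun _ => c2', fun _ => c1'⟩

theorem M_wt (e : M ≃o Y × Z) {f g f1 g1 : M} (h1 : f1 ⋖ g1) (h : f ⋖ g) (hf : f1 ≤ f)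
    (hg : g1 ≤ g) (hn : ¬ g1 ≤ f) : (e f1).1 = (e g1).1 ↔ (e f).1 = (e g).1 := by
  have c1 := Prod.covBy_iff.1 ((apply_covBy_apply_iff e).2 h1)
  have c2 := Prod.covBy_iff.1 ((apply_covBy_apply_iff e).2 h)
  have hf' : e f1 ≤ e f := e.monotone hf
  have hg' : e g1 ≤ e g := e.monotone hg
  have hn' : ¬ e g1 ≤ e f := fun h => hn (e.le_iff_le.1 h)
  rcases c1 with ⟨c1, c1'⟩ | ⟨c1, c1'⟩ <;> rcases c2 with ⟨c2, c2'⟩ | ⟨c2, c2'⟩
  · exact ⟨fun h => absurd h c1.ne, fun h => absurd h c2.ne⟩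
  · exact absurd ⟨c2' ▸ hg'.1, c1' ▸ hf'.2⟩ hn'
  · exact absurd ⟨c1' ▸ hf'.1, c2' ▸ hg'.2⟩ hn'
  · exact ⟨fun _ => c2', fun _ => c1'⟩

theorem M_ev_inj (S : Pow C A M) {f g : M} (h : ∀ x, S.ev f x = S.ev g x) : f = g :=
  le_antisymm ((S.le_iff f g).2 fun x => (h x).le) ((S.le_iff g f).2 fun x => (h x).ge)

theorem M_cov_of (S : Pow C A M) {f g : M} {c : C}
    (h1 : ∀ x, x ≠ c → S.ev f x = S.ev g x) (h2 : S.ev f c ⋖ S.ev g c) : f ⋖ g := by
  constructor
  · refine lt_of_le_of_ne ((S.le_iff f g).2 fun x => ?_) ?_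
    · by_cases hx : x = c
      · subst hx; exact h2.le
      · exact (h1 x hx).le
    · rintro rfl
      exact h2.ne rfl
  · intro h hfh hhg
    have hb : ∀ x, x ≠ c → S.ev h x = S.ev f x := by
      intro x hx
      apply le_antisymm
      · exact ((S.le_iff h g).1 hhg.le x).trans (h1 x hx).ge
      · exact (S.le_iff f h).1 hfh.le x
    have hc1 : S.ev f c ≤ S.ev h c := (S.le_iff f h).1 hfh.le c
    have hc2 : S.ev h c ≤ S.ev g c := (S.le_iff h g).1 hhg.le c
    rcases h2.eq_or_eq hc1 hc2 with h3 | h3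
    · apply hfh.ne
      apply M_ev_inj S
      intro x
      by_cases hx : x = c
      · subst hx; exact h3.symm
      · exact (hb x hx).symm
    · apply hhg.ne
      apply M_ev_inj S
      intro x
      by_cases hx : x = c
      · subst hx; exact h3
      · exact (hb x hx).trans (h1 x hx)

theorem M_label [Finite C] (S : Pow C A M) {f g : M} (hfg : f ⋖ g) :
    ∃ c, (∀ x, x ≠ c → S.ev f x = S.ev g x) ∧ S.ev f c ⋖ S.ev g c := by
  classical
  have hne : {c | S.ev f c ≠ S.ev g c}.Nonempty := by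
    by_contra hcon
    rw [Set.not_nonempty_iff_eq_empty] at hcon
    apply hfg.ne
    apply M_ev_inj S
    intro x
    by_contra hx
    have : x ∈ {c | S.ev f c ≠ S.ev g c} := hx
    rw [hcon] at this
    exact this
  obtain ⟨c, hc, hmax⟩ := (Set.toFinite {c | S.ev f c ≠ S.ev g c}).exists_maximal hne
  have hle := (S.le_iff f g).1 hfg.le
  have hlt : S.ev f c < S.ev g c := lt_of_le_of_ne (hle c) hc
  have habove : ∀ x, c < x → S.ev f x = S.ev g x := by
    intro x hx
    by_contra hne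
    exact absurd (hmax (show x ∈ {c | S.ev f c ≠ S.ev g c} from hne) hx.le) (not_le_of_gt hx)
  have key : ∀ v, S.ev f c < v → v ≤ S.ev g c →
      (∀ x, x ≠ c → S.ev f x = S.ev g x) ∧ v = S.ev g c := by
    intro v hv1 hv2
    have hmono : Monotone (Function.update (S.ev f) c v) := by
      intro x y hxy
      by_cases hy : y = c
      · by_cases hx : x = c
        · rw [hx, hy]
        · rw [hy, Function.update_self, Function.update_of_ne hx]
          exact (S.mono f (hy ▸ hxy)).trans hv1.le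
      · by_cases hx : x = c
        · have hcy : c < y := lt_of_le_of_ne (hx ▸ hxy) (Ne.symm hy)
          rw [hx, Function.update_self, Function.update_of_ne hy, habove y hcy]
          exact hv2.trans (S.mono g hcy.le)
        · rw [Function.update_of_ne hx, Function.update_of_ne hy]
          exact S.mono f hxy
    obtain ⟨k, hk⟩ := S.up f _ hmono (by
      intro x
      by_cases hx : x = c
      · rw [hx, Function.update_self]; exact hv1.le
      · rw [Function.update_of_ne hx])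
    have hfk : f < k := by
      refine lt_of_le_of_ne ((S.le_iff f k).2 fun x => ?_) ?_
      · rw [hk]
        by_cases hx : x = c
        · rw [hx, Function.update_self]; exact hv1.le
        · rw [Function.update_of_ne hx]
      · intro hfk
        have : S.ev f c = v := by rw [hfk, hk, Function.update_self]
        exact hv1.ne this
    have hkg : k ≤ g := by
      refine (S.le_iff k g).2 fun x => ?_
      rw [hk]
      by_cases hx : x = c
      · rw [hx, Function.update_self]; exact hv2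
      · rw [Function.update_of_ne hx]; exact hle x
    have hkg' : k = g := by
      rcases hfg.eq_or_eq hfk.le hkg with h | h
      · exact absurd h.symm hfk.ne
      · exact h
    subst hkg'
    constructor
    · intro x hx
      rw [hk, Function.update_of_ne hx]
    · rw [hk, Function.update_self]
  refine ⟨c, (key _ hlt le_rfl).1, hlt, ?_⟩
  intro v hv1 hv2
  exact hv2.ne (key v hv1 hv2.le).2

open Classical in
/-- Step functions. -/
noncomputable def M_st (P : C → Prop) (a a' : A) : C → A := fun c => if P c then a' else a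

omit [PartialOrder C] [PartialOrder A] in
theorem M_st_pos {P : C → Prop} {a a' : A} {c : C} (h : P c) : M_st P a a' c = a' := if_pos h
omit [PartialOrder C] [PartialOrder A] in
theorem M_st_neg {P : C → Prop} {a a' : A} {c : C} (h : ¬ P c) : M_st P a a' c = a := if_neg h

omit [PartialOrder C] in
theorem M_st_ge {P : C → Prop} {a a' : A} (h : a ≤ a') (c : C) : a ≤ M_st P a a' c := by
  by_cases hc : P c
  · rw [M_st_pos hc]; exact h
  · rw [M_st_neg hc]

omit [PartialOrder C] in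
theorem M_st_le {P : C → Prop} {a a' : A} (h : a ≤ a') (c : C) : M_st P a a' c ≤ a' := by
  by_cases hc : P c
  · rw [M_st_pos hc]
  · rw [M_st_neg hc]; exact h

theorem M_st_mono {P : C → Prop} (hP : ∀ x y, x ≤ y → P x → P y) {a a' : A} (h : a ≤ a') :
    Monotone (M_st P a a') := by
  intro x y hxy
  by_cases hx : P x
  · rw [M_st_pos hx, M_st_pos (hP x y hxy hx)]
  · rw [M_st_neg hx]; exact M_st_ge h y

theorem M_ex (S : Pow C A M) (h : C → A) (hm : Monotone h) (a : A) (ha : ∀ c, a ≤ h c) :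
    ∃ g, S.ev g = h := by
  obtain ⟨f, hf⟩ := S.const a
  exact S.up f h hm (fun c => by rw [hf]; exact ha c)

/-- Chosen element with step function values. -/
noncomputable def M_stE (S : Pow C A M) (P : C → Prop) (a a' : A) (hP : ∀ x y, x ≤ y → P x → P y)
    (h : a ≤ a') : M :=
  Classical.choose (M_ex S (M_st P a a') (M_st_mono hP h) a (M_st_ge h))

theorem M_ev_stE (S : Pow C A M) (P : C → Prop) (a a' : A) (hP : ∀ x y, x ≤ y → P x → P y)
    (h : a ≤ a') : S.ev (M_stE S P a a' hP h) = M_st P a a' :=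
  Classical.choose_spec (M_ex S (M_st P a a') (M_st_mono hP h) a (M_st_ge h))

/-- Chosen constants. -/
noncomputable def M_cst (S : Pow C A M) (a : A) : M := Classical.choose (S.const a)

theorem M_ev_cst (S : Pow C A M) (a : A) (c : C) : S.ev (M_cst S a) c = a := by
  rw [M_cst, Classical.choose_spec (S.const a)]

theorem M_cst_le (S : Pow C A M) (a : A) (f : M) : M_cst S a ≤ f ↔ ∀ c, a ≤ S.ev f c := by
  rw [S.le_iff]
  simp only [M_ev_cst]

theorem M_le_cst (S : Pow C A M) (a : A) (f : M) : f ≤ M_cst S a ↔ ∀ c, S.ev f c ≤ a := by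
  rw [S.le_iff]
  simp only [M_ev_cst]

theorem M_cst_le_cst [Nonempty C] (S : Pow C A M) (a b : A) : M_cst S a ≤ M_cst S b ↔ a ≤ b := by
  rw [M_cst_le]
  simp only [M_ev_cst]
  exact ⟨fun h => h (Classical.arbitrary C), fun h _ => h⟩

noncomputable def M_u (S : Pow C A M) {a a' : A} (h : a ≤ a') (c : C) : M :=
  M_stE S (fun x => c < x) a a' (fun x y hxy hx => lt_of_lt_of_le hx hxy) h
noncomputable def M_u' (S : Pow C A M) {a a' : A} (h : a ≤ a') (c : C) : M :=
  M_stE S (fun x => c ≤ x) a a' (fun x y hxy hx => le_trans hx hxy) h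

theorem M_ev_u (S : Pow C A M) {a a' : A} (h : a ≤ a') (c : C) :
    S.ev (M_u S h c) = M_st (fun x => c < x) a a' := M_ev_stE _ _ _ _ _ _
theorem M_ev_u' (S : Pow C A M) {a a' : A} (h : a ≤ a') (c : C) :
    S.ev (M_u' S h c) = M_st (fun x => c ≤ x) a a' := M_ev_stE _ _ _ _ _ _

theorem M_u_cov (S : Pow C A M) {a a' : A} (h : a ⋖ a') (c : C) :
    M_u S h.le c ⋖ M_u' S h.le c := by
  apply M_cov_of S (c := c)
  · intro x hx
    rw [M_ev_u, M_ev_u']
    by_cases hcx : c ≤ x
    · rw [M_st_pos (lt_of_le_of_ne hcx (Ne.symm hx)), M_st_pos hcx]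
    · rw [M_st_neg (fun h => hcx h.le), M_st_neg hcx]
  · rw [M_ev_u, M_ev_u', M_st_neg (lt_irrefl c), M_st_pos le_rfl]
    exact h

/-- type of a labelled cover, lower version -/
theorem M_A1 (S : Pow C A M) (e : M ≃o Y × Z) {a a' : A} (h : a ⋖ a') {f g : M} {c : C}
    (h1 : ∀ x, x ≠ c → S.ev f x = S.ev g x) (h2 : S.ev f c = a) (h3 : S.ev g c = a')
    (h4 : ∀ x, a ≤ S.ev f x) :
    (e (M_u S h.le c)).1 = (e (M_u' S h.le c)).1 ↔ (e f).1 = (e g).1 := by
  have hfg : f ⋖ g := M_cov_of S h1 (by rw [h2, h3]; exact h)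
  apply M_wt e (M_u_cov S h c) hfg
  · rw [S.le_iff, M_ev_u]
    intro x
    by_cases hx : c < x
    · rw [M_st_pos hx, h1 x hx.ne', ← h3]
      exact S.mono g hx.le
    · rw [M_st_neg hx]
      exact h4 x
  · rw [S.le_iff, M_ev_u']
    intro x
    by_cases hx : c ≤ x
    · rw [M_st_pos hx, ← h3]
      exact S.mono g hx
    · rw [M_st_neg hx]
      exact (h4 x).trans ((S.le_iff f g).1 hfg.le x)
  · intro hcon
    have := (S.le_iff _ _).1 hcon c
    rw [M_ev_u', M_st_pos le_rfl, h2] at this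
    exact absurd this (not_le_of_gt h.lt)

/-- type of a labelled cover, upper version -/
theorem M_A1' (S : Pow C A M) (e : M ≃o Y × Z) {a a' : A} (h : a ⋖ a') {f g : M} {c : C}
    (h1 : ∀ x, x ≠ c → S.ev f x = S.ev g x) (h2 : S.ev f c = a) (h3 : S.ev g c = a')
    (h4 : ∀ x, S.ev g x ≤ a') :
    (e (M_u S h.le c)).1 = (e (M_u' S h.le c)).1 ↔ (e f).1 = (e g).1 := by
  have hfg : f ⋖ g := M_cov_of S h1 (by rw [h2, h3]; exact h)
  have hP : ∀ x y : C, x ≤ y → ¬ x ≤ c → ¬ y ≤ c := fun x y hxy hx hy => hx (hxy.trans hy)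
  have hP' : ∀ x y : C, x ≤ y → ¬ x < c → ¬ y < c :=
    fun x y hxy hx hy => hx (lt_of_le_of_lt hxy hy)
  have e1 := M_ev_stE S (fun x => ¬ x ≤ c) a a' hP h.le
  have e2 := M_ev_stE S (fun x => ¬ x < c) a a' hP' h.le
  generalize M_stE S (fun x => ¬ x ≤ c) a a' hP h.le = v at e1
  generalize M_stE S (fun x => ¬ x < c) a a' hP' h.le = v' at e2
  have b1 : ∀ x, x ≠ c → S.ev v x = S.ev v' x := by
    intro x hx
    rw [e1, e2]
    by_cases hxc : x < c
    · rw [M_st_neg (P := fun x => ¬ x ≤ c) (not_not.2 hxc.le),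
        M_st_neg (P := fun x => ¬ x < c) (not_not.2 hxc)]
    · rw [M_st_pos (P := fun x => ¬ x ≤ c) (fun h => hxc (lt_of_le_of_ne h hx)),
        M_st_pos (P := fun x => ¬ x < c) hxc]
  have b2 : S.ev v c = a := by rw [e1, M_st_neg (P := fun x => ¬ x ≤ c) (not_not.2 le_rfl)]
  have b3 : S.ev v' c = a' := by rw [e2, M_st_pos (P := fun x => ¬ x < c) (lt_irrefl c)]
  have b4 : ∀ x, a ≤ S.ev v x := by intro x; rw [e1]; exact M_st_ge h.le x
  rw [M_A1 S e h b1 b2 b3 b4]
  have hv : v ⋖ v' := M_cov_of S b1 (by rw [b2, b3]; exact h)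
  symm
  apply M_wt e hfg hv
  · rw [S.le_iff, e1]
    intro x
    by_cases hx : x ≤ c
    · rw [M_st_neg (P := fun x => ¬ x ≤ c) (not_not.2 hx), ← h2]
      exact S.mono f hx
    · rw [M_st_pos (P := fun x => ¬ x ≤ c) hx]
      exact ((S.le_iff f g).1 hfg.le x).trans (h4 x)
  · rw [S.le_iff, e2]
    intro x
    by_cases hx : x < c
    · rw [M_st_neg (P := fun x => ¬ x < c) (not_not.2 hx), ← h1 x hx.ne, ← h2]
      exact S.mono f hx.le
    · rw [M_st_pos (P := fun x => ¬ x < c) hx]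
      exact h4 x
  · intro hcon
    have := (S.le_iff _ _).1 hcon c
    rw [h3, b2] at this
    exact absurd this (not_le_of_gt h.lt)

theorem M_A2 (S : Pow C A M) (e : M ≃o Y × Z) {a a' : A} (h : a ⋖ a') {c c' : C} (hc : c ⋖ c') :
    ((e (M_u S h.le c)).1 = (e (M_u' S h.le c)).1) ↔
    ((e (M_u S h.le c')).1 = (e (M_u' S h.le c')).1) := by
  have hP : ∀ x y : C, x ≤ y → (c < x ∧ x ≠ c') → (c < y ∧ y ≠ c') := by
    rintro x y hxy ⟨hx1, hx2⟩
    refine ⟨lt_of_lt_of_le hx1 hxy, ?_⟩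
    rintro rfl
    exact hc.2 hx1 (lt_of_le_of_ne hxy hx2)
  have e1 := M_ev_stE S (fun x => c < x ∧ x ≠ c') a a' hP h.le
  generalize M_stE S (fun x => c < x ∧ x ≠ c') a a' hP h.le = f at e1
  have b1 : ∀ x, x ≠ c' → S.ev f x = S.ev (M_u S h.le c) x := by
    intro x hx
    rw [e1, M_ev_u]
    by_cases hcx : c < x
    · rw [M_st_pos ⟨hcx, hx⟩, M_st_pos hcx]
    · rw [M_st_neg (fun h => hcx h.1), M_st_neg hcx]
  have b2 : S.ev f c' = a := by rw [e1, M_st_neg (fun h => h.2 rfl)]
  have b3 : S.ev (M_u S h.le c) c' = a' := by rw [M_ev_u, M_st_pos hc.lt]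
  have b4 : ∀ x, a ≤ S.ev f x := by intro x; rw [e1]; exact M_st_ge h.le x
  have hf : f ⋖ M_u S h.le c := M_cov_of S b1 (by rw [b2, b3]; exact h)
  rw [M_A1 S e h b1 b2 b3 b4]
  symm
  apply M_three_chain e hf (M_u_cov S h c)
  intro x hx1 hx2
  have hx1' := (S.le_iff _ _).1 hx1
  have hx2' := (S.le_iff _ _).1 hx2
  -- values outside c, c'
  have hout : ∀ y, y ≠ c → y ≠ c' → S.ev x y = S.ev f y := by
    intro y hy1 hy2
    apply le_antisymm _ (hx1' y)
    refine (hx2' y).trans ?_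
    rw [M_ev_u', e1]
    by_cases hcy : c ≤ y
    · rw [M_st_pos hcy, M_st_pos ⟨lt_of_le_of_ne hcy (Ne.symm hy1), hy2⟩]
    · rw [M_st_neg hcy]
      exact M_st_ge h.le y
  have hfc : S.ev f c = a := by rw [e1, M_st_neg (fun h => lt_irrefl c h.1)]
  have hkc : S.ev (M_u' S h.le c) c = a' := by rw [M_ev_u', M_st_pos le_rfl]
  have hkc' : S.ev (M_u' S h.le c) c' = a' := by rw [M_ev_u', M_st_pos hc.le]
  have hcases : ∀ y, a ≤ S.ev x y → S.ev x y ≤ a' → S.ev x y = a ∨ S.ev x y = a' :=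
    fun y h1 h2 => h.eq_or_eq h1 h2
  have hxc := hcases c (hfc ▸ hx1' c) (hkc ▸ hx2' c)
  have hxc' := hcases c' (b2 ▸ hx1' c') (hkc' ▸ hx2' c')
  rcases hxc with hxc | hxc
  · rcases hxc' with hxc' | hxc'
    · left
      apply M_ev_inj S
      intro y
      by_cases hy1 : y = c
      · subst hy1; rw [hxc, hfc]
      · by_cases hy2 : y = c'
        · subst hy2; rw [hxc', b2]
        · exact hout y hy1 hy2
    · right; left
      apply M_ev_inj S
      intro y
      by_cases hy1 : y = c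
      · subst hy1; rw [hxc, M_ev_u, M_st_neg (lt_irrefl y)]
      · by_cases hy2 : y = c'
        · subst hy2; rw [hxc', b3]
        · rw [hout y hy1 hy2, b1 y hy2]
  · right; right
    have hxc'' : S.ev x c' = a' := by
      rcases hxc' with hxc' | hxc'
      · have := S.mono x hc.le
        rw [hxc, hxc'] at this
        exact absurd this (not_le_of_gt h.lt)
      · exact hxc'
    apply M_ev_inj S
    intro y
    by_cases hy1 : y = c
    · subst hy1; rw [hxc, hkc]
    · by_cases hy2 : y = c'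
      · subst hy2; rw [hxc'', hkc']
      · rw [hout y hy1 hy2, b1 y hy2, M_ev_u, M_ev_u']
        by_cases hcy : c < y
        · rw [M_st_pos hcy, M_st_pos hcy.le]
        · rw [M_st_neg hcy, M_st_neg (fun h => hcy (lt_of_le_of_ne h (Ne.symm hy1)))]

theorem M_rtg_cov {α : Type} [PartialOrder α] [Finite α] {x y : α} (h : x ≤ y) :
    Relation.ReflTransGen (fun a b => a ⋖ b) x y := by
  classical
  have : Fintype α := Fintype.ofFinite α
  have : LocallyFiniteOrder α := Fintype.toLocallyFiniteOrder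
  exact le_iff_reflTransGen_covBy.1 h

theorem M_A3 [Finite C] (hC : PConn C) (S : Pow C A M) (e : M ≃o Y × Z) {a a' : A} (h : a ⋖ a')
    (c c' : C) :
    ((e (M_u S h.le c)).1 = (e (M_u' S h.le c)).1) ↔
    ((e (M_u S h.le c')).1 = (e (M_u' S h.le c')).1) := by
  have := hC.eq_of_le_eq (fun c => ((e (M_u S h.le c)).1 = (e (M_u' S h.le c)).1)) (by
    intro x y hxy
    exact M_rtg_const (fun a b : C => a ⋖ b)
      (fun c => ((e (M_u S h.le c)).1 = (e (M_u' S h.le c)).1))
      (fun p q hpq => propext (M_A2 S e h hpq)) (M_rtg_cov hxy)) c c'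
  exact Iff.of_eq this

theorem M_A4 [Finite C] [Finite M] (hC : PConn C) (S : Pow C A M) (e : M ≃o Y × Z)
    {a a' : A} (h : a ⋖ a') (c : C) :
    ∀ g, Relation.ReflTransGen (fun x y : M => x ⋖ y) (M_cst S a) g → g ≤ M_cst S a' →
      (((e (M_u S h.le c)).1 = (e (M_u' S h.le c)).1) → (e (M_cst S a)).1 = (e g).1) ∧
      (¬ ((e (M_u S h.le c)).1 = (e (M_u' S h.le c)).1) → (e (M_cst S a)).2 = (e g).2) := by
  intro g hg
  induction hg with
  | refl => intro _; exact ⟨fun _ => rfl, fun _ => rfl⟩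
  | @tail p q hp hpq ih =>
    intro hq
    have hpq' : p ⋖ q := hpq
    have hap : M_cst S a ≤ p := by
      have : ∀ {x y : M}, Relation.ReflTransGen (fun x y : M => x ⋖ y) x y → x ≤ y := by
        intro x y hxy
        induction hxy with
        | refl => exact le_rfl
        | tail _ h1 ih => exact ih.trans (show _ ⋖ _ from h1).le
      exact this hp
    obtain ⟨ih1, ih2⟩ := ih (hpq'.le.trans hq)
    obtain ⟨d, hd1, hd2⟩ := M_label S hpq'
    have hap' := (M_cst_le S a p).1 hap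
    have hqa' := (M_le_cst S a' q).1 hq
    have hpd : S.ev p d = a := by
      rcases h.eq_or_eq (hap' d) (hd2.le.trans (hqa' d)) with h1 | h1
      · exact h1
      · have := lt_of_lt_of_le hd2.lt (hqa' d)
        rw [h1] at this
        exact absurd this (lt_irrefl _)
    have hqd : S.ev q d = a' := by
      rcases h.eq_or_eq ((hap' d).trans hd2.le) (hqa' d) with h1 | h1
      · have := hd2.lt
        rw [h1, hpd] at this
        exact absurd this (lt_irrefl _)
      · exact h1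
    have hty := (M_A3 hC S e h c d).trans (M_A1 S e h hd1 hpd hqd hap')
    constructor
    · intro hT
      exact (ih1 hT).trans (hty.1 hT)
    · intro hT
      have hne : ¬ (e p).1 = (e q).1 := fun h' => hT (hty.2 h')
      have c1 := Prod.covBy_iff.1 ((apply_covBy_apply_iff e).2 hpq')
      rcases c1 with ⟨c1, c1'⟩ | ⟨c1, c1'⟩
      · exact (ih2 hT).trans c1'
      · exact absurd c1' hne

theorem M_A5 [Finite C] [Finite M] (hC : PConn C) (S : Pow C A M) (e : M ≃o Y × Z)
    {a a' : A} (h : a ⋖ a') (c : C) :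
    ((e (M_u S h.le c)).1 = (e (M_u' S h.le c)).1 ↔ (e (M_cst S a)).1 = (e (M_cst S a')).1) ∧
    ((e (M_cst S a)).1 = (e (M_cst S a')).1 ∨ (e (M_cst S a)).2 = (e (M_cst S a')).2) := by
  have := hC.ne
  obtain ⟨h1, h2⟩ := M_A4 hC S e h c (M_cst S a')
    (M_rtg_cov ((M_cst_le_cst S a a').2 h.le)) le_rfl
  refine ⟨⟨h1, fun h3 => ?_⟩, ?_⟩
  · by_contra h4
    have h5 := h2 h4
    have h6 : e (M_cst S a) = e (M_cst S a') := Prod.ext h3 h5
    have h7 : M_cst S a = M_cst S a' := e.injective h6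
    have h8 : a' ≤ a := (M_cst_le_cst S a' a).1 h7.ge
    exact absurd h8 (not_le_of_gt h.lt)
  · by_cases h3 : (e (M_u S h.le c)).1 = (e (M_u' S h.le c)).1
    · exact Or.inl (h1 h3)
    · exact Or.inr (h2 h3)

theorem M_cst_ne [Nonempty C] (S : Pow C A M) (e : M ≃o Y × Z) {a b : A} (hab : a ≠ b) :
    ¬ ((e (M_cst S a)).1 = (e (M_cst S b)).1 ∧ (e (M_cst S a)).2 = (e (M_cst S b)).2) := by
  rintro ⟨h1, h2⟩
  have h7 : M_cst S a = M_cst S b := e.injective (Prod.ext h1 h2)
  exact hab (le_antisymm ((M_cst_le_cst S a b).1 h7.le) ((M_cst_le_cst S b a).1 h7.ge))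

/-- the swap of two covers of different type -/
theorem M_swap [Finite C] [Finite M] (hC : PConn C) (S : Pow C A M) (e : M ≃o Y × Z)
    {a a1 a2 : A} (h1 : a ⋖ a1) (h2 : a1 ⋖ a2)
    (hz : (e (M_cst S a)).2 = (e (M_cst S a1)).2)
    (hy : (e (M_cst S a1)).1 = (e (M_cst S a2)).1) :
    ∃ b, a ⋖ b ∧ b ⋖ a2 ∧ (e (M_cst S a)).1 = (e (M_cst S b)).1 ∧
      (e (M_cst S b)).2 = (e (M_cst S a2)).2 := by
  classical
  have := hC.ne
  obtain ⟨c⟩ := hC.ne
  have h02 : a ≤ a2 := h1.le.trans h2.le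
  set f := M_u S h02 c with hf
  set k := M_u' S h02 c with hk
  have ef : S.ev f = M_st (fun x => c < x) a a2 := M_ev_u S h02 c
  have ek : S.ev k = M_st (fun x => c ≤ x) a a2 := M_ev_u' S h02 c
  have hfk : ∀ x, x ≠ c → S.ev f x = S.ev k x := by
    intro x hx
    rw [ef, ek]
    by_cases hcx : c ≤ x
    · rw [M_st_pos (lt_of_le_of_ne hcx (Ne.symm hx)), M_st_pos hcx]
    · rw [M_st_neg (fun h => hcx h.le), M_st_neg hcx]
  have fc : S.ev f c = a := by rw [ef, M_st_neg (lt_irrefl c)]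
  have kc : S.ev k c = a2 := by rw [ek, M_st_pos le_rfl]
  have hfge : ∀ x, a ≤ S.ev f x := by intro x; rw [ef]; exact M_st_ge h02 x
  have hkle : ∀ x, S.ev k x ≤ a2 := by intro x; rw [ek]; exact M_st_le h02 x
  have hgm : Monotone (Function.update (S.ev f) c a1) := by
    intro x y hxy
    by_cases hyc : y = c
    · by_cases hx : x = c
      · rw [hx, hyc]
      · rw [hyc, Function.update_self, Function.update_of_ne hx]
        have : S.ev f x ≤ S.ev f c := S.mono f (hyc ▸ hxy)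
        rw [fc] at this
        exact this.trans h1.le
    · by_cases hx : x = c
      · have hcy : c < y := lt_of_le_of_ne (hx ▸ hxy) (Ne.symm hyc)
        rw [hx, Function.update_self, Function.update_of_ne hyc, ef, M_st_pos hcy]
        exact h2.le
      · rw [Function.update_of_ne hx, Function.update_of_ne hyc]
        exact S.mono f hxy
  obtain ⟨g, hg⟩ := M_ex S _ hgm a (by
    intro x
    by_cases hx : x = c
    · rw [hx, Function.update_self]; exact h1.le
    · rw [Function.update_of_ne hx]; exact hfge x)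
  have gc : S.ev g c = a1 := by rw [hg, Function.update_self]
  have hfg : ∀ x, x ≠ c → S.ev f x = S.ev g x := by
    intro x hx; rw [hg, Function.update_of_ne hx]
  have hgk : ∀ x, x ≠ c → S.ev g x = S.ev k x := by
    intro x hx; rw [← hfg x hx, hfk x hx]
  have cfg : f ⋖ g := M_cov_of S hfg (by rw [fc, gc]; exact h1)
  have cgk : g ⋖ k := M_cov_of S hgk (by rw [gc, kc]; exact h2)
  have t1 : ¬ (e f).1 = (e g).1 := by
    rw [← M_A1 S e h1 hfg fc gc hfge, (M_A5 hC S e h1 c).1]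
    intro h3
    exact M_cst_ne S e h1.ne ⟨h3, hz⟩
  have t2 : (e g).1 = (e k).1 := by
    rw [← M_A1' S e h2 hgk gc kc hkle, (M_A5 hC S e h2 c).1]
    exact hy
  have c1 := Prod.covBy_iff.1 ((apply_covBy_apply_iff e).2 cfg)
  have c2 := Prod.covBy_iff.1 ((apply_covBy_apply_iff e).2 cgk)
  rcases c1 with ⟨c1, c1'⟩ | ⟨c1, c1'⟩
  swap
  · exact absurd c1' t1
  rcases c2 with ⟨c2, c2'⟩ | ⟨c2, c2'⟩
  · exact absurd t2 c2.ne
  obtain ⟨h, hh⟩ : ∃ h, e h = ((e f).1, (e k).2) := ⟨e.symm _, e.apply_symm_apply _⟩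
  have cfh : f ⋖ h := by
    rw [← apply_covBy_apply_iff e, hh, Prod.covBy_iff]
    right
    exact ⟨c1' ▸ c2, rfl⟩
  have chk : h ⋖ k := by
    rw [← apply_covBy_apply_iff e, hh, Prod.covBy_iff]
    left
    exact ⟨c2' ▸ c1, rfl⟩
  have hhx : ∀ x, x ≠ c → S.ev h x = S.ev f x := by
    intro x hx
    apply le_antisymm
    · rw [hfk x hx]
      exact (S.le_iff h k).1 chk.le x
    · exact (S.le_iff f h).1 cfh.le x
  have hfh' : ∀ x, x ≠ c → S.ev f x = S.ev h x := fun x hx => (hhx x hx).symm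
  have hhk' : ∀ x, x ≠ c → S.ev h x = S.ev k x := fun x hx => (hhx x hx).trans (hfk x hx)
  have lab1 : a ⋖ S.ev h c := by
    obtain ⟨d, hd1, hd2⟩ := M_label S cfh
    have hdc : d = c := by
      by_contra hdc
      exact hd2.ne (hfh' d hdc)
    rw [hdc, fc] at hd2
    exact hd2
  have lab2 : S.ev h c ⋖ a2 := by
    obtain ⟨d, hd1, hd2⟩ := M_label S chk
    have hdc : d = c := by
      by_contra hdc
      exact hd2.ne (hhk' d hdc)
    rw [hdc, kc] at hd2
    exact hd2
  refine ⟨S.ev h c, lab1, lab2, ?_, ?_⟩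
  · rw [← (M_A5 hC S e lab1 c).1, M_A1 S e lab1 hfh' fc rfl hfge, hh]
  · have t3 : ¬ (e (M_cst S (S.ev h c))).1 = (e (M_cst S a2)).1 := by
      rw [← (M_A5 hC S e lab2 c).1, M_A1' S e lab2 hhk' rfl kc hkle, hh]
      intro h3
      exact c1.ne (h3.trans c2'.symm)
    exact (M_A5 hC S e lab2 c).2.resolve_left t3

theorem M_corner1 [Finite C] [Finite A] [Finite M] (hC : PConn C) (S : Pow C A M)
    (e : M ≃o Y × Z) {a b : A} (hab : a ≤ b) :
    ∃ c, (e (M_cst S c)).1 = (e (M_cst S a)).1 ∧ (e (M_cst S c)).2 = (e (M_cst S b)).2 := by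
  obtain ⟨c0⟩ := hC.ne
  have hpath := M_rtg_cov hab
  obtain ⟨m, hm1, hm2⟩ := M_comm_closure
    (fun x y : A => x ⋖ y ∧ (e (M_cst S x)).2 = (e (M_cst S y)).2)
    (fun x y : A => x ⋖ y ∧ (e (M_cst S x)).1 = (e (M_cst S y)).1)
    (by
      rintro x y w ⟨h1, h2⟩ ⟨h3, h4⟩
      obtain ⟨b', h5, h6, h7, h8⟩ := M_swap hC S e h1 h3 h2 h4
      exact ⟨b', ⟨h5, h7⟩, ⟨h6, h8⟩⟩)
    (a := a) (b := b)
    (Relation.ReflTransGen.mono (by
      intro x y hxy
      rcases (M_A5 hC S e hxy c0).2 with h | h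
      · exact Or.inr ⟨hxy, h⟩
      · exact Or.inl ⟨hxy, h⟩) _ _ hpath)
  refine ⟨m, ?_, ?_⟩
  · exact (M_rtg_const _ (fun x => (e (M_cst S x)).1) (fun p q h => h.2) hm1).symm
  · exact M_rtg_const _ (fun x => (e (M_cst S x)).2) (fun p q h => h.2) hm2

theorem M_box [Finite C] [Finite A] [Finite M] (hA : PConn A) (hC : PConn C) (S : Pow C A M)
    (e : M ≃o Y × Z) (a b : A) :
    ∃ c, (e (M_cst S c)).1 = (e (M_cst S a)).1 ∧ (e (M_cst S c)).2 = (e (M_cst S b)).2 := by
  have := hC.ne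
  obtain ⟨c0⟩ := hC.ne
  -- a constant function
  have hconst : ∀ q : M, (∀ x, M_cst S (S.ev q x) ≤ q) → M_cst S (S.ev q c0) = q := by
    intro q hq
    apply M_ev_inj S
    intro x
    rw [M_ev_cst]
    exact le_antisymm ((M_cst_le S _ q).1 (hq c0) x) ((M_cst_le S _ q).1 (hq x) c0)
  have hconst' : ∀ q : M, (∀ x, q ≤ M_cst S (S.ev q x)) → M_cst S (S.ev q c0) = q := by
    intro q hq
    apply M_ev_inj S
    intro x
    rw [M_ev_cst]
    exact le_antisymm ((M_le_cst S _ q).1 (hq x) c0) ((M_le_cst S _ q).1 (hq c0) x)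
  apply M_box_path hA (fun a => (e (M_cst S a)).1) (fun a => (e (M_cst S a)).2)
  · intro a b
    rw [← M_cst_le_cst S a b, ← e.le_iff_le, Prod.le_def]
  · intro a b hab
    exact M_corner1 hC S e hab
  · intro a b hab
    obtain ⟨c, h1, h2⟩ := M_corner1 hC S (e.trans OrderIso.prodComm) hab
    exact ⟨c, h2, h1⟩
  · intro a m b ham hbm hz hy
    obtain ⟨q, hq⟩ : ∃ q, e q = ((e (M_cst S a)).1, (e (M_cst S b)).2) :=
      ⟨e.symm _, e.apply_symm_apply _⟩
    have hbm' : e (M_cst S b) ≤ e (M_cst S m) := e.monotone ((M_cst_le_cst S b m).2 hbm)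
    have ham' : e (M_cst S a) ≤ e (M_cst S m) := e.monotone ((M_cst_le_cst S a m).2 ham)
    have hqa : q ≤ M_cst S a := by
      rw [← e.le_iff_le, hq]
      refine ⟨le_rfl, ?_⟩
      show (e (M_cst S b)).2 ≤ (e (M_cst S a)).2
      rw [hz]
      exact hbm'.2
    have hqb : q ≤ M_cst S b := by
      rw [← e.le_iff_le, hq]
      refine ⟨?_, le_rfl⟩
      show (e (M_cst S a)).1 ≤ (e (M_cst S b)).1
      rw [hy]
      exact ham'.1
    have h5 : M_cst S (S.ev q c0) = q := by
      apply hconst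
      intro x
      rw [← e.le_iff_le, hq]
      exact ⟨(e.monotone ((M_cst_le_cst S _ _).2 ((M_le_cst S a q).1 hqa x))).1,
        (e.monotone ((M_cst_le_cst S _ _).2 ((M_le_cst S b q).1 hqb x))).2⟩
    refine ⟨S.ev q c0, ?_, ?_⟩
    · show (e (M_cst S (S.ev q c0))).1 = _
      rw [h5, hq]
    · show (e (M_cst S (S.ev q c0))).2 = _
      rw [h5, hq]
  · intro a m b ham hbm hz hy
    obtain ⟨q, hq⟩ : ∃ q, e q = ((e (M_cst S a)).1, (e (M_cst S b)).2) :=
      ⟨e.symm _, e.apply_symm_apply _⟩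
    have hbm' : e (M_cst S m) ≤ e (M_cst S b) := e.monotone ((M_cst_le_cst S m b).2 hbm)
    have ham' : e (M_cst S m) ≤ e (M_cst S a) := e.monotone ((M_cst_le_cst S m a).2 ham)
    have hqa : M_cst S a ≤ q := by
      rw [← e.le_iff_le, hq]
      refine ⟨le_rfl, ?_⟩
      show (e (M_cst S a)).2 ≤ (e (M_cst S b)).2
      rw [hz]
      exact hbm'.2
    have hqb : M_cst S b ≤ q := by
      rw [← e.le_iff_le, hq]
      refine ⟨?_, le_rfl⟩
      show (e (M_cst S b)).1 ≤ (e (M_cst S a)).1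
      rw [hy]
      exact ham'.1
    have h5 : M_cst S (S.ev q c0) = q := by
      apply hconst'
      intro x
      rw [← e.le_iff_le, hq]
      exact ⟨(e.monotone ((M_cst_le_cst S _ _).2 ((M_cst_le S a q).1 hqa x))).1,
        (e.monotone ((M_cst_le_cst S _ _).2 ((M_cst_le S b q).1 hqb x))).2⟩
    refine ⟨S.ev q c0, ?_, ?_⟩
    · show (e (M_cst S (S.ev q c0))).1 = _
      rw [h5, hq]
    · show (e (M_cst S (S.ev q c0))).2 = _
      rw [h5, hq]

/-- if all constants have the same first coordinate then the first factor is trivial -/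
theorem M_final [Finite A] (hA : PConn A) (hC : PConn C) (hM : PConn M) (S : Pow C A M)
    (e : M ≃o Y × Z) (h : ∀ a b : A, (e (M_cst S a)).1 = (e (M_cst S b)).1) :
    Subsingleton Y := by
  have := hA.ne
  have := hC.ne
  obtain ⟨b, -, hb⟩ := (Set.toFinite (Set.univ : Set A)).exists_maximal Set.univ_nonempty
  obtain ⟨a, -, ha⟩ := (Set.toFinite (Set.univ : Set A)).exists_minimal Set.univ_nonempty
  have hbmax : ∀ f : M, M_cst S b ≤ f → f ≤ M_cst S b := by
    intro f hf
    rw [M_le_cst]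
    intro x
    exact hb trivial ((M_cst_le S b f).1 hf x)
  have hamin : ∀ f : M, f ≤ M_cst S a → M_cst S a ≤ f := by
    intro f hf
    rw [M_cst_le]
    intro x
    exact ha trivial ((M_le_cst S a f).1 hf x)
  have hY1 : ∀ y : Y, (e (M_cst S b)).1 ≤ y → y = (e (M_cst S b)).1 := by
    intro y hy
    have h1 := hbmax (e.symm (y, (e (M_cst S b)).2)) (by
      rw [← e.le_iff_le, e.apply_symm_apply]
      exact ⟨hy, le_rfl⟩)
    rw [← e.le_iff_le, e.apply_symm_apply] at h1
    exact le_antisymm h1.1 hy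
  have hY2 : ∀ y : Y, y ≤ (e (M_cst S b)).1 → y = (e (M_cst S b)).1 := by
    intro y hy
    rw [h b a] at hy ⊢
    have h1 := hamin (e.symm (y, (e (M_cst S a)).2)) (by
      rw [← e.le_iff_le, e.apply_symm_apply]
      exact ⟨hy, le_rfl⟩)
    rw [← e.le_iff_le, e.apply_symm_apply] at h1
    exact le_antisymm hy h1.1
  have key : ∀ f : M, (e f).1 = (e (M_cst S b)).1 := by
    intro f
    refine hM.induct (fun f => (e f).1 = (e (M_cst S b)).1) ?_ (a := M_cst S b) rfl f
    intro p q hpq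
    have hpq' : e p ≤ e q := e.monotone hpq
    constructor
    · intro h1
      exact hY1 _ (h1 ▸ hpq'.1)
    · intro h1
      exact hY2 _ (h1 ▸ hpq'.1)
  constructor
  intro y1 y2
  have h1 := key (e.symm (y1, (e (M_cst S b)).2))
  have h2 := key (e.symm (y2, (e (M_cst S b)).2))
  rw [e.apply_symm_apply] at h1 h2
  exact h1.trans h2.symm

theorem M_irr_pow [Finite C] [Finite A] [Finite M] (hA : PConn A) (hC : PConn C) (hM : PConn M)
    (hirr : PIrr A) (S : Pow C A M) (e : M ≃o Y × Z) : Subsingleton Y ∨ Subsingleton Z := by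
  have := hA.ne
  have := hC.ne
  let y : A → Y := fun a => (e (M_cst S a)).1
  let z : A → Z := fun a => (e (M_cst S a)).2
  have hle : ∀ a b : A, y a ≤ y b ∧ z a ≤ z b ↔ a ≤ b := by
    intro a b
    rw [← M_cst_le_cst S a b, ← e.le_iff_le, Prod.le_def]
  let F : A → Set.range y × Set.range z := fun a => (⟨y a, a, rfl⟩, ⟨z a, a, rfl⟩)
  have hFinj : Function.Injective F := by
    intro a b hab
    have h1 : y a = y b := congrArg (fun p => (p.1 : Y)) hab
    have h2 : z a = z b := congrArg (fun p => (p.2 : Z)) hab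
    exact le_antisymm ((hle a b).1 ⟨h1.le, h2.le⟩) ((hle b a).1 ⟨h1.ge, h2.ge⟩)
  have hFsurj : Function.Surjective F := by
    rintro ⟨⟨_, a, rfl⟩, ⟨_, b, rfl⟩⟩
    obtain ⟨c, hc1, hc2⟩ := M_box hA hC S e a b
    exact ⟨c, Prod.ext (Subtype.ext hc1) (Subtype.ext hc2)⟩
  have hiso : Nonempty (A ≃o Set.range y × Set.range z) :=
    ⟨{ toEquiv := Equiv.ofBijective F ⟨hFinj, hFsurj⟩
       map_rel_iff' := by
        intro a b
        exact hle a b }⟩
  rcases hirr _ _ hiso with h | h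
  · left
    apply M_final hA hC hM S e
    intro a b
    have := h.elim (⟨y a, a, rfl⟩ : Set.range y) ⟨y b, b, rfl⟩
    exact congrArg Subtype.val this
  · right
    apply M_final hA hC hM S (e.trans OrderIso.prodComm)
    intro a b
    have := h.elim (⟨z a, a, rfl⟩ : Set.range z) ⟨z b, b, rfl⟩
    exact congrArg Subtype.val this

end core

theorem MainC_irr {C A : Type} [PartialOrder C] [PartialOrder A] [Finite A] [Finite C]
    (hA : PConn A) (hC : PConn C) (hirr : PIrr A) :
    PIrr (MainC C A) := by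
  intro Y Z _ _ he
  obtain ⟨e⟩ := he
  obtain ⟨S, -⟩ := MainC.exists_pow (C := C) hA
  exact M_irr_pow hA hC (MainC_conn hA) hirr S e

end Pool.Agent.Birk
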