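import Mathlib
import Pool.Agent.Lib_MP_aad2bd_co.Basic

/-!
MP_aad2bd_co, PART W (first half): lengths of intervals, lengths in powers.
-/

set_option autoImplicit false

namespace Pool.Agent.Birk

section len
variable {α : Type} [PartialOrder α]

theorem Ch.le {n : ℕ} {a b : α} (h : Ch n a b) : a ≤ b := by
  induction h with
  | refl a => exact le_rfl
  | step h1 _ ih => exact h1.le.trans ih

theorem Ch.trans {n m : ℕ} {a b c : α} (h : Ch n a b) (h' : Ch m b c) : Ch (n + m) a c := by
  induction h with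
  | refl a => simpa using h'
  | @step n a b c h1 _ ih =>
    have := Ch.step h1 (ih h')
    have e : n + 1 + m = n + m + 1 := by omega
    rw [e]
    exact this

theorem Ch.one {a b : α} (h : a < b) : Ch 1 a b := Ch.step h (Ch.refl b)

theorem Ch.exists_finset {n : ℕ} {a b : α} (h : Ch n a b) :
    ∃ s : Finset α, s.card = n + 1 ∧ ∀ x ∈ s, a ≤ x := by
  classical
  induction h with
  | refl a => exact ⟨{a}, by simp, by simp⟩
  | @step n a b c h1 _ ih =>
    obtain ⟨s, hs, hb⟩ := ih
    have hn : a ∉ s := fun h => absurd (hb a h) (not_le_of_gt h1)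
    refine ⟨insert a s, by rw [Finset.card_insert_of_notMem hn, hs], ?_⟩
    intro x hx
    rcases Finset.mem_insert.1 hx with rfl | hx
    · exact le_rfl
    · exact h1.le.trans (hb x hx)

theorem Ch.bound [Finite α] {n : ℕ} {a b : α} (h : Ch n a b) : n < Nat.card α := by
  classical
  have := Fintype.ofFinite α
  obtain ⟨s, hs, -⟩ := h.exists_finset
  have := Finset.card_le_univ s
  rw [Nat.card_eq_fintype_card]
  omega

theorem Ch.bdd [Finite α] (a b : α) : BddAbove {n | Ch n a b} :=
  ⟨Nat.card α, fun _ h => (Ch.bound h).le⟩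

theorem Ch.bdd' [Finite α] : BddAbove {n | ∃ a b : α, Ch n a b} :=
  ⟨Nat.card α, fun _ ⟨_, _, h⟩ => (Ch.bound h).le⟩

theorem le_ilen [Finite α] {n : ℕ} {a b : α} (h : Ch n a b) : n ≤ ilen a b :=
  le_csSup (Ch.bdd a b) h

theorem Ch.nonempty {a b : α} (h : a ≤ b) : {n | Ch n a b}.Nonempty := by
  rcases h.eq_or_lt with rfl | h
  · exact ⟨0, Ch.refl _⟩
  · exact ⟨1, Ch.one h⟩

theorem ch_ilen [Finite α] {a b : α} (h : a ≤ b) : Ch (ilen a b) a b :=
  Nat.sSup_mem (Ch.nonempty h) (Ch.bdd a b)

theorem ilen_self [Finite α] (a : α) : ilen a a = 0 := by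
  have h := ch_ilen (le_refl a)
  generalize ilen a a = n at h
  cases h with
  | refl => rfl
  | step h1 h2 => exact absurd h2.le (not_le_of_gt h1)

theorem ilen_add_le [Finite α] {a b c : α} (h : a ≤ b) (h' : b ≤ c) :
    ilen a b + ilen b c ≤ ilen a c :=
  le_ilen ((ch_ilen h).trans (ch_ilen h'))

theorem ilen_pos [Finite α] {a b : α} (h : a < b) : 0 < ilen a b :=
  le_ilen (Ch.one h)

theorem ilen_covBy [Finite α] {a b : α} (h : a ⋖ b) : ilen a b = 1 := by
  have h1 := ch_ilen h.le
  have h0 := ilen_pos h.lt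
  generalize ilen a b = n at h1 h0
  cases h1 with
  | refl => omega
  | step h1 h2 =>
    cases h2 with
    | refl => rfl
    | step h3 h4 => exact absurd (lt_of_lt_of_le h3 h4.le) (h.2 h1)

theorem eq_of_ilen_zero [Finite α] {a b : α} (h : a ≤ b) (h0 : ilen a b = 0) : a = b := by
  rcases h.eq_or_lt with rfl | h
  · rfl
  · have := ilen_pos h
    omega

theorem covBy_of_ilen_one [Finite α] {a b : α} (h : a ≤ b) (h1 : ilen a b = 1) : a ⋖ b := by
  rcases h.eq_or_lt with rfl | h
  · rw [ilen_self] at h1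
    omega
  · refine ⟨h, fun c hc hc' => ?_⟩
    have := le_ilen (Ch.step hc (Ch.one hc'))
    omega

/-- first step of a longest chain -/
theorem exists_covBy_ilen [Finite α] {a b : α} (h : a < b) :
    ∃ a', a ⋖ a' ∧ a' ≤ b ∧ ilen a b = ilen a' b + 1 := by
  have h1 := ch_ilen h.le
  have h0 := ilen_pos h
  generalize hn : ilen a b = n at h1 h0
  cases h1 with
  | refl => omega
  | @step n _ a' _ h1 h2 =>
    have h3 := le_ilen h2
    have h4 : ilen a' b + 1 ≤ ilen a b := le_ilen (Ch.step h1 (ch_ilen h2.le))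
    refine ⟨a', ⟨h1, fun c hc hc' => ?_⟩, h2.le, by omega⟩
    have := le_ilen (Ch.step hc (Ch.step hc' h2))
    omega

theorem Ch.exists_last {n : ℕ} {a c : α} (h : Ch (n + 1) a c) : ∃ b, Ch n a b ∧ b < c := by
  generalize hm : n + 1 = m at h
  induction h generalizing n with
  | refl a => omega
  | @step k a b c h1 h2 ih =>
    cases n with
    | zero =>
      have hk : k = 0 := by omega
      subst hk
      cases h2 with
      | refl => exact ⟨a, Ch.refl a, h1⟩
    | succ n =>
      obtain ⟨d, hd, hdc⟩ := ih (n := n) (by omega)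
      exact ⟨d, Ch.step h1 hd, hdc⟩

/-- last step of a longest chain -/
theorem exists_covBy_ilen' [Finite α] {a b : α} (h : a < b) :
    ∃ b', a ≤ b' ∧ b' ⋖ b ∧ ilen a b = ilen a b' + 1 := by
  have h1 := ch_ilen h.le
  have h0 := ilen_pos h
  obtain ⟨n, hn⟩ : ∃ n, ilen a b = n + 1 := ⟨ilen a b - 1, by omega⟩
  rw [hn] at h1
  obtain ⟨b', hb', hlt⟩ := h1.exists_last
  have h3 := le_ilen hb'
  have h4 : ilen a b' + 1 ≤ ilen a b := le_ilen ((ch_ilen hb'.le).trans (Ch.one hlt))
  refine ⟨b', hb'.le, ⟨hlt, fun c hc hc' => ?_⟩, by omega⟩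
  have := le_ilen (hb'.trans (Ch.step hc (Ch.one hc')))
  omega

theorem Ch.dual {n : ℕ} {a b : α} (h : Ch n a b) :
    Ch n (OrderDual.toDual b) (OrderDual.toDual a) := by
  induction h with
  | refl a => exact Ch.refl _
  | step h1 _ ih => exact ih.trans (Ch.one (OrderDual.toDual_lt_toDual.2 h1))

theorem Ch.undual {n : ℕ} {a b : αᵒᵈ} (h : Ch n a b) :
    Ch n (OrderDual.ofDual b) (OrderDual.ofDual a) := by
  induction h with
  | refl a => exact Ch.refl _
  | step h1 _ ih => exact ih.trans (Ch.one (OrderDual.ofDual_lt_ofDual.2 h1))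

theorem ilen_dual [Finite α] (a b : α) :
    ilen (OrderDual.toDual b) (OrderDual.toDual a) = ilen a b := by
  unfold ilen
  congr 1
  ext n
  exact ⟨fun h => h.undual, fun h => h.dual⟩

theorem ilen_le_plen [Finite α] {a b : α} (h : a ≤ b) : ilen a b ≤ plen α :=
  le_csSup Ch.bdd' ⟨a, b, ch_ilen h⟩

theorem le_plen [Finite α] {n : ℕ} {a b : α} (h : Ch n a b) : n ≤ plen α :=
  le_csSup Ch.bdd' ⟨a, b, h⟩

theorem exists_ilen_eq_plen [Finite α] [Nonempty α] : ∃ a b : α, a ≤ b ∧ ilen a b = plen α := by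
  obtain ⟨a0⟩ := ‹Nonempty α›
  have hne : {n | ∃ a b : α, Ch n a b}.Nonempty := ⟨0, a0, a0, Ch.refl a0⟩
  obtain ⟨a, b, h⟩ := Nat.sSup_mem hne Ch.bdd'
  refine ⟨a, b, h.le, le_antisymm (ilen_le_plen h.le) (le_ilen h)⟩

theorem Ch.map {β : Type} [PartialOrder β] {f : α → β} (hf : StrictMono f) {n : ℕ} {a b : α}
    (h : Ch n a b) : Ch n (f a) (f b) := by
  induction h with
  | refl a => exact Ch.refl _
  | step h1 _ ih => exact Ch.step (hf h1) ih

theorem ilen_congr {β : Type} [PartialOrder β] (e : α ≃o β) (a b : α) :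
    ilen (e a) (e b) = ilen a b := by
  unfold ilen
  congr 1
  ext n
  constructor
  · intro h
    have := Ch.map e.symm.strictMono h
    simpa using this
  · intro h
    exact Ch.map e.strictMono h

theorem plen_congr {β : Type} [PartialOrder β] (e : α ≃o β) : plen α = plen β := by
  unfold plen
  congr 1
  ext n
  constructor
  · rintro ⟨a, b, h⟩
    exact ⟨e a, e b, Ch.map e.strictMono h⟩
  · rintro ⟨a, b, h⟩
    exact ⟨e.symm a, e.symm b, Ch.map e.symm.strictMono h⟩

theorem Ch.prod_le {β : Type} [PartialOrder β] [Finite α] [Finite β] {n : ℕ} {p q : α × β}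
    (h : Ch n p q) : n ≤ ilen p.1 q.1 + ilen p.2 q.2 := by
  induction h with
  | refl a => exact Nat.zero_le _
  | @step n a b c h1 h2 ih =>
    have hbc := h2.le
    have h3 := ilen_add_le h1.le.1 hbc.1
    have h4 := ilen_add_le h1.le.2 hbc.2
    rcases Prod.lt_iff.1 h1 with ⟨h5, -⟩ | ⟨-, h5⟩
    · have := ilen_pos h5
      omega
    · have := ilen_pos h5
      omega

theorem plen_prod {β : Type} [PartialOrder β] [Finite α] [Finite β] [Nonempty α] [Nonempty β] :
    plen (α × β) = plen α + plen β := by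
  apply le_antisymm
  · obtain ⟨p, q, hpq, h⟩ := exists_ilen_eq_plen (α := α × β)
    rw [← h]
    have h1 := (ch_ilen hpq).prod_le
    have h2 := ilen_le_plen hpq.1
    have h3 := ilen_le_plen hpq.2
    omega
  · obtain ⟨a, a', ha, ha'⟩ := exists_ilen_eq_plen (α := α)
    obtain ⟨b, b', hb, hb'⟩ := exists_ilen_eq_plen (α := β)
    have h1 : Ch (plen α) (a, b) (a', b) := by
      rw [← ha']
      exact Ch.map (f := fun x => (x, b)) (fun x y h => Prod.mk_lt_mk_of_lt_of_le h le_rfl)
        (ch_ilen ha)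
    have h2 : Ch (plen β) (a', b) (a', b') := by
      rw [← hb']
      exact Ch.map (f := fun x => (a', x)) (fun x y h => Prod.mk_lt_mk_of_le_of_lt le_rfl h)
        (ch_ilen hb)
    exact le_plen (h1.trans h2)

theorem subsingleton_of_plen_zero [Finite α] (h : PConn α) (h0 : plen α = 0) :
    Subsingleton α := by
  refine ⟨fun a b => ?_⟩
  refine h.eq_of_le_eq id (fun x y hxy => ?_) a b
  rcases hxy.eq_or_lt with rfl | hlt
  · rfl
  · have := le_plen (Ch.one hlt)
    omega

end len

section powlen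
variable {C A M : Type} [PartialOrder C] [PartialOrder A] [PartialOrder M]

theorem Pow.ev_inj (S : Pow C A M) : Function.Injective S.ev := by
  intro f g h
  apply le_antisymm
  · rw [S.le_iff]; intro c; rw [h]
  · rw [S.le_iff]; intro c; rw [h]

theorem Pow.exists_lt (S : Pow C A M) {f g : M} (h : f < g) : ∃ c, S.ev f c < S.ev g c := by
  by_contra hne
  push Not at hne
  have h1 := (S.le_iff f g).1 h.le
  apply h.ne
  apply S.ev_inj
  funext c
  exact (h1 c).eq_of_not_lt (hne c)

theorem Pow.ch_le [Fintype C] [Finite A] (S : Pow C A M) {n : ℕ} {f g : M} (h : Ch n f g) :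
    n ≤ ∑ c, ilen (S.ev f c) (S.ev g c) := by
  induction h with
  | refl a => exact Nat.zero_le _
  | @step n f f1 g h1 h2 ih =>
    have h3 := (S.le_iff _ _).1 h1.le
    have h4 := (S.le_iff _ _).1 h2.le
    obtain ⟨c, hc⟩ := S.exists_lt h1
    have h5 : ∑ c, ilen (S.ev f c) (S.ev f1 c) + ∑ c, ilen (S.ev f1 c) (S.ev g c) ≤
        ∑ c, ilen (S.ev f c) (S.ev g c) := by
      rw [← Finset.sum_add_distrib]
      exact Finset.sum_le_sum fun c _ => ilen_add_le (h3 c) (h4 c)
    have h6 : ilen (S.ev f c) (S.ev f1 c) ≤ ∑ c, ilen (S.ev f c) (S.ev f1 c) :=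
      Finset.single_le_sum (f := fun c => ilen (S.ev f c) (S.ev f1 c))
        (fun _ _ => Nat.zero_le _) (Finset.mem_univ c)
    have h7 := ilen_pos hc
    omega

/-- raising one coordinate above which `f` and `g` agree -/
theorem Pow.exists_update [DecidableEq C] (S : Pow C A M) {f g : M} (h : f ≤ g) (c : C) (a : A)
    (hc : ∀ y, c < y → S.ev f y = S.ev g y) (ha : S.ev f c ≤ a) (ha' : a ≤ S.ev g c) :
    ∃ f', S.ev f' = Function.update (S.ev f) c a ∧ f ≤ f' ∧ f' ≤ g := by
  have h1 := (S.le_iff _ _).1 h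
  have hmon : Monotone (Function.update (S.ev f) c a) := by
    intro x y hxy
    by_cases hx : x = c
    · subst hx
      by_cases hy : y = x
      · rw [hy]
      · rw [Function.update_self, Function.update_of_ne hy]
        have hlt : x < y := lt_of_le_of_ne hxy (Ne.symm hy)
        rw [hc y hlt]
        exact ha'.trans (S.mono g hxy)
    · rw [Function.update_of_ne hx]
      by_cases hy : y = c
      · subst hy
        rw [Function.update_self]
        exact (S.mono f hxy).trans ha
      · rw [Function.update_of_ne hy]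
        exact S.mono f hxy
  have hle : ∀ x, S.ev f x ≤ Function.update (S.ev f) c a x := by
    intro x
    by_cases hx : x = c
    · subst hx
      rw [Function.update_self]
      exact ha
    · rw [Function.update_of_ne hx]
  obtain ⟨f', hf'⟩ := S.up f _ hmon hle
  refine ⟨f', hf', ?_, ?_⟩
  · rw [S.le_iff, hf']
    exact hle
  · rw [S.le_iff, hf']
    intro x
    by_cases hx : x = c
    · subst hx
      rw [Function.update_self]
      exact ha'
    · rw [Function.update_of_ne hx]
      exact h1 x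

theorem Pow.le_ilen' [Fintype C] [Finite A] [Finite M] (S : Pow C A M) (n : ℕ) :
    ∀ {f g : M}, f ≤ g → ∑ c, ilen (S.ev f c) (S.ev g c) = n → n ≤ ilen f g := by
  classical
  induction n with
  | zero => intro f g _ _; exact Nat.zero_le _
  | succ n ih =>
    intro f g hfg hs
    have h1 := (S.le_iff _ _).1 hfg
    have hne : {c | S.ev f c ≠ S.ev g c}.Nonempty := by
      by_contra hcon
      rw [Set.not_nonempty_iff_eq_empty, Set.eq_empty_iff_forall_notMem] at hcon
      have : ∑ c, ilen (S.ev f c) (S.ev g c) = 0 := by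
        apply Finset.sum_eq_zero
        intro c _
        have h2 := hcon c
        simp only [Set.mem_ofPred_eq, not_not] at h2
        rw [h2, ilen_self]
      omega
    obtain ⟨c, hc⟩ := (Set.toFinite {c | S.ev f c ≠ S.ev g c}).exists_maximal hne
    have hcne : S.ev f c ≠ S.ev g c := hc.prop
    have hceq : ∀ y, c < y → S.ev f y = S.ev g y := by
      intro y hy
      by_contra hcon
      exact absurd (hc.le_of_ge hcon hy.le) (not_le_of_gt hy)
    have hlt : S.ev f c < S.ev g c := lt_of_le_of_ne (h1 c) hcne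
    obtain ⟨a, ha, ha', hl⟩ := exists_covBy_ilen hlt
    obtain ⟨f', hf', hff', hf'g⟩ := S.exists_update hfg c a hceq ha.le ha'
    have hsum : ∑ x, ilen (S.ev f x) (S.ev g x) = ∑ x, ilen (S.ev f' x) (S.ev g x) + 1 := by
      rw [← Finset.add_sum_erase _ _ (Finset.mem_univ c),
        ← Finset.add_sum_erase _ (fun x => ilen (S.ev f' x) (S.ev g x)) (Finset.mem_univ c)]
      have h3 : ∑ x ∈ Finset.univ.erase c, ilen (S.ev f x) (S.ev g x) =
          ∑ x ∈ Finset.univ.erase c, ilen (S.ev f' x) (S.ev g x) := by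
        apply Finset.sum_congr rfl
        intro x hx
        rw [hf', Function.update_of_ne (Finset.ne_of_mem_erase hx)]
      have h4 : S.ev f' c = a := by rw [hf', Function.update_self]
      rw [h3, h4]
      omega
    have h5 := ih hf'g (by omega)
    have hlt' : f < f' := by
      refine lt_of_le_of_ne hff' ?_
      rintro rfl
      have : S.ev f c = a := by
        conv_lhs => rw [hf']
        rw [Function.update_self]
      exact ha.lt.ne this
    have h6 := ilen_pos hlt'
    have h7 := ilen_add_le hff' hf'g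
    omega

theorem Pow.ilen_eq [Fintype C] [Finite A] [Finite M] (S : Pow C A M) {f g : M} (h : f ≤ g) :
    ilen f g = ∑ c, ilen (S.ev f c) (S.ev g c) :=
  le_antisymm (S.ch_le (ch_ilen h)) (S.le_ilen' _ h rfl)

theorem Pow.plen_eq [Finite C] [Finite A] [Finite M] [Nonempty A] (S : Pow C A M) :
    plen M = Nat.card C * plen A := by
  classical
  have := Fintype.ofFinite C
  obtain ⟨a, b, hab, hl⟩ := exists_ilen_eq_plen (α := A)
  obtain ⟨fa, hfa⟩ := S.const a
  obtain ⟨fb, hfb⟩ := S.const b
  have : Nonempty M := ⟨fa⟩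
  apply le_antisymm
  · obtain ⟨f, g, hfg, h⟩ := exists_ilen_eq_plen (α := M)
    have h1 := (S.le_iff _ _).1 hfg
    rw [← h, S.ilen_eq hfg, Nat.card_eq_fintype_card]
    calc ∑ c, ilen (S.ev f c) (S.ev g c) ≤ ∑ _c : C, plen A :=
          Finset.sum_le_sum fun c _ => ilen_le_plen (h1 c)
      _ = Fintype.card C * plen A := by simp
  · have hle : fa ≤ fb := by
      rw [S.le_iff, hfa, hfb]
      intro _
      exact hab
    have h1 := ilen_le_plen hle
    rw [S.ilen_eq hle, hfa, hfb] at h1
    rw [Nat.card_eq_fintype_card]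
    simpa [hl] using h1

theorem Pow.ilen_const [Finite C] [Finite A] [Finite M] (S : Pow C A M) {f g : M} {a b : A}
    (hf : S.ev f = fun _ => a) (hg : S.ev g = fun _ => b) (hab : a ≤ b) :
    ilen f g = Nat.card C * ilen a b := by
  classical
  have := Fintype.ofFinite C
  have hle : f ≤ g := by
    rw [S.le_iff, hf, hg]
    intro _
    exact hab
  rw [S.ilen_eq hle, hf, hg, Nat.card_eq_fintype_card]
  simp

theorem Pow.longest_const [Finite C] [Finite A] [Finite M] (S : Pow C A M) (hC : PConn C)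
    {f g : M} (h : f ≤ g) (hl : ilen f g = plen M) :
    ∃ a b : A, a ≤ b ∧ ilen a b = plen A ∧ S.ev f = (fun _ => a) ∧ S.ev g = (fun _ => b) := by
  classical
  have := Fintype.ofFinite C
  obtain ⟨c0⟩ := hC.ne
  have : Nonempty A := ⟨S.ev f c0⟩
  have h1 := (S.le_iff _ _).1 h
  have hall : ∀ c, ilen (S.ev f c) (S.ev g c) = plen A := by
    by_contra hcon
    push Not at hcon
    obtain ⟨c, hc⟩ := hcon
    have hlt : ∑ c, ilen (S.ev f c) (S.ev g c) < ∑ _c : C, plen A :=
      Finset.sum_lt_sum (fun c _ => ilen_le_plen (h1 c))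
        ⟨c, Finset.mem_univ c, lt_of_le_of_ne (ilen_le_plen (h1 c)) hc⟩
    rw [← S.ilen_eq h, hl, S.plen_eq, Nat.card_eq_fintype_card] at hlt
    simp at hlt
  have hf : ∀ c c', c ≤ c' → S.ev f c = S.ev f c' := by
    intro c c' hcc
    rcases (S.mono f hcc).eq_or_lt with he | hlt
    · exact he
    · have h2 := ilen_add_le hlt.le (h1 c')
      have h3 := ilen_pos hlt
      have h4 := ilen_le_plen (hlt.le.trans (h1 c'))
      have h5 := hall c'
      omega
  have hg : ∀ c c', c ≤ c' → S.ev g c = S.ev g c' := by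
    intro c c' hcc
    rcases (S.mono g hcc).eq_or_lt with he | hlt
    · exact he
    · have h2 := ilen_add_le (h1 c) hlt.le
      have h3 := ilen_pos hlt
      have h4 := ilen_le_plen ((h1 c).trans hlt.le)
      have h5 := hall c
      omega
  refine ⟨S.ev f c0, S.ev g c0, h1 c0, hall c0, ?_, ?_⟩
  · funext c
    exact hC.eq_of_le_eq (S.ev f) hf c c0
  · funext c
    exact hC.eq_of_le_eq (S.ev g) hg c c0

end powlen

end Pool.Agent.Birk
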