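import Mathlib
import Pool.Agent.Lib_MP_aad2bd_co.Basic
import Pool.Agent.Lib_MP_aad2bd_co.PartW1

/-!
MP_aad2bd_co, PART W (second half): join-irreducibles of powers, the functional `wfun`.
-/

set_option autoImplicit false

namespace Pool.Agent.Birk

section JIpart
variable {C P N : Type} [PartialOrder C] [PartialOrder P] [PartialOrder N]

/-- a lower cover of `f` changes exactly one coordinate, by a cover -/
theorem W_cover_coord [Finite C] [Finite P] [Finite N] [DecidableEq C] (S : Pow C P N) {g f : N}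
    (h : g ⋖ f) :
    ∃ c, S.ev g c ⋖ S.ev f c ∧ (∀ y, y < c → S.ev f y ≤ S.ev g c) ∧
      S.ev g = Function.update (S.ev f) c (S.ev g c) := by
  have := Fintype.ofFinite C
  have h1 := (S.le_iff _ _).1 h.le
  have hs : ∑ c, ilen (S.ev g c) (S.ev f c) = 1 := by
    rw [← S.ilen_eq h.le, ilen_covBy h]
  obtain ⟨c, hc⟩ := S.exists_lt h.lt
  have hpos := ilen_pos hc
  rw [← Finset.add_sum_erase _ _ (Finset.mem_univ c)] at hs
  have h0 : ∑ x ∈ Finset.univ.erase c, ilen (S.ev g x) (S.ev f x) = 0 := by omega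
  have h2 : ilen (S.ev g c) (S.ev f c) = 1 := by omega
  rw [Finset.sum_eq_zero_iff] at h0
  have h3 : ∀ x, x ≠ c → S.ev g x = S.ev f x := fun x hx =>
    eq_of_ilen_zero (h1 x) (h0 x (Finset.mem_erase.2 ⟨hx, Finset.mem_univ x⟩))
  refine ⟨c, covBy_of_ilen_one (h1 c) h2, ?_, ?_⟩
  · intro y hy
    rw [← h3 y hy.ne]
    exact S.mono g hy.le
  · funext x
    by_cases hx : x = c
    · subst hx
      rw [Function.update_self]
    · rw [Function.update_of_ne hx, h3 x hx]

/-- lowering one coordinate -/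
theorem W_exists_lower [Finite C] [Finite P] [Finite N] [DecidableEq C] (S : Pow C P N) (f : N)
    (c : C) (a : P) (ha : a ⋖ S.ev f c) (hc : ∀ y, y < c → S.ev f y ≤ a) :
    ∃ g, g ⋖ f ∧ S.ev g = Function.update (S.ev f) c a := by
  have := Fintype.ofFinite C
  have hmon : Monotone (Function.update (S.ev f) c a) := by
    intro x y hxy
    by_cases hx : x = c
    · subst hx
      by_cases hy : y = x
      · rw [hy]
      · rw [Function.update_self, Function.update_of_ne hy]
        exact ha.le.trans (S.mono f hxy)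
    · rw [Function.update_of_ne hx]
      by_cases hy : y = c
      · subst hy
        rw [Function.update_self]
        exact hc x (lt_of_le_of_ne hxy hx)
      · rw [Function.update_of_ne hy]
        exact S.mono f hxy
  have hle : ∀ x, Function.update (S.ev f) c a x ≤ S.ev f x := by
    intro x
    by_cases hx : x = c
    · subst hx
      rw [Function.update_self]
      exact ha.le
    · rw [Function.update_of_ne hx]
  obtain ⟨g, hg⟩ := S.dn f _ hmon hle
  refine ⟨g, ?_, hg⟩
  have hgf : g ≤ f := by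
    rw [S.le_iff, hg]
    exact hle
  apply covBy_of_ilen_one hgf
  rw [S.ilen_eq hgf, ← Finset.add_sum_erase _ _ (Finset.mem_univ c)]
  have h1 : ilen (S.ev g c) (S.ev f c) = 1 := by
    rw [hg, Function.update_self]
    exact ilen_covBy ha
  have h2 : ∑ x ∈ Finset.univ.erase c, ilen (S.ev g x) (S.ev f x) = 0 := by
    apply Finset.sum_eq_zero
    intro x hx
    rw [hg, Function.update_of_ne (Finset.ne_of_mem_erase hx), ilen_self]
  rw [h1, h2]

theorem W_finite_N [Finite C] [Finite P] (S : Pow C P N) : Finite N :=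
  Finite.of_injective S.ev S.ev_inj

theorem W_exists_lower_cover {α : Type} [PartialOrder α] [Finite α] {a b : α} (h : a < b) :
    ∃ b', a ≤ b' ∧ b' ⋖ b := by
  obtain ⟨b', h1, h2, -⟩ := exists_covBy_ilen' h
  exact ⟨b', h1, h2⟩

open Classical in
/-- the map equal to `j` above `c`, and to bottom elsewhere -/
noncomputable def wpt [OrderBot P] (c : C) (j : P) (x : C) : P := if c ≤ x then j else ⊥

theorem wpt_of_le [OrderBot P] {c x : C} (j : P) (h : c ≤ x) : wpt c j x = j := by
  unfold wpt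
  rw [if_pos h]

theorem wpt_of_not_le [OrderBot P] {c x : C} (j : P) (h : ¬ c ≤ x) : wpt c j x = ⊥ := by
  unfold wpt
  rw [if_neg h]

theorem wpt_mono [OrderBot P] (c : C) (j : P) : Monotone (wpt c j) := by
  intro x y hxy
  by_cases hx : c ≤ x
  · rw [wpt_of_le j hx, wpt_of_le j (hx.trans hxy)]
  · rw [wpt_of_not_le j hx]
    exact bot_le

theorem W_exists_wpt [OrderBot P] (S : Pow C P N) (c : C) (j : P) : ∃ f, S.ev f = wpt c j := by
  obtain ⟨f0, hf0⟩ := S.const ⊥
  exact S.up f0 _ (wpt_mono c j) (fun x => by rw [hf0]; exact bot_le)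

theorem W_wpt_JI [OrderBot P] [Finite C] [Finite P] (S : Pow C P N) (c : C) (j : JI P) {f : N}
    (hf : S.ev f = wpt c j.1) : ∃! g, g ⋖ f := by
  classical
  have : Finite N := W_finite_N S
  obtain ⟨j, a, ha, hau⟩ := j
  simp only at ha hau hf
  have hlow : ∀ y, y < c → S.ev f y ≤ a := by
    intro y hy
    rw [hf, wpt_of_not_le j (not_le_of_gt hy)]
    exact bot_le
  have hfc : S.ev f c = j := by rw [hf, wpt_of_le j le_rfl]
  obtain ⟨g, hg, hg'⟩ := W_exists_lower S f c a (by rw [hfc]; exact ha) hlow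
  refine ⟨g, hg, ?_⟩
  intro g' hg2
  obtain ⟨c', h1, h2, h3⟩ := W_cover_coord S hg2
  have hcc : c ≤ c' := by
    by_contra hcon
    rw [hf, wpt_of_not_le j hcon] at h1
    exact absurd h1.lt not_lt_bot
  have hc' : S.ev f c' = j := by rw [hf, wpt_of_le j hcc]
  have hce : c = c' := by
    rcases hcc.eq_or_lt with he | hlt
    · exact he
    · have h4 := h2 c hlt
      rw [hfc] at h4
      have h5 := h1.lt
      rw [hc'] at h5
      exact absurd h4 (not_le_of_gt h5)
  subst hce
  rw [hc'] at h1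
  have h6 := hau _ h1
  apply S.ev_inj
  rw [h3, hg', h6]

theorem W_JI_wpt [OrderBot P] [Finite C] [Finite P] (S : Pow C P N) {f : N}
    (hf : ∃! g, g ⋖ f) : ∃ (c : C) (j : JI P), S.ev f = wpt c j.1 := by
  classical
  have : Finite N := W_finite_N S
  -- uniqueness in coordinates
  have key : ∀ c c' a a', a ⋖ S.ev f c → (∀ y, y < c → S.ev f y ≤ a) →
      a' ⋖ S.ev f c' → (∀ y, y < c' → S.ev f y ≤ a') → c = c' ∧ a = a' := by
    intro c c' a a' h1 h2 h3 h4
    obtain ⟨g, hg, hg'⟩ := W_exists_lower S f c a h1 h2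
    obtain ⟨k, hk, hk'⟩ := W_exists_lower S f c' a' h3 h4
    have hgk : g = k := hf.unique hg hk
    subst hgk
    have h5 : c = c' := by
      by_contra hne
      have h6 := congrFun hg' c
      have h7 := congrFun hk' c
      rw [Function.update_self] at h6
      rw [Function.update_of_ne hne] at h7
      exact h1.lt.ne (h6.symm.trans h7)
    subst h5
    refine ⟨rfl, ?_⟩
    have h6 := congrFun hg' c
    have h7 := congrFun hk' c
    rw [Function.update_self] at h6 h7
    exact h6.symm.trans h7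
  obtain ⟨g, hg, -⟩ := hf
  obtain ⟨c1, h1, h2, h3⟩ := W_cover_coord S hg
  have hT : {x | S.ev f x ≠ ⊥}.Nonempty :=
    ⟨c1, fun h => absurd h1.lt (by rw [h]; exact not_lt_bot)⟩
  -- every element of T is above a minimal one; minimal ones give lower covers
  have hmin : ∀ m, Minimal (fun x => S.ev f x ≠ ⊥) m → m = c1 := by
    intro m hm
    have hm1 : (⊥ : P) < S.ev f m := bot_lt_iff_ne_bot.2 hm.prop
    obtain ⟨a, -, ha⟩ := W_exists_lower_cover hm1
    refine (key m c1 a (S.ev g c1) ha ?_ h1 h2).1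
    intro y hy
    by_contra hcon
    have : S.ev f y ≠ ⊥ := fun h => hcon (by rw [h]; exact bot_le)
    exact absurd (hm.le_of_le this hy.le) (not_le_of_gt hy)
  have hleast : ∀ x, S.ev f x ≠ ⊥ → c1 ≤ x := by
    intro x hx
    obtain ⟨m, hmx, hm⟩ := (Set.toFinite {x | S.ev f x ≠ ⊥}).exists_le_minimal hx
    have := hmin m hm
    rw [← this]
    exact hmx
  have hconst : ∀ x, c1 ≤ x → S.ev f x = S.ev f c1 := by
    by_contra hcon
    push Not at hcon
    obtain ⟨x, hx, hxne⟩ := hcon
    obtain ⟨y, -, hy⟩ := (Set.toFinite {y | c1 ≤ y ∧ S.ev f y ≠ S.ev f c1}).exists_le_minimal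
      (show x ∈ {y | c1 ≤ y ∧ S.ev f y ≠ S.ev f c1} from ⟨hx, hxne⟩)
    have hy1 : c1 ≤ y := hy.prop.1
    have hy2 : S.ev f y ≠ S.ev f c1 := hy.prop.2
    have hylt : S.ev f c1 < S.ev f y := lt_of_le_of_ne (S.mono f hy1) (Ne.symm hy2)
    obtain ⟨a, ha1, ha2⟩ := W_exists_lower_cover hylt
    have := key y c1 a (S.ev g c1) ha2 (by
      intro z hz
      by_cases hz1 : c1 ≤ z
      · have : S.ev f z = S.ev f c1 := by
          by_contra hne
          exact absurd (hy.le_of_le ⟨hz1, hne⟩ hz.le) (not_le_of_gt hz)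
        rw [this]
        exact ha1
      · have : S.ev f z = ⊥ := by
          by_contra hne
          exact hz1 (hleast z hne)
        rw [this]
        exact bot_le) h1 h2
    exact hy2 (by rw [this.1])
  have hlow1 : ∀ y, y < c1 → S.ev f y ≤ ⊥ := by
    intro y hy
    by_contra hcon
    exact absurd (hleast y (fun h => hcon (by rw [h]))) (not_le_of_gt hy)
  refine ⟨c1, ⟨S.ev f c1, ⟨S.ev g c1, h1, ?_⟩⟩, ?_⟩
  · intro a ha
    exact (key c1 c1 a (S.ev g c1) ha (fun y hy => (hlow1 y hy).trans bot_le) h1 h2).2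
  · funext x
    by_cases hx : c1 ≤ x
    · rw [wpt_of_le _ hx, hconst x hx]
    · rw [wpt_of_not_le _ hx]
      by_contra hne
      exact hx (hleast x hne)

/-- join-irreducibles of a full power of a poset with bottom -/
theorem Pow.exists_JI_iso {P N : Type} [PartialOrder P] [PartialOrder N] [Finite C] [Finite P]
    [OrderBot P] (S : Pow C P N) :
    ∃ φ : JI N ≃o Cᵒᵈ × JI P, ∀ (p : JI N) (x : C),
      (OrderDual.ofDual (φ p).1 ≤ x → S.ev p.1 x = (φ p).2.1) ∧
      (¬ (OrderDual.ofDual (φ p).1 ≤ x) → S.ev p.1 x = ⊥) := by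
  classical
  choose F hF using fun (q : Cᵒᵈ × JI P) => W_exists_wpt S (OrderDual.ofDual q.1) q.2.1
  have hJI : ∀ q, ∃! g, g ⋖ F q := fun q => W_wpt_JI S (OrderDual.ofDual q.1) q.2 (hF q)
  have hle : ∀ q q', F q ≤ F q' ↔ q ≤ q' := by
    intro q q'
    rw [S.le_iff, hF, hF]
    have hne : (⊥ : P) < q.2.1 := by
      obtain ⟨a, ha, -⟩ := q.2.2
      exact lt_of_le_of_lt bot_le ha.lt
    constructor
    · intro h
      have h1 := h (OrderDual.ofDual q.1)
      rw [wpt_of_le _ le_rfl] at h1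
      by_cases hc : OrderDual.ofDual q'.1 ≤ OrderDual.ofDual q.1
      · rw [wpt_of_le _ hc] at h1
        exact ⟨hc, h1⟩
      · rw [wpt_of_not_le _ hc] at h1
        exact absurd h1 (not_le_of_gt hne)
    · rintro ⟨h1, h2⟩ x
      have h1' : OrderDual.ofDual q'.1 ≤ OrderDual.ofDual q.1 := h1
      by_cases hx : OrderDual.ofDual q.1 ≤ x
      · rw [wpt_of_le _ hx, wpt_of_le _ (h1'.trans hx)]
        exact h2
      · rw [wpt_of_not_le _ hx]
        exact bot_le
  let ψ : (Cᵒᵈ × JI P) ↪o JI N :=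
    OrderEmbedding.ofMapLEIff (fun q => (⟨F q, hJI q⟩ : JI N)) (fun q q' => hle q q')
  have hsurj : Function.Surjective ψ := by
    rintro ⟨f, hf⟩
    obtain ⟨c, j, hcj⟩ := W_JI_wpt S hf
    refine ⟨(OrderDual.toDual c, j), ?_⟩
    apply Subtype.ext
    apply S.ev_inj
    rw [hcj]
    exact hF _
  let Ψ : (Cᵒᵈ × JI P) ≃o JI N := RelIso.ofSurjective ψ hsurj
  refine ⟨Ψ.symm, ?_⟩
  intro p x
  obtain ⟨q, rfl⟩ := Ψ.surjective p
  rw [OrderIso.symm_apply_apply]
  have h1 : S.ev (Ψ q).1 = wpt (OrderDual.ofDual q.1) q.2.1 := hF q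
  rw [h1]
  exact ⟨fun h => wpt_of_le _ h, fun h => wpt_of_not_le _ h⟩

end JIpart

/-- the full power -/
def W_fullPow (C A : Type) [PartialOrder C] [PartialOrder A] : Pow C A (C →o A) where
  ev f := f
  mono f := f.monotone
  le_iff _ _ := Iff.rfl
  up _ h hm _ := ⟨⟨h, hm⟩, rfl⟩
  dn _ h hm _ := ⟨⟨h, hm⟩, rfl⟩
  const a := ⟨OrderHom.const C a, rfl⟩

theorem plen_component_lt {C A : Type} [PartialOrder C] [PartialOrder A] [Finite C] [Finite A]
    (hC : PConn C) (hA : PConn A) (hpos : 0 < plen A) (K : Set (C →o A))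
    (hK : ∀ f ∈ K, ∀ g, f ≤ g ∨ g ≤ f → g ∈ K)
    (hm : ∀ a, OrderHom.const C a ∉ K) : plen K < Nat.card C * plen A := by
  have hCne := hC.ne
  have hAne := hA.ne
  have hcard : 0 < Nat.card C := Nat.card_pos
  by_cases hne : Nonempty K
  · obtain ⟨f, g, hfg, h⟩ := exists_ilen_eq_plen (α := K)
    have hfg' : f.1 ≤ g.1 := hfg
    have h1 : ilen f g ≤ ilen f.1 g.1 :=
      le_ilen (Ch.map (f := Subtype.val) (fun _ _ h => h) (ch_ilen hfg))
    have h2 := ilen_le_plen hfg'
    have h3 := (W_fullPow C A).plen_eq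
    rw [h3] at h2
    rcases lt_or_eq_of_le (h1.trans h2) with h4 | h4
    · rw [← h]
      exact h4
    · exfalso
      have h5 : ilen f.1 g.1 = plen (C →o A) := by omega
      obtain ⟨a, b, hab, hl, hf, hg⟩ := (W_fullPow C A).longest_const hC hfg' h5
      apply hm a
      have h6 : OrderHom.const C a = f.1 := by
        apply (W_fullPow C A).ev_inj
        rw [hf]
        rfl
      rw [h6]
      exact f.2
  · have : IsEmpty K := not_nonempty_iff.1 hne
    have h0 : plen K = 0 := by
      unfold plen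
      have : {n | ∃ a b : K, Ch n a b} = ∅ := by
        apply Set.eq_empty_of_forall_notMem
        rintro n ⟨a, -, -⟩
        exact this.elim a
      rw [this]
      simp
    rw [h0]
    exact Nat.mul_pos hcard hpos

/-- `MainC` is a piece of a power. -/
theorem W_MainC_pow {C A : Type} [PartialOrder C] [PartialOrder A] (hA : PConn A) :
    ∃ S : Pow C A (MainC C A), ∀ f c, S.ev f c = f.1 c := by
  have hcl : ∀ (f : MainC C A) (g : C →o A), (f.1 ≤ g ∨ g ≤ f.1) →
      ∃ a, Relation.EqvGen (fun x y : C →o A => x ≤ y) g (OrderHom.const C a) := by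
    rintro ⟨f, a, ha⟩ g h
    refine ⟨a, ?_⟩
    rcases h with h | h
    · exact ((Relation.EqvGen.rel _ _ h).symm).trans _ _ _ ha
    · exact (Relation.EqvGen.rel _ _ h).trans _ _ _ ha
  refine ⟨{ ev := fun f => f.1
            mono := fun f => f.1.monotone
            le_iff := fun _ _ => Iff.rfl
            up := ?_
            dn := ?_
            const := ?_ }, fun _ _ => rfl⟩
  · intro f h hm hle
    exact ⟨⟨⟨h, hm⟩, hcl f ⟨h, hm⟩ (Or.inl hle)⟩, rfl⟩
  · intro f h hm hle
    exact ⟨⟨⟨h, hm⟩, hcl f ⟨h, hm⟩ (Or.inr hle)⟩, rfl⟩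
  · intro a
    exact ⟨⟨OrderHom.const C a, a, Relation.EqvGen.refl _⟩, rfl⟩

/-- the set of values in the definition of `wfun` -/
def wset (X P : Type) [PartialOrder X] [PartialOrder P] : Set ℕ :=
  {n | ∃ a b : P, a ≤ b ∧ ilen a b = plen P ∧ n = Nat.card (X →o JI (Set.Icc a b))}

theorem wfun_eq (X P : Type) [PartialOrder X] [PartialOrder P] : wfun X P = sSup (wset X P) := rfl

theorem wset_bdd (X P : Type) [PartialOrder X] [PartialOrder P] [Finite P] :
    BddAbove (wset X P) := by
  have h : wset X P ⊆ Set.range (fun p : P × P => Nat.card (X →o JI (Set.Icc p.1 p.2))) := by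
    rintro n ⟨a, b, -, -, rfl⟩
    exact ⟨(a, b), rfl⟩
  exact ((Set.finite_range _).subset h).bddAbove

theorem wset_nonempty (X P : Type) [PartialOrder X] [PartialOrder P] [Finite P] [Nonempty P] :
    (wset X P).Nonempty := by
  obtain ⟨a, b, hab, h⟩ := exists_ilen_eq_plen (α := P)
  exact ⟨_, a, b, hab, h, rfl⟩

/-- monotone maps into isomorphic posets -/
def W_homCongr {X P Q : Type} [PartialOrder X] [PartialOrder P] [PartialOrder Q]
    (e : P ≃o Q) : (X →o P) ≃ (X →o Q) where
  toFun f := ⟨fun x => e (f x), fun _ _ h => e.monotone (f.monotone h)⟩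
  invFun f := ⟨fun x => e.symm (f x), fun _ _ h => e.symm.monotone (f.monotone h)⟩
  left_inv f := by
    ext x
    simp
  right_inv f := by
    ext x
    simp

/-- monotone maps into a product -/
def W_homProd {X P Q : Type} [PartialOrder X] [PartialOrder P] [PartialOrder Q] :
    (X →o P × Q) ≃ (X →o P) × (X →o Q) where
  toFun f := (⟨fun x => (f x).1, fun _ _ h => (f.monotone h).1⟩,
    ⟨fun x => (f x).2, fun _ _ h => (f.monotone h).2⟩)
  invFun p := ⟨fun x => (p.1 x, p.2 x), fun _ _ h => ⟨p.1.monotone h, p.2.monotone h⟩⟩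
  left_inv f := by
    ext x <;> rfl
  right_inv p := by
    ext x <;> rfl

/-- the interval of a power between two constants is a power -/
theorem W_Icc_pow {C P M : Type} [PartialOrder C] [PartialOrder P] [PartialOrder M]
    (S : Pow C P M) {f g : M} {a b : P} (hf : S.ev f = fun _ => a) (hg : S.ev g = fun _ => b) :
    Nonempty (Pow C (Set.Icc a b) (Set.Icc f g)) := by
  have hmem : ∀ (h : Set.Icc f g) c, S.ev h.1 c ∈ Set.Icc a b := by
    intro h c
    have h1 := (S.le_iff _ _).1 h.2.1 c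
    have h2 := (S.le_iff _ _).1 h.2.2 c
    rw [hf] at h1
    rw [hg] at h2
    exact ⟨h1, h2⟩
  have hex : ∀ (k : C → Set.Icc a b), (∃ m, S.ev m = fun c => (k c).1) →
      ∃ m : Set.Icc f g, (fun c => (⟨S.ev m.1 c, hmem m c⟩ : Set.Icc a b)) = k := by
    rintro k ⟨m, hm⟩
    have hm1 : f ≤ m := by
      rw [S.le_iff, hf, hm]
      intro c
      exact (k c).2.1
    have hm2 : m ≤ g := by
      rw [S.le_iff, hg, hm]
      intro c
      exact (k c).2.2
    refine ⟨⟨m, hm1, hm2⟩, ?_⟩
    funext c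
    apply Subtype.ext
    exact congrFun hm c
  refine ⟨{ ev := fun h c => ⟨S.ev h.1 c, hmem h c⟩
            mono := fun h x y hxy => S.mono h.1 hxy
            le_iff := fun h k => S.le_iff h.1 k.1
            up := ?_
            dn := ?_
            const := ?_ }⟩
  · intro m k hk hle
    exact hex k (S.up m.1 _ (fun x y hxy => hk hxy) hle)
  · intro m k hk hle
    exact hex k (S.dn m.1 _ (fun x y hxy => hk hxy) hle)
  · intro p
    exact hex _ (S.const p.1)

theorem W_card_JI {X C P M : Type} [PartialOrder X] [PartialOrder C] [PartialOrder P]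
    [PartialOrder M] [Finite C] [Finite P] (S : Pow C P M) {f g : M} {a b : P} (hab : a ≤ b)
    (hf : S.ev f = fun _ => a) (hg : S.ev g = fun _ => b) :
    Nat.card (X →o JI (Set.Icc f g)) =
      Nat.card (X →o Cᵒᵈ) * Nat.card (X →o JI (Set.Icc a b)) := by
  obtain ⟨T⟩ := W_Icc_pow S hf hg
  letI : OrderBot (Set.Icc a b) :=
    { bot := ⟨a, le_rfl, hab⟩
      bot_le := fun x => x.2.1 }
  obtain ⟨φ, -⟩ := T.exists_JI_iso
  rw [Nat.card_congr (W_homCongr φ), Nat.card_congr W_homProd, Nat.card_prod]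

theorem wset_MainC {X C P : Type} [PartialOrder X] [PartialOrder C] [PartialOrder P]
    [Finite C] [Finite P] (hC : PConn C) (hP : PConn P) (n : ℕ) :
    n ∈ wset X (MainC C P) ↔ ∃ m ∈ wset X P, n = Nat.card (X →o Cᵒᵈ) * m := by
  obtain ⟨S, -⟩ := W_MainC_pow (C := C) hP
  have hPne := hP.ne
  have : Finite (MainC C P) := inferInstance
  constructor
  · rintro ⟨f, g, hfg, hl, rfl⟩
    obtain ⟨a, b, hab, hl', hf, hg⟩ := S.longest_const hC hfg hl
    exact ⟨_, ⟨a, b, hab, hl', rfl⟩, W_card_JI S hab hf hg⟩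
  · rintro ⟨m, ⟨a, b, hab, hl, rfl⟩, rfl⟩
    obtain ⟨f, hf⟩ := S.const a
    obtain ⟨g, hg⟩ := S.const b
    refine ⟨f, g, ?_, ?_, (W_card_JI S hab hf hg).symm⟩
    · rw [S.le_iff, hf, hg]
      intro _
      exact hab
    · rw [S.ilen_const hf hg hab, S.plen_eq, hl]

theorem wfun_main {X C P : Type} [PartialOrder X] [PartialOrder C] [PartialOrder P] [Finite X]
    [Finite C] [Finite P] (hX : PConn X) (hC : PConn C) (hP : PConn P) :
    wfun X (MainC C P) = Nat.card (X →o Cᵒᵈ) * wfun X P := by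
  have hPne := hP.ne
  have hne : Nonempty (MainC C P) := by
    obtain ⟨a⟩ := hPne
    exact ⟨⟨OrderHom.const C a, a, Relation.EqvGen.refl _⟩⟩
  rw [wfun_eq, wfun_eq]
  apply le_antisymm
  · apply csSup_le (wset_nonempty X (MainC C P))
    intro n hn
    obtain ⟨m, hm, rfl⟩ := (wset_MainC hC hP n).1 hn
    exact Nat.mul_le_mul_left _ (le_csSup (wset_bdd X P) hm)
  · apply le_csSup (wset_bdd X (MainC C P))
    exact (wset_MainC hC hP _).2 ⟨_, Nat.sSup_mem (wset_nonempty X P) (wset_bdd X P), rfl⟩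

theorem wfun_pos {X P : Type} [PartialOrder X] [PartialOrder P] [Finite X] [Finite P]
    (hP : PConn P) (hn : Nontrivial P) : 0 < wfun X P := by
  have hPne := hP.ne
  obtain ⟨a, b, hab, hl⟩ := exists_ilen_eq_plen (α := P)
  have hpl : plen P ≠ 0 := by
    intro h0
    have := subsingleton_of_plen_zero hP h0
    exact not_subsingleton P this
  have hlt : a < b := by
    rcases hab.eq_or_lt with rfl | h
    · rw [ilen_self] at hl
      exact absurd hl.symm hpl
    · exact h
  obtain ⟨a', ha, ha', -⟩ := exists_covBy_ilen hlt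
  let x0 : Set.Icc a b := ⟨a, le_rfl, hab⟩
  let x1 : Set.Icc a b := ⟨a', ha.le, ha'⟩
  have h01 : x0 < x1 := ha.lt
  have hJ : ∃! y, y ⋖ x1 := by
    refine ⟨x0, ⟨h01, fun c hc hc' => ha.2 hc hc'⟩, ?_⟩
    intro y hy
    apply Subtype.ext
    have h1 : a ≤ y.1 := y.2.1
    rcases h1.eq_or_lt with h2 | h2
    · exact h2.symm
    · exact absurd hy.lt (ha.2 h2)
  have hne : Nonempty (X →o JI (Set.Icc a b)) := ⟨OrderHom.const X ⟨x1, hJ⟩⟩
  have hpos : 0 < Nat.card (X →o JI (Set.Icc a b)) := Nat.card_pos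
  exact lt_of_lt_of_le hpos (le_csSup (wset_bdd X P) ⟨a, b, hab, hl, rfl⟩)

/-- join-irreducibles of isomorphic posets -/
def W_JICongr {α β : Type} [PartialOrder α] [PartialOrder β] (e : α ≃o β) : JI α ≃o JI β :=
  have key : ∀ {γ δ : Type} [PartialOrder γ] [PartialOrder δ] (e : γ ≃o δ) (x : γ),
      (∃! y, y ⋖ x) → ∃! y, y ⋖ e x := by
    intro γ δ _ _ e x h
    obtain ⟨y, hy, hu⟩ := h
    refine ⟨e y, (apply_covBy_apply_iff e).2 hy, ?_⟩
    intro z hz
    have h1 : e.symm z ⋖ x := by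
      rw [← apply_covBy_apply_iff e, OrderIso.apply_symm_apply]
      exact hz
    rw [← hu _ h1, OrderIso.apply_symm_apply]
  { toFun := fun x => ⟨e x.1, key e x.1 x.2⟩
    invFun := fun x => ⟨e.symm x.1, key e.symm x.1 x.2⟩
    left_inv := fun x => Subtype.ext (e.symm_apply_apply x.1)
    right_inv := fun x => Subtype.ext (e.apply_symm_apply x.1)
    map_rel_iff' := fun {x y} => e.le_iff_le (x := x.1) (y := y.1) }

/-- intervals of isomorphic posets -/
def W_IccCongr {α β : Type} [PartialOrder α] [PartialOrder β] (e : α ≃o β) (a b : α) :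
    Set.Icc a b ≃o Set.Icc (e a) (e b) where
  toFun x := ⟨e x.1, e.monotone x.2.1, e.monotone x.2.2⟩
  invFun x := ⟨e.symm x.1, by
    constructor
    · have := e.symm.monotone x.2.1
      rwa [OrderIso.symm_apply_apply] at this
    · have := e.symm.monotone x.2.2
      rwa [OrderIso.symm_apply_apply] at this⟩
  left_inv x := Subtype.ext (e.symm_apply_apply x.1)
  right_inv x := Subtype.ext (e.apply_symm_apply x.1)
  map_rel_iff' := fun {x y} => e.le_iff_le (x := x.1) (y := y.1)

theorem wset_subset {X P Q : Type} [PartialOrder X] [PartialOrder P] [PartialOrder Q]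
    (e : P ≃o Q) : wset X P ⊆ wset X Q := by
  rintro n ⟨a, b, hab, hl, rfl⟩
  refine ⟨e a, e b, e.monotone hab, ?_, ?_⟩
  · rw [ilen_congr, hl, plen_congr e]
  · exact Nat.card_congr (W_homCongr (W_JICongr (W_IccCongr e a b)))

theorem wfun_congr {X P Q : Type} [PartialOrder X] [PartialOrder P] [PartialOrder Q]
    (e : P ≃o Q) : wfun X P = wfun X Q := by
  rw [wfun_eq, wfun_eq, Set.Subset.antisymm (wset_subset (X := X) e) (wset_subset e.symm)]

end Pool.Agent.Birk
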