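import Mathlib
import Pool.Agent.Lib_MP_aad2bd_co.AlgDefs

set_option autoImplicit false

namespace Pool.Agent.Birk
namespace PX

section ring

variable {Γ : Type 1} [CancelCommMonoid Γ] [LinearOrder Γ]

/-- positive elements: the leading coefficient is positive -/
def Pos (x : MonoidAlgebra ℤ Γ) : Prop :=
  ∃ g, 0 < x.coeff g ∧ ∀ k, g < k → x.coeff k = 0

theorem not_pos_zero : ¬ Pos (0 : MonoidAlgebra ℤ Γ) := by
  rintro ⟨g, hg, -⟩
  simp at hg

theorem pos_add {x y : MonoidAlgebra ℤ Γ} (hx : Pos x) (hy : Pos y) : Pos (x + y) := by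
  obtain ⟨g, hg, hg'⟩ := hx
  obtain ⟨k, hk, hk'⟩ := hy
  rcases lt_trichotomy g k with h | h | h
  · refine ⟨k, ?_, fun m hm => ?_⟩
    · rw [MonoidAlgebra.coeff_add, Finsupp.add_apply, hg' k h]
      simpa using hk
    · rw [MonoidAlgebra.coeff_add, Finsupp.add_apply, hg' m (h.trans hm), hk' m hm, add_zero]
  · subst h
    refine ⟨g, ?_, fun m hm => ?_⟩
    · rw [MonoidAlgebra.coeff_add, Finsupp.add_apply]
      exact add_pos hg hk
    · rw [MonoidAlgebra.coeff_add, Finsupp.add_apply, hg' m hm, hk' m hm, add_zero]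
  · refine ⟨g, ?_, fun m hm => ?_⟩
    · rw [MonoidAlgebra.coeff_add, Finsupp.add_apply, hk' g h]
      simpa using hg
    · rw [MonoidAlgebra.coeff_add, Finsupp.add_apply, hg' m hm, hk' m (h.trans hm), add_zero]

omit [LinearOrder Γ] in
theorem coeff_mul' [DecidableEq Γ] (x y : MonoidAlgebra ℤ Γ) (m : Γ) :
    (x * y).coeff m = ∑ a ∈ x.coeff.support, ∑ b ∈ y.coeff.support,
      if a * b = m then x.coeff a * y.coeff b else 0 :=
  MonoidAlgebra.coeff_mul x y m

theorem pos_mul (hmul : ∀ a b c : Γ, a < b → c * a < c * b)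
    {x y : MonoidAlgebra ℤ Γ} (hx : Pos x) (hy : Pos y) : Pos (x * y) := by
  classical
  obtain ⟨g, hg, hg'⟩ := hx
  obtain ⟨k, hk, hk'⟩ := hy
  have hmul' : ∀ a b c : Γ, a < b → a * c < b * c := by
    intro a b c hab
    rw [mul_comm a, mul_comm b]
    exact hmul a b c hab
  have hsx : ∀ m ∈ x.coeff.support, m ≤ g := by
    intro m hm
    by_contra hcon
    exact (Finsupp.mem_support_iff.mp hm) (hg' m (not_le.mp hcon))
  have hsy : ∀ m ∈ y.coeff.support, m ≤ k := by
    intro m hm
    by_contra hcon
    exact (Finsupp.mem_support_iff.mp hm) (hk' m (not_le.mp hcon))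
  have hle : ∀ a b : Γ, a ≤ g → b ≤ k → a * b ≤ g * k ∧ (a * b = g * k → a = g ∧ b = k) := by
    intro a b ha hb
    rcases ha.lt_or_eq with ha | ha
    · have h1 : a * b < g * b := hmul' a g b ha
      have h2 : g * b ≤ g * k := by
        rcases hb.lt_or_eq with hb | hb
        · exact (hmul b k g hb).le
        · rw [hb]
      exact ⟨(h1.trans_le h2).le, fun h => absurd h (h1.trans_le h2).ne⟩
    · subst ha
      rcases hb.lt_or_eq with hb | hb
      · exact ⟨(hmul b k a hb).le, fun h => absurd h (hmul b k a hb).ne⟩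
      · subst hb
        exact ⟨le_rfl, fun _ => ⟨rfl, rfl⟩⟩
  refine ⟨g * k, ?_, ?_⟩
  · rw [coeff_mul']
    rw [Finset.sum_eq_single g]
    · rw [Finset.sum_eq_single k]
      · rw [if_pos rfl]
        exact mul_pos hg hk
      · intro b hb hbk
        rw [if_neg]
        intro h
        exact hbk ((hle g b le_rfl (hsy b hb)).2 h).2
      · intro h
        rw [Finsupp.notMem_support_iff.mp h]
        simp
    · intro a ha hag
      apply Finset.sum_eq_zero
      intro b hb
      rw [if_neg]
      intro h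
      exact hag ((hle a b (hsx a ha) (hsy b hb)).2 h).1
    · intro h
      rw [Finsupp.notMem_support_iff.mp h]
      simp
  · intro m hm
    rw [coeff_mul']
    apply Finset.sum_eq_zero
    intro a ha
    apply Finset.sum_eq_zero
    intro b hb
    rw [if_neg]
    intro h
    have := (hle a b (hsx a ha) (hsy b hb)).1
    rw [h] at this
    exact absurd hm (not_lt.mpr this)

theorem pos_or_neg {x : MonoidAlgebra ℤ Γ} (hx : x ≠ 0) : Pos x ∨ Pos (-x) := by
  have hne : x.coeff.support.Nonempty := by
    rw [Finsupp.support_nonempty_iff]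
    intro h
    exact hx (MonoidAlgebra.coeff_eq_zero.mp h)
  set g := x.coeff.support.max' hne with hg
  have hg1 : x.coeff g ≠ 0 := Finsupp.mem_support_iff.mp (Finset.max'_mem _ hne)
  have hg2 : ∀ k, g < k → x.coeff k = 0 := by
    intro k hk
    by_contra hcon
    have := Finset.le_max' x.coeff.support k (Finsupp.mem_support_iff.mpr hcon)
    exact absurd hk (not_lt.mpr this)
  rcases lt_or_gt_of_ne hg1 with h | h
  · right
    refine ⟨g, ?_, fun k hk => ?_⟩
    · rw [MonoidAlgebra.coeff_neg, Finsupp.neg_apply]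
      exact neg_pos.mpr h
    · rw [MonoidAlgebra.coeff_neg, Finsupp.neg_apply, hg2 k hk, neg_zero]
  · left
    exact ⟨g, h, hg2⟩

/-- products of larger factors are larger -/
theorem pos_prod_sub (hmul : ∀ a b c : Γ, a < b → c * a < c * b) {ι : Type 1} (Ds : Multiset ι)
    (a b : ι → MonoidAlgebra ℤ Γ) (hab : ∀ D, Pos (a D - b D)) (hb : ∀ D, b D = 0 ∨ Pos (b D)) :
    (Ds ≠ 0 → Pos ((Ds.map a).prod - (Ds.map b).prod)) ∧
    ((Ds.map b).prod = 0 ∨ Pos (Ds.map b).prod) ∧ Pos (Ds.map a).prod := by
  have ha : ∀ D, Pos (a D) := by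
    intro D
    have h : a D = (a D - b D) + b D := by ring
    rcases hb D with h0 | h0
    · rw [h0, sub_zero] at h
      have := hab D
      rwa [h0, sub_zero] at this
    · rw [h]
      exact pos_add (hab D) h0
  induction Ds using Multiset.induction_on with
  | empty =>
    have h1 : Pos (1 : MonoidAlgebra ℤ Γ) := by
      refine ⟨1, ?_, fun k hk => ?_⟩
      · rw [MonoidAlgebra.one_def]
        simp
      · rw [MonoidAlgebra.one_def, MonoidAlgebra.coeff_single, Finsupp.single_apply,
          if_neg hk.ne]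
    refine ⟨fun h => absurd rfl h, Or.inr ?_, ?_⟩
    · simpa using h1
    · simpa using h1
  | cons D Ds ih =>
    obtain ⟨ih1, ih2, ih3⟩ := ih
    simp only [Multiset.map_cons, Multiset.prod_cons]
    have hB : b D * (Ds.map b).prod = 0 ∨ Pos (b D * (Ds.map b).prod) := by
      rcases hb D with h | h
      · left; rw [h, zero_mul]
      · rcases ih2 with h2 | h2
        · left; rw [h2, mul_zero]
        · right; exact pos_mul hmul h h2
    have hA : Pos (a D * (Ds.map a).prod) := pos_mul hmul (ha D) ih3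
    refine ⟨fun _ => ?_, hB, hA⟩
    have heq : a D * (Ds.map a).prod - b D * (Ds.map b).prod =
        (a D - b D) * (Ds.map a).prod + b D * ((Ds.map a).prod - (Ds.map b).prod) := by ring
    rw [heq]
    have h1 := pos_mul hmul (hab D) ih3
    by_cases hDs : Ds = 0
    · subst hDs
      simp only [Multiset.map_zero, Multiset.prod_zero, sub_self, mul_zero, add_zero]
      simpa using h1
    · rcases hb D with h | h
      · rw [h, zero_mul, add_zero, ← h]
        exact h1
      · exact pos_add h1 (pos_mul hmul h (ih1 hDs))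

end ring

section factor

variable {Γ : Type 1} [CancelCommMonoid Γ] (B : BirkData Γ)

include B in
theorem len_one : B.len 1 = 0 := by
  have h := B.len_mul 1 1
  rw [mul_one] at h
  omega

include B in
theorem eq_one_of_mul {a b : Γ} (h : a * b = 1) : a = 1 ∧ b = 1 := by
  have h1 := B.len_mul a b
  rw [h, len_one B] at h1
  exact ⟨B.len_zero a (by omega), B.len_zero b (by omega)⟩

/-- irreducible elements -/
def Irr (v : Γ) : Prop := v ≠ 1 ∧ ∀ a b, v = a * b → a = 1 ∨ b = 1

/-- the type of irreducible elements -/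
abbrev PI (Γ : Type 1) [CancelCommMonoid Γ] : Type 1 := {v : Γ // Irr v}

/-- product of a multiset of irreducibles -/
def ev (s : Multiset (PI Γ)) : Γ := (s.map Subtype.val).prod

theorem ev_add (s t : Multiset (PI Γ)) : ev (s + t) = ev s * ev t := by
  unfold ev
  rw [Multiset.map_add, Multiset.prod_add]

include B in
theorem ev_surj : ∀ (n : ℕ) (x : Γ), B.len x = n → ∃ s : Multiset (PI Γ), ev s = x := by
  intro n
  induction n using Nat.strong_induction_on with
  | _ n ih =>
  intro x hx
  by_cases h1 : x = 1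
  · exact ⟨0, by simp [ev, h1]⟩
  by_cases hirr : Irr x
  · exact ⟨{⟨x, hirr⟩}, by simp [ev]⟩
  · have : ∃ a b, x = a * b ∧ a ≠ 1 ∧ b ≠ 1 := by
      by_contra hcon
      apply hirr
      refine ⟨h1, fun a b hab => ?_⟩
      by_contra h2
      push Not at h2
      exact hcon ⟨a, b, hab, h2.1, h2.2⟩
    obtain ⟨a, b, hab, ha, hb⟩ := this
    have hl := B.len_mul a b
    rw [← hab, hx] at hl
    have ha' : B.len a ≠ 0 := fun h => ha (B.len_zero a h)
    have hb' : B.len b ≠ 0 := fun h => hb (B.len_zero b h)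
    obtain ⟨s, hs⟩ := ih (B.len a) (by omega) a rfl
    obtain ⟨t, ht⟩ := ih (B.len b) (by omega) b rfl
    exact ⟨s + t, by rw [ev_add, hs, ht, hab]⟩

include B in
theorem prime_dvd_ev (v : PI Γ) (t : Multiset (PI Γ)) (h : v.1 ∣ ev t) : v ∈ t := by
  induction t using Multiset.induction_on with
  | empty =>
    exfalso
    obtain ⟨c, hc⟩ := h
    have h1 : (1 : Γ) = v.1 * c := by simpa [ev] using hc
    exact v.2.1 (eq_one_of_mul B h1.symm).1
  | cons u t ih =>
    have h1 : ev (u ::ₘ t) = u.1 * ev t := by simp [ev]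
    rw [h1] at h
    rcases B.prime v.1 v.2.2 _ _ h with h2 | h2
    · obtain ⟨c, hc⟩ := h2
      rcases u.2.2 _ _ hc with h3 | h3
      · exact absurd h3 v.2.1
      · rw [h3, mul_one] at hc
        rw [Subtype.ext hc]
        exact Multiset.mem_cons_self _ _
    · exact Multiset.mem_cons_of_mem (ih h2)

include B in
theorem ev_inj : ∀ s t : Multiset (PI Γ), ev s = ev t → s = t := by
  classical
  intro s
  induction s using Multiset.induction_on with
  | empty =>
    intro t ht
    by_contra hcon
    obtain ⟨v, hv⟩ := Multiset.exists_mem_of_ne_zero (Ne.symm hcon)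
    obtain ⟨t', rfl⟩ := Multiset.exists_cons_of_mem hv
    have h1 : ev (v ::ₘ t') = v.1 * ev t' := by simp [ev]
    have h2 : ev (0 : Multiset (PI Γ)) = 1 := by simp [ev]
    rw [h1, h2] at ht
    exact v.2.1 (eq_one_of_mul B ht.symm).1
  | cons v s ih =>
    intro t ht
    have h1 : ev (v ::ₘ s) = v.1 * ev s := by simp [ev]
    have hv : v ∈ t := by
      apply prime_dvd_ev B
      rw [← ht, h1]
      exact Dvd.intro _ rfl
    obtain ⟨t', rfl⟩ := Multiset.exists_cons_of_mem hv
    have h2 : ev (v ::ₘ t') = v.1 * ev t' := by simp [ev]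
    rw [h1, h2] at ht
    rw [ih t' (mul_left_cancel ht)]

/-- the prime factorisation -/
noncomputable def fac (x : Γ) : Multiset (PI Γ) := Classical.choose (ev_surj B (B.len x) x rfl)

theorem ev_fac (x : Γ) : ev (fac B x) = x := Classical.choose_spec (ev_surj B (B.len x) x rfl)

theorem fac_mul (x y : Γ) : fac B (x * y) = fac B x + fac B y := by
  apply ev_inj B
  rw [ev_fac, ev_add, ev_fac, ev_fac]

theorem fac_inj (x y : Γ) (h : fac B x = fac B y) : x = y := by
  rw [← ev_fac B x, ← ev_fac B y, h]

theorem M_one (D : Γ) : B.M D 1 = 1 := by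
  have h := B.M_map_mul D 1 1
  rw [mul_one] at h
  have h2 : B.M D 1 * 1 = B.M D 1 * B.M D 1 := by rw [mul_one]; exact h
  exact (mul_left_cancel h2).symm

/-- the action on primes -/
def mP (D : Γ) (v : PI Γ) : PI Γ := ⟨B.M D v.1, by
  constructor
  · intro h
    have h1 : B.M D v.1 = B.M D 1 := by rw [h, M_one]
    exact v.2.1 (B.M_inj D _ _ h1)
  · exact B.M_irr D v.1 v.2.2⟩

theorem mP_inj (D : Γ) : Function.Injective (mP B D) := by
  intro u v h
  apply Subtype.ext
  exact B.M_inj D _ _ (congrArg Subtype.val h)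

theorem fac_M (D x : Γ) : fac B (B.M D x) = (fac B x).map (mP B D) := by
  apply ev_inj B
  rw [ev_fac]
  have h : ∀ s : Multiset (PI Γ), ev (s.map (mP B D)) = B.M D (ev s) := by
    intro s
    induction s using Multiset.induction_on with
    | empty => simp [ev, M_one]
    | cons v s ih =>
      have h1 : ev (v ::ₘ s) = v.1 * ev s := by simp [ev]
      have h2 : ev ((v ::ₘ s).map (mP B D)) = B.M D v.1 * ev (s.map (mP B D)) := by
        simp [ev, mP]
      rw [h1, h2, ih, B.M_map_mul]
  rw [h, ev_fac]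

end factor

section primeorder

variable {Γ : Type 1} [CancelCommMonoid Γ] (B : BirkData Γ)

/-- a copy of `Γ` carrying a well-order -/
structure Idx (Γ : Type 1) : Type 1 where
  val : Γ

noncomputable instance (Γ : Type 1) : LinearOrder (Idx Γ) := by
  classical
  exact linearOrderOfSTO (WellOrderingRel : Idx Γ → Idx Γ → Prop)

instance (Γ : Type 1) : WellFoundedLT (Idx Γ) :=
  ⟨(inferInstance : IsWellFounded (Idx Γ) WellOrderingRel).wf⟩

/-- the orbit relation -/
def orel : Setoid (PI Γ) where
  r u v := ∃ D E, B.M D u.1 = B.M E v.1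
  iseqv := by
    constructor
    · intro u
      exact ⟨1, 1, rfl⟩
    · rintro u v ⟨D, E, h⟩
      exact ⟨E, D, h.symm⟩
    · rintro u v x ⟨D, E, h⟩ ⟨D', E', h'⟩
      refine ⟨D' * D, E * E', ?_⟩
      rw [B.M_mul, h, ← B.M_mul, mul_comm D' E, B.M_mul, h', ← B.M_mul]

/-- the set of orbits -/
def Orb : Type 1 := Quotient (orel B)

noncomputable instance : LinearOrder (Orb B) := by
  classical
  exact linearOrderOfSTO (WellOrderingRel : Orb B → Orb B → Prop)

/-- the orbit of a prime -/
def mkO (v : PI Γ) : Orb B := Quotient.mk (orel B) v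

/-- the key of a prime -/
noncomputable def kP (v : PI Γ) : (Lex (Idx Γ → ℕ)) ×ₗ Orb B :=
  toLex (toLex (fun X => B.w X.val v.1), mkO B v)

theorem kP_inj : Function.Injective (kP B) := by
  intro u v h
  have h1 : (fun X : Idx Γ => B.w X.val u.1) = fun X : Idx Γ => B.w X.val v.1 :=
    congrArg (fun z : (Lex (Idx Γ → ℕ)) ×ₗ Orb B => ofLex (ofLex z).1) h
  have h2 : mkO B u = mkO B v :=
    congrArg (fun z : (Lex (Idx Γ → ℕ)) ×ₗ Orb B => (ofLex z).2) h
  obtain ⟨D, E, h3⟩ := Quotient.exact h2
  have h4 : ∀ X, B.w X u.1 = B.w X v.1 := fun X => congrFun h1 ⟨X⟩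
  have h5 : ∀ X, B.h X D = B.h X E := by
    intro X
    have h6 : B.w X (B.M D u.1) = B.w X (B.M E v.1) := by rw [h3]
    rw [B.w_M, B.w_M, h4 X] at h6
    exact Nat.eq_of_mul_eq_mul_right (B.w_pos X v.1 v.2.1) h6
  have h7 := B.h_inj D E h5
  rw [← h7] at h3
  exact Subtype.ext (B.M_inj D _ _ h3)

/-- the linear order on primes -/
@[reducible] noncomputable def linP : LinearOrder (PI Γ) := LinearOrder.lift' (kP B) (kP_inj B)

theorem linP_lt (u v : PI Γ) : (linP B).lt u v ↔ kP B u < kP B v := Iff.rfl

theorem mP_mono (D : Γ) (u v : PI Γ) (h : (linP B).lt u v) : (linP B).lt (mP B D u) (mP B D v) := by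
  rw [linP_lt] at h ⊢
  unfold kP at h ⊢
  rw [Prod.Lex.toLex_lt_toLex] at h ⊢
  rcases h with h | ⟨h1, h2⟩
  · left
    obtain ⟨X, hX1, hX2⟩ := h
    refine ⟨X, fun Y hY => ?_, ?_⟩
    · have h3 : B.w Y.val u.1 = B.w Y.val v.1 := hX1 Y hY
      show B.w Y.val (B.M D u.1) = B.w Y.val (B.M D v.1)
      rw [B.w_M, B.w_M, h3]
    · have h3 : B.w X.val u.1 < B.w X.val v.1 := hX2
      show B.w X.val (B.M D u.1) < B.w X.val (B.M D v.1)
      rw [B.w_M, B.w_M]
      exact Nat.mul_lt_mul_of_pos_left h3 (B.h_pos _ _)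
  · right
    have h1' : (fun X : Idx Γ => B.w X.val u.1) = fun X : Idx Γ => B.w X.val v.1 := h1
    constructor
    · show toLex (fun X : Idx Γ => B.w X.val (B.M D u.1)) =
        toLex (fun X : Idx Γ => B.w X.val (B.M D v.1))
      congr 1
      funext X
      rw [B.w_M, B.w_M, congrFun h1' X]
    · have h3 : ∀ x : PI Γ, mkO B (mP B D x) = mkO B x := by
        intro x
        apply Quotient.sound
        exact ⟨1, D, by
          show B.M 1 (B.M D x.1) = B.M D x.1
          rw [← B.M_mul, one_mul]⟩
      show mkO B (mP B D u) < mkO B (mP B D v)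
      rw [h3, h3]
      exact h2

end primeorder

section order

variable {Γ : Type 1} [CancelCommMonoid Γ] (B : BirkData Γ)

open Classical in
/-- the key of an element -/
noncomputable def keyG (x : Γ) : ℕ ×ₗ Lex (PI Γ →₀ ℕ) :=
  toLex (B.len x, toLex (Multiset.toFinsupp (fac B x)))

theorem keyG_inj : Function.Injective (keyG B) := by
  classical
  intro x y h
  have h2 : Multiset.toFinsupp (fac B x) = Multiset.toFinsupp (fac B y) :=
    congrArg (fun z : ℕ ×ₗ Lex (PI Γ →₀ ℕ) => ofLex (ofLex z).2) h
  exact fac_inj B x y (Multiset.toFinsupp.injective h2)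

/-- the linear order on `Γ` -/
@[reducible] noncomputable def linG : LinearOrder Γ := by
  letI := linP B
  exact LinearOrder.lift' (keyG B) (keyG_inj B)

open Classical in
theorem linG_lt (x y : Γ) : (linG B).lt x y ↔ B.len x < B.len y ∨ (B.len x = B.len y ∧
    ∃ v : PI Γ, (∀ u, (linP B).lt u v → (fac B x).count u = (fac B y).count u) ∧
      (fac B x).count v < (fac B y).count v) := by
  let _ := linP B
  have h1 : (linG B).lt x y ↔ keyG B x < keyG B y := Iff.rfl
  rw [h1]
  unfold keyG
  rw [Prod.Lex.toLex_lt_toLex, Finsupp.Lex.lt_iff]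
  constructor
  · rintro (h | ⟨h2, v, h3, h4⟩)
    · exact Or.inl h
    · refine Or.inr ⟨h2, v, fun u hu => ?_, ?_⟩
      · have := h3 u hu
        simpa [Multiset.toFinsupp_apply] using this
      · simpa [Multiset.toFinsupp_apply] using h4
  · rintro (h | ⟨h2, v, h3, h4⟩)
    · exact Or.inl h
    · refine Or.inr ⟨h2, v, fun u hu => ?_, ?_⟩
      · have := h3 u hu
        simpa [Multiset.toFinsupp_apply] using this
      · simpa [Multiset.toFinsupp_apply] using h4

theorem linG_mul (a b c : Γ) (h : (linG B).lt a b) : (linG B).lt (c * a) (c * b) := by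
  classical
  rw [linG_lt] at h ⊢
  rw [B.len_mul, B.len_mul, fac_mul, fac_mul]
  rcases h with h | ⟨h1, v, h2, h3⟩
  · left; omega
  · right
    refine ⟨by omega, v, fun u hu => ?_, ?_⟩
    · rw [Multiset.count_add, Multiset.count_add, h2 u hu]
    · rw [Multiset.count_add, Multiset.count_add]
      omega

theorem linG_M (D a b : Γ) (h : (linG B).lt a b) : (linG B).lt (B.M D a) (B.M D b) := by
  classical
  rw [linG_lt] at h ⊢
  rw [B.len_M, B.len_M, fac_M, fac_M]
  rcases h with h | ⟨h1, v, h2, h3⟩
  · left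
    exact Nat.mul_lt_mul_of_pos_left h (B.card_pos D)
  · right
    refine ⟨by rw [h1], mP B D v, fun u hu => ?_, ?_⟩
    · by_cases hr : ∃ u', mP B D u' = u
      · obtain ⟨u', rfl⟩ := hr
        rw [Multiset.count_map_eq_count' _ _ (mP_inj B D),
          Multiset.count_map_eq_count' _ _ (mP_inj B D)]
        apply h2
        let _ := linP B
        rcases lt_trichotomy u' v with h4 | h4 | h4
        · exact h4
        · exfalso
          rw [h4] at hu
          exact lt_irrefl _ hu
        · exfalso
          have h5 := mP_mono B D v u' h4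
          exact lt_irrefl _ (lt_trans (show mP B D v < mP B D u' from h5) hu)
      · rw [Multiset.count_eq_zero.mpr, Multiset.count_eq_zero.mpr]
        · intro h4
          obtain ⟨u', _, h5⟩ := Multiset.mem_map.mp h4
          exact hr ⟨u', h5⟩
        · intro h4
          obtain ⟨u', _, h5⟩ := Multiset.mem_map.mp h4
          exact hr ⟨u', h5⟩
    · rw [Multiset.count_map_eq_count' _ _ (mP_inj B D),
          Multiset.count_map_eq_count' _ _ (mP_inj B D)]
      exact h3

theorem linG_of_len {a b : Γ} (h : B.len a < B.len b) : (linG B).lt a b :=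
  (linG_lt B a b).mpr (Or.inl h)

end order

section final

variable {Γ : Type 1} [CancelCommMonoid Γ] (B : BirkData Γ)

theorem alg_zero : alg (0 : Multiset Γ) = 0 := by simp [alg]

theorem alg_cons (x : Γ) (s : Multiset Γ) : alg (x ::ₘ s) = MonoidAlgebra.single x 1 + alg s := by
  simp [alg]

theorem alg_add (s t : Multiset Γ) : alg (s + t) = alg s + alg t := by
  simp [alg]

open Classical in
theorem alg_coeff (s : Multiset Γ) (x : Γ) : (alg s).coeff x = (s.count x : ℤ) := by
  induction s using Multiset.induction_on with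
  | empty => simp [alg_zero]
  | cons y s ih =>
    rw [alg_cons, MonoidAlgebra.coeff_add, Finsupp.add_apply, ih, MonoidAlgebra.coeff_single,
      Finsupp.single_apply, Multiset.count_cons]
    by_cases h : y = x
    · rw [if_pos h, if_pos h.symm]
      push_cast
      ring
    · rw [if_neg h, if_neg (fun h' => h h'.symm)]
      simp

theorem alg_inj (s t : Multiset Γ) (h : alg s = alg t) : s = t := by
  classical
  ext x
  have h1 := alg_coeff s x
  rw [h, alg_coeff t x] at h1
  exact_mod_cast h1.symm

/-- the additive extension of `F D` -/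
noncomputable def Phi (D : Γ) (z : MonoidAlgebra ℤ Γ) : MonoidAlgebra ℤ Γ :=
  z.coeff.sum (fun x n => n • alg (B.F D x))

theorem Phi_add (D : Γ) (y z : MonoidAlgebra ℤ Γ) : Phi B D (y + z) = Phi B D y + Phi B D z := by
  classical
  unfold Phi
  rw [MonoidAlgebra.coeff_add]
  apply Finsupp.sum_add_index'
  · intro a; exact zero_smul _ _
  · intro a m n; exact add_smul _ _ _

theorem Phi_single (D x : Γ) (n : ℤ) :
    Phi B D (MonoidAlgebra.single x n) = n • alg (B.F D x) := by
  unfold Phi
  rw [MonoidAlgebra.coeff_single]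
  apply Finsupp.sum_single_index
  exact zero_smul _ _

theorem Phi_alg (D : Γ) (s : Multiset Γ) : Phi B D (alg s) = alg (s.bind (B.F D)) := by
  induction s using Multiset.induction_on with
  | empty =>
    rw [alg_zero, Multiset.zero_bind, alg_zero]
    unfold Phi
    simp
  | cons x s ih =>
    rw [alg_cons, Phi_add, ih, Phi_single, one_smul, Multiset.cons_bind, alg_add]

theorem Phi_coeff (D : Γ) (z : MonoidAlgebra ℤ Γ) (k : Γ) :
    (Phi B D z).coeff k = ∑ x ∈ z.coeff.support, z.coeff x * (alg (B.F D x)).coeff k := by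
  unfold Phi Finsupp.sum
  rw [MonoidAlgebra.coeff_sum, Finsupp.finsetSum_apply]
  apply Finset.sum_congr rfl
  intro x _
  rw [MonoidAlgebra.coeff_smul, Finsupp.smul_apply, smul_eq_mul]

theorem F_lead (D x : Γ) : (alg (B.F D x)).coeff (B.M D x) = 1 ∧
    ∀ k, (linG B).lt (B.M D x) k → (alg (B.F D x)).coeff k = 0 := by
  classical
  by_cases hx : x = 1
  · subst hx
    rw [B.F_one, M_one]
    constructor
    · rw [alg_coeff]
      simp
    · intro k hk
      rw [alg_coeff]
      have hk1 : k ≠ 1 := by
        rintro rfl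
        let _ := linG B
        exact lt_irrefl _ hk
      simp [hk1]
  · obtain ⟨R, hR, hlen⟩ := B.F_spec D x hx
    rw [hR]
    constructor
    · rw [alg_coeff, Multiset.count_cons_self]
      have h0 : R.count (B.M D x) = 0 := by
        rw [Multiset.count_eq_zero]
        intro h
        exact absurd (hlen _ h) (lt_irrefl _)
      rw [h0]
      simp
    · intro k hk
      rw [alg_coeff]
      have h0 : (B.M D x ::ₘ R).count k = 0 := by
        rw [Multiset.count_eq_zero]
        intro h
        rcases Multiset.mem_cons.mp h with h | h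
        · subst h
          let _ := linG B
          exact lt_irrefl _ hk
        · have h1 := linG_of_len B (hlen _ h)
          let _ := linG B
          exact lt_irrefl _ (lt_trans (show k < B.M D x from h1) hk)
      rw [h0]
      simp

theorem Phi_pos (D : Γ) (z : MonoidAlgebra ℤ Γ) (hz : @Pos Γ (linG B) z) :
    @Pos Γ (linG B) (Phi B D z) := by
  classical
  let _ := linG B
  obtain ⟨g, hg, hg'⟩ := hz
  have hsz : ∀ m ∈ z.coeff.support, m ≤ g := by
    intro m hm
    by_contra hcon
    exact (Finsupp.mem_support_iff.mp hm) (hg' m (not_le.mp hcon))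
  refine ⟨B.M D g, ?_, fun k hk => ?_⟩
  · rw [Phi_coeff, Finset.sum_eq_single g]
    · rw [(F_lead B D g).1, mul_one]
      exact hg
    · intro x hx hxg
      have h1 : x < g := lt_of_le_of_ne (hsz x hx) hxg
      rw [(F_lead B D x).2 _ (linG_M B D x g h1), mul_zero]
    · intro h
      rw [Finsupp.notMem_support_iff.mp h, zero_mul]
  · rw [Phi_coeff]
    apply Finset.sum_eq_zero
    intro x hx
    rcases (hsz x hx).lt_or_eq with h1 | h1
    · have h2 : B.M D x < B.M D g := linG_M B D x g h1
      rw [(F_lead B D x).2 _ (h2.trans hk), mul_zero]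
    · rw [h1, (F_lead B D g).2 _ hk, mul_zero]

theorem alg_nonneg (s : Multiset Γ) : alg s = 0 ∨ @Pos Γ (linG B) (alg s) := by
  classical
  let _ := linG B
  by_cases h : alg s = 0
  · exact Or.inl h
  · right
    rcases pos_or_neg h with h1 | ⟨g, hg, _⟩
    · exact h1
    · exfalso
      rw [MonoidAlgebra.coeff_neg, Finsupp.neg_apply, alg_coeff] at hg
      have : (0 : ℤ) ≤ (s.count g : ℤ) := Int.natCast_nonneg _
      linarith

theorem cancel_aux (Ds : Multiset Γ) (hDs : Ds ≠ 0) (s t : Multiset Γ)
    (h : (Ds.map fun D => alg (s.bind (B.F D))).prod = (Ds.map fun D => alg (t.bind (B.F D))).prod)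
    (hpos : @Pos Γ (linG B) (alg s - alg t)) : False := by
  let _ := linG B
  have hab : ∀ D, Pos (alg (s.bind (B.F D)) - alg (t.bind (B.F D))) := by
    intro D
    have h1 := Phi_pos B D _ hpos
    have h2 : Phi B D (alg s) = Phi B D (alg s - alg t) + Phi B D (alg t) := by
      rw [← Phi_add, sub_add_cancel]
    rw [Phi_alg, Phi_alg] at h2
    rw [h2, add_sub_cancel_right]
    exact h1
  have h3 := (pos_prod_sub (fun a b c hab => linG_mul B a b c hab) Ds
    (fun D => alg (s.bind (B.F D))) (fun D => alg (t.bind (B.F D))) hab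
    (fun D => alg_nonneg B _)).1 hDs
  rw [h, sub_self] at h3
  exact not_pos_zero h3

end final

end PX

/-- The abstract cancellation theorem. -/
theorem BirkData.cancel {Γ : Type 1} [CancelCommMonoid Γ] (B : BirkData Γ)
    (Ds : Multiset Γ) (hDs : Ds ≠ 0) (s t : Multiset Γ)
    (h : (Ds.map fun D => alg (s.bind (B.F D))).prod = (Ds.map fun D => alg (t.bind (B.F D))).prod) :
    s = t := by
  apply PX.alg_inj
  by_contra hcon
  have hne : alg s - alg t ≠ 0 := sub_ne_zero.mpr hcon
  rcases @PX.pos_or_neg Γ _ (PX.linG B) _ hne with h1 | h1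
  · exact PX.cancel_aux B Ds hDs s t h h1
  · rw [neg_sub] at h1
    exact PX.cancel_aux B Ds hDs t s h.symm h1

end Pool.Agent.Birk
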