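import Mathlib
import Pool.Agent.Lib_MP_aad2bd_co.PartB
import Pool.Agent.Lib_MP_aad2bd_co.PartC
import Pool.Agent.Lib_MP_aad2bd_co.PartM2
import Pool.Agent.Lib_MP_aad2bd_co.PartW2
import Pool.Agent.Lib_MP_aad2bd_co.PartX

/-!
PART F: final assembly of the base cancellation theorem from the irreducible connected case.
-/

set_option autoImplicit false

namespace Pool.Agent.Birk

/-! ### generalities on `Gam` -/

theorem F_rep_mul (a b : Gam) : Nonempty ((a * b).rep ≃o a.rep × b.rep) := by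
  have h : a * b = Gam.mk (a.rep × b.rep) (a.rep_conn.prod b.rep_conn) := by
    rw [← Gam.mk_mul a.rep_conn b.rep_conn, Gam.mk_rep, Gam.mk_rep]
  rw [h]
  exact Gam.rep_mk _

theorem F_eq_of_iso {a b : Gam} (e : Nonempty (a.rep ≃o b.rep)) : a = b :=
  (Gam.mk_rep a).symm.trans (((Gam.mk_eq_mk _ _).2 e).trans (Gam.mk_rep b))

theorem F_eq_mk {a : Gam} {P : Type} [PartialOrder P] [Finite P] (hP : PConn P)
    (e : Nonempty (a.rep ≃o P)) : a = Gam.mk P hP :=
  (Gam.mk_rep a).symm.trans ((Gam.mk_eq_mk _ _).2 e)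

theorem F_eq_one_iff (a : Gam) : a = 1 ↔ Subsingleton a.rep := by
  constructor
  · rintro rfl
    obtain ⟨e⟩ := Gam.rep_mk PConn.unit
    exact e.toEquiv.subsingleton
  · intro h
    have hne := a.rep_conn.ne
    have : Unique a.rep := ⟨⟨hne.some⟩, fun x => Subsingleton.elim _ _⟩
    rw [Gam.one_def]
    exact F_eq_mk PConn.unit ⟨OrderIso.ofUnique a.rep Unit⟩

theorem F_mk_eq_one_iff {P : Type} [PartialOrder P] [Finite P] (hP : PConn P) :
    Gam.mk P hP = 1 ↔ Subsingleton P := by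
  rw [F_eq_one_iff]
  obtain ⟨e⟩ := Gam.rep_mk hP
  exact e.toEquiv.subsingleton_congr

theorem F_pirr_congr {α β : Type} [PartialOrder α] [PartialOrder β] (e : α ≃o β) (h : PIrr α) :
    PIrr β := by
  intro Y Z _ _ hf
  obtain ⟨f⟩ := hf
  exact h Y Z ⟨e.trans f⟩

theorem F_split {C Y Z : Type} [PartialOrder C] [PartialOrder Y] [PartialOrder Z] [Finite C]
    (hC : PConn C) (e : C ≃o Y × Z) : Finite Y ∧ Finite Z ∧ PConn Y ∧ PConn Z := by
  obtain ⟨c⟩ := hC.ne
  have hf : Finite (Y × Z) := Finite.of_equiv C e.toEquiv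
  have s1 : Function.Surjective (fun c : C => (e c).1) := by
    intro y
    exact ⟨e.symm (y, (e c).2), by simp⟩
  have s2 : Function.Surjective (fun c : C => (e c).2) := by
    intro z
    exact ⟨e.symm ((e c).1, z), by simp⟩
  refine ⟨Finite.of_surjective _ s1, Finite.of_surjective _ s2, ?_, ?_⟩
  · exact hC.map _ (fun x y h => (Prod.le_def.1 (e.monotone h)).1) s1
  · exact hC.map _ (fun x y h => (Prod.le_def.1 (e.monotone h)).2) s2

theorem F_pirr {v : Gam} (h : ∀ a b, v = a * b → a = 1 ∨ b = 1) : PIrr v.rep := by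
  intro Y Z _ _ he
  obtain ⟨e⟩ := he
  obtain ⟨hY, hZ, cY, cZ⟩ := F_split v.rep_conn e
  have hv : v = Gam.mk Y cY * Gam.mk Z cZ := by
    rw [Gam.mk_mul]
    exact F_eq_mk _ ⟨e⟩
  rcases h _ _ hv with h | h
  · left
    exact (F_mk_eq_one_iff cY).1 h
  · right
    exact (F_mk_eq_one_iff cZ).1 h

theorem F_irr_of_pirr {v : Gam} (h : PIrr v.rep) : ∀ a b, v = a * b → a = 1 ∨ b = 1 := by
  rintro a b rfl
  rcases h _ _ (F_rep_mul a b) with h | h
  · left
    exact (F_eq_one_iff a).2 h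
  · right
    exact (F_eq_one_iff b).2 h

/-- the main component -/
noncomputable def F_M (D P : Gam) : Gam := Gam.mk (MainC D.rep P.rep) (MainC_conn P.rep_conn)

theorem F_M_rep (D P : Gam) : Nonempty ((F_M D P).rep ≃o MainC D.rep P.rep) := Gam.rep_mk _

/-! ### step 1 -/

theorem F_K2
    (K2 : ∀ (A B C : Type) [PartialOrder A] [PartialOrder B] [PartialOrder C]
      [Finite A] [Finite B] [Finite C], PConn A → PConn B → PConn C → PIrr C → Nontrivial C →
      Nonempty (MainC C A ≃o MainC C B) → Nonempty (A ≃o B)) :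
    ∀ (n : ℕ) (C : Type) [PartialOrder C] [Finite C], Nat.card C = n → PConn C →
      ∀ (A B : Type) [PartialOrder A] [PartialOrder B] [Finite A] [Finite B], PConn A → PConn B →
      Nonempty (MainC C A ≃o MainC C B) → Nonempty (A ≃o B) := by
  intro n
  induction n using Nat.strong_induction_on with
  | _ n ih =>
    intro C _ _ hn hC A B _ _ _ _ hA hB he
    obtain ⟨e⟩ := he
    by_cases hsub : Subsingleton C
    · have hCne := hC.ne
      have : Unique C := ⟨⟨hCne.some⟩, fun x => Subsingleton.elim _ _⟩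
      have u : C ≃o Unit := OrderIso.ofUnique C Unit
      obtain ⟨a1⟩ := MainC_congr (OrderIso.refl A) u
      obtain ⟨b1⟩ := MainC_congr (OrderIso.refl B) u
      obtain ⟨a2⟩ := MainC_unit (A := A)
      obtain ⟨b2⟩ := MainC_unit (A := B)
      exact ⟨a2.symm.trans (a1.symm.trans (e.trans (b1.trans b2)))⟩
    · have hnt : Nontrivial C := not_subsingleton_iff_nontrivial.1 hsub
      by_cases hirr : PIrr C
      · exact K2 A B C hA hB hC hirr hnt ⟨e⟩
      · unfold PIrr at hirr
        push Not at hirr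
        obtain ⟨Y, Z, _, _, ⟨f⟩, hY, hZ⟩ := hirr
        obtain ⟨fY, fZ, cY, cZ⟩ := F_split hC f
        have hcard : Nat.card C = Nat.card Y * Nat.card Z := by
          rw [Nat.card_congr f.toEquiv, Nat.card_prod]
        have hY1 : 1 < Nat.card Y := Finite.one_lt_card_iff_nontrivial.2 hY
        have hZ1 : 1 < Nat.card Z := Finite.one_lt_card_iff_nontrivial.2 hZ
        have lY : Nat.card Y < n := by
          rw [← hn, hcard]
          nlinarith
        have lZ : Nat.card Z < n := by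
          rw [← hn, hcard]
          nlinarith
        obtain ⟨a1⟩ := MainC_congr (OrderIso.refl A) f
        obtain ⟨b1⟩ := MainC_congr (OrderIso.refl B) f
        obtain ⟨a2⟩ := MainC_curry (C := Y) (D := Z) hA cY cZ
        obtain ⟨b2⟩ := MainC_curry (C := Y) (D := Z) hB cY cZ
        have e2 : MainC Y (MainC Z A) ≃o MainC Y (MainC Z B) :=
          (a1.trans a2).symm.trans (e.trans (b1.trans b2))
        have e3 := ih _ lY Y rfl cY (MainC Z A) (MainC Z B) (MainC_conn hA) (MainC_conn hB) ⟨e2⟩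
        exact ih _ lZ Z rfl cZ A B hA hB e3

/-! ### step 2 -/

theorem F_plen_pos {G : Gam} (hG : G ≠ 1) : 0 < plen G.rep := by
  rw [Nat.pos_iff_ne_zero]
  intro h
  exact hG ((F_eq_one_iff G).2 (subsingleton_of_plen_zero G.rep_conn h))

theorem F_plen_M (D P : Gam) : plen (F_M D P).rep = Nat.card D.rep * plen P.rep := by
  obtain ⟨e⟩ := F_M_rep D P
  rw [plen_congr e]
  obtain ⟨S, -⟩ := MainC.exists_pow (C := D.rep) P.rep_conn
  have := P.rep_conn.ne
  exact S.plen_eq

theorem F_prime (v : Gam) (hv : ∀ a b, v = a * b → a = 1 ∨ b = 1) (a b : Gam)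
    (h : v ∣ a * b) : v ∣ a ∨ v ∣ b := by
  obtain ⟨u, hu⟩ := h
  obtain ⟨e1⟩ := F_rep_mul v u
  obtain ⟨e2⟩ := F_rep_mul a b
  rw [hu] at e2
  have key : ∀ c : Gam, (∃ (U' : Type) (_ : PartialOrder U'), Finite U' ∧ PConn U' ∧
      Nonempty (c.rep ≃o v.rep × U')) → v ∣ c := by
    rintro c ⟨U', _, hf, hc, ⟨f⟩⟩
    refine ⟨Gam.mk U' hc, ?_⟩
    have : v * Gam.mk U' hc = Gam.mk (v.rep × U') (v.rep_conn.prod hc) := by
      rw [← Gam.mk_mul v.rep_conn hc, Gam.mk_rep]
    rw [this]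
    exact F_eq_mk _ ⟨f⟩
  rcases prime_prop v.rep_conn u.rep_conn a.rep_conn b.rep_conn (F_pirr hv)
    (e1.symm.trans e2) with h | h
  · left
    exact key a h
  · right
    exact key b h

theorem F_comps_pow (D G : Gam) (hG : G ≠ 1) :
    ∃ R : Multiset Gam, comps (D.rep →o G.rep) = F_M D G ::ₘ R ∧
      ∀ K ∈ R, plen K.rep < plen (F_M D G).rep := by
  obtain ⟨hc, R, h1, h2⟩ := comps_pow_main D G
  refine ⟨R, h1, fun K hK => ?_⟩
  obtain ⟨T, hT1, hT2, hT3, rfl⟩ := h2 K hK
  obtain ⟨e⟩ := Gam.rep_mk hT3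
  rw [plen_congr e, F_plen_M]
  exact plen_component_lt D.rep_conn G.rep_conn (F_plen_pos hG) T hT1 hT2

theorem F_comps_one (D : Gam) : comps (D.rep →o (1 : Gam).rep) = {1} := by
  obtain ⟨hc, R, h1, h2⟩ := comps_pow_main D 1
  have hs : Subsingleton (1 : Gam).rep := (F_eq_one_iff 1).1 rfl
  have hR : R = 0 := by
    rw [Multiset.eq_zero_iff_forall_notMem]
    intro K hK
    obtain ⟨T, hT1, hT2, hT3, -⟩ := h2 K hK
    obtain ⟨⟨f, hf⟩⟩ := hT3.ne
    have h0 : f = OrderHom.const D.rep (1 : Gam).rep_conn.ne.some := by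
      ext x
      exact Subsingleton.elim _ _
    exact hT2 _ (h0 ▸ hf)
  rw [h1, hR]
  have : Gam.mk (MainC D.rep (1 : Gam).rep) hc = 1 := by
    rw [F_mk_eq_one_iff]
    constructor
    intro f g
    apply Subtype.ext
    ext x
    exact Subsingleton.elim _ _
  rw [this]
  rfl

/-- the abstract data for `Gam` -/
noncomputable def F_data
    (K : ∀ (n : ℕ) (C : Type) [PartialOrder C] [Finite C], Nat.card C = n → PConn C →
      ∀ (A B : Type) [PartialOrder A] [PartialOrder B] [Finite A] [Finite B], PConn A → PConn B →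
      Nonempty (MainC C A ≃o MainC C B) → Nonempty (A ≃o B)) : BirkData Gam where
  len G := plen G.rep
  len_mul a b := by
    obtain ⟨e⟩ := F_rep_mul a b
    have := a.rep_conn.ne
    have := b.rep_conn.ne
    rw [plen_congr e, plen_prod]
  len_zero a h := (F_eq_one_iff a).2 (subsingleton_of_plen_zero a.rep_conn h)
  prime := F_prime
  card D := Nat.card D.rep
  card_pos D := by
    have := D.rep_conn.ne
    exact Nat.card_pos
  M := F_M
  M_map_mul D P Q := by
    unfold F_M
    rw [Gam.mk_mul]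
    refine (Gam.mk_eq_mk _ _).2 ?_
    obtain ⟨e⟩ := F_rep_mul P Q
    obtain ⟨e1⟩ := MainC_congr e (OrderIso.refl D.rep)
    obtain ⟨e2⟩ := MainC_prod (C := D.rep) P.rep_conn Q.rep_conn
    exact ⟨e1.trans e2⟩
  M_mul D E P := by
    refine F_eq_of_iso ?_
    obtain ⟨e1⟩ := F_M_rep (D * E) P
    obtain ⟨e2⟩ := F_M_rep D (F_M E P)
    obtain ⟨e3⟩ := F_M_rep E P
    obtain ⟨e4⟩ := F_rep_mul D E
    obtain ⟨f1⟩ := MainC_congr (OrderIso.refl P.rep) e4
    obtain ⟨f2⟩ := MainC_curry (C := D.rep) (D := E.rep) P.rep_conn D.rep_conn E.rep_conn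
    obtain ⟨f3⟩ := MainC_congr e3.symm (OrderIso.refl D.rep)
    exact ⟨e1.trans (f1.trans (f2.trans (f3.trans e2.symm)))⟩
  M_inj D P Q h := by
    refine F_eq_of_iso ?_
    have := (Gam.mk_eq_mk _ _).1 h
    exact K _ D.rep rfl D.rep_conn _ _ P.rep_conn Q.rep_conn this
  M_irr D v hv := by
    refine F_irr_of_pirr ?_
    obtain ⟨e⟩ := F_M_rep D v
    exact F_pirr_congr e.symm (MainC_irr v.rep_conn D.rep_conn (F_pirr hv))
  len_M := F_plen_M
  h X D := Nat.card (X.rep →o (D.rep)ᵒᵈ)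
  h_pos X D := by
    have := D.rep_conn.dual.ne
    have : Nonempty (X.rep →o (D.rep)ᵒᵈ) := ⟨OrderHom.const _ this.some⟩
    exact Nat.card_pos
  h_inj D E h := by
    refine F_eq_of_iso ?_
    have h' : ∀ (X : Type) [PartialOrder X] [Finite X], PConn X →
        Nat.card (X →o (D.rep)ᵒᵈ) = Nat.card (X →o (E.rep)ᵒᵈ) := by
      intro X _ _ hX
      obtain ⟨e⟩ := Gam.rep_mk hX
      have h1 := Nat.card_congr (C_powCongr (OrderIso.refl (D.rep)ᵒᵈ) e).toEquiv
      have h2 := Nat.card_congr (C_powCongr (OrderIso.refl (E.rep)ᵒᵈ) e).toEquiv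
      rw [← h1, ← h2]
      exact h (Gam.mk X hX)
    obtain ⟨e⟩ := iso_of_card_hom_conn h'
    exact ⟨(OrderIso.dualDual D.rep).trans (e.dual.trans (OrderIso.dualDual E.rep).symm)⟩
  w X P := wfun X.rep P.rep
  w_pos X P hP := by
    refine wfun_pos P.rep_conn ?_
    rw [← not_subsingleton_iff_nontrivial]
    exact fun h => hP ((F_eq_one_iff P).2 h)
  w_M X D P := by
    obtain ⟨e⟩ := F_M_rep D P
    rw [wfun_congr e]
    exact wfun_main X.rep_conn D.rep_conn P.rep_conn
  F D G := comps (D.rep →o G.rep)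
  F_spec D G hG := F_comps_pow D G hG
  F_one D := F_comps_one D

/-! ### step 3 -/

theorem final_assembly
    (K2 : ∀ (A B C : Type) [PartialOrder A] [PartialOrder B] [PartialOrder C]
      [Finite A] [Finite B] [Finite C], PConn A → PConn B → PConn C → PIrr C → Nontrivial C →
      Nonempty (MainC C A ≃o MainC C B) → Nonempty (A ≃o B)) :
    ∀ (A B C : Type) [PartialOrder A] [PartialOrder B] [PartialOrder C]
      [Finite A] [Finite B] [Finite C] [Nonempty C],
      Nonempty ((C →o A) ≃o (C →o B)) → Nonempty (A ≃o B) := by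
  intro A B C _ _ _ _ _ _ _ he
  obtain ⟨e⟩ := he
  apply iso_of_comps_eq
  apply (F_data (F_K2 K2)).cancel (comps C) (comps_ne_zero C)
  have h1 := alg_comps_pow A C
  have h2 := alg_comps_pow B C
  rw [comps_congr e] at h1
  exact h1.symm.trans h2

end Pool.Agent.Birk
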