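import Pool.Agent.Lib_MP_aad2bd_co.Core1

set_option autoImplicit false

namespace Pool.Agent.Birk

namespace Pow

variable {C A B M : Type} [PartialOrder C] [PartialOrder A] [PartialOrder B] [PartialOrder M]

/-- the label `a → a'` is of type x with value `x` -/
def DX (SA : Pow C A M) (SB : Pow C B M) (a a' : A) (x : C) : Prop := ∀ c, D SA SB a a' c x

/-- the label `a → a'` is of type s with automorphism `π` -/
def DS (SA : Pow C A M) (SB : Pow C B M) (a a' : A) (π : C ≃o C) : Prop :=
  ∀ c, D SA SB a a' c (π c)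

/-- all covers in `[a,a']` are of type x -/
def IX (SA : Pow C A M) (SB : Pow C B M) (a a' : A) : Prop :=
  ∀ a1 a2, a ≤ a1 → a1 ⋖ a2 → a2 ≤ a' → ∃ x, DX SA SB a1 a2 x

/-- `a` and `b` are matched -/
def Matched (SA : Pow C A M) (SB : Pow C B M) (a : A) (b : B) : Prop :=
  ∀ c, SA.cst (SA.ev (SB.cst b) c) = SB.cst (SB.ev (SA.cst a) c)

end Pow

end Pool.Agent.Birk
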