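import Pool.Agent.Lib_MP_aad2bd_co.Core1
import Pool.Agent.Lib_MP_aad2bd_co.PartW1
import Pool.Agent.Lib_MP_aad2bd_co.PartW2
import Pool.Agent.Lib_MP_aad2bd_co.PartB
import Pool.Agent.Lib_MP_aad2bd_co.RegDefs

/-!
MP_aad2bd_co, PART R1: region theory, first half.
-/

set_option autoImplicit false

namespace Pool.Agent.Birk

open Pool.Agent.Birk.Pow

/-- every cover is joined by weak transpositions to the cover below a join irreducible -/
theorem R_JB {α : Type} [PartialOrder α] [Finite α] (b0 : α) (hb0 : ∀ a, b0 ≤ a) :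
    ∀ (a' a : α), a ⋖ a' → ∃ (j : JI α) (r : α), r ⋖ j.1 ∧ j.1 ≤ a' ∧
      ∀ T : α → α → Prop, (∀ b1 b1' b b', WT b1 b1' b b' → (T b1 b1' ↔ T b b')) →
        (T r j.1 ↔ T a a') := by
  intro a'
  induction a' using (wellFounded_lt (α := α)).induction with
  | _ a' ih =>
    intro a h
    by_cases huniq : ∀ q, q ⋖ a' → q = a
    · exact ⟨⟨a', a, h, huniq⟩, a, h, le_rfl, fun T hT => Iff.rfl⟩
    · push Not at huniq
      obtain ⟨q, hq, hqa⟩ := huniq
      have hnq : ¬ q ≤ a := fun hle => hq.2 (lt_of_le_of_ne hle hqa) h.lt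
      obtain ⟨p, hp⟩ := (Set.toFinite {z | z ≤ q ∧ ¬ z ≤ a}).exists_minimal ⟨q, le_rfl, hnq⟩
      have hp1 : p ≤ q ∧ ¬ p ≤ a := hp.1
      have hbp : b0 < p := lt_of_le_of_ne (hb0 p) (by
        rintro rfl; exact hp1.2 (hb0 a))
      obtain ⟨r, -, hr⟩ := W_exists_lower_cover hbp
      have hra : r ≤ a := by
        by_contra hne
        have := hp.2 (y := r) ⟨hr.le.trans hp1.1, hne⟩ hr.le
        exact absurd hr.lt (not_lt_of_ge this)
      have hw : WT r p a a' := ⟨hr, h, hra, hp1.1.trans hq.le, hp1.2⟩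
      obtain ⟨j, s, h1, h2, h3⟩ := ih p (hp1.1.trans_lt hq.lt) r hr
      refine ⟨j, s, h1, h2.trans (hp1.1.trans hq.le), fun T hT => ?_⟩
      rw [h3 T hT]
      exact hT _ _ _ _ hw

theorem R_exists_upper {α : Type} [PartialOrder α] [Finite α] {a b : α} (h : a < b) :
    ∃ a', a ⋖ a' ∧ a' ≤ b := by
  obtain ⟨a', h1, h2, -⟩ := exists_covBy_ilen h
  exact ⟨a', h1, h2⟩

theorem PIrr.dual {α : Type} [PartialOrder α] (h : PIrr α) : PIrr αᵒᵈ := by
  intro Y Z _ _ ⟨e⟩
  let e' : α ≃o Yᵒᵈ × Zᵒᵈ :=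
    { toFun := fun a => (OrderDual.toDual (e (OrderDual.toDual a)).1,
        OrderDual.toDual (e (OrderDual.toDual a)).2)
      invFun := fun p => OrderDual.ofDual (e.symm (OrderDual.ofDual p.1, OrderDual.ofDual p.2))
      left_inv := fun a => by
        show OrderDual.ofDual (e.symm (e (OrderDual.toDual a))) = a
        rw [e.symm_apply_apply]; rfl
      right_inv := fun p => by
        have : e (OrderDual.toDual (OrderDual.ofDual
          (e.symm (OrderDual.ofDual p.1, OrderDual.ofDual p.2)))) =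
            (OrderDual.ofDual p.1, OrderDual.ofDual p.2) := e.apply_symm_apply _
        show (OrderDual.toDual (e _).1, OrderDual.toDual (e _).2) = p
        rw [this]; rfl
      map_rel_iff' := fun {a b} => by
        show (OrderDual.toDual (e (OrderDual.toDual a)).1 ≤
          OrderDual.toDual (e (OrderDual.toDual b)).1 ∧
          OrderDual.toDual (e (OrderDual.toDual a)).2 ≤
          OrderDual.toDual (e (OrderDual.toDual b)).2) ↔ a ≤ b
        rw [OrderDual.toDual_le_toDual, OrderDual.toDual_le_toDual, ← Prod.le_def,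
          e.le_iff_le, OrderDual.toDual_le_toDual] }
  rcases h Yᵒᵈ Zᵒᵈ ⟨e'⟩ with h1 | h1
  · left; exact ⟨fun a b => h1.elim (OrderDual.toDual a) (OrderDual.toDual b)⟩
  · right; exact ⟨fun a b => h1.elim (OrderDual.toDual a) (OrderDual.toDual b)⟩

section types

variable {C A B M : Type} [PartialOrder C] [PartialOrder A] [PartialOrder B] [PartialOrder M]
  [Finite C]

theorem R_DX_wt (SA : Pow C A M) (SB : Pow C B M) {a1 a1' a a' : A} (hw : WT a1 a1' a a')
    (x : C) : DX SA SB a1 a1' x ↔ DX SA SB a a' x :=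
  ⟨fun h c => (h c).wt hw, fun h c => (h c).wt' hw⟩

theorem R_DS_wt (SA : Pow C A M) (SB : Pow C B M) {a1 a1' a a' : A} (hw : WT a1 a1' a a')
    (π : C ≃o C) : DS SA SB a1 a1' π ↔ DS SA SB a a' π :=
  ⟨fun h c => (h c).wt hw, fun h c => (h c).wt' hw⟩

theorem R_DX_DS {SA : Pow C A M} {SB : Pow C B M} (hn : Nontrivial C) {a a' : A} {x : C}
    {π : C ≃o C} (h1 : DX SA SB a a' x) (h2 : DS SA SB a a' π) : False := by
  obtain ⟨u, v, huv⟩ := hn
  exact huv (π.injective (((h2 u).unique (h1 u)).trans ((h1 v).unique (h2 v))))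

theorem R_DX_unique [Nonempty C] {SA : Pow C A M} {SB : Pow C B M} {a a' : A} {x y : C}
    (h1 : DX SA SB a a' x) (h2 : DX SA SB a a' y) : x = y :=
  (h1 (Classical.arbitrary C)).unique (h2 _)

theorem R_DS_unique {SA : Pow C A M} {SB : Pow C B M} {a a' : A} {π ρ : C ≃o C}
    (h1 : DS SA SB a a' π) (h2 : DS SA SB a a' ρ) : π = ρ := by
  ext c
  exact (h1 c).unique (h2 c)

end types

section region

variable {C P Q N : Type} [PartialOrder C] [PartialOrder P] [PartialOrder Q] [PartialOrder N]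
  [Finite C] [Finite P] [Finite Q] [Finite N] [OrderBot P] [OrderBot Q]

/-- the description of the join irreducibles of a power -/
def IsJI (S : Pow C P N) (φ : JI N ≃o Cᵒᵈ × JI P) : Prop :=
  ∀ (p : JI N) (x : C),
      (OrderDual.ofDual (φ p).1 ≤ x → S.ev p.1 x = (φ p).2.1) ∧
      (¬ (OrderDual.ofDual (φ p).1 ≤ x) → S.ev p.1 x = ⊥)

omit [Finite P] [Finite N] in
theorem R_JI_step (S : Pow C P N) (φ : JI N ≃o Cᵒᵈ × JI P) (hφ : IsJI S φ) (p : JI N) {r : N}
    (hr : r ⋖ p.1) : S.Step r p.1 (OrderDual.ofDual (φ p).1) := by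
  obtain ⟨c0, h0⟩ := S.exists_step_of_covBy hr
  have h1 : OrderDual.ofDual (φ p).1 ≤ c0 := by
    by_contra hn
    have h2 := (hφ p c0).2 hn
    have h3 := h0.cov.lt
    rw [h2] at h3
    exact not_lt_bot h3
  rcases h1.eq_or_lt with e | hlt
  · rw [e]; exact h0
  · exfalso
    have h2 := h0.eq _ hlt.ne
    have h3 := (hφ p _).1 (le_refl (OrderDual.ofDual (φ p).1))
    have h4 := (hφ p _).1 h1
    have h5 := S.mono r h1
    have h6 := h0.cov.lt
    rw [h2, h3] at h5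
    rw [h4] at h6
    exact absurd h6 (not_lt_of_ge h5)

omit [Finite P] [Finite Q] [Finite N] in
theorem R_JI_D (SA : Pow C P N) (SB : Pow C Q N) (φ : JI N ≃o Cᵒᵈ × JI P) (hφ : IsJI SA φ)
    (ψ : JI N ≃o Cᵒᵈ × JI Q) (hψ : IsJI SB ψ) (p : JI N) {r : P} (hr : r ⋖ (φ p).2.1) :
    D SA SB r (φ p).2.1 (OrderDual.ofDual (φ p).1) (OrderDual.ofDual (ψ p).1) := by
  obtain ⟨q, hq, -⟩ := p.2
  have sA := R_JI_step SA φ hφ p hq
  have sB := R_JI_step SB ψ hψ p hq
  have h := D.of_step sA sB (a0 := ⊥) (fun x => bot_le)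
  have h1 := (hφ p _).1 (le_refl (OrderDual.ofDual (φ p).1))
  have h2 : SA.ev q (OrderDual.ofDual (φ p).1) = r := by
    have h3 := sA.cov
    rw [h1] at h3
    exact (φ p).2.2.unique h3 hr
  rw [h1, h2] at h
  exact h

omit [Finite P] [Finite Q] [Finite N] in
theorem R_JI_dich (SA : Pow C P N) (SB : Pow C Q N) (hC : PConn C) (hirr : PIrr C)
    (φ : JI N ≃o Cᵒᵈ × JI P) (hφ : IsJI SA φ)
    (ψ : JI N ≃o Cᵒᵈ × JI Q) (hψ : IsJI SB ψ) (j : JI P) {r : P} (hr : r ⋖ j.1) :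
    (∃ (π : C ≃o C) (k : JI Q),
      (∀ c, ψ (φ.symm (OrderDual.toDual c, j)) = (OrderDual.toDual (π c), k)) ∧
      DS SA SB r j.1 π) ∨
    (∃ x, (∀ c, (ψ (φ.symm (OrderDual.toDual c, j))).1 = OrderDual.toDual x) ∧
      DX SA SB r j.1 x) := by
  have key : ∀ c : C, D SA SB r j.1 c
      (OrderDual.ofDual (ψ (φ.symm (OrderDual.toDual c, j))).1) := by
    intro c
    have h1 : φ (φ.symm (OrderDual.toDual c, j)) = (OrderDual.toDual c, j) :=
      φ.apply_symm_apply _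
    have h := R_JI_D SA SB φ hφ ψ hψ (φ.symm (OrderDual.toDual c, j)) (r := r)
      (by rw [h1]; exact hr)
    rw [h1] at h
    exact h
  obtain ⟨c0⟩ := hC.ne
  rcases slice_dichotomy φ ψ hC.dual hirr.dual j with h | h
  · left
    set k : JI Q := (ψ (φ.symm (OrderDual.toDual c0, j))).2 with hk
    let f : C → C := fun c => OrderDual.ofDual (ψ (φ.symm (OrderDual.toDual c, j))).1
    have hf0 : ∀ c, ψ (φ.symm (OrderDual.toDual c, j)) = (OrderDual.toDual (f c), k) := by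
      intro c
      exact Prod.ext rfl (h _ _)
    have hf : ∀ c c', f c ≤ f c' ↔ c ≤ c' := by
      intro c c'
      have h1 : ψ (φ.symm (OrderDual.toDual c', j)) ≤ ψ (φ.symm (OrderDual.toDual c, j)) ↔
          c ≤ c' := by
        rw [ψ.le_iff_le, φ.symm.le_iff_le, Prod.mk_le_mk]
        simp
      rw [← h1, hf0, hf0, Prod.mk_le_mk]
      simp
    have hinj : Function.Injective f := fun x y hxy =>
      le_antisymm ((hf x y).1 hxy.le) ((hf y x).1 hxy.ge)
    have hbij : Function.Bijective f := Finite.injective_iff_bijective.1 hinj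
    let π : C ≃o C :=
      { toEquiv := Equiv.ofBijective f hbij
        map_rel_iff' := fun {a b} => hf a b }
    exact ⟨π, k, hf0, fun c => key c⟩
  · right
    refine ⟨OrderDual.ofDual (ψ (φ.symm (OrderDual.toDual c0, j))).1, fun c => ?_, fun c => ?_⟩
    · exact h _ _
    · have := key c
      rw [h (OrderDual.toDual c) (OrderDual.toDual c0)] at this
      exact this

theorem region_dichotomy (SA : Pow C P N) (SB : Pow C Q N) (hC : PConn C) (hirr : PIrr C)
    (hn : Nontrivial C) {f g : N} {c d : C} (hA : SA.Step f g c) (hB : SB.Step f g d) :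
    (∃ π : C ≃o C, π c = d ∧ DS SA SB (SA.ev f c) (SA.ev g c) π ∧
      DS SB SA (SB.ev f d) (SB.ev g d) π.symm) ∨
    (DX SA SB (SA.ev f c) (SA.ev g c) d ∧ DX SB SA (SB.ev f d) (SB.ev g d) c) := by
  obtain ⟨φ, hφ⟩ := SA.exists_JI_iso
  obtain ⟨ψ, hψ⟩ := SB.exists_JI_iso
  obtain ⟨p, r, hr, -, hT⟩ := R_JB (SA.cst ⊥) (fun f => SA.cst_le_iff.2 fun _ => bot_le) g f
    hA.covBy
  have hW : ∀ b1 b1' b b' : N, WT b1 b1' b b' →
      ((SA.Step b1 b1' c ∧ SB.Step b1 b1' d ∧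
        (∀ x y, D SA SB (SA.ev b1 c) (SA.ev b1' c) x y ↔
          D SA SB (SA.ev f c) (SA.ev g c) x y) ∧
        (∀ x y, D SB SA (SB.ev b1 d) (SB.ev b1' d) x y ↔
          D SB SA (SB.ev f d) (SB.ev g d) x y)) ↔
      (SA.Step b b' c ∧ SB.Step b b' d ∧
        (∀ x y, D SA SB (SA.ev b c) (SA.ev b' c) x y ↔
          D SA SB (SA.ev f c) (SA.ev g c) x y) ∧
        (∀ x y, D SB SA (SB.ev b d) (SB.ev b' d) x y ↔
          D SB SA (SB.ev f d) (SB.ev g d) x y))) := by
    intro b1 b1' b b' hw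
    have hA2 : SA.Step b1 b1' c ↔ SA.Step b b' c := ⟨wt_step_up hw, wt_step_down hw⟩
    have hB2 : SB.Step b1 b1' d ↔ SB.Step b b' d := ⟨wt_step_up hw, wt_step_down hw⟩
    rw [hA2, hB2]
    refine and_congr_right fun h1 => and_congr_right fun h2 => ?_
    have w1 := (wt_step hw (hA2.2 h1) h1).2
    have w2 := (wt_step hw (hB2.2 h2) h2).2
    have e1 : ∀ x y, D SA SB (SA.ev b1 c) (SA.ev b1' c) x y ↔
        D SA SB (SA.ev b c) (SA.ev b' c) x y := fun x y => ⟨fun h => h.wt w1, fun h => h.wt' w1⟩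
    have e2 : ∀ x y, D SB SA (SB.ev b1 d) (SB.ev b1' d) x y ↔
        D SB SA (SB.ev b d) (SB.ev b' d) x y := fun x y => ⟨fun h => h.wt w2, fun h => h.wt' w2⟩
    simp only [e1, e2]
  have hTT := (hT (fun u v => SA.Step u v c ∧ SB.Step u v d ∧
    (∀ x y, D SA SB (SA.ev u c) (SA.ev v c) x y ↔ D SA SB (SA.ev f c) (SA.ev g c) x y) ∧
    (∀ x y, D SB SA (SB.ev u d) (SB.ev v d) x y ↔ D SB SA (SB.ev f d) (SB.ev g d) x y)) hW).2
      ⟨hA, hB, fun _ _ => Iff.rfl, fun _ _ => Iff.rfl⟩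
  obtain ⟨sA, sB, tA, tB⟩ := hTT
  have ec : OrderDual.ofDual (φ p).1 = c := (R_JI_step SA φ hφ p hr).unique sA
  have ed : OrderDual.ofDual (ψ p).1 = d := (R_JI_step SB ψ hψ p hr).unique sB
  have vA : SA.ev p.1 c = (φ p).2.1 := by
    rw [← ec]; exact (hφ p _).1 le_rfl
  have vB : SB.ev p.1 d = (ψ p).2.1 := by
    rw [← ed]; exact (hψ p _).1 le_rfl
  have cA := sA.cov
  have cB := sB.cov
  rw [vA] at cA
  rw [vB] at cB
  rw [vA] at tA
  rw [vB] at tB
  set j := (φ p).2 with hj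
  set k := (ψ p).2 with hk
  have hpj : φ.symm (OrderDual.toDual c, j) = p := by
    rw [OrderIso.symm_apply_eq]
    exact Prod.ext ec.symm rfl
  have hpk : ψ.symm (OrderDual.toDual d, k) = p := by
    rw [OrderIso.symm_apply_eq]
    exact Prod.ext ed.symm rfl
  have hψp : ψ p = (OrderDual.toDual d, k) := Prod.ext ed rfl
  have hφp : φ p = (OrderDual.toDual c, j) := Prod.ext ec rfl
  rcases R_JI_dich SA SB hC hirr φ hφ ψ hψ j cA with ⟨π, k', h1, h2⟩ | ⟨x, h1, h2⟩
  · left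
    have h3 := h1 c
    rw [hpj, hψp] at h3
    have h4 : d = π c := congrArg (fun t : Cᵒᵈ × JI Q => OrderDual.ofDual t.1) h3
    have h5 : k = k' := congrArg (fun t : Cᵒᵈ × JI Q => t.2) h3
    subst h5
    refine ⟨π, h4.symm, fun x => (tA _ _).1 (h2 x), fun y => (tB _ _).1 ?_⟩
    have h6 := h1 (π.symm y)
    rw [π.apply_symm_apply] at h6
    have h7 := R_JI_D SB SA ψ hψ φ hφ (φ.symm (OrderDual.toDual (π.symm y), j))
      (r := SB.ev r d) (by rw [h6]; exact cB)
    rw [h6, φ.apply_symm_apply] at h7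
    exact h7
  · right
    have h3 := h1 c
    rw [hpj, hψp] at h3
    have h4 : d = x := congrArg (fun t => OrderDual.ofDual t) h3
    subst h4
    refine ⟨fun c => (tA _ _).1 (h2 c), fun y => (tB _ _).1 ?_⟩
    rcases R_JI_dich SB SA hC hirr ψ hψ φ hφ k cB with ⟨π', j', h5, h6⟩ | ⟨x', h5, h6⟩
    · exfalso
      have h7 := h5 d
      rw [hpk, hφp] at h7
      have h8 : j = j' := congrArg (fun t => t.2) h7
      subst h8
      have h9 : ∀ y, y = d := by
        intro y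
        have h10 := h5 y
        have h11 : φ.symm (OrderDual.toDual (π' y), j) = ψ.symm (OrderDual.toDual y, k) := by
          rw [OrderIso.symm_apply_eq, h10]
        have h12 := h1 (π' y)
        rw [h11, ψ.apply_symm_apply] at h12
        exact congrArg (fun t => OrderDual.ofDual t) h12
      obtain ⟨u, v, huv⟩ := hn
      exact huv ((h9 u).trans (h9 v).symm)
    · have h7 := h5 d
      rw [hpk, hφp] at h7
      have h8 : c = x' := congrArg (fun t => OrderDual.ofDual t) h7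
      subst h8
      exact h6 y

omit [Finite N] in
/-- comparable join irreducibles have the same type -/
theorem R_LT (SA : Pow C P N) (SB : Pow C Q N) (hC : PConn C) (hirr : PIrr C)
    (hn : Nontrivial C) (htop : ∀ x : C, ∃ y, ¬ y ≤ x) (hbot : ∀ x : C, ∃ y, ¬ x ≤ y)
    {j j' : JI P} (hjj : j ≤ j') {r r' : P} (hr : r ⋖ j.1) (hr' : r' ⋖ j'.1) :
    (∃ x, DX SA SB r j.1 x) ↔ (∃ x, DX SA SB r' j'.1 x) := by
  obtain ⟨φ, hφ⟩ := SA.exists_JI_iso
  obtain ⟨ψ, hψ⟩ := SB.exists_JI_iso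
  have hle : ∀ c, ψ (φ.symm (OrderDual.toDual c, j)) ≤ ψ (φ.symm (OrderDual.toDual c, j')) := by
    intro c
    rw [ψ.le_iff_le, φ.symm.le_iff_le, Prod.mk_le_mk]
    exact ⟨le_rfl, hjj⟩
  rcases R_JI_dich SA SB hC hirr φ hφ ψ hψ j hr with ⟨π, k, h1, h2⟩ | ⟨x, h1, h2⟩ <;>
  rcases R_JI_dich SA SB hC hirr φ hφ ψ hψ j' hr' with ⟨π', k', h1', h2'⟩ | ⟨x', h1', h2'⟩
  · constructor
    · rintro ⟨x, hx⟩; exact (R_DX_DS hn hx h2).elim
    · rintro ⟨x, hx⟩; exact (R_DX_DS hn hx h2').elim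
  · exfalso
    obtain ⟨y, hy⟩ := hbot x'
    apply hy
    have h3 := (hle (π.symm y)).1
    rw [h1, h1', π.apply_symm_apply] at h3
    exact h3
  · exfalso
    obtain ⟨y, hy⟩ := htop x
    apply hy
    have h3 := (hle (π'.symm y)).1
    rw [h1, h1', π'.apply_symm_apply] at h3
    exact h3
  · exact ⟨fun _ => ⟨x', h2'⟩, fun _ => ⟨x, h2⟩⟩

/-- transitivity of x-only intervals -/
theorem region_SC (SA : Pow C P N) (SB : Pow C Q N) (hC : PConn C) (hirr : PIrr C)
    (hn : Nontrivial C) (htop : ∀ x : C, ∃ y, ¬ y ≤ x) (hbot : ∀ x : C, ∃ y, ¬ x ≤ y)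
    {a a' : P} (haa : a ≤ a') (h1 : IX SA SB ⊥ a) (h2 : IX SA SB a a') : IX SA SB ⊥ a' := by
  have hinv : ∀ b1 b1' b b' : P, WT b1 b1' b b' →
      ((∃ x, DX SA SB b1 b1' x) ↔ (∃ x, DX SA SB b b' x)) := fun b1 b1' b b' hw =>
    exists_congr fun x => R_DX_wt SA SB hw x
  have step : ∀ p : P, a ≤ p → p ≤ a' → (∀ (j : JI P) (r : P), r ⋖ j.1 → j.1 ≤ p →
      ∃ x, DX SA SB r j.1 x) →
      (∀ (j : JI P) (r : P), r ⋖ j.1 → j.1 ≤ a' → ∃ x, DX SA SB r j.1 x) := by
    intro p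
    induction p using (wellFounded_gt (α := P)).induction with
    | _ p ih =>
      intro hap hpa hgood
      rcases hpa.eq_or_lt with e | hlt
      · rw [← e]; exact hgood
      · obtain ⟨p', hp', hp'a⟩ := R_exists_upper hlt
        refine ih p' hp'.lt (hap.trans hp'.le) hp'a ?_
        intro j r hr hj
        by_cases hjp : j.1 ≤ p
        · exact hgood j r hr hjp
        · obtain ⟨z, hz⟩ := (Set.toFinite {z | z ≤ j.1 ∧ ¬ z ≤ p}).exists_minimal
            ⟨j.1, le_rfl, hjp⟩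
          have hz1 : z ≤ j.1 ∧ ¬ z ≤ p := hz.1
          have hbz : ⊥ < z := lt_of_le_of_ne bot_le (by
            rintro rfl; exact hz1.2 bot_le)
          obtain ⟨s, -, hs⟩ := W_exists_lower_cover hbz
          have hsp : s ≤ p := by
            by_contra hne
            have := hz.2 (y := s) ⟨hs.le.trans hz1.1, hne⟩ hs.le
            exact absurd hs.lt (not_lt_of_ge this)
          have hw : WT s z p p' := ⟨hs, hp', hsp, hz1.1.trans hj, hz1.2⟩
          have hX : ∃ x, DX SA SB s z x := (hinv _ _ _ _ hw).2 (h2 p p' hap hp' hp'a)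
          obtain ⟨j'', r'', hr'', hj'', hT⟩ := R_JB (⊥ : P) (fun _ => bot_le) z s hs
          have hX'' : ∃ x, DX SA SB r'' j''.1 x := (hT _ hinv).2 hX
          exact (R_LT SA SB hC hirr hn htop hbot (j := j'') (j' := j)
            (hj''.trans hz1.1) hr'' hr).1 hX''
  have hall := step a le_rfl haa (fun j r hr hj => h1 r j.1 bot_le hr hj)
  intro a1 a2 _ h12 h2a
  obtain ⟨j, r, hr, hj, hT⟩ := R_JB (⊥ : P) (fun _ => bot_le) a2 a1 h12
  exact (hT _ hinv).1 (hall j r hr (hj.trans h2a))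

theorem region_atoms (SA : Pow C P N) (SB : Pow C Q N) (hC : PConn C) (hirr : PIrr C)
    (hn : Nontrivial C) (htop : ∀ x : C, ∃ y, ¬ y ≤ x) (hbot : ∀ x : C, ∃ y, ¬ x ≤ y)
    (h : ∀ p : P, ⊥ ⋖ p → ∃ π, DS SA SB ⊥ p π) :
    ∀ a a' : P, a ⋖ a' → ∃ π, DS SA SB a a' π := by
  intro a a' haa
  obtain ⟨φ, hφ⟩ := SA.exists_JI_iso
  obtain ⟨ψ, hψ⟩ := SB.exists_JI_iso
  have hinv : ∀ b1 b1' b b' : P, WT b1 b1' b b' →
      ((∃ π, DS SA SB b1 b1' π) ↔ (∃ π, DS SA SB b b' π)) := fun b1 b1' b b' hw =>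
    exists_congr fun x => R_DS_wt SA SB hw x
  obtain ⟨j, r, hr, hj, hT⟩ := R_JB (⊥ : P) (fun _ => bot_le) a' a haa
  apply (hT _ hinv).1
  rcases R_JI_dich SA SB hC hirr φ hφ ψ hψ j hr with ⟨π, k, h1, h2⟩ | ⟨x, h1, h2⟩
  · exact ⟨π, h2⟩
  · exfalso
    obtain ⟨p, hp, hpj⟩ := R_exists_upper (lt_of_le_of_lt (bot_le (a := r)) hr.lt)
    have hpJ : ∃! y, y ⋖ p := ⟨⊥, hp, fun y hy => by
      by_contra hne
      exact hp.2 (lt_of_le_of_ne bot_le (Ne.symm hne)) hy.lt⟩
    obtain ⟨π, hπ⟩ := h p hp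
    obtain ⟨x', hx'⟩ := (R_LT SA SB hC hirr hn htop hbot (j := ⟨p, hpJ⟩) (j' := j) hpj hp hr).2
      ⟨x, h2⟩
    exact R_DX_DS hn hx' hπ

omit [Finite C] [Finite P] [Finite Q] [Finite N] [OrderBot P] [OrderBot Q] in
/-- the label of an edge between the constants of a cover -/
theorem R_label (S : Pow C P N) {a a' : P} (h : a ⋖ a') {f g u v : N} {c : C}
    (hf : S.cst a ≤ f) (hfu : f ≤ u) (hvg : v ≤ g) (hg : g ≤ S.cst a') (hs : S.Step u v c) :
    S.ev u c = a ∧ S.ev v c = a' := by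
  have h1 : a ≤ S.ev u c := S.cst_le_iff.1 (hf.trans hfu) c
  have h2 : S.ev v c ≤ a' := S.le_cst_iff.1 (hvg.trans hg) c
  have h3 := hs.cov
  rcases h1.eq_or_lt with e1 | l1
  · rcases h2.eq_or_lt with e2 | l2
    · exact ⟨e1.symm, e2⟩
    · exact absurd l2 (h.2 (e1.le.trans_lt h3.lt))
  · exact absurd (h3.lt.trans_le h2) (h.2 l1)

omit [Finite C] [Finite P] [Finite Q] [Finite N] [OrderBot P] [OrderBot Q] in
theorem R_lt_of_step (S : Pow C P N) {f g u v : N} {c : C}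
    (hfu : f ≤ u) (hvg : v ≤ g) (hs : S.Step u v c) : S.ev f c < S.ev g c :=
  (((S.le_iff _ _).1 hfu c).trans_lt hs.cov.lt).trans_le ((S.le_iff _ _).1 hvg c)

omit [OrderBot P] in
/-- an element at distance `card C` above a constant, strictly above in all coordinates,
is a constant -/
theorem R_const (S : Pow C P N) (hC : PConn C) {b : P} {v : N} (hle : S.cst b ≤ v)
    (hl : ilen (S.cst b) v = Nat.card C) (hlt : ∀ d, b < S.ev v d) :
    ∃ b', b ⋖ b' ∧ v = S.cst b' := by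
  classical
  have := Fintype.ofFinite C
  rw [S.ilen_eq hle, Nat.card_eq_fintype_card] at hl
  simp only [S.ev_cst] at hl
  have hge : ∀ d, 1 ≤ ilen b (S.ev v d) := fun d => ilen_pos (hlt d)
  have heq : ∀ d, ilen b (S.ev v d) = 1 := by
    have h1 : ∑ d : C, (ilen b (S.ev v d) - 1) = 0 := by
      have h2 : ∑ d : C, (ilen b (S.ev v d) - 1) + ∑ d : C, 1 = ∑ d : C, ilen b (S.ev v d) := by
        rw [← Finset.sum_add_distrib]
        exact Finset.sum_congr rfl fun d _ => Nat.sub_add_cancel (hge d)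
      simp only [Finset.sum_const, Finset.card_univ, smul_eq_mul, mul_one] at h2
      omega
    intro d
    have h3 := (Finset.sum_eq_zero_iff.1 h1) d (Finset.mem_univ d)
    have h4 := hge d
    omega
  have hcov : ∀ d, b ⋖ S.ev v d := fun d => covBy_of_ilen_one (hlt d).le (heq d)
  obtain ⟨c0⟩ := hC.ne
  refine ⟨S.ev v c0, hcov c0, ?_⟩
  apply S.inj
  intro c
  rw [S.ev_cst]
  refine hC.eq_of_le_eq (S.ev v) (fun x y hxy => ?_) c c0
  rcases (S.mono v hxy).eq_or_lt with e | l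
  · exact e
  · exact absurd l ((hcov y).2 (hcov x).lt)

omit [OrderBot P] in
theorem R_ilen_cst (S : Pow C P N) {a a' : P} (h : a ≤ a') :
    ilen (S.cst a) (S.cst a') = Nat.card C * ilen a a' := by
  have hle : S.cst a ≤ S.cst a' := by
    rw [S.cst_le_iff]; intro c; rw [S.ev_cst]; exact h
  refine S.ilen_const ?_ ?_ h
  · funext c; exact S.ev_cst a c
  · funext c; exact S.ev_cst a' c

omit [OrderBot P] [OrderBot Q] in
/-- the step of `region_SO` -/
theorem R_SO_step (SA : Pow C P N) (SB : Pow C Q N) (hC : PConn C) {a a' : P} (haa : a ⋖ a')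
    {b : Q} (hab : SA.cst a = SB.cst b) {π : C ≃o C} (hπ : DS SA SB a a' π) :
    ∃ b' : Q, b ⋖ b' ∧ SA.cst a' = SB.cst b' := by
  have hne := hC.ne
  have hle : SA.cst a ≤ SA.cst a' := SA.cst_le_cst.2 haa.le
  refine R_const SB hC (hab ▸ hle) ?_ ?_
  · rw [← hab, R_ilen_cst SA haa.le, ilen_covBy haa, mul_one]
  · intro d
    obtain ⟨u, v, h1, h2, h3, h4, h5, -, -⟩ := SA.exists_slot_step hle (π.symm d) (b := a)
      (b' := a') (by rw [SA.ev_cst]) (by rw [SA.ev_cst]) haa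
    have h6 : SB.Step u v d := by
      have := (hπ (π.symm d)).step h3 h4 h5 (a0 := a) (SA.cst_le_iff.1 h1)
      rwa [π.apply_symm_apply] at this
    have h7 := R_lt_of_step SB h1 h2 h6
    rwa [hab, SB.ev_cst] at h7

omit [Finite C] [Finite P] [Finite Q] [Finite N] in
theorem R_bot (SA : Pow C P N) (SB : Pow C Q N) : SA.cst ⊥ = SB.cst ⊥ :=
  le_antisymm (SA.cst_le_iff.2 fun _ => bot_le) (SB.cst_le_iff.2 fun _ => bot_le)

theorem region_SO (SA : Pow C P N) (SB : Pow C Q N) (hC : PConn C)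
    (h : ∀ a a' : P, a ⋖ a' → ∃ π, DS SA SB a a' π) (a : P) :
    ∃ b : Q, SA.cst a = SB.cst b := by
  induction a using (wellFounded_lt (α := P)).induction with
  | _ a ih =>
    rcases (bot_le (a := a)).eq_or_lt with e | hlt
    · exact ⟨⊥, by rw [← e]; exact R_bot SA SB⟩
    · obtain ⟨a0, -, ha0⟩ := W_exists_lower_cover hlt
      obtain ⟨b, hb⟩ := ih a0 ha0.lt
      obtain ⟨π, hπ⟩ := h a0 a ha0
      obtain ⟨b', -, hb'⟩ := R_SO_step SA SB hC ha0 hb hπ
      exact ⟨b', hb'⟩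

end region

end Pool.Agent.Birk
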