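import Pool.Agent.Lib_MP_aad2bd_co.RegR1

/-!
MP_aad2bd_co, PART R2: region theory, second half.
-/

set_option autoImplicit false

namespace Pool.Agent.Birk

open Pool.Agent.Birk.Pow

section region2

variable {C P Q N : Type} [PartialOrder C] [PartialOrder P] [PartialOrder Q] [PartialOrder N]
  [Finite C] [Finite P] [Finite Q] [Finite N]

theorem R2_X_const (SA : Pow C P N) (SB : Pow C Q N) {a a' : P} (haa : a ⋖ a') {x : C}
    (hX : DX SA SB a a' x) {y : C} (hy : y ≠ x) :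
    SB.ev (SA.cst a) y = SB.ev (SA.cst a') y := by
  have hle : SA.cst a ≤ SA.cst a' := by
    rw [SA.cst_le_iff]; intro c; rw [SA.ev_cst]; exact haa.le
  apply SB.ev_eq_of_no_step hle
  intro u v hu hv hs
  obtain ⟨c, hc⟩ := SA.exists_step_of_covBy hs.covBy
  obtain ⟨e1, e2⟩ := R_label SA haa le_rfl hu hv le_rfl hc
  exact hy (hs.unique ((hX c).step hc e1 e2 (a0 := a) (SA.cst_le_iff.1 hu)))

theorem R2_sum_single [Fintype C] (F : C → ℕ) (x : C) (h : ∀ y, y ≠ x → F y = 0) :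
    ∑ c, F c = F x :=
  Finset.sum_eq_single x (fun y _ hy => h y hy) (fun h => absurd (Finset.mem_univ x) h)

theorem R2_X_ilen (SA : Pow C P N) (SB : Pow C Q N) {a a' : P} (haa : a ⋖ a') {x : C}
    (hX : DX SA SB a a' x) :
    ilen (SB.ev (SA.cst a) x) (SB.ev (SA.cst a') x) = Nat.card C := by
  classical
  have := Fintype.ofFinite C
  have hle : SA.cst a ≤ SA.cst a' := by
    rw [SA.cst_le_iff]; intro c; rw [SA.ev_cst]; exact haa.le
  have h1 : ilen (SA.cst a) (SA.cst a') = Nat.card C := by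
    rw [R_ilen_cst SA haa.le, ilen_covBy haa, mul_one]
  rw [SB.ilen_eq hle, R2_sum_single _ x] at h1
  · exact h1
  · intro y hy
    rw [R2_X_const SA SB haa hX hy, ilen_self]

theorem R2_all_covBy (S : Pow C P N) {f g : N} (hle : f ≤ g) (hl : ilen f g = Nat.card C)
    (hlt : ∀ d, S.ev f d < S.ev g d) (d : C) : S.ev f d ⋖ S.ev g d := by
  classical
  have := Fintype.ofFinite C
  rw [S.ilen_eq hle, Nat.card_eq_fintype_card] at hl
  have hge : ∀ d, 1 ≤ ilen (S.ev f d) (S.ev g d) := fun d => ilen_pos (hlt d)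
  have h1 : ∑ d : C, (ilen (S.ev f d) (S.ev g d) - 1) = 0 := by
    have h2 : ∑ d : C, (ilen (S.ev f d) (S.ev g d) - 1) + ∑ d : C, 1 =
        ∑ d : C, ilen (S.ev f d) (S.ev g d) := by
      rw [← Finset.sum_add_distrib]
      exact Finset.sum_congr rfl fun d _ => Nat.sub_add_cancel (hge d)
    simp only [Finset.sum_const, Finset.card_univ, smul_eq_mul, mul_one] at h2
    omega
  have h3 := (Finset.sum_eq_zero_iff.1 h1) d (Finset.mem_univ d)
  have h4 := hge d
  exact covBy_of_ilen_one (hlt d).le (by omega)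

variable [OrderBot P] [OrderBot Q]

theorem R2_type (SA : Pow C P N) (SB : Pow C Q N) (hC : PConn C) (hirr : PIrr C)
    (hn : Nontrivial C) {a a' : P} (haa : a ⋖ a') :
    (∃ π, DS SA SB a a' π) ∨ (∃ x, DX SA SB a a' x) := by
  obtain ⟨c0⟩ := hC.ne
  obtain ⟨f, g, d, h1, h2, h3, h4, -⟩ := exists_D_edge SA SB haa c0
  rcases region_dichotomy SA SB hC hirr hn h1 h2 with ⟨π, -, h5, -⟩ | ⟨h5, -⟩
  · left; rw [h3, h4] at h5; exact ⟨π, h5⟩
  · right; rw [h3, h4] at h5; exact ⟨d, h5⟩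

/-- type x transfers between the labels of an edge -/
theorem R2_X_transfer (SA : Pow C P N) (SB : Pow C Q N) (hC : PConn C) (hirr : PIrr C)
    (hn : Nontrivial C) {f g : N} {c d x : C} (hA : SA.Step f g c) (hB : SB.Step f g d)
    (hX : DX SA SB (SA.ev f c) (SA.ev g c) x) : DX SB SA (SB.ev f d) (SB.ev g d) c := by
  rcases region_dichotomy SA SB hC hirr hn hA hB with ⟨π, -, h5, -⟩ | ⟨-, h5⟩
  · exact (R_DX_DS hn hX h5).elim
  · exact h5

/-- type s transfers between the labels of an edge -/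
theorem R2_S_transfer (SA : Pow C P N) (SB : Pow C Q N) (hC : PConn C) (hirr : PIrr C)
    (hn : Nontrivial C) {f g : N} {c d : C} {π : C ≃o C} (hA : SA.Step f g c)
    (hB : SB.Step f g d)
    (hS : DS SA SB (SA.ev f c) (SA.ev g c) π) : DS SB SA (SB.ev f d) (SB.ev g d) π.symm := by
  rcases region_dichotomy SA SB hC hirr hn hA hB with ⟨ρ, -, h5, h6⟩ | ⟨h5, -⟩
  · rw [R_DS_unique hS h5]; exact h6
  · exact (R_DX_DS hn h5 hS).elim

theorem R2_L10 (SA : Pow C P N) (SB : Pow C Q N) (hC : PConn C) (hirr : PIrr C)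
    (hn : Nontrivial C) {a a' : P} (haa : a ⋖ a') {x : C} (hX : DX SA SB a a' x) {p : P}
    (hp : SB.cst (SB.ev (SA.cst a) x) = SA.cst p) :
    ∃ p', SB.cst (SB.ev (SA.cst a') x) = SA.cst p' ∧ p ≤ p' ∧ ilen p p' = Nat.card C ∧
      ∀ d, ∃ p0 p1, p ≤ p0 ∧ p0 ⋖ p1 ∧ p1 ≤ p' ∧ DX SA SB p0 p1 d := by
  classical
  have := Fintype.ofFinite C
  have hne := hC.ne
  have hle : SA.cst a ≤ SA.cst a' := SA.cst_le_cst.2 haa.le
  have hαα : SB.ev (SA.cst a) x ≤ SB.ev (SA.cst a') x := (SB.le_iff _ _).1 hle x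
  have hκ : SB.cst (SB.ev (SA.cst a) x) ≤ SB.cst (SB.ev (SA.cst a') x) := SB.cst_le_cst.2 hαα
  have hb : ∀ c, ∃ b0 b1 : Q, SB.ev (SA.cst a) x ≤ b0 ∧ b0 ⋖ b1 ∧
      b1 ≤ SB.ev (SA.cst a') x ∧ DX SB SA b0 b1 c := by
    intro c
    obtain ⟨u, v, h1, h2, h3, h4, h5, -, -⟩ := SA.exists_slot_step hle c (b := a)
      (b' := a') (by rw [SA.ev_cst]) (by rw [SA.ev_cst]) haa
    have hB : SB.Step u v x := (hX c).step h3 h4 h5 (a0 := a) (SA.cst_le_iff.1 h1)
    refine ⟨SB.ev u x, SB.ev v x, (SB.le_iff _ _).1 h1 x, hB.cov, (SB.le_iff _ _).1 h2 x, ?_⟩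
    exact R2_X_transfer SA SB hC hirr hn h3 hB (x := x) (by rw [h4, h5]; exact hX)
  have hlo : ∀ c, Nat.card C ≤ ilen p (SA.ev (SB.cst (SB.ev (SA.cst a') x)) c) := by
    intro c
    obtain ⟨b0, b1, h1, h2, h3, h4⟩ := hb c
    have h5 := R2_X_ilen SB SA h2 h4
    have h6 : p ≤ SA.ev (SB.cst b0) c := by
      have h7 : SA.cst p ≤ SB.cst b0 := by
        rw [← hp]; exact SB.cst_le_cst.2 h1
      exact SA.cst_le_iff.1 h7 c
    have h7 : SA.ev (SB.cst b0) c ≤ SA.ev (SB.cst b1) c :=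
      (SA.le_iff _ _).1 (SB.cst_le_cst.2 h2.le) c
    have h8 : SA.ev (SB.cst b1) c ≤ SA.ev (SB.cst (SB.ev (SA.cst a') x)) c :=
      (SA.le_iff _ _).1 (SB.cst_le_cst.2 h3) c
    have h9 := ilen_add_le h6 h7
    have h10 := ilen_add_le (h6.trans h7) h8
    omega
  have htot : ∑ c, ilen p (SA.ev (SB.cst (SB.ev (SA.cst a') x)) c) =
      Nat.card C * Nat.card C := by
    have h1 := R_ilen_cst SB hαα
    rw [R2_X_ilen SA SB haa hX, SA.ilen_eq hκ, hp] at h1
    simp only [SA.ev_cst] at h1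
    exact h1
  have heq : ∀ c, ilen p (SA.ev (SB.cst (SB.ev (SA.cst a') x)) c) = Nat.card C := by
    by_contra hcon
    push Not at hcon
    obtain ⟨c, hc⟩ := hcon
    have hlt : ∑ _c : C, Nat.card C < ∑ c, ilen p (SA.ev (SB.cst (SB.ev (SA.cst a') x)) c) :=
      Finset.sum_lt_sum (fun c _ => hlo c) ⟨c, Finset.mem_univ c,
        lt_of_le_of_ne (hlo c) (Ne.symm hc)⟩
    rw [htot, Finset.sum_const, Finset.card_univ, ← Nat.card_eq_fintype_card, smul_eq_mul] at hlt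
    exact lt_irrefl _ hlt
  have hpκ : ∀ c, p ≤ SA.ev (SB.cst (SB.ev (SA.cst a') x)) c := by
    intro c
    have h1 : SA.cst p ≤ SB.cst (SB.ev (SA.cst a') x) := by rw [← hp]; exact hκ
    exact SA.cst_le_iff.1 h1 c
  have hconst : ∀ c c', SA.ev (SB.cst (SB.ev (SA.cst a') x)) c =
      SA.ev (SB.cst (SB.ev (SA.cst a') x)) c' := by
    refine hC.eq_of_le_eq _ (fun u v huv => ?_)
    have h1 := SA.mono (SB.cst (SB.ev (SA.cst a') x)) huv
    have h2 := ilen_add_le (hpκ u) h1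
    rw [heq u, heq v] at h2
    exact eq_of_ilen_zero h1 (by omega)
  obtain ⟨c0⟩ := hne
  refine ⟨SA.ev (SB.cst (SB.ev (SA.cst a') x)) c0, ?_, hpκ c0, heq c0, fun d => ?_⟩
  · apply SA.inj
    intro c
    rw [SA.ev_cst]
    exact hconst c c0
  · obtain ⟨b0, b1, h1, h2, h3, h4⟩ := hb c0
    obtain ⟨u, v, k1, k2, k3, k4, k5, -, -⟩ := SB.exists_slot_step hκ d (b := b0)
      (b' := b1) (by rw [SB.ev_cst]; exact h1) (by rw [SB.ev_cst]; exact h3) h2
    have hA : SA.Step u v c0 := (h4 d).step k3 k4 k5 (a0 := ⊥) (fun _ => bot_le)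
    refine ⟨SA.ev u c0, SA.ev v c0, ?_, hA.cov, (SA.le_iff _ _).1 k2 c0, ?_⟩
    · rw [hp] at k1
      exact SA.cst_le_iff.1 k1 c0
    · exact R2_X_transfer SB SA hC hirr hn k3 hA (x := c0) (by rw [k4, k5]; exact h4)

theorem R2_matched_S (SA : Pow C P N) (SB : Pow C Q N) (hC : PConn C) (hirr : PIrr C)
    (hn : Nontrivial C) {a a' : P} (haa : a ⋖ a') {π : C ≃o C} (hS : DS SA SB a a' π) {b : Q}
    (h : Matched SA SB a b) : ∃ b', Matched SA SB a' b' := by
  classical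
  have := Fintype.ofFinite C
  have hne := hC.ne
  have hle : SA.cst a ≤ SA.cst a' := SA.cst_le_cst.2 haa.le
  have h1 : ∀ d, SB.ev (SA.cst a) d < SB.ev (SA.cst a') d := by
    intro d
    obtain ⟨u, v, h1, h2, h3, h4, h5, -, -⟩ := SA.exists_slot_step hle (π.symm d) (b := a)
      (b' := a') (by rw [SA.ev_cst]) (by rw [SA.ev_cst]) haa
    have h6 : SB.Step u v d := by
      have := (hS (π.symm d)).step h3 h4 h5 (a0 := a) (SA.cst_le_iff.1 h1)
      rwa [π.apply_symm_apply] at this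
    exact R_lt_of_step SB h1 h2 h6
  have h2 : ∀ d, SB.ev (SA.cst a) d ⋖ SB.ev (SA.cst a') d := by
    refine R2_all_covBy SB hle ?_ h1
    rw [R_ilen_cst SA haa.le, ilen_covBy haa, mul_one]
  have h3 : ∀ d, DS SB SA (SB.ev (SA.cst a) d) (SB.ev (SA.cst a') d) π.symm := by
    intro d
    obtain ⟨u, v, k1, k2, k3, k4, k5, -, -⟩ := SB.exists_slot_step hle d
      (b := SB.ev (SA.cst a) d) (b' := SB.ev (SA.cst a') d) le_rfl le_rfl (h2 d)
    obtain ⟨c, hc⟩ := SA.exists_step_of_covBy k3.covBy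
    obtain ⟨e1, e2⟩ := R_label SA haa le_rfl k1 k2 le_rfl hc
    have := R2_S_transfer SA SB hC hirr hn hc k3 (π := π) (by rw [e1, e2]; exact hS)
    rwa [k4, k5] at this
  have h4 : ∀ d, ∃ r, SA.ev (SB.cst b) d ⋖ r ∧ SB.cst (SB.ev (SA.cst a') d) = SA.cst r :=
    fun d => R_SO_step SB SA hC (h2 d) (h d).symm (h3 d)
  choose r hr1 hr2 using h4
  have h5 : ∀ d, DS SA SB (SA.ev (SB.cst b) d) (r d) π := by
    intro d
    obtain ⟨c0⟩ := hne
    have hle2 : SA.cst (SA.ev (SB.cst b) d) ≤ SA.cst (r d) := by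
      rw [SA.cst_le_iff]; intro c; rw [SA.ev_cst]; exact (hr1 d).le
    obtain ⟨u, v, k1, k2, k3, k4, k5, -, -⟩ := SA.exists_slot_step hle2 c0
      (b := SA.ev (SB.cst b) d) (b' := r d) (by rw [SA.ev_cst]) (by rw [SA.ev_cst]) (hr1 d)
    obtain ⟨e, he⟩ := SB.exists_step_of_covBy k3.covBy
    obtain ⟨e1, e2⟩ := R_label SB (h2 d) (h d).ge k1 k2 (hr2 d).ge he
    have := R2_S_transfer SB SA hC hirr hn he k3 (π := π.symm) (by rw [e1, e2]; exact h3 d)
    rw [k4, k5] at this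
    exact this
  have hrm : Monotone r := by
    intro c c' hcc
    have : SA.cst (r c) ≤ SA.cst (r c') := by
      rw [← hr2, ← hr2]
      exact SB.cst_le_cst.2 (SB.mono _ hcc)
    exact SA.cst_le_cst.1 this
  obtain ⟨g, hg⟩ := SA.up (SB.cst b) r hrm (fun c => (hr1 c).le)
  have hbg : SB.cst b ≤ g := by
    rw [SA.le_iff, hg]; exact fun c => (hr1 c).le
  have hlen : ilen (SB.cst b) g = Nat.card C := by
    rw [SA.ilen_eq hbg, hg, Nat.card_eq_fintype_card]
    rw [Finset.sum_congr rfl (fun c _ => ilen_covBy (hr1 c))]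
    simp
  obtain ⟨b', -, hb'⟩ := R_const SB hC hbg hlen (fun d => by
    obtain ⟨u, v, k1, k2, k3, k4, k5, -, -⟩ := SA.exists_slot_step hbg (π.symm d)
      (b := SA.ev (SB.cst b) (π.symm d)) (b' := r (π.symm d)) le_rfl (by rw [hg])
      (hr1 (π.symm d))
    have h6 : SB.Step u v d := by
      have := (h5 (π.symm d) (π.symm d)).step k3 k4 k5 (a0 := ⊥) (fun _ => bot_le)
      rwa [π.apply_symm_apply] at this
    have h7 := R_lt_of_step SB k1 k2 h6
    rwa [SB.ev_cst] at h7)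
  refine ⟨b', fun c => ?_⟩
  rw [← hb', hg, hr2]

theorem R2_matched_X (SA : Pow C P N) (SB : Pow C Q N) (hC : PConn C) (hirr : PIrr C)
    (hn : Nontrivial C) {a a' : P} (haa : a ⋖ a') {x : C} (hX : DX SA SB a a' x) {b : Q}
    (h : Matched SA SB a b) : ∃ b', Matched SA SB a' b' := by
  classical
  have := Fintype.ofFinite C
  have hne := hC.ne
  obtain ⟨p', h1, h2, h3, h4⟩ := R2_L10 SA SB hC hirr hn haa hX (h x).symm
  obtain ⟨g, g1, g2, g3⟩ := SA.exists_raise (SB.cst b) x p' h2 (fun z hz => by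
    have h5 : SA.cst p' ≤ SA.cst (SA.ev (SB.cst b) z) := by
      rw [← h1, h z, R2_X_const SA SB haa hX hz.ne']
      exact SB.cst_le_cst.2 (SB.mono _ hz.le)
    exact SA.cst_le_cst.1 h5)
  have hlen : ilen (SB.cst b) g = Nat.card C := by
    rw [SA.ilen_eq g1, R2_sum_single _ x, g2, h3]
    intro y hy
    rw [g3 y hy, ilen_self]
  obtain ⟨b', -, hb'⟩ := R_const SB hC g1 hlen (fun d => by
    obtain ⟨p0, p1, k1, k2, k3, k4⟩ := h4 d
    obtain ⟨u, v, l1, l2, l3, l4, l5, -, -⟩ := SA.exists_slot_step g1 x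
      (b := p0) (b' := p1) k1 (by rw [g2]; exact k3) k2
    have h6 : SB.Step u v d := (k4 x).step l3 l4 l5 (a0 := ⊥) (fun _ => bot_le)
    have h7 := R_lt_of_step SB l1 l2 h6
    rwa [SB.ev_cst] at h7)
  refine ⟨b', fun c => ?_⟩
  rw [← hb']
  by_cases hc : c = x
  · rw [hc, g2, h1]
  · rw [g3 c hc, h c, R2_X_const SA SB haa hX hc]

theorem region_matched (SA : Pow C P N) (SB : Pow C Q N) (hC : PConn C) (hirr : PIrr C)
    (hn : Nontrivial C) (a : P) : ∃ b : Q, Matched SA SB a b := by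
  induction a using (wellFounded_lt (α := P)).induction with
  | _ a ih =>
    rcases (bot_le (a := a)).eq_or_lt with e | hlt
    · refine ⟨⊥, fun c => ?_⟩
      rw [← e, ← R_bot SA SB, SA.ev_cst]
      have : SB.ev (SA.cst ⊥) c = ⊥ := by rw [R_bot SA SB, SB.ev_cst]
      rw [this]; exact R_bot SA SB
    · obtain ⟨a0, -, ha0⟩ := W_exists_lower_cover hlt
      obtain ⟨b, hb⟩ := ih a0 ha0.lt
      rcases R2_type SA SB hC hirr hn ha0 with ⟨π, hπ⟩ | ⟨x, hx⟩
      · exact R2_matched_S SA SB hC hirr hn ha0 hπ hb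
      · exact R2_matched_X SA SB hC hirr hn ha0 hx hb

theorem region_IX_matched (SA : Pow C P N) (SB : Pow C Q N) (hC : PConn C) (hirr : PIrr C)
    (hn : Nontrivial C) {a : P} {b : Q} (h : Matched SA SB a b) :
    IX SA SB ⊥ a ↔ ∀ c, IX SA SB ⊥ (SA.ev (SB.cst b) c) := by
  have hne := hC.ne
  obtain ⟨c0⟩ := hC.ne
  constructor
  · intro hI c a1 a2 _ h12 h2
    have hle : SA.cst a1 ≤ SA.cst a2 := SA.cst_le_cst.2 h12.le
    obtain ⟨u, v, k1, k2, k3, k4, k5, -, -⟩ := SA.exists_slot_step hle c0 (b := a1)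
      (b' := a2) (by rw [SA.ev_cst]) (by rw [SA.ev_cst]) h12
    obtain ⟨d, hd⟩ := SB.exists_step_of_covBy k3.covBy
    have hve : v ≤ SB.cst (SB.ev (SA.cst a) c) := by
      rw [← h c]; exact k2.trans (SA.cst_le_cst.2 h2)
    have hb1 : SB.ev v d ≤ SB.ev (SA.cst a) c := SB.le_cst_iff.1 hve d
    have hbot : SB.cst ⊥ ≤ SA.cst a := SB.cst_le_iff.2 fun _ => bot_le
    obtain ⟨u', v', l1, l2, l3, l4, l5, -, -⟩ := SB.exists_slot_step hbot c
      (b := SB.ev u d) (b' := SB.ev v d) (by rw [SB.ev_cst]; exact bot_le) hb1 hd.cov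
    obtain ⟨c', hc'⟩ := SA.exists_step_of_covBy l3.covBy
    obtain ⟨x, hx⟩ := hI _ _ bot_le hc'.cov (SA.le_cst_iff.1 l2 c')
    have h6 := R2_X_transfer SA SB hC hirr hn hc' l3 hx
    rw [l4, l5] at h6
    have h7 := R2_X_transfer SB SA hC hirr hn hd k3 h6
    rw [k4, k5] at h7
    exact ⟨d, h7⟩
  · intro hI a1 a2 _ h12 h2
    have hle : SA.cst a1 ≤ SA.cst a2 := SA.cst_le_cst.2 h12.le
    obtain ⟨u, v, k1, k2, k3, k4, k5, -, -⟩ := SA.exists_slot_step hle c0 (b := a1)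
      (b' := a2) (by rw [SA.ev_cst]) (by rw [SA.ev_cst]) h12
    obtain ⟨d, hd⟩ := SB.exists_step_of_covBy k3.covBy
    have hb1 : SB.ev v d ≤ SB.ev (SA.cst a) d :=
      (SB.le_iff _ _).1 (k2.trans (SA.cst_le_cst.2 h2)) d
    have hle2 : SB.cst (SB.ev u d) ≤ SB.cst (SB.ev v d) := SB.cst_le_cst.2 hd.cov.le
    obtain ⟨u', v', l1, l2, l3, l4, l5, -, -⟩ := SB.exists_slot_step hle2 c0
      (b := SB.ev u d) (b' := SB.ev v d) (by rw [SB.ev_cst]) (by rw [SB.ev_cst]) hd.cov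
    obtain ⟨c', hc'⟩ := SA.exists_step_of_covBy l3.covBy
    have hv' : v' ≤ SA.cst (SA.ev (SB.cst b) d) := by
      rw [h d]; exact l2.trans (SB.cst_le_cst.2 hb1)
    obtain ⟨x, hx⟩ := hI d _ _ bot_le hc'.cov (SA.le_cst_iff.1 hv' c')
    have h6 := R2_X_transfer SA SB hC hirr hn hc' l3 hx
    rw [l4, l5] at h6
    have h7 := R2_X_transfer SB SA hC hirr hn hd k3 h6
    rw [k4, k5] at h7
    exact ⟨d, h7⟩

theorem R2_Matched_symm {SA : Pow C P N} {SB : Pow C Q N} {a : P} {b : Q}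
    (h : Matched SA SB a b) : Matched SB SA b a := fun c => (h c).symm

theorem region_RX2 (SA : Pow C P N) (SB : Pow C Q N) (hC : PConn C) (hirr : PIrr C)
    (hn : Nontrivial C) (htop : ∀ x : C, ∃ y, ¬ y ≤ x) (hbot : ∀ x : C, ∃ y, ¬ x ≤ y)
    (φ : C → P) (hφ : Monotone φ) (hE : ∀ c, ∃ q, SA.cst (φ c) = SB.cst q)
    (hX : ∀ c, IX SA SB ⊥ (φ c)) : ∃ a : P, ∃ b : Q, Matched SA SB a b ∧
      ∀ c, SA.ev (SB.cst b) c = φ c := by
  classical
  have := Fintype.ofFinite C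
  have hne := hC.ne
  have main : ∀ g : N, (∀ c, ∃ q, SA.cst (SA.ev g c) = SB.cst q) →
      (∀ c, IX SA SB ⊥ (SA.ev g c)) → ∃ b : Q, g = SB.cst b := by
    intro g
    induction g using (wellFounded_lt (α := N)).induction with
    | _ g ih =>
      intro hE hX
      by_cases hb : ∀ c, SA.ev g c = ⊥
      · refine ⟨⊥, ?_⟩
        rw [← R_bot SA SB]
        apply SA.inj
        intro c
        rw [SA.ev_cst, hb]
      · push Not at hb
        obtain ⟨c0, hc0⟩ := (Set.toFinite {c | SA.ev g c ≠ ⊥}).exists_minimal hb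
        have hc1 : SA.ev g c0 ≠ ⊥ := hc0.1
        have hc2 : ∀ y, y < c0 → SA.ev g y = ⊥ := by
          intro y hy
          by_contra hne
          exact absurd hy (not_lt_of_ge (hc0.2 (y := y) hne hy.le))
        have hlt0 : (⊥ : P) < SA.ev g c0 := lt_of_le_of_ne bot_le (Ne.symm hc1)
        obtain ⟨p', hp'⟩ := (Set.toFinite {z : P | z < SA.ev g c0 ∧
          ∃ q, SA.cst z = SB.cst q}).exists_maximal ⟨⊥, hlt0, ⊥, R_bot SA SB⟩
        have hp1 : p' < SA.ev g c0 ∧ ∃ q, SA.cst p' = SB.cst q := hp'.1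
        obtain ⟨hpl, q', hq'⟩ := hp1
        have hmax : ∀ z, p' < z → z < SA.ev g c0 → (∃ q, SA.cst z = SB.cst q) → False := by
          intro z h1 h2 h3
          exact absurd h1 (not_lt_of_ge (hp'.2 (y := z) ⟨h2, h3⟩ h1.le))
        obtain ⟨g', g1, g2, g3⟩ := SA.exists_lower g c0 p' hpl.le (fun y hy => by
          rw [hc2 y hy]; exact bot_le)
        have hgg : g' < g := lt_of_le_of_ne g1 (by
          rintro rfl; exact hpl.ne g2.symm)
        obtain ⟨b', hb'⟩ := ih g' hgg (fun c => by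
          by_cases hc : c = c0
          · rw [hc, g2]; exact ⟨q', hq'⟩
          · rw [g3 c hc]; exact hE c) (fun c => by
          by_cases hc : c = c0
          · rw [hc, g2]
            intro a1 a2 h1 h2 h3
            exact hX c0 a1 a2 h1 h2 (h3.trans hpl.le)
          · rw [g3 c hc]; exact hX c)
        obtain ⟨p1, hpp1, hp1g⟩ := R_exists_upper hpl
        obtain ⟨x, hx⟩ := hX c0 p' p1 bot_le hpp1 hp1g
        obtain ⟨q, hq⟩ := hE c0
        obtain ⟨p2, k1, k2, k3, k4⟩ := R2_L10 SA SB hC hirr hn hpp1 hx (p := p') (by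
          rw [hq', SB.ev_cst])
        have hp2g : p2 ≤ SA.ev g c0 := by
          have h5 : SA.cst p2 ≤ SA.cst (SA.ev g c0) := by
            rw [← k1, hq]
            apply SB.cst_le_cst.2
            have h6 : SA.cst p1 ≤ SB.cst q := by rw [← hq]; exact SA.cst_le_cst.2 hp1g
            exact SB.le_cst_iff.1 h6 x
          exact SA.cst_le_cst.1 h5
        have hp2 : p2 = SA.ev g c0 := by
          have hlt2 : p' < p2 := lt_of_le_of_ne k2 (by
            rintro rfl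
            rw [ilen_self] at k3
            have := Nat.card_pos (α := C)
            omega)
          rcases hp2g.eq_or_lt with e | l
          · exact e
          · exact (hmax p2 hlt2 l ⟨_, k1.symm⟩).elim
        subst hb'
        have hlen : ilen (SB.cst b') g = Nat.card C := by
          rw [SA.ilen_eq hgg.le, R2_sum_single _ c0, g2, ← hp2, k3]
          intro y hy
          rw [g3 y hy, ilen_self]
        obtain ⟨b, -, hb⟩ := R_const SB hC hgg.le hlen (fun d => by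
          obtain ⟨r0, r1, l1, l2, l3, l4⟩ := k4 d
          obtain ⟨u, v, m1, m2, m3, m4, m5, -, -⟩ := SA.exists_slot_step hgg.le c0
            (b := r0) (b' := r1) (by rw [g2]; exact l1) (by rw [← hp2]; exact l3) l2
          have h6 : SB.Step u v d := (l4 c0).step m3 m4 m5 (a0 := ⊥) (fun _ => bot_le)
          have h7 := R_lt_of_step SB m1 m2 h6
          rwa [SB.ev_cst] at h7)
        exact ⟨b, hb⟩
  obtain ⟨g, hg⟩ := SA.up (SA.cst ⊥) φ hφ (fun c => by rw [SA.ev_cst]; exact bot_le)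
  obtain ⟨b, hb⟩ := main g (by rw [hg]; exact hE) (by rw [hg]; exact hX)
  obtain ⟨a, ha⟩ := region_matched SB SA hC hirr hn b
  refine ⟨a, b, R2_Matched_symm ha, fun c => ?_⟩
  rw [← hb, hg]

end region2

end Pool.Agent.Birk
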