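import Pool.Agent.Lib_MP_aad2bd_co.Restr
import Pool.Agent.Lib_MP_aad2bd_co.RegR1
import Pool.Agent.Lib_MP_aad2bd_co.RegR2

/-!
Region theory transported above a bi-constant.
-/

set_option autoImplicit false

namespace Pool.Agent.Birk

namespace Pow

variable {C A B M : Type} [PartialOrder C] [PartialOrder A] [PartialOrder B] [PartialOrder M]

theorem Matched.symm {SA : Pow C A M} {SB : Pow C B M} {a : A} {b : B} (h : Matched SA SB a b) :
    Matched SB SA b a := fun c => (h c).symm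

/-- `a` is an `A`-value of a bi-constant -/
def IsE (SA : Pow C A M) (SB : Pow C B M) (a : A) : Prop := ∃ b : B, SA.cst a = SB.cst b

section ici

variable (SA : Pow C A M) (SB : Pow C B M) {a0 : A} {b0 : B} (he : SA.cst a0 = SB.cst b0)

theorem iciA_aux (a0 : A) (f : M) :
    f ∈ Set.Ici (SA.cst a0) ↔ ∀ c, SA.ev f c ∈ Set.Ici a0 := SA.cst_le_iff

include he in
theorem iciB_aux (f : M) : f ∈ Set.Ici (SA.cst a0) ↔ ∀ c, SB.ev f c ∈ Set.Ici b0 := by
  rw [he]; exact SB.cst_le_iff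

end ici

section up

variable [Finite C] [Finite A] [Finite B] [Finite M]
  (SA : Pow C A M) (SB : Pow C B M) (hC : PConn C) (hirr : PIrr C) (hn : Nontrivial C)

include hC hirr hn

/-- every label above a bi-constant is typed -/
theorem typed_up {a0 : A} (he : IsE SA SB a0) {a a' : A} (h0 : a0 ≤ a) (h : a ⋖ a') :
    (∃ π, DS SA SB a a' π) ∨ (∃ x, DX SA SB a a' x) := by
  obtain ⟨b0, hb⟩ := he
  have hA := iciA_aux SA a0
  have hB := iciB_aux SA SB hb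
  have hc : (⟨a, h0⟩ : Set.Ici a0) ⋖ ⟨a', h0.trans h.le⟩ :=
    (subtype_covBy_iff Set.ordConnected_Ici).2 h
  obtain ⟨c⟩ := hC.ne
  obtain ⟨f, g, d, h1, h2, h3, h4, -⟩ := exists_D_edge
    (SA.restr (Set.Ici a0) (Set.Ici (SA.cst a0)) hA)
    (SB.restr (Set.Ici b0) (Set.Ici (SA.cst a0)) hB) hc c
  rcases region_dichotomy _ _ hC hirr hn h1 h2 with ⟨π, -, h5, -⟩ | ⟨h5, -⟩
  · left
    rw [h3, h4, restr_DS SA SB _ _ _ hA hB Set.ordConnected_Ici Set.ordConnected_Ici] at h5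
    exact ⟨π, h5⟩
  · right
    rw [h3, h4, restr_DX SA SB _ _ _ hA hB Set.ordConnected_Ici Set.ordConnected_Ici] at h5
    exact ⟨d, h5⟩

/-- dichotomy for edges above a bi-constant -/
theorem dichotomy_up {a0 : A} (he : IsE SA SB a0) {f g : M} {c d : C} (h0 : SA.cst a0 ≤ f)
    (hA : SA.Step f g c) (hB : SB.Step f g d) :
    (∃ π : C ≃o C, π c = d ∧ DS SA SB (SA.ev f c) (SA.ev g c) π ∧
      DS SB SA (SB.ev f d) (SB.ev g d) π.symm) ∨
    (DX SA SB (SA.ev f c) (SA.ev g c) d ∧ DX SB SA (SB.ev f d) (SB.ev g d) c) := by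
  obtain ⟨b0, hb⟩ := he
  have hA' := iciA_aux SA a0
  have hB' := iciB_aux SA SB hb
  have oc : (Set.Ici a0).OrdConnected := Set.ordConnected_Ici
  have oc' : (Set.Ici b0).OrdConnected := Set.ordConnected_Ici
  have s1 : (SA.restr (Set.Ici a0) (Set.Ici (SA.cst a0)) hA').Step ⟨f, h0⟩
    ⟨g, h0.trans hA.le⟩ c := (restr_step SA _ _ hA' oc).2 hA
  have s2 : (SB.restr (Set.Ici b0) (Set.Ici (SA.cst a0)) hB').Step ⟨f, h0⟩
    ⟨g, h0.trans hA.le⟩ d := (restr_step SB _ _ hB' oc').2 hB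
  rcases region_dichotomy _ _ hC hirr hn s1 s2 with ⟨π, h4, h5, h6⟩ | ⟨h5, h6⟩
  · left
    exact ⟨π, h4, (restr_DS SA SB _ _ _ hA' hB' oc oc').1 h5,
      (restr_DS SB SA _ _ _ hB' hA' oc' oc).1 h6⟩
  · right
    exact ⟨(restr_DX SA SB _ _ _ hA' hB' oc oc').1 h5,
      (restr_DX SB SA _ _ _ hB' hA' oc' oc).1 h6⟩

theorem SC_up (htop : ∀ x : C, ∃ y, ¬ y ≤ x) (hbot : ∀ x : C, ∃ y, ¬ x ≤ y)
    {a0 : A} (he : IsE SA SB a0) {a a' : A} (h0 : a0 ≤ a) (haa : a ≤ a')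
    (h1 : IX SA SB a0 a) (h2 : IX SA SB a a') : IX SA SB a0 a' := by
  obtain ⟨b0, hb⟩ := he
  have hA' := iciA_aux SA a0
  have hB' := iciB_aux SA SB hb
  have oc : (Set.Ici a0).OrdConnected := Set.ordConnected_Ici
  have oc' : (Set.Ici b0).OrdConnected := Set.ordConnected_Ici
  have := region_SC (SA.restr (Set.Ici a0) (Set.Ici (SA.cst a0)) hA')
    (SB.restr (Set.Ici b0) (Set.Ici (SA.cst a0)) hB') hC hirr hn htop hbot
    (a := ⟨a, h0⟩) (a' := ⟨a', h0.trans haa⟩) haa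
    ((restr_IX SA SB _ _ _ hA' hB' oc oc').2 h1) ((restr_IX SA SB _ _ _ hA' hB' oc oc').2 h2)
  exact (restr_IX SA SB _ _ _ hA' hB' oc oc').1 this

theorem matched_up {a0 : A} (he : IsE SA SB a0) {a : A} (h0 : a0 ≤ a) :
    ∃ b, Matched SA SB a b := by
  obtain ⟨b0, hb⟩ := he
  have hA' := iciA_aux SA a0
  have hB' := iciB_aux SA SB hb
  obtain ⟨b, h⟩ := region_matched (SA.restr (Set.Ici a0) (Set.Ici (SA.cst a0)) hA')
    (SB.restr (Set.Ici b0) (Set.Ici (SA.cst a0)) hB') hC hirr hn (a := ⟨a, h0⟩)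
  exact ⟨b.1, (restr_Matched SA SB _ _ _ hA' hB').1 h⟩

theorem IX_matched_up {a0 : A} (he : IsE SA SB a0) {a : A} {b : B} (h0 : a0 ≤ a)
    (h : Matched SA SB a b) :
    IX SA SB a0 a ↔ ∀ c, IX SA SB a0 (SA.ev (SB.cst b) c) := by
  obtain ⟨b0, hb⟩ := he
  have hA' := iciA_aux SA a0
  have hB' := iciB_aux SA SB hb
  have oc : (Set.Ici a0).OrdConnected := Set.ordConnected_Ici
  have oc' : (Set.Ici b0).OrdConnected := Set.ordConnected_Ici
  have := hC.ne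
  have hb0 : b0 ≤ b := by
    obtain ⟨c⟩ := hC.ne
    have h1 := h c
    have h2 : SB.cst b0 ≤ SB.cst (SB.ev (SA.cst a) c) := by
      rw [SB.cst_le_cst]
      have : SB.cst b0 ≤ SA.cst a := by rw [← hb, SA.cst_le_cst]; exact h0
      exact SB.cst_le_iff.1 this c
    -- all A-coordinates of `SB.cst b` are above `a0`
    have h3 : ∀ c, a0 ≤ SA.ev (SB.cst b) c := by
      intro c
      have h1 := h c
      have h2 : SB.cst b0 ≤ SB.cst (SB.ev (SA.cst a) c) := by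
        rw [SB.cst_le_cst]
        have : SB.cst b0 ≤ SA.cst a := by rw [← hb, SA.cst_le_cst]; exact h0
        exact SB.cst_le_iff.1 this c
      rw [← h1, ← hb, SA.cst_le_cst] at h2
      exact h2
    have h4 : SA.cst a0 ≤ SB.cst b := SA.cst_le_iff.2 h3
    rw [hb, SB.cst_le_cst] at h4
    exact h4
  have := region_IX_matched (SA.restr (Set.Ici a0) (Set.Ici (SA.cst a0)) hA')
    (SB.restr (Set.Ici b0) (Set.Ici (SA.cst a0)) hB') hC hirr hn (a := ⟨a, h0⟩)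
    (b := ⟨b, hb0⟩) ((restr_Matched SA SB _ _ _ hA' hB').2 h)
  rw [restr_IX SA SB _ _ _ hA' hB' oc oc'] at this
  rw [show IX SA SB a0 a = IX SA SB ((⊥ : Set.Ici a0) : A) a from rfl, this]
  refine forall_congr' fun c => ?_
  rw [restr_IX SA SB _ _ _ hA' hB' oc oc', restr_ev, restr_cst]
  rfl

theorem RX2_up (htop : ∀ x : C, ∃ y, ¬ y ≤ x) (hbot : ∀ x : C, ∃ y, ¬ x ≤ y)
    {a0 : A} (he : IsE SA SB a0) (φ : C → A) (hφ : Monotone φ) (h0 : ∀ c, a0 ≤ φ c)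
    (hE : ∀ c, IsE SA SB (φ c)) (hX : ∀ c, IX SA SB a0 (φ c)) :
    ∃ a b, Matched SA SB a b ∧ a0 ≤ a ∧ ∀ c, SA.ev (SB.cst b) c = φ c := by
  obtain ⟨b0, hb⟩ := he
  have hA' := iciA_aux SA a0
  have hB' := iciB_aux SA SB hb
  have oc : (Set.Ici a0).OrdConnected := Set.ordConnected_Ici
  have oc' : (Set.Ici b0).OrdConnected := Set.ordConnected_Ici
  have := hC.ne
  obtain ⟨a, b, h1, h2⟩ := region_RX2 (SA.restr (Set.Ici a0) (Set.Ici (SA.cst a0)) hA')
    (SB.restr (Set.Ici b0) (Set.Ici (SA.cst a0)) hB') hC hirr hn htop hbot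
    (fun c => ⟨φ c, h0 c⟩) (fun x y hxy => hφ hxy)
    (fun c => by
      obtain ⟨q, hq⟩ := hE c
      refine ⟨⟨q, ?_⟩, ?_⟩
      · show b0 ≤ q
        rw [← SB.cst_le_cst, ← hb, ← hq, SA.cst_le_cst]; exact h0 c
      · apply Subtype.ext
        rw [restr_cst, restr_cst]; exact hq)
    (fun c => (restr_IX SA SB _ _ _ hA' hB' oc oc').2 (hX c))
  refine ⟨a.1, b.1, (restr_Matched SA SB _ _ _ hA' hB').1 h1, a.2, fun c => ?_⟩
  have := congrArg Subtype.val (h2 c)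
  rw [restr_ev, restr_cst] at this
  exact this

end up

end Pow

end Pool.Agent.Birk
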