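import Pool.Agent.Lib_MP_aad2bd_co.PartW2
import Pool.Agent.Lib_MP_aad2bd_co.PartM
import Pool.Agent.Lib_MP_aad2bd_co.Up

/-!
MP_aad2bd_co, Part K: from matched pairs to an isomorphism, Case I, and the reduction to Case II.
-/

set_option autoImplicit false

namespace Pool.Agent.Birk

open Pool.Agent.Birk.Pow

section
variable {C A B M : Type} [PartialOrder C] [PartialOrder A] [PartialOrder B] [PartialOrder M]
  [Finite C] [Finite A] [Finite B] [Finite M] (SA : Pow C A M) (SB : Pow C B M)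

/-- endpoints of longest chains are bi-constants -/
theorem exists_biconst (hC : PConn C) (hA : PConn A) : ∃ a b, SA.cst a = SB.cst b := by
  obtain ⟨a0⟩ := hA.ne
  have hM : Nonempty M := ⟨SA.cst a0⟩
  obtain ⟨f, g, hfg, hl⟩ := exists_ilen_eq_plen (α := M)
  obtain ⟨a, a', -, -, ha, -⟩ := SA.longest_const hC hfg hl
  obtain ⟨b, b', -, -, hb, -⟩ := SB.longest_const hC hfg hl
  refine ⟨a, b, ?_⟩
  have h1 : SA.cst a = f := SA.inj fun c => by rw [SA.ev_cst, ha]
  have h2 : SB.cst b = f := SB.inj fun c => by rw [SB.ev_cst, hb]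
  rw [h1, h2]

theorem K_matched_le [Nonempty C] {a a' : A} {b b' : B} (h : Matched SA SB a b)
    (h' : Matched SA SB a' b') : a ≤ a' ↔ b ≤ b' := by
  rw [← SA.cst_le_cst, SB.le_iff, ← SB.cst_le_cst (a := b), SA.le_iff]
  refine forall_congr' fun c => ?_
  rw [← SB.cst_le_cst, ← h c, ← h' c, SA.cst_le_cst]

theorem iso_of_matched (hC : PConn C) (h1 : ∀ a, ∃ b, Matched SA SB a b)
    (h2 : ∀ b, ∃ a, Matched SA SB a b) : Nonempty (A ≃o B) := by
  have := hC.ne
  choose f hf using h1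
  choose g hg using h2
  refine ⟨{ toFun := f, invFun := g, left_inv := fun a => ?_, right_inv := fun b => ?_,
            map_rel_iff' := fun {a a'} => (K_matched_le SA SB (hf a) (hf a')).symm }⟩
  · apply le_antisymm
    · exact (K_matched_le SA SB (hg (f a)) (hf a)).2 le_rfl
    · exact (K_matched_le SA SB (hf a) (hg (f a))).2 le_rfl
  · apply le_antisymm
    · exact (K_matched_le SA SB (hf (g b)) (hg b)).1 le_rfl
    · exact (K_matched_le SA SB (hg b) (hf (g b))).1 le_rfl

/-- Case I: `C` has a least element -/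
theorem matched_of_bot (hC : PConn C) (hirr : PIrr C) (hn : Nontrivial C)
    (hb : ∃ x : C, ∀ y, x ≤ y) (a : A) : ∃ b, Matched SA SB a b := by
  obtain ⟨x0, hx0⟩ := hb
  obtain ⟨e, he, hmin⟩ := (Set.toFinite {f : M | f ≤ SA.cst a}).exists_minimal ⟨SA.cst a, le_rfl⟩
  have h1 : SA.cst (SA.ev e x0) ≤ e := SA.cst_le_iff.2 fun c => SA.mono e (hx0 c)
  have h2 : SB.cst (SB.ev e x0) ≤ e := SB.cst_le_iff.2 fun c => SB.mono e (hx0 c)
  have h3 : SA.cst (SA.ev e x0) = e := le_antisymm h1 (hmin (h1.trans he) h1)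
  have h4 : SB.cst (SB.ev e x0) = e := le_antisymm h2 (hmin (h2.trans he) h2)
  exact matched_up SA SB hC hirr hn (a0 := SA.ev e x0) ⟨SB.ev e x0, by rw [h3, h4]⟩
    (SA.le_cst_iff.1 he x0)

/-- Case I: `C` has a greatest element (dual) -/
theorem matched_of_top (hC : PConn C) (hirr : PIrr C) (hn : Nontrivial C)
    (hb : ∃ x : C, ∀ y, y ≤ x) (a : A) : ∃ b, Matched SA SB a b := by
  obtain ⟨x0, hx0⟩ := hb
  have hn' : Nontrivial Cᵒᵈ := inferInstance
  obtain ⟨b, h⟩ := matched_of_bot SA.dual SB.dual hC.dual hirr.dual hn'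
    ⟨OrderDual.toDual x0, fun y => OrderDual.toDual_le_toDual.2 (hx0 (OrderDual.ofDual y))⟩
    (OrderDual.toDual a)
  refine ⟨OrderDual.ofDual b, fun c => ?_⟩
  have h1 := h (OrderDual.toDual c)
  rw [show b = OrderDual.toDual (OrderDual.ofDual b) from rfl, SA.dual_cst, SB.dual_cst, SA.dual_ev,
    SB.dual_ev, SA.dual_cst, SB.dual_cst] at h1
  exact OrderDual.toDual_inj.1 h1

end

/-- transport of a power structure along an isomorphism -/
theorem K_transport {C B M N : Type} [PartialOrder C] [PartialOrder B] [PartialOrder M]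
    [PartialOrder N] (S : Pow C B N) (e : M ≃o N) : Nonempty (Pow C B M) := by
  refine ⟨{ ev := fun f => S.ev (e f), mono := fun f => S.mono (e f), le_iff := ?_, up := ?_,
            dn := ?_, const := ?_ }⟩
  · intro f g
    rw [← e.le_iff_le, S.le_iff]
  · intro f h hm hle
    obtain ⟨g, hg⟩ := S.up (e f) h hm hle
    exact ⟨e.symm g, by rw [e.apply_symm_apply, hg]⟩
  · intro f h hm hle
    obtain ⟨g, hg⟩ := S.dn (e f) h hm hle
    exact ⟨e.symm g, by rw [e.apply_symm_apply, hg]⟩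
  · intro b
    obtain ⟨g, hg⟩ := S.const b
    exact ⟨e.symm g, by rw [e.apply_symm_apply, hg]⟩

theorem K2_of_caseII
    (hII : ∀ (C A B M : Type) [PartialOrder C] [PartialOrder A] [PartialOrder B] [PartialOrder M]
      [Finite C] [Finite A] [Finite B] [Finite M] (SA : Pow C A M) (SB : Pow C B M),
      PConn C → PIrr C → Nontrivial C → (∀ x : C, ∃ y, ¬ y ≤ x) → (∀ x : C, ∃ y, ¬ x ≤ y) →
      PConn A → PConn B → (∃ a b, SA.cst a = SB.cst b) → ∀ b : B, ∃ a, Matched SA SB a b) :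
    ∀ (A B C : Type) [PartialOrder A] [PartialOrder B] [PartialOrder C]
      [Finite A] [Finite B] [Finite C], PConn A → PConn B → PConn C → PIrr C → Nontrivial C →
      Nonempty (MainC C A ≃o MainC C B) → Nonempty (A ≃o B) := by
  intro A B C _ _ _ _ _ _ hA hB hC hirr hn ⟨e⟩
  have hfin : Finite (MainC C A) := inferInstance
  obtain ⟨SA, -⟩ := MainC.exists_pow (C := C) hA
  obtain ⟨SB0, -⟩ := MainC.exists_pow (C := C) hB
  obtain ⟨SB⟩ := K_transport SB0 e
  by_cases hbot : ∃ x : C, ∀ y, x ≤ y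
  · refine iso_of_matched SA SB hC (matched_of_bot SA SB hC hirr hn hbot) fun b => ?_
    obtain ⟨a, h⟩ := matched_of_bot SB SA hC hirr hn hbot b
    exact ⟨a, h.symm⟩
  by_cases htop : ∃ x : C, ∀ y, y ≤ x
  · refine iso_of_matched SA SB hC (matched_of_top SA SB hC hirr hn htop) fun b => ?_
    obtain ⟨a, h⟩ := matched_of_top SB SA hC hirr hn htop b
    exact ⟨a, h.symm⟩
  push Not at hbot htop
  obtain ⟨a0, b0, h0⟩ := exists_biconst SA SB hC hA
  refine iso_of_matched SA SB hC (fun a => ?_) (hII C A B (MainC C A) SA SB hC hirr hn htop hbot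
    hA hB ⟨a0, b0, h0⟩)
  obtain ⟨b, h⟩ := hII C B A (MainC C A) SB SA hC hirr hn htop hbot hB hA ⟨b0, a0, h0.symm⟩ a
  exact ⟨b, h.symm⟩

end Pool.Agent.Birk
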