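import Pool.Agent.Lib_MP_aad2bd_co.RegDefs

/-!
Restriction of power structures to convex pieces.
-/

set_option autoImplicit false

namespace Pool.Agent.Birk

theorem subtype_covBy_iff {α : Type} [PartialOrder α] {P : Set α} (hP : P.OrdConnected)
    {a b : P} : a ⋖ b ↔ a.1 ⋖ b.1 := by
  constructor
  · intro h
    refine ⟨h.lt, fun c h1 h2 => ?_⟩
    exact h.2 (c := ⟨c, hP.out a.2 b.2 ⟨h1.le, h2.le⟩⟩) h1 h2
  · intro h
    exact ⟨h.lt, fun c h1 h2 => h.2 (c := c.1) h1 h2⟩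

namespace Pow

variable {C A B M : Type} [PartialOrder C] [PartialOrder A] [PartialOrder B] [PartialOrder M]

/-- restriction of a power structure -/
def restr (S : Pow C A M) (P : Set A) (N : Set M) (h : ∀ f, f ∈ N ↔ ∀ c, S.ev f c ∈ P) :
    Pow C P N where
  ev f c := ⟨S.ev f.1 c, (h f.1).1 f.2 c⟩
  mono f _ _ hxy := S.mono f.1 hxy
  le_iff f g := S.le_iff f.1 g.1
  up f k hk hle := by
    obtain ⟨g, hg⟩ := S.up f.1 (fun c => (k c).1) (fun x y hxy => hk hxy) hle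
    refine ⟨⟨g, (h g).2 fun c => ?_⟩, ?_⟩
    · rw [hg]; exact (k c).2
    · funext c; apply Subtype.ext; exact congrFun hg c
  dn f k hk hle := by
    obtain ⟨g, hg⟩ := S.dn f.1 (fun c => (k c).1) (fun x y hxy => hk hxy) hle
    refine ⟨⟨g, (h g).2 fun c => ?_⟩, ?_⟩
    · rw [hg]; exact (k c).2
    · funext c; apply Subtype.ext; exact congrFun hg c
  const a := by
    refine ⟨⟨S.cst a.1, (h _).2 fun c => ?_⟩, ?_⟩
    · rw [S.ev_cst]; exact a.2
    · funext c; apply Subtype.ext; exact S.ev_cst a.1 c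

theorem restr_ev (S : Pow C A M) (P : Set A) (N : Set M) (h : ∀ f, f ∈ N ↔ ∀ c, S.ev f c ∈ P)
    (f : N) (c : C) : ((S.restr P N h).ev f c).1 = S.ev f.1 c := rfl

theorem restr_cst (S : Pow C A M) (P : Set A) (N : Set M) (h : ∀ f, f ∈ N ↔ ∀ c, S.ev f c ∈ P)
    (a : P) : ((S.restr P N h).cst a).1 = S.cst a.1 := by
  apply S.inj
  intro c
  rw [S.ev_cst, ← restr_ev S P N h, ev_cst]

theorem restr_step (S : Pow C A M) (P : Set A) (N : Set M) (h : ∀ f, f ∈ N ↔ ∀ c, S.ev f c ∈ P)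
    (hP : P.OrdConnected) {f g : N} {c : C} :
    (S.restr P N h).Step f g c ↔ S.Step f.1 g.1 c := by
  constructor
  · intro hs
    exact ⟨(subtype_covBy_iff hP).1 hs.cov, fun x hx => congrArg Subtype.val (hs.eq x hx)⟩
  · intro hs
    exact ⟨(subtype_covBy_iff hP).2 hs.cov, fun x hx => Subtype.ext (hs.eq x hx)⟩

section two

variable [Finite C] (SA : Pow C A M) (SB : Pow C B M) (P : Set A) (Q : Set B) (N : Set M)
  (hA : ∀ f, f ∈ N ↔ ∀ c, SA.ev f c ∈ P) (hB : ∀ f, f ∈ N ↔ ∀ c, SB.ev f c ∈ Q)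

theorem restr_D (hP : P.OrdConnected) (hQ : Q.OrdConnected) {a a' : P} {c d : C} :
    D (SA.restr P N hA) (SB.restr Q N hB) a a' c d ↔ D SA SB a.1 a'.1 c d := by
  have key : ∀ d, D (SA.restr P N hA) (SB.restr Q N hB) a a' c d → D SA SB a.1 a'.1 c d := by
    rintro d ⟨f, g, h1, h2, h3, h4, h5, h6⟩
    refine ⟨f.1, g.1, (restr_step SA P N hA hP).1 h1, (restr_step SB Q N hB hQ).1 h2,
      congrArg Subtype.val h3, congrArg Subtype.val h4, h5, h6⟩
  refine ⟨key d, fun h => ?_⟩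
  obtain ⟨d', hd'⟩ := exists_D (SA.restr P N hA) (SB.restr Q N hB)
    ((subtype_covBy_iff hP).2 h.cov) c
  rw [h.unique (key d' hd')]; exact hd'

theorem restr_DX (hP : P.OrdConnected) (hQ : Q.OrdConnected) {a a' : P} {x : C} :
    DX (SA.restr P N hA) (SB.restr Q N hB) a a' x ↔ DX SA SB a.1 a'.1 x :=
  forall_congr' fun _ => restr_D SA SB P Q N hA hB hP hQ

theorem restr_DS (hP : P.OrdConnected) (hQ : Q.OrdConnected) {a a' : P} {π : C ≃o C} :
    DS (SA.restr P N hA) (SB.restr Q N hB) a a' π ↔ DS SA SB a.1 a'.1 π :=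
  forall_congr' fun _ => restr_D SA SB P Q N hA hB hP hQ

theorem restr_IX (hP : P.OrdConnected) (hQ : Q.OrdConnected) {a a' : P} :
    IX (SA.restr P N hA) (SB.restr Q N hB) a a' ↔ IX SA SB a.1 a'.1 := by
  constructor
  · intro h a1 a2 h1 h2 h3
    have m1 : a1 ∈ P := hP.out a.2 a'.2 ⟨h1, h2.le.trans h3⟩
    have m2 : a2 ∈ P := hP.out a.2 a'.2 ⟨h1.trans h2.le, h3⟩
    obtain ⟨x, hx⟩ := h ⟨a1, m1⟩ ⟨a2, m2⟩ h1 ((subtype_covBy_iff hP).2 h2) h3
    exact ⟨x, (restr_DX SA SB P Q N hA hB hP hQ).1 hx⟩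
  · intro h a1 a2 h1 h2 h3
    obtain ⟨x, hx⟩ := h a1.1 a2.1 h1 ((subtype_covBy_iff hP).1 h2) h3
    exact ⟨x, (restr_DX SA SB P Q N hA hB hP hQ).2 hx⟩

theorem restr_Matched {a : P} {b : Q} :
    Matched (SA.restr P N hA) (SB.restr Q N hB) a b ↔ Matched SA SB a.1 b.1 := by
  unfold Matched
  refine forall_congr' fun c => ?_
  rw [← Subtype.coe_inj, restr_cst, restr_cst, restr_ev, restr_ev, restr_cst, restr_cst]

end two

end Pow

end Pool.Agent.Birk
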